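import Mathlib

/-!
A tower argument for finite `p`-groups. Let `G` be a group in which every nontrivial finitely
generated subgroup has a nontrivial homomorphism to the cyclic group of order `p`. Take a graph
with edges labelled by elements of `G`, a loop with nontrivial label and `k` triangles whose labels
multiply correctly. Then some labelling of the edges by elements of a finite `p`-group makes the
loop different from every product of conjugates of fixed powers of the `k` triangle defects.
-/

namespace Pool.Agent.Lib.MP_3e9be7_al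

universe u

/-- Indices of the edges in use: one loop and three sides for each of `k` triangles. -/
abbrev Ix (k : ℕ) : Type := Option (Fin k × Fin 3)

/-- The cyclic group of order `p`, written multiplicatively. -/
abbrev Cp (p : ℕ) : Type := Multiplicative (ZMod p)

/-- A labelled graph with a loop and `k` triangles. -/
structure Cfg (G : Type u) [Group G] (k : ℕ) : Type (u + 1) where
  V : Type u
  E : Type u
  src : E → V
  tgt : E → V
  lab : E → G
  ed : Ix k → E
  loop : src (ed none) = tgt (ed none)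
  ne : lab (ed none) ≠ 1
  h1 : ∀ i, tgt (ed (some (i, 1))) = src (ed (some (i, 0)))
  h2 : ∀ i, src (ed (some (i, 2))) = src (ed (some (i, 1)))
  h3 : ∀ i, tgt (ed (some (i, 2))) = tgt (ed (some (i, 0)))
  hl : ∀ i, lab (ed (some (i, 0))) * lab (ed (some (i, 1))) = lab (ed (some (i, 2)))

/-- The defect of the `i`-th triangle. -/
def dft {k : ℕ} {K : Type*} [Group K] (x : Ix k → K) (i : Fin k) : K :=
  x (some (i, 0)) * x (some (i, 1)) * (x (some (i, 2)))⁻¹

/-- The loop is a product of conjugates of powers of the defects. -/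
def Sol {k : ℕ} (ε : Fin k → ℤ) {K : Type*} [Group K] (x : Ix k → K) : Prop :=
  ∃ g : Fin k → K, x none = (List.ofFn fun i => g i * dft x i ^ ε i * (g i)⁻¹).prod

lemma Sol.map {k : ℕ} {ε : Fin k → ℤ} {K L : Type*} [Group K] [Group L] (f : K →* L)
    {x : Ix k → K} (h : Sol ε x) : Sol ε (fun i => f (x i)) := by
  obtain ⟨g, hg⟩ := h
  refine ⟨fun i => f (g i), ?_⟩
  change f (x none) = _
  rw [hg, map_list_prod, List.map_ofFn]
  congr 2
  funext i
  simp [dft]

/-- The law: in every finite `p`-group, under every labelling, the loop is such a product. -/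
def Law (p : ℕ) {G : Type u} [Group G] {k : ℕ} (ε : Fin k → ℤ) (X : Cfg G k) : Prop :=
  ∀ (K : Type) [Group K] [Finite K], IsPGroup p K → ∀ l : X.E → K, Sol ε (fun i => l (X.ed i))

/-- The base group of a regular wreath product. -/
def baseHom (Q C : Type) [Group Q] [Group C] : (C → Q) →* RegularWreathProduct Q C where
  toFun f := ⟨f, 1⟩
  map_one' := rfl
  map_mul' f g := by ext <;> simp

lemma baseHom_conj {Q C : Type} [Group Q] [Group C] (g : RegularWreathProduct Q C) (f : C → Q) :
    g * baseHom Q C f * g⁻¹ =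
      baseHom Q C (fun y => g.left y * f (g.right⁻¹ * y) * (g.left y)⁻¹) := by
  ext <;> simp [baseHom]

lemma baseHom_injective {Q C : Type} [Group Q] [Group C] : Function.Injective (baseHom Q C) := by
  intro f g h
  exact congrArg RegularWreathProduct.left h

lemma isPGroup_Cp (p : ℕ) [Fact p.Prime] : IsPGroup p (Cp p) := by
  apply IsPGroup.of_card (n := 1)
  simp [Cp]

lemma isPGroup_wreath {p : ℕ} [Fact p.Prime] {Q C : Type} [Group Q] [Group C] [Finite Q]
    [Finite C] (hQ : IsPGroup p Q) (hC : IsPGroup p C) :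
    IsPGroup p (RegularWreathProduct Q C) := by
  obtain ⟨a, ha⟩ := IsPGroup.iff_card.1 hQ
  obtain ⟨b, hb⟩ := IsPGroup.iff_card.1 hC
  apply IsPGroup.of_card (n := a * p ^ b + b)
  rw [RegularWreathProduct.card, ha, hb, ← pow_mul, ← pow_add]

lemma isPGroup_pi {p : ℕ} {ι : Type} [Finite ι] {Q : ι → Type} [∀ i, Group (Q i)]
    (hQ : ∀ i, IsPGroup p (Q i)) : IsPGroup p (∀ i, Q i) := by
  classical
  intro g
  choose n hn using fun i => hQ i (g i)
  obtain ⟨N, hN⟩ := (Set.finite_range n).bddAbove
  refine ⟨N, ?_⟩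
  funext i
  have h : n i ≤ N := hN ⟨i, rfl⟩
  obtain ⟨d, hd⟩ := Nat.exists_eq_add_of_le h
  simp only [Pi.pow_apply, Pi.one_apply]
  rw [hd, pow_add, pow_mul, hn i, one_pow]

section cover

variable {G : Type u} [Group G] {k : ℕ} {C : Type} [Group C]

/-- The level of the lift of the `i`-th edge in use. -/
def lev (X : Cfg G k) (φ : X.E → C) (m : Fin k → C) : Ix k → C
  | none => 1
  | some (i, j) => if j = 0 then (φ (X.ed (some (i, 0))))⁻¹ * m i
      else (φ (X.ed (some (i, 2))))⁻¹ * m i

/-- The covering configuration defined by a cocycle `φ` and a choice `m` of levels. -/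
def cover (X : Cfg G k) (φ : X.E → C) (h0 : φ (X.ed none) = 1)
    (hφ : ∀ i, φ (X.ed (some (i, 0))) * φ (X.ed (some (i, 1))) = φ (X.ed (some (i, 2))))
    (m : Fin k → C) : Cfg G k where
  V := X.V × C
  E := X.E × C
  src e := (X.src e.1, e.2)
  tgt e := (X.tgt e.1, φ e.1 * e.2)
  lab e := X.lab e.1
  ed i := (X.ed i, lev X φ m i)
  loop := by simp [X.loop, h0]
  ne := X.ne
  h1 i := by
    simp only [lev, X.h1 i, Prod.mk.injEq, true_and]
    rw [if_neg (by decide), if_pos trivial, ← hφ i]
    group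
  h2 i := by
    simp only [lev, X.h2 i, Prod.mk.injEq, true_and]
    rw [if_neg (by decide), if_neg (by decide)]
  h3 i := by
    simp only [lev, X.h3 i, Prod.mk.injEq, true_and]
    rw [if_neg (by decide), if_pos trivial]
    group
  hl i := X.hl i

/-- The labelling of the edges in a wreath product induced by a labelling of the cover. -/
def lw {Q : Type} [Group Q] (X : Cfg G k) (φ : X.E → C) (ll : X.E × C → Q) (e : X.E) :
    RegularWreathProduct Q C :=
  ⟨fun y => ll (e, (φ e)⁻¹ * y), φ e⟩

lemma wreath_step {Q : Type} [Group Q] {ε : Fin k → ℤ}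
    (X : Cfg G k) (φ : X.E → C) (h0 : φ (X.ed none) = 1)
    (hφ : ∀ i, φ (X.ed (some (i, 0))) * φ (X.ed (some (i, 1))) = φ (X.ed (some (i, 2))))
    (ll : X.E × C → Q) (h : Sol ε (fun i => lw X φ ll (X.ed i))) :
    ∃ m, Sol ε (fun i => ll (X.ed i, lev X φ m i)) := by
  obtain ⟨g, hg⟩ := h
  let r : Fin k → C → Q := fun i y =>
    ll (X.ed (some (i, 0)), (φ (X.ed (some (i, 0))))⁻¹ * y) *
      ll (X.ed (some (i, 1)), (φ (X.ed (some (i, 2))))⁻¹ * y) *
      (ll (X.ed (some (i, 2)), (φ (X.ed (some (i, 2))))⁻¹ * y))⁻¹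
  have hr : ∀ i, dft (fun j => lw X φ ll (X.ed j)) i = baseHom Q C (r i) := by
    intro i
    apply RegularWreathProduct.ext
    · funext y
      simp only [dft, lw, r, baseHom, RegularWreathProduct.mul_left,
        RegularWreathProduct.mul_right, RegularWreathProduct.inv_left, MonoidHom.coe_mk,
        OneHom.coe_mk, Pi.mul_apply, Pi.inv_apply]
      rw [← hφ i]
      simp [mul_assoc]
    · simp only [dft, lw, baseHom, RegularWreathProduct.mul_right,
        RegularWreathProduct.inv_right, MonoidHom.coe_mk, OneHom.coe_mk]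
      rw [hφ i]
      simp
  have h0' : lw X φ ll (X.ed none) = baseHom Q C (fun y => ll (X.ed none, y)) := by
    apply RegularWreathProduct.ext
    · funext y
      simp [lw, baseHom, h0]
    · simp [lw, baseHom, h0]
  have hfac : ∀ i, g i * dft (fun j => lw X φ ll (X.ed j)) i ^ ε i * (g i)⁻¹ =
      baseHom Q C (fun y => (g i).left y * (r i ((g i).right⁻¹ * y)) ^ ε i *
        ((g i).left y)⁻¹) := by
    intro i
    rw [hr i, ← map_zpow, baseHom_conj]
    rfl
  simp only [hfac] at hg
  rw [h0'] at hg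
  have hg2 : (fun y => ll (X.ed none, y)) = (List.ofFn fun i => fun y =>
      (g i).left y * (r i ((g i).right⁻¹ * y)) ^ ε i * ((g i).left y)⁻¹).prod := by
    apply baseHom_injective
    rw [hg, map_list_prod, List.map_ofFn]
    rfl
  refine ⟨fun i => (g i).right⁻¹, fun i => (g i).left 1, ?_⟩
  have hg3 := congrArg (Pi.evalMonoidHom (fun _ : C => Q) 1) hg2
  rw [map_list_prod, List.map_ofFn] at hg3
  refine hg3.trans ?_
  congr 2
  funext i
  simp [r, dft, lev]

lemma law_cover {p : ℕ} [Fact p.Prime] [Finite C] (hC : IsPGroup p C) {ε : Fin k → ℤ}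
    (X : Cfg G k) (φ : X.E → C) (h0 : φ (X.ed none) = 1)
    (hφ : ∀ i, φ (X.ed (some (i, 0))) * φ (X.ed (some (i, 1))) = φ (X.ed (some (i, 2))))
    (hX : Law p ε X) : ∃ m, Law p ε (cover X φ h0 hφ m) := by
  classical
  by_contra hne
  push Not at hne
  simp only [Law, not_forall] at hne
  choose Q iG iF hQ l hl using hne
  have hQQ : IsPGroup p (∀ m, Q m) := isPGroup_pi hQ
  let ll : X.E × C → (∀ m, Q m) := fun e m => l m e
  obtain ⟨m, hm⟩ := wreath_step X φ h0 hφ ll
    (hX _ (isPGroup_wreath hQQ hC) (lw X φ ll))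
  exact hl m (hm.map (Pi.evalMonoidHom Q m))

end cover

/-- The endpoints of the edges in use. -/
def vx {G : Type u} [Group G] {k : ℕ} (X : Cfg G k) (x : Ix k × Bool) : X.V :=
  if x.2 then X.tgt (X.ed x.1) else X.src (X.ed x.1)

open Classical in
/-- The pairs of endpoints that coincide. -/
noncomputable def coin {G : Type u} [Group G] {k : ℕ} (X : Cfg G k) :
    Finset ((Ix k × Bool) × (Ix k × Bool)) :=
  Finset.univ.filter fun z => vx X z.1 = vx X z.2

lemma coin_cover_lt {G : Type u} [Group G] {k : ℕ} {C : Type} [Group C]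
    (X : Cfg G k) (φ : X.E → C) (h0 : φ (X.ed none) = 1)
    (hφ : ∀ i, φ (X.ed (some (i, 0))) * φ (X.ed (some (i, 1))) = φ (X.ed (some (i, 2))))
    (m : Fin k → C)
    (hn : ∀ s : X.V → C, ∃ i, φ (X.ed i) * s (X.src (X.ed i)) ≠ s (X.tgt (X.ed i))) :
    (coin (cover X φ h0 hφ m)).card < (coin X).card := by
  classical
  have hfst : ∀ x, (vx (cover X φ h0 hφ m) x).1 = vx X x := by
    rintro ⟨i, b⟩
    cases b <;> rfl
  apply Finset.card_lt_card
  refine ⟨?_, ?_⟩
  · intro z hz
    simp only [coin, Finset.mem_filter, Finset.mem_univ, true_and] at hz ⊢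
    rw [← hfst, ← hfst, hz]
  · intro hsub
    have key : ∀ x y, vx X x = vx X y →
        (vx (cover X φ h0 hφ m) x).2 = (vx (cover X φ h0 hφ m) y).2 := by
      intro x y hxy
      have : (x, y) ∈ coin (cover X φ h0 hφ m) := hsub (by simp [coin, hxy])
      simp only [coin, Finset.mem_filter, Finset.mem_univ, true_and] at this
      rw [this]
    let s : X.V → C := fun v =>
      if h : ∃ x, vx X x = v then (vx (cover X φ h0 hφ m) h.choose).2 else 1
    have hs : ∀ x, s (vx X x) = (vx (cover X φ h0 hφ m) x).2 := by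
      intro x
      have h : ∃ y, vx X y = vx X x := ⟨x, rfl⟩
      simp only [s, dif_pos h]
      exact key _ _ h.choose_spec
    obtain ⟨i, hi⟩ := hn s
    apply hi
    have e1 := hs (i, false)
    have e2 := hs (i, true)
    simp only [vx, cover, Bool.false_eq_true, if_false, if_true] at e1 e2
    rw [e1, e2]

/-- A choice of potentials after which no further edge can be made trivial. -/
lemma exists_potential {G : Type u} [Group G] {k : ℕ} (X : Cfg G k) :
    ∃ t : X.V → G, ∀ (C : Type) (s : X.V → C),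
      (∀ i, (t (X.tgt (X.ed i)))⁻¹ * X.lab (X.ed i) * t (X.src (X.ed i)) = 1 →
        s (X.src (X.ed i)) = s (X.tgt (X.ed i))) →
      ∀ i, s (X.src (X.ed i)) = s (X.tgt (X.ed i)) := by
  classical
  let T : (X.V → G) → Finset (Ix k) := fun t =>
    Finset.univ.filter fun i => (t (X.tgt (X.ed i)))⁻¹ * X.lab (X.ed i) * t (X.src (X.ed i)) = 1
  obtain ⟨A, ⟨t, rfl⟩, hmax⟩ := (Set.toFinite (Set.range T)).exists_maximal ⟨_, 1, rfl⟩
  refine ⟨t, fun C s hs i₁ => ?_⟩
  by_contra hne
  let h₁ : G := (t (X.tgt (X.ed i₁)))⁻¹ * X.lab (X.ed i₁) * t (X.src (X.ed i₁))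
  let t' : X.V → G := fun v => if s v = s (X.tgt (X.ed i₁)) then t v * h₁ else t v
  have hle : T t ≤ T t' := by
    intro i hi
    simp only [T, Finset.mem_filter, Finset.mem_univ, true_and] at hi ⊢
    have hsi := hs i hi
    by_cases hc : s (X.tgt (X.ed i)) = s (X.tgt (X.ed i₁))
    · simp only [t', hsi, hc, if_true]
      calc (t (X.tgt (X.ed i)) * h₁)⁻¹ * X.lab (X.ed i) * (t (X.src (X.ed i)) * h₁)
          = h₁⁻¹ * ((t (X.tgt (X.ed i)))⁻¹ * X.lab (X.ed i) * t (X.src (X.ed i))) * h₁ := by
            group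
        _ = 1 := by rw [hi]; group
    · simp only [t', hsi, hc, if_false]
      exact hi
  have hmem : i₁ ∈ T t' := by
    simp only [T, Finset.mem_filter, Finset.mem_univ, true_and, t', hne, if_true, if_false, h₁]
    group
  have := hmax ⟨t', rfl⟩ hle hmem
  simp only [T, Finset.mem_filter, Finset.mem_univ, true_and] at this
  exact hne (hs i₁ this)

/-- Every nontrivial finitely generated subgroup has a nontrivial homomorphism to `Cp p`. -/
def LocInd (p : ℕ) (G : Type u) [Group G] : Prop :=
  ∀ H : Subgroup G, H.FG → H ≠ ⊥ → ∃ χ : H →* Cp p, χ ≠ 1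

theorem not_law {p : ℕ} [Fact p.Prime] {G : Type u} [Group G] (hG : LocInd p G) {k : ℕ}
    (ε : Fin k → ℤ) (X : Cfg G k) : ¬ Law p ε X := by
  classical
  induction hn : (coin X).card using Nat.strong_induction_on generalizing X with
  | _ n ih =>
  intro hX
  obtain ⟨t, ht⟩ := exists_potential X
  let h : X.E → G := fun e => (t (X.tgt e))⁻¹ * X.lab e * t (X.src e)
  let H : Subgroup G := Subgroup.closure (Set.range fun i => h (X.ed i))
  have hmem : ∀ i, h (X.ed i) ∈ H := fun i => Subgroup.subset_closure ⟨i, rfl⟩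
  have hFG : H.FG := (Subgroup.fg_iff _).2 ⟨_, rfl, Set.finite_range _⟩
  have hne : H ≠ ⊥ := by
    intro hb
    have := hmem none
    rw [hb, Subgroup.mem_bot] at this
    apply X.ne
    simp only [h, X.loop] at this
    calc X.lab (X.ed none) = t (X.tgt (X.ed none)) *
          ((t (X.tgt (X.ed none)))⁻¹ * X.lab (X.ed none) * t (X.tgt (X.ed none))) *
          (t (X.tgt (X.ed none)))⁻¹ := by group
      _ = 1 := by rw [this]; group
  obtain ⟨χ, hχ⟩ := hG H hFG hne
  let φ : X.E → Cp p := fun e => if he : h e ∈ H then χ ⟨h e, he⟩ else 1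
  have hφv : ∀ i, φ (X.ed i) = χ ⟨h (X.ed i), hmem i⟩ := fun i => dif_pos (hmem i)
  have hφ : ∀ i, φ (X.ed (some (i, 0))) * φ (X.ed (some (i, 1))) = φ (X.ed (some (i, 2))) := by
    intro i
    rw [hφv, hφv, hφv, ← map_mul]
    congr 1
    apply Subtype.ext
    simp only [Subgroup.coe_mul, h]
    rw [X.h1, X.h2, X.h3, ← X.hl]
    group
  have h0 : φ (X.ed none) = 1 := by
    obtain ⟨g, hg⟩ := hX (Cp p) (isPGroup_Cp p) φ
    refine hg.trans ?_
    apply List.prod_eq_one
    intro x hx
    rw [List.mem_ofFn] at hx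
    obtain ⟨i, rfl⟩ := hx
    simp [dft, hφ i]
  obtain ⟨m, hm⟩ := law_cover (isPGroup_Cp p) X φ h0 hφ hX
  refine ih _ ?_ _ rfl hm
  rw [← hn]
  apply coin_cover_lt
  intro s
  by_contra hc
  push Not at hc
  have hall := ht (Cp p) s (fun i hi => by
    have : φ (X.ed i) = 1 := by
      rw [hφv, ← map_one χ]
      congr 1
      exact Subtype.ext hi
    rw [← hc i, this, one_mul])
  apply hχ
  have hone : ∀ i, χ ⟨h (X.ed i), hmem i⟩ = 1 := by
    intro i
    rw [← hφv]
    have := hc i
    rw [hall i] at this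
    simpa using this
  ext ⟨x, hx⟩
  have : χ ⟨x, hx⟩ = 1 := by
    induction hx using Subgroup.closure_induction with
    | mem x hx =>
      obtain ⟨i, rfl⟩ := hx
      exact hone i
    | one => exact map_one χ
    | mul x y hx hy ihx ihy =>
      have : (⟨x * y, H.mul_mem hx hy⟩ : H) = ⟨x, hx⟩ * ⟨y, hy⟩ := rfl
      rw [this, map_mul, ihx, ihy, one_mul]
    | inv x hx ihx =>
      have : (⟨x⁻¹, H.inv_mem hx⟩ : H) = ⟨x, hx⟩⁻¹ := rfl
      rw [this, map_inv, ihx, inv_one]
  simp [this]

end Pool.Agent.Lib.MP_3e9be7_al
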