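import Pool.Agent.Lib.MP_3e9be7_al.H96Pres
import Pool.Agent.Lib.MP_3e9be7_al.H96Tower

/-!
A faithful action of Thompson's group `F` on the real line by piecewise linear maps, and the
resulting homomorphisms from finitely generated subgroups onto cyclic groups of prime order.
-/

namespace Pool.Agent.Lib.MP_3e9be7_al

/-- The map that fixes `(-∞, i]`, has slope `1/2` on `[i, i + 2]` and is `t - 1` afterwards. -/
noncomputable def XX (i : ℕ) : ℝ ≃o ℝ where
  toFun t := max (t - 1) (min t ((t + i) / 2))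
  invFun t := min (t + 1) (max t (2 * t - i))
  left_inv t := by
    simp only [max_def, min_def]
    split_ifs <;> linarith
  right_inv t := by
    simp only [max_def, min_def]
    split_ifs <;> linarith
  map_rel_iff' := by
    intro a b
    simp only [Equiv.coe_fn_mk, max_def, min_def]
    split_ifs <;> constructor <;> intro h <;> linarith

lemma XX_apply (i : ℕ) (t : ℝ) : XX i t = max (t - 1) (min t ((t + i) / 2)) := rfl

lemma XX_low {i : ℕ} {t : ℝ} (h : t ≤ i) : XX i t = t := by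
  simp only [XX_apply, max_def, min_def]
  split_ifs <;> linarith

lemma XX_mid {i : ℕ} {t : ℝ} (h : i ≤ t) (h' : t ≤ i + 2) : XX i t = (t + i) / 2 := by
  simp only [XX_apply, max_def, min_def]
  split_ifs <;> linarith

lemma XX_high {i : ℕ} {t : ℝ} (h : i + 2 ≤ t) : XX i t = t - 1 := by
  simp only [XX_apply, max_def, min_def]
  split_ifs <;> linarith

lemma XX_le (i : ℕ) (t : ℝ) : XX i t ≤ t := by
  simp only [XX_apply, max_def, min_def]
  split_ifs <;> linarith

lemma XX_lt {i : ℕ} {t : ℝ} (h : i < t) : XX i t < t := by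
  simp only [XX_apply, max_def, min_def]
  split_ifs <;> linarith

lemma XX_rel (i j : ℕ) (hij : i < j) : (XX i)⁻¹ * XX j * XX i = XX (j + 1) := by
  rw [mul_assoc, inv_mul_eq_iff_eq_mul]
  ext t
  have h : (i : ℝ) + 1 ≤ j := by exact_mod_cast hij
  simp only [RelIso.mul_apply]
  rcases le_total t (j + 1) with h1 | h1
  · have e : XX (j + 1) t = t := XX_low (by push_cast; exact h1)
    have h2 : XX i t ≤ j := by
      refine ((XX i).monotone h1).trans ?_
      rw [XX_high (by linarith)]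
      linarith
    rw [e, XX_low h2]
  · have h2 : (j : ℝ) + 1 ≤ XX (j + 1) t := by
      have := (XX (j + 1)).monotone h1
      rwa [XX_low (by push_cast; exact le_rfl)] at this
    rw [XX_high (i := i) (t := t) (by linarith), XX_high (i := i) (by linarith)]
    simp only [XX_apply, Nat.cast_add, Nat.cast_one, max_def, min_def]
    split_ifs <;> linarith

lemma gen_XX (n : ℕ) : gen (XX 0) (XX 1) n = XX n := by
  match n with
  | 0 => rfl
  | 1 => simp [gen]
  | n + 2 => rw [gen_succ, gen_XX (n + 1), XX_rel 0 (n + 1) (by omega)]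

lemma XX_rels : ∀ r ∈ thompsonRels, FreeGroup.lift (fun i : Fin 2 => XX i) r = 1 := by
  have e2 := XX_rel 0 1 (by omega)
  have e3 := XX_rel 0 2 (by omega)
  have e4 := XX_rel 0 3 (by omega)
  have f3 := XX_rel 1 2 (by omega)
  have f4 := XX_rel 1 3 (by omega)
  have key : ∀ y : ℝ ≃o ℝ, (XX 1)⁻¹ * y * XX 1 = (XX 0)⁻¹ * y * XX 0 →
      XX 0 * (XX 1)⁻¹ * y * (XX 0 * (XX 1)⁻¹)⁻¹ * y⁻¹ = 1 := by
    intro y hy
    calc XX 0 * (XX 1)⁻¹ * y * (XX 0 * (XX 1)⁻¹)⁻¹ * y⁻¹
        = XX 0 * ((XX 1)⁻¹ * y * XX 1) * (XX 0)⁻¹ * y⁻¹ := by group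
      _ = 1 := by rw [hy]; group
  rintro r (rfl | rfl)
  · simp only [map_mul, map_inv, FreeGroup.lift_apply_of, Fin.val_zero, Fin.val_one]
    rw [e2]
    exact key _ (by rw [f3, e3])
  · simp only [map_mul, map_inv, FreeGroup.lift_apply_of, Fin.val_zero, Fin.val_one]
    have : (XX 0)⁻¹ * (XX 0)⁻¹ * XX 1 * XX 0 * XX 0 = XX 3 := by
      rw [← e3, ← e2]
      group
    rw [this]
    exact key _ (by rw [f4, e4])

/-- The action of Thompson's group on the real line. -/
noncomputable def rho : ThompsonF →* (ℝ ≃o ℝ) := PresentedGroup.toGroup XX_rels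

lemma rho_of (i : Fin 2) : rho (PresentedGroup.of i) = XX i := PresentedGroup.toGroup.of XX_rels

lemma rho_xF (n : ℕ) : rho (xF n) = XX n := by
  rw [← gen_XX]
  cases n <;> simp [xF, gen, rho_of]

lemma rho_pos (l : List ℕ) : rho (pos xF l) = pos XX l := by
  induction l with
  | nil => simp [pos]
  | cons i l ih => rw [pos_cons, pos_cons, map_mul, rho_xF, ih]

lemma pos_XX_le (l : List ℕ) (t : ℝ) : pos XX l t ≤ t := by
  induction l with
  | nil => simp [pos]
  | cons i l ih =>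
    rw [pos_cons, RelIso.mul_apply]
    exact (XX_le _ _).trans ih

lemma pos_XX_lt (i : ℕ) (l : List ℕ) {t : ℝ} (h : i < t) : pos XX (i :: l) t < t := by
  rw [pos_cons, RelIso.mul_apply]
  exact ((XX i).monotone (pos_XX_le l t)).trans_lt (XX_lt h)

lemma pos_XX_low (l : List ℕ) {t : ℝ} (h : ∀ i ∈ l, t ≤ (i : ℝ)) : pos XX l t = t := by
  induction l with
  | nil => simp [pos]
  | cons i l ih =>
    rw [pos_cons, RelIso.mul_apply, ih (fun j hj => h j (List.mem_cons_of_mem _ hj))]
    exact XX_low (h i (by simp))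

lemma pos_XX_inj (l : List ℕ) : ∀ l' : List ℕ, l.Pairwise (· ≤ ·) → l'.Pairwise (· ≤ ·) →
    pos XX l = pos XX l' → l = l' := by
  have aux : ∀ (i j : ℕ) (m m' : List ℕ), (j :: m').Pairwise (· ≤ ·) →
      pos XX (i :: m) = pos XX (j :: m') → j ≤ i := by
    intro i j m m' hs e
    by_contra hc
    push Not at hc
    have h1 := pos_XX_lt i m (t := j) (by exact_mod_cast hc)
    rw [e, pos_XX_low] at h1
    · exact lt_irrefl _ h1
    · intro y hy
      rcases List.mem_cons.1 hy with rfl | hy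
      · exact le_rfl
      · exact_mod_cast (List.pairwise_cons.1 hs).1 y hy
  induction l with
  | nil =>
    intro l' _ _ e
    cases l' with
    | nil => rfl
    | cons j m' =>
      have h1 := pos_XX_lt j m' (t := j + 1) (by linarith)
      rw [← e] at h1
      simp [pos] at h1
  | cons i m ih =>
    intro l' hs hs' e
    cases l' with
    | nil =>
      have h1 := pos_XX_lt i m (t := i + 1) (by linarith)
      rw [e] at h1
      simp [pos] at h1
    | cons j m' =>
      have hij : i = j := le_antisymm (aux j i m' m hs e.symm) (aux i j m m' hs' e)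
      subst hij
      rw [pos_cons, pos_cons, mul_right_inj] at e
      rw [ih m' (List.pairwise_cons.1 hs).2 (List.pairwise_cons.1 hs').2 e]

theorem rho_injective : Function.Injective rho := by
  rw [injective_iff_map_eq_one]
  intro g hg
  obtain ⟨l, l', h1, h2, rfl⟩ := normal_form g
  rw [map_mul, map_inv, rho_pos, rho_pos, mul_inv_eq_one] at hg
  rw [pos_XX_inj l l' h1 h2 hg, mul_inv_cancel]

/-- To the right of `s`, the map `f` is affine with slope `2 ^ k`. -/
def Germ (f : ℝ ≃o ℝ) (s : ℝ) (k : ℤ) : Prop :=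
  ∃ δ > 0, ∀ t, s ≤ t → t ≤ s + δ → f t = f s + 2 ^ k * (t - s)

lemma Germ.unique {f : ℝ ≃o ℝ} {s : ℝ} {k m : ℤ} (h : Germ f s k) (h' : Germ f s m) : k = m := by
  obtain ⟨δ, hδ, h⟩ := h
  obtain ⟨δ', hδ', h'⟩ := h'
  have hm : 0 < min δ δ' := lt_min hδ hδ'
  have e1 := h (s + min δ δ') (by linarith) (by linarith [min_le_left δ δ'])
  have e2 := h' (s + min δ δ') (by linarith) (by linarith [min_le_right δ δ'])
  rw [e1, add_right_inj, add_sub_cancel_left] at e2
  have e3 : (2 : ℝ) ^ k = 2 ^ m := mul_right_cancel₀ hm.ne' e2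
  exact zpow_right_injective₀ (by norm_num) (by norm_num) e3

lemma Germ.mul {f g : ℝ ≃o ℝ} {s : ℝ} {k m : ℤ} (hf : Germ f (g s) k) (hg : Germ g s m) :
    Germ (f * g) s (k + m) := by
  obtain ⟨δ, hδ, hf⟩ := hf
  obtain ⟨δ', hδ', hg⟩ := hg
  have h2 : (0 : ℝ) < 2 ^ m := by positivity
  refine ⟨min δ' (δ / 2 ^ m), lt_min hδ' (by positivity), fun t h1 h3 => ?_⟩
  have h4 : t ≤ s + δ' := h3.trans (by linarith [min_le_left δ' (δ / 2 ^ m)])
  have h5 : t - s ≤ δ / 2 ^ m := by linarith [min_le_right δ' (δ / 2 ^ m)]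
  rw [le_div_iff₀ h2] at h5
  have h6 : 0 ≤ 2 ^ m * (t - s) := mul_nonneg h2.le (by linarith)
  rw [RelIso.mul_apply, RelIso.mul_apply, hf (g t) (by rw [hg t h1 h4]; linarith)
    (by rw [hg t h1 h4]; linarith), hg t h1 h4, zpow_add₀ (by norm_num)]
  ring

lemma Germ.inv {f : ℝ ≃o ℝ} {s : ℝ} {k : ℤ} (hf : Germ f (f⁻¹ s) k) : Germ f⁻¹ s (-k) := by
  obtain ⟨δ, hδ, hf⟩ := hf
  have h2 : (0 : ℝ) < 2 ^ k := by positivity
  refine ⟨δ * 2 ^ k, by positivity, fun t h1 h3 => ?_⟩
  have h4 : 0 ≤ (2 : ℝ) ^ (-k) * (t - s) := mul_nonneg (by positivity) (by linarith)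
  have h5 : (2 : ℝ) ^ (-k) * (t - s) ≤ δ := by
    rw [zpow_neg, inv_mul_le_iff₀ h2]
    linarith
  have h6 := hf (f⁻¹ s + 2 ^ (-k) * (t - s)) (by linarith) (by linarith)
  rw [RelIso.apply_inv_self, add_sub_cancel_left, zpow_neg, mul_inv_cancel_left₀ h2.ne',
    add_sub_cancel] at h6
  rw [zpow_neg, ← h6, RelIso.inv_apply_self, h6]

/-- Maps that fix the negative half-line and have affine germs with slopes powers of two. -/
def PLgrp : Subgroup (ℝ ≃o ℝ) where
  carrier := {f | (∀ t ≤ 0, f t = t) ∧ ∀ s, ∃ k, Germ f s k}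
  one_mem' := ⟨fun _ _ => rfl, fun s => ⟨0, 1, one_pos, fun t _ _ => by simp⟩⟩
  mul_mem' := by
    rintro f g ⟨hf, hf'⟩ ⟨hg, hg'⟩
    refine ⟨fun t ht => by rw [RelIso.mul_apply, hg t ht, hf t ht], fun s => ?_⟩
    obtain ⟨k, hk⟩ := hf' (g s)
    obtain ⟨m, hm⟩ := hg' s
    exact ⟨_, hk.mul hm⟩
  inv_mem' := by
    rintro f ⟨hf, hf'⟩
    refine ⟨fun t ht => ?_, fun s => ?_⟩
    · conv_lhs => rw [← hf t ht]
      exact RelIso.inv_apply_self f t
    · obtain ⟨k, hk⟩ := hf' (f⁻¹ s)
      exact ⟨_, hk.inv⟩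

lemma XX_mem (i : ℕ) : XX i ∈ PLgrp := by
  refine ⟨fun t ht => XX_low (ht.trans (Nat.cast_nonneg i)), fun s => ?_⟩
  rcases lt_or_ge s i with h | h
  · refine ⟨0, i - s, by linarith, fun t h1 h2 => ?_⟩
    rw [XX_low (by linarith), XX_low h.le]
    simp
  rcases lt_or_ge s (i + 2) with h' | h'
  · refine ⟨-1, i + 2 - s, by linarith, fun t h1 h2 => ?_⟩
    rw [XX_mid (by linarith) (by linarith), XX_mid h h'.le]
    simp only [zpow_neg, zpow_one]
    ring
  · refine ⟨0, 1, one_pos, fun t h1 h2 => ?_⟩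
    rw [XX_high (by linarith), XX_high h']
    simp

lemma rho_mem (g : ThompsonF) : rho g ∈ PLgrp := by
  have hg : g ∈ Subgroup.closure (Set.range (PresentedGroup.of : Fin 2 → ThompsonF)) := by
    rw [PresentedGroup.closure_range_of]
    trivial
  induction hg using Subgroup.closure_induction with
  | mem x hx =>
    obtain ⟨i, rfl⟩ := hx
    rw [rho_of]
    exact XX_mem _
  | one => rw [map_one]; exact one_mem _
  | mul x y _ _ hx hy => rw [map_mul]; exact mul_mem hx hy
  | inv x _ hx => rw [map_inv]; exact inv_mem hx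

/-- From a nonzero additive function with integer values to a homomorphism onto `Cp p`. -/
lemma exists_hom_Cp (p : ℕ) [Fact p.Prime] {H : Type*} [Group H] (c : H → ℤ)
    (hc : ∀ x y, c (x * y) = c x + c y) (hne : ∃ x, c x ≠ 0) : ∃ χ : H →* Cp p, χ ≠ 1 := by
  have h1 : c 1 = 0 := by simpa using hc 1 1
  have hi : ∀ x, c x⁻¹ = - c x := by
    intro x
    have := hc x x⁻¹
    rw [mul_inv_cancel, h1] at this
    linarith
  let A : AddSubgroup ℤ :=
    { carrier := Set.range c
      zero_mem' := ⟨1, h1⟩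
      add_mem' := by
        rintro _ _ ⟨x, rfl⟩ ⟨y, rfl⟩
        exact ⟨x * y, hc x y⟩
      neg_mem' := by
        rintro _ ⟨x, rfl⟩
        exact ⟨x⁻¹, hi x⟩ }
  obtain ⟨a, ha⟩ := Int.subgroup_cyclic A
  have hdvd : ∀ x, a ∣ c x := by
    intro x
    have : c x ∈ A := ⟨x, rfl⟩
    rw [ha, AddSubgroup.mem_closure_singleton] at this
    obtain ⟨n, hn⟩ := this
    exact ⟨n, by rw [← hn]; simp [mul_comm]⟩
  have ha0 : a ≠ 0 := by
    rintro rfl
    obtain ⟨x, hx⟩ := hne
    exact hx (zero_dvd_iff.1 (hdvd x))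
  obtain ⟨x₀, hx₀⟩ : a ∈ A := by
    rw [ha]
    exact AddSubgroup.subset_closure rfl
  refine ⟨MonoidHom.mk' (fun x => Multiplicative.ofAdd (((c x / a : ℤ)) : ZMod p)) ?_, ?_⟩
  · intro x y
    rw [hc, Int.add_ediv_of_dvd_left (hdvd x), Int.cast_add, ofAdd_add]
  · intro h
    have := DFunLike.congr_fun h x₀
    simp [hx₀, Int.ediv_self ha0] at this

theorem locInd_F (p : ℕ) [Fact p.Prime] : LocInd p ThompsonF := by
  intro H hFG hne
  obtain ⟨T, hT, hTf⟩ := (Subgroup.fg_iff _).1 hFG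
  let A : Set ℝ := {s | ∀ g ∈ T, ∀ t ≤ s, rho g t = t}
  have hA0 : (0 : ℝ) ∈ A := fun g _ t ht => (rho_mem g).1 t ht
  have hex : ∃ g ∈ T, ∃ t, rho g t ≠ t := by
    by_contra hc
    push Not at hc
    apply hne
    rw [← hT, Subgroup.closure_eq_bot_iff]
    intro g hg
    apply rho_injective
    rw [map_one]
    ext t
    exact hc g hg t
  have hbdd : BddAbove A := by
    obtain ⟨g, hg, t, ht⟩ := hex
    refine ⟨t, fun s hs => ?_⟩
    by_contra hc
    push Not at hc
    exact ht (hs g hg t hc.le)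
  set s := sSup A with hs
  have hlt : ∀ g ∈ T, ∀ t < s, rho g t = t := by
    intro g hg t ht
    obtain ⟨u, hu, htu⟩ := exists_lt_of_lt_csSup ⟨0, hA0⟩ ht
    exact hu g hg t htu.le
  have hsT : ∀ g ∈ T, rho g s = s := by
    intro g hg
    rcases lt_trichotomy (rho g s) s with h | h | h
    · have := hlt g hg _ h
      exact absurd ((rho g).injective this) h.ne
    · exact h
    · have h1 : (rho g)⁻¹ s < s := by
        rw [← (rho g).lt_iff_lt, RelIso.apply_inv_self]
        exact h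
      have h2 := hlt g hg _ h1
      rw [RelIso.apply_inv_self] at h2
      exact absurd h2 h1.ne'
  have hsH : ∀ g ∈ H, rho g s = s := by
    intro g hg
    rw [← hT] at hg
    induction hg using Subgroup.closure_induction with
    | mem x hx => exact hsT x hx
    | one => simp
    | mul x y _ _ hx hy => rw [map_mul, RelIso.mul_apply, hy, hx]
    | inv x _ hx =>
      rw [map_inv]
      conv_lhs => rw [← hx]
      exact RelIso.inv_apply_self _ _
  choose c hc using fun g : ThompsonF => (rho_mem g).2 s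
  apply exists_hom_Cp p (fun x : H => c x)
  · intro x y
    apply (hc _).unique
    rw [Subgroup.coe_mul, map_mul]
    apply Germ.mul _ (hc _)
    rw [hsH _ y.2]
    exact hc _
  · by_contra hall
    push Not at hall
    have hT0 : ∀ g ∈ T, ∃ δ > 0, ∀ t, s ≤ t → t ≤ s + δ → rho g t = t := by
      intro g hg
      have hgH : g ∈ H := hT ▸ Subgroup.subset_closure hg
      obtain ⟨δ, hδ, h⟩ := hc g
      refine ⟨δ, hδ, fun t h1 h2 => ?_⟩
      rw [h t h1 h2, hall ⟨g, hgH⟩, hsT g hg]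
      simp
    choose! δ hδ hδ' using hT0
    obtain ⟨g₀, hg₀, -⟩ := hex
    obtain ⟨g, hg, hmin⟩ := Set.exists_min_image T δ hTf ⟨g₀, hg₀⟩
    have : s + δ g ∈ A := by
      intro g' hg' t ht
      rcases lt_or_ge t s with h | h
      · exact hlt g' hg' t h
      · exact hδ' g' hg' t h (ht.trans (by linarith [hmin g' hg']))
    have := le_csSup hbdd this
    linarith [hδ g hg]

end Pool.Agent.Lib.MP_3e9be7_al
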