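import Mathlib

/-!
Thompson's group `F`, given by its standard finite presentation.
-/

namespace Pool.Agent.Lib.MP_3e9be7_al

/-- The two relators `[a b⁻¹, a⁻¹ b a]` and `[a b⁻¹, a⁻² b a²]`, with `[x, y] = x y x⁻¹ y⁻¹`,
in the free group on `a = of 0` and `b = of 1`. -/
def thompsonRels : Set (FreeGroup (Fin 2)) :=
  {(FreeGroup.of 0 * (FreeGroup.of 1)⁻¹) *
      ((FreeGroup.of 0)⁻¹ * FreeGroup.of 1 * FreeGroup.of 0) *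
      (FreeGroup.of 0 * (FreeGroup.of 1)⁻¹)⁻¹ *
      ((FreeGroup.of 0)⁻¹ * FreeGroup.of 1 * FreeGroup.of 0)⁻¹,
    (FreeGroup.of 0 * (FreeGroup.of 1)⁻¹) *
      ((FreeGroup.of 0)⁻¹ * (FreeGroup.of 0)⁻¹ * FreeGroup.of 1 * FreeGroup.of 0 *
        FreeGroup.of 0) *
      (FreeGroup.of 0 * (FreeGroup.of 1)⁻¹)⁻¹ *
      ((FreeGroup.of 0)⁻¹ * (FreeGroup.of 0)⁻¹ * FreeGroup.of 1 * FreeGroup.of 0 *
        FreeGroup.of 0)⁻¹}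

/-- Thompson's group `F = ⟨a, b ∣ [a b⁻¹, a⁻¹ b a], [a b⁻¹, a⁻² b a²]⟩`. -/
abbrev ThompsonF : Type := PresentedGroup thompsonRels

end Pool.Agent.Lib.MP_3e9be7_al
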