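import Mathlib

/-!
Triangular families of almost commuting permutations of a finite set: an entropy argument.
-/

namespace Pool.Agent.Lib.MP_3e9be7_al.H22

open Equiv Finset Real

variable {A : Type} [Fintype A] [DecidableEq A]

/-- Indicator that `x` and `y` do not commute at `z`. -/
def nc (x y : Perm A) (z : A) : ℝ := if x (y z) = y (x z) then 0 else 1

/-- The number of points at which `x` and `y` do not commute. -/
def K (x y : Perm A) : ℝ := ∑ z, nc x y z

omit [Fintype A] in
theorem nc_nonneg (x y : Perm A) (z : A) : 0 ≤ nc x y z := by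
  unfold nc; split_ifs <;> norm_num

omit [Fintype A] in
theorem nc_le_one (x y : Perm A) (z : A) : nc x y z ≤ 1 := by
  unfold nc; split_ifs <;> norm_num

theorem K_nonneg (x y : Perm A) : 0 ≤ K x y := sum_nonneg fun z _ => nc_nonneg x y z

theorem K_comm (x y : Perm A) : K x y = K y x := by
  refine sum_congr rfl fun z _ => ?_
  simp only [nc, eq_comm]

theorem K_shift (x y g : Perm A) : ∑ z, nc x y (g z) = K x y := Equiv.sum_comp g (nc x y)

theorem K_one (y : Perm A) : K 1 y = 0 := by simp [K, nc]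

theorem K_self (y : Perm A) : K y y = 0 := by simp [K, nc]

theorem K_mul_left (x x' y : Perm A) : K (x * x') y ≤ K x y + K x' y := by
  rw [← K_shift x y x', K, K, ← sum_add_distrib]
  refine sum_le_sum fun z _ => ?_
  have h1 := nc_nonneg x y (x' z)
  have h2 := nc_nonneg x' y z
  by_cases ha : x (y (x' z)) = y (x (x' z))
  · by_cases hb : x' (y z) = y (x' z)
    · have : (x * x') (y z) = y ((x * x') z) := by simp only [Perm.mul_apply, hb, ha]
      rw [nc, if_pos this]; linarith
    · have : nc x' y z = 1 := if_neg hb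
      linarith [nc_le_one (x * x') y z]
  · have : nc x y (x' z) = 1 := if_neg ha
    linarith [nc_le_one (x * x') y z]

theorem K_inv_left (x y : Perm A) : K x⁻¹ y = K x y := by
  rw [← K_shift x⁻¹ y x, K]
  refine sum_congr rfl fun z _ => ?_
  have : x⁻¹ (y (x z)) = y (x⁻¹ (x z)) ↔ x (y z) = y (x z) := by
    rw [Perm.inv_eq_iff_eq, eq_comm]; simp
  simp only [nc, this]

theorem K_conj (g x y : Perm A) : K (g * x * g⁻¹) (g * y * g⁻¹) = K x y := by
  rw [← K_shift _ _ g, K]
  refine sum_congr rfl fun z _ => ?_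
  simp [nc]

theorem K_mul_right (x y y' : Perm A) : K x (y * y') ≤ K x y + K x y' := by
  rw [K_comm x, K_comm x, K_comm x]; exact K_mul_left _ _ _

theorem K_inv_right (x y : Perm A) : K x y⁻¹ = K x y := by
  rw [K_comm x, K_comm x]; exact K_inv_left _ _

theorem K_conj_left (u x y : Perm A) : K (u * x * u⁻¹) y ≤ K x y + 2 * K u y := by
  have h1 := K_mul_left (u * x) u⁻¹ y
  have h2 := K_mul_left u x y
  rw [K_inv_left] at h1
  linarith

theorem K_conj_right (u x y : Perm A) : K x (u * y * u⁻¹) ≤ K x y + 2 * K x u := by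
  rw [K_comm x, K_comm x, K_comm x]; exact K_conj_left _ _ _

/-- The number of points moved by the commutator. -/
theorem card_comm (x y : Perm A) :
    ((univ.filter fun z => (x * y * x⁻¹ * y⁻¹) z ≠ z).card : ℝ) = K x y := by
  rw [Finset.card_filter, Nat.cast_sum, K,
    ← Equiv.sum_comp (y * x) fun z => ((if (x * y * x⁻¹ * y⁻¹) z ≠ z then 1 else 0 : ℕ) : ℝ)]
  refine sum_congr rfl fun z _ => ?_
  by_cases h : x (y z) = y (x z) <;> simp [nc, h]

theorem K_le_card (x c : Perm A) : K x c ≤ 2 * ((univ.filter fun z => c z ≠ z).card : ℝ) := by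
  have h0 : ((univ.filter fun z => c z ≠ z).card : ℝ) = ∑ z, if c z = z then (0 : ℝ) else 1 := by
    rw [Finset.card_filter, Nat.cast_sum]
    refine sum_congr rfl fun z _ => ?_
    by_cases h : c z = z <;> simp [h]
  have h1 := Equiv.sum_comp x fun z => if c z = z then (0 : ℝ) else 1
  rw [two_mul, h0]
  nth_rewrite 1 [← h1]
  rw [← sum_add_distrib]
  refine sum_le_sum fun z _ => ?_
  have := nc_le_one x c z
  by_cases ha : c (x z) = x z
  · by_cases hb : c z = z
    · simp [nc, ha, hb]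
    · simpa [ha, hb] using this
  · by_cases hb : c z = z
    · simpa [ha, hb] using this
    · simp only [ha, hb, if_false]; linarith

theorem K_approx (u x y : Perm A) : K x y ≤ K x (u * y * u⁻¹) + 2 * K u y := by
  have h1 : y = (y * u * y⁻¹ * u⁻¹) * (u * y * u⁻¹) := by group
  have h2 := K_mul_right x (y * u * y⁻¹ * u⁻¹) (u * y * u⁻¹)
  have h3 := K_le_card x (y * u * y⁻¹ * u⁻¹)
  rw [card_comm, K_comm y u] at h3
  rw [← h1] at h2
  linarith

/-- The law of the random product of a sublist. -/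
noncomputable def mu : List (Perm A) → Perm A → ℝ
  | [], g => if g = 1 then 1 else 0
  | γ :: L, g => (mu L g + mu L (g * γ⁻¹)) / 2

theorem mu_nonneg : ∀ (L : List (Perm A)) (g : Perm A), 0 ≤ mu L g
  | [], g => by unfold mu; split_ifs <;> norm_num
  | γ :: L, g => by
    have := mu_nonneg L g
    have := mu_nonneg L (g * γ⁻¹)
    unfold mu; positivity

theorem sum_mu_cons (γ : Perm A) (L : List (Perm A)) (f : Perm A → ℝ) :
    ∑ g, mu (γ :: L) g * f g = (∑ g, mu L g * f g + ∑ g, mu L g * f (g * γ)) / 2 := by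
  have h := Equiv.sum_comp (Equiv.mulRight γ) fun g => mu L (g * γ⁻¹) * f g
  simp only [Equiv.coe_mulRight, mul_inv_cancel_right] at h
  rw [h, ← sum_add_distrib, sum_div]
  refine sum_congr rfl fun g _ => ?_
  rw [mu]; ring

theorem sum_mu : ∀ L : List (Perm A), ∑ g, mu L g = 1
  | [] => by simp [mu]
  | γ :: L => by
    have h := sum_mu_cons γ L fun _ => 1
    simp only [mul_one, sum_mu L] at h
    rw [h]; norm_num

theorem mu_supp {y : Perm A} {e : ℝ} : ∀ (L : List (Perm A)) (g : Perm A), mu L g ≠ 0 →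
    (∀ γ ∈ L, K γ y ≤ e) → K g y ≤ L.length * e
  | [], g, h, _ => by
    have : g = 1 := by
      by_contra hg
      exact h (if_neg hg)
    simp [this, K_one]
  | γ :: L, g, h, hL => by
    have hγ := hL γ List.mem_cons_self
    have hL' : ∀ γ' ∈ L, K γ' y ≤ e := fun γ' h' => hL γ' (List.mem_cons_of_mem _ h')
    have he : 0 ≤ e := (K_nonneg _ _).trans hγ
    rw [List.length_cons, Nat.cast_succ, add_mul, one_mul]
    by_cases h1 : mu L g = 0
    · have h2 : mu L (g * γ⁻¹) ≠ 0 := fun h2 => h (by rw [mu, h1, h2]; norm_num)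
      have h3 := mu_supp L _ h2 hL'
      have h4 := K_mul_left (g * γ⁻¹) γ y
      rw [inv_mul_cancel_right] at h4
      linarith
    · linarith [mu_supp L g h1 hL']

/-- The law of the image of `x` under the random product. -/
noncomputable def pr (L : List (Perm A)) (x y : A) : ℝ :=
  ∑ g, mu L g * if g x = y then 1 else 0

theorem pr_nonneg (L : List (Perm A)) (x y : A) : 0 ≤ pr L x y :=
  sum_nonneg fun g _ => mul_nonneg (mu_nonneg L g) (by split_ifs <;> norm_num)

theorem pr_cons (γ : Perm A) (L : List (Perm A)) (x y : A) :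
    pr (γ :: L) x y = (pr L x y + pr L (γ x) y) / 2 :=
  sum_mu_cons γ L fun g => if g x = y then 1 else 0

theorem sum_pr (L : List (Perm A)) (x : A) : ∑ y, pr L x y = 1 := by
  unfold pr
  rw [sum_comm]
  refine (sum_congr rfl fun g _ => ?_).trans (sum_mu L)
  rw [← mul_sum]; simp

/-- Total entropy of the images. -/
noncomputable def ent (L : List (Perm A)) : ℝ := ∑ x, ∑ y, negMulLog (pr L x y)

theorem ent_nil : ent ([] : List (Perm A)) = 0 := by
  refine sum_eq_zero fun x _ => sum_eq_zero fun y _ => ?_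
  have h0 : pr ([] : List (Perm A)) x y = if x = y then 1 else 0 := by
    simp only [pr, mu, ite_mul, one_mul, zero_mul, sum_ite_eq', mem_univ, if_true, Perm.one_apply]
    rfl
  rw [h0]
  split_ifs <;> simp

theorem ent_le (L : List (Perm A)) : ent L ≤ Fintype.card A * log (Fintype.card A) := by
  have key : ∀ x : A, ∑ y, negMulLog (pr L x y) ≤ log (Fintype.card A) := by
    intro x
    have hn : (0 : ℝ) < Fintype.card A := Nat.cast_pos.2 (Fintype.card_pos_iff.2 ⟨x⟩)
    have h1 : ∀ y, negMulLog (pr L x y) ≤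
        pr L x y * log (Fintype.card A) + ((Fintype.card A : ℝ)⁻¹ - pr L x y) := by
      intro y
      rcases (pr_nonneg L x y).eq_or_lt with h | h
      · rw [← h]; simp
      have h2 := one_sub_inv_le_log_of_pos (mul_pos h hn)
      rw [log_mul h.ne' hn.ne'] at h2
      have h3 := mul_le_mul_of_nonneg_left h2 h.le
      have h4 : pr L x y * (pr L x y * (Fintype.card A : ℝ))⁻¹ = (Fintype.card A : ℝ)⁻¹ := by
        field_simp
      rw [mul_sub, h4] at h3
      rw [negMulLog]; linarith
    refine (sum_le_sum fun y _ => h1 y).trans ?_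
    rw [sum_add_distrib, sum_sub_distrib, ← sum_mul, sum_pr]
    simp [mul_inv_cancel₀ hn.ne']
  refine (sum_le_sum fun x _ => key x).trans ?_
  simp

theorem log_aux {u s : ℝ} (hu : 0 ≤ u) (hs : 0 < s) :
    2 * u ^ 2 - 2 * s * u ≤ u ^ 2 * log (u ^ 2) - u ^ 2 * log (s ^ 2) := by
  rcases hu.eq_or_lt with h | h
  · rw [← h]; simp
  have h1 := one_sub_inv_le_log_of_pos (div_pos h hs)
  rw [log_div h.ne' hs.ne', inv_div] at h1
  have h2 := mul_le_mul_of_nonneg_left h1 (sq_nonneg u)
  have h3 : u ^ 2 * (s / u) = s * u := by field_simp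
  rw [mul_sub, h3] at h2
  rw [log_pow, log_pow]; push_cast; linarith

theorem mix_bound {p q η : ℝ} (hp : 0 ≤ p) (hq : 0 ≤ q) (hη : 0 < η) :
    (p + q) / 2 - min p q ≤ η * ((p + q) / 2) +
      (negMulLog ((p + q) / 2) - (negMulLog p + negMulLog q) / 2) / η := by
  obtain ⟨u, hu, rfl⟩ : ∃ u, 0 ≤ u ∧ p = u ^ 2 := ⟨√p, sqrt_nonneg _, (sq_sqrt hp).symm⟩
  obtain ⟨v, hv, rfl⟩ : ∃ v, 0 ≤ v ∧ q = v ^ 2 := ⟨√q, sqrt_nonneg _, (sq_sqrt hq).symm⟩
  obtain ⟨s, hs, hm⟩ : ∃ s, 0 ≤ s ∧ (u ^ 2 + v ^ 2) / 2 = s ^ 2 :=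
    ⟨√((u ^ 2 + v ^ 2) / 2), sqrt_nonneg _, (sq_sqrt (by positivity)).symm⟩
  rcases hs.eq_or_lt with h | h
  · have hu0 : u = 0 := by nlinarith [sq_nonneg u, sq_nonneg v]
    have hv0 : v = 0 := by nlinarith [sq_nonneg u, sq_nonneg v]
    simp [hu0, hv0]
  have h1 := log_aux hu h
  have h2 := log_aux hv h
  have hw : u + v ≤ 2 * s := by
    refine le_of_sq_le_sq ?_ (by positivity)
    nlinarith [sq_nonneg (u - v)]
  have h3 : (u - v) ^ 2 / 4 ≤ negMulLog (s ^ 2) - (negMulLog (u ^ 2) + negMulLog (v ^ 2)) / 2 := by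
    have h4 : s ^ 2 * log (s ^ 2) = (u ^ 2 * log (s ^ 2) + v ^ 2 * log (s ^ 2)) / 2 := by
      rw [← add_mul, ← div_mul_eq_mul_div, hm]
    have h5 : (u - v) ^ 2 = (2 * s - (u + v)) * (2 * s + (u + v)) := by nlinarith
    have h6 : (2 * s - (u + v)) * (2 * s + (u + v)) ≤ (2 * s - (u + v)) * (4 * s) :=
      mul_le_mul_of_nonneg_left (by linarith) (by linarith)
    simp only [negMulLog]
    nlinarith
  rw [hm]
  have h7 : s ^ 2 - min (u ^ 2) (v ^ 2) ≤ |u - v| * s := by
    have h8 : |u - v| * (u + v) ≤ |u - v| * (2 * s) :=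
      mul_le_mul_of_nonneg_left hw (abs_nonneg _)
    rcases le_total u v with huv | huv
    · rw [min_eq_left (pow_le_pow_left₀ hu huv 2)]
      rw [abs_of_nonpos (by linarith)] at h8 ⊢
      nlinarith
    · rw [min_eq_right (pow_le_pow_left₀ hv huv 2)]
      rw [abs_of_nonneg (by linarith)] at h8 ⊢
      nlinarith
  have h9 : |u - v| * s ≤ η * s ^ 2 + (u - v) ^ 2 / 4 / η := by
    rw [← sq_abs (u - v), ← sub_nonneg]
    have : η * s ^ 2 + |u - v| ^ 2 / 4 / η - |u - v| * s = (η * s - |u - v| / 2) ^ 2 / η := by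
      field_simp; ring
    rw [this]; positivity
  have h10 := div_le_div_of_nonneg_right h3 hη.le
  linarith

/-- The overlap of the laws of the images of `x` and `γ x`. -/
noncomputable def ov (L : List (Perm A)) (γ : Perm A) (x : A) : ℝ :=
  ∑ y, min (pr L x y) (pr L (γ x) y)

theorem ov_nonneg (L : List (Perm A)) (γ : Perm A) (x : A) : 0 ≤ ov L γ x :=
  sum_nonneg fun _ _ => le_min (pr_nonneg _ _ _) (pr_nonneg _ _ _)

theorem ov_le_one (L : List (Perm A)) (γ : Perm A) (x : A) : ov L γ x ≤ 1 := by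
  rw [← sum_pr L x]; exact sum_le_sum fun y _ => min_le_left _ _

theorem ent_step (L : List (Perm A)) (γ : Perm A) {η : ℝ} (hη : 0 < η) :
    ∑ x, (1 - ov L γ x) ≤ η * Fintype.card A + (ent (γ :: L) - ent L) / η := by
  have h1 : ∀ x, 1 - ov L γ x ≤ η + (∑ y, negMulLog (pr (γ :: L) x y) -
      (∑ y, negMulLog (pr L x y) + ∑ y, negMulLog (pr L (γ x) y)) / 2) / η := by
    intro x
    have h := sum_le_sum fun y (_ : y ∈ univ) =>
      mix_bound (pr_nonneg L x y) (pr_nonneg L (γ x) y) hη
    simp only [sum_sub_distrib, sum_add_distrib, ← mul_sum, ← sum_div, sum_pr] at h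
    simp only [pr_cons, ov]
    linarith
  refine (sum_le_sum fun x _ => h1 x).trans (le_of_eq ?_)
  have h2 := Equiv.sum_comp γ fun x => ∑ y, negMulLog (pr L x y)
  simp only [sum_sub_distrib, sum_add_distrib, ← sum_div, h2, ent, sum_const, card_univ,
    nsmul_eq_mul]
  ring

end Pool.Agent.Lib.MP_3e9be7_al.H22
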