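import Pool.Agent.Lib.MP_3e9be7_al.H22Tree
import Pool.Agent.Lib.MP_3e9be7_al.Defs

/-!
Almost multiplicative maps from Thompson's group `F` to small symmetric groups.
-/

namespace Pool.Agent.Lib.MP_3e9be7_al.H22

open Equiv Finset Real

variable {A : Type} [Fintype A] [DecidableEq A]

/-- The number of moved points. -/
def mv (x : Perm A) : ℝ := ((univ.filter fun z => x z ≠ z).card : ℝ)

theorem mv_eq (x : Perm A) : mv x = ∑ z, if x z = z then (0 : ℝ) else 1 := by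
  rw [mv, Finset.card_filter, Nat.cast_sum]
  refine sum_congr rfl fun z _ => ?_
  by_cases h : x z = z <;> simp [h]

theorem mv_one : mv (1 : Perm A) = 0 := by simp [mv]

theorem mv_inv (x : Perm A) : mv x⁻¹ = mv x := by
  simp only [mv, ne_eq, Perm.inv_eq_iff_eq]
  simp only [eq_comm]

theorem mv_mul (x y : Perm A) : mv (x * y) ≤ mv x + mv y := by
  rw [mv_eq, mv_eq, mv_eq, ← Equiv.sum_comp y fun z => if x z = z then (0 : ℝ) else 1,
    ← sum_add_distrib]
  refine sum_le_sum fun z _ => ?_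
  by_cases h1 : y z = z
  · simp [h1]
  · simp only [h1, if_false]
    split_ifs <;> norm_num

theorem mv_conj (x y : Perm A) : mv (y * x * y⁻¹) = mv x := by
  rw [mv_eq, mv_eq, ← Equiv.sum_comp y]
  simp

theorem mv_dist (x y : Perm A) :
    mv (x⁻¹ * y) = ((univ.filter fun z => x z ≠ y z).card : ℝ) := by
  simp only [mv, ne_eq, Perm.mul_apply, Perm.inv_eq_iff_eq]
  simp only [eq_comm]

theorem word {G α : Type} [Group G] (f : FreeGroup α →* G) (w : FreeGroup α) :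
    ∃ (S : Finset G) (C : ℝ), 0 ≤ C ∧ ∀ (n : ℕ) (φ : G → Perm (Fin n)) (e : ℝ), 0 ≤ e →
      (∀ a ∈ S, ∀ b ∈ S, mv ((φ (a * b))⁻¹ * (φ a * φ b)) ≤ e) →
        mv ((φ (f w))⁻¹ * FreeGroup.lift (fun i => φ (f (FreeGroup.of i))) w) ≤ C * e := by
  classical
  induction w using FreeGroup.induction_on with
  | C1 =>
    refine ⟨{1}, 1, zero_le_one, fun n φ e _ hφ => ?_⟩
    simpa [mv_inv] using hφ 1 (by simp) 1 (by simp)
  | of i => exact ⟨∅, 0, le_rfl, fun n φ e _ _ => by simp [mv_one]⟩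
  | inv_of i _ =>
    refine ⟨{1, f (FreeGroup.of i), (f (FreeGroup.of i))⁻¹}, 2, by norm_num,
      fun n φ e _ hφ => ?_⟩
    have h1 : mv (φ 1) ≤ e := by simpa using hφ 1 (by simp) 1 (by simp)
    have h2 := hφ (f (FreeGroup.of i)) (by simp) (f (FreeGroup.of i))⁻¹ (by simp)
    have h3 := mv_mul (φ 1) ((φ 1)⁻¹ * (φ (f (FreeGroup.of i)) * φ (f (FreeGroup.of i))⁻¹))
    rw [mul_inv_cancel] at h2
    rw [mul_inv_cancel_left, ← mv_inv, mul_inv_rev] at h3
    simp only [map_inv, FreeGroup.lift_apply_of]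
    linarith
  | mul x y hx hy =>
    obtain ⟨S, C, C0, hS⟩ := hx
    obtain ⟨T, D, D0, hT⟩ := hy
    refine ⟨{f x, f y} ∪ (S ∪ T), 1 + C + D, by positivity, fun n φ e e0 hφ => ?_⟩
    have h1 := hS n φ e e0 fun a ha b hb => hφ a (by simp [ha]) b (by simp [hb])
    have h2 := hT n φ e e0 fun a ha b hb => hφ a (by simp [ha]) b (by simp [hb])
    have h3 := hφ (f x) (by simp) (f y) (by simp)
    rw [map_mul, map_mul]
    generalize FreeGroup.lift (fun i => φ (f (FreeGroup.of i))) x = u at h1 ⊢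
    generalize FreeGroup.lift (fun i => φ (f (FreeGroup.of i))) y = v at h2 ⊢
    have e1 : (φ (f x * f y))⁻¹ * (u * v) = (φ (f x * f y))⁻¹ * (φ (f x) * φ (f y)) *
        ((φ (f y))⁻¹ * ((φ (f x))⁻¹ * u) * (φ (f y))⁻¹⁻¹ * ((φ (f y))⁻¹ * v)) := by group
    have h4 := mv_mul ((φ (f y))⁻¹ * ((φ (f x))⁻¹ * u) * (φ (f y))⁻¹⁻¹) ((φ (f y))⁻¹ * v)
    rw [mv_conj] at h4
    rw [e1]
    refine (mv_mul _ _).trans ?_
    linarith

theorem word_one {G α : Type} [Group G] (f : FreeGroup α →* G) {w : FreeGroup α} (hw : f w = 1) :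
    ∃ (S : Finset G) (C : ℝ), 0 ≤ C ∧ ∀ (n : ℕ) (φ : G → Perm (Fin n)) (e : ℝ), 0 ≤ e →
      (∀ a ∈ S, ∀ b ∈ S, mv ((φ (a * b))⁻¹ * (φ a * φ b)) ≤ e) →
        mv (FreeGroup.lift (fun i => φ (f (FreeGroup.of i))) w) ≤ C * e := by
  classical
  obtain ⟨S, C, C0, hS⟩ := word f w
  refine ⟨insert 1 S, 1 + C, by positivity, fun n φ e e0 hφ => ?_⟩
  have h1 := hS n φ e e0 fun a ha b hb => hφ a (by simp [ha]) b (by simp [hb])
  have h2 : mv (φ 1) ≤ e := by simpa using hφ 1 (by simp) 1 (by simp)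
  have h3 := mv_mul (φ 1) ((φ 1)⁻¹ * FreeGroup.lift (fun i => φ (f (FreeGroup.of i))) w)
  rw [hw] at h1
  rw [mul_inv_cancel_left] at h3
  linarith

theorem K_gen (x : FreeGroup (Fin 2)) (j : Fin 2) : ∃ N : ℝ, 0 ≤ N ∧
    ∀ (n : ℕ) (σ : Fin 2 → Perm (Fin n)), K (FreeGroup.lift σ x) (σ j) ≤ N * K (σ 0) (σ 1) := by
  induction x using FreeGroup.induction_on with
  | C1 => exact ⟨0, le_rfl, fun n σ => by simp [K_one]⟩
  | of i =>
    refine ⟨1, zero_le_one, fun n σ => ?_⟩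
    have := K_nonneg (σ 0) (σ 1)
    have := K_comm (σ 1) (σ 0)
    fin_cases i <;> fin_cases j <;> simp [K_self, *]
  | inv_of i h =>
    obtain ⟨N, h0, h⟩ := h
    exact ⟨N, h0, fun n σ => by rw [map_inv, K_inv_left]; exact h n σ⟩
  | mul x y hx hy =>
    obtain ⟨N, h0, h⟩ := hx
    obtain ⟨N', h0', h'⟩ := hy
    refine ⟨N + N', by positivity, fun n σ => ?_⟩
    rw [map_mul, add_mul]
    exact (K_mul_left _ _ _).trans (add_le_add (h n σ) (h' n σ))

theorem K_word (x y : FreeGroup (Fin 2)) : ∃ N : ℝ, 0 ≤ N ∧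
    ∀ (n : ℕ) (σ : Fin 2 → Perm (Fin n)),
      K (FreeGroup.lift σ x) (FreeGroup.lift σ y) ≤ N * K (σ 0) (σ 1) := by
  induction y using FreeGroup.induction_on with
  | C1 => exact ⟨0, le_rfl, fun n σ => by simp [K_comm _ 1, K_one]⟩
  | of i => simpa using K_gen x i
  | inv_of i h =>
    obtain ⟨N, h0, h⟩ := h
    exact ⟨N, h0, fun n σ => by rw [map_inv, K_inv_right]; exact h n σ⟩
  | mul y z hy hz =>
    obtain ⟨N, h0, h⟩ := hy
    obtain ⟨N', h0', h'⟩ := hz
    refine ⟨N + N', by positivity, fun n σ => ?_⟩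
    rw [map_mul, add_mul]
    exact (K_mul_right _ _ _).trans (add_le_add (h n σ) (h' n σ))

theorem mv_commutator {w : FreeGroup (Fin 2)} (hw : w ∈ commutator (FreeGroup (Fin 2))) :
    ∃ N : ℝ, 0 ≤ N ∧ ∀ (n : ℕ) (σ : Fin 2 → Perm (Fin n)),
      mv (FreeGroup.lift σ w) ≤ N * K (σ 0) (σ 1) := by
  rw [commutator_eq_closure] at hw
  induction hw using Subgroup.closure_induction with
  | mem w hw =>
    obtain ⟨x, y, rfl⟩ := hw
    obtain ⟨N, h0, h⟩ := K_word x y
    refine ⟨N, h0, fun n σ => le_of_eq_of_le ?_ (h n σ)⟩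
    rw [← card_comm, commutatorElement_def, map_mul, map_mul, map_mul, map_inv, map_inv, mv]
  | one => exact ⟨0, le_rfl, fun n σ => by simp [mv_one]⟩
  | inv w _ h =>
    obtain ⟨N, h0, h⟩ := h
    exact ⟨N, h0, fun n σ => by rw [map_inv, mv_inv]; exact h n σ⟩
  | mul x y _ _ hx hy =>
    obtain ⟨N, h0, h⟩ := hx
    obtain ⟨N', h0', h'⟩ := hy
    refine ⟨N + N', by positivity, fun n σ => ?_⟩
    rw [map_mul, add_mul]
    exact (mv_mul _ _).trans (add_le_add (h n σ) (h' n σ))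

theorem sofic_bound {g : ThompsonF} (hg : g ∈ commutator ThompsonF) :
    ∃ S : Finset ThompsonF, ∀ s : ℝ, 2 < s → ∀ η : ℝ, 0 < η → ∃ c : ℝ, 0 < c ∧
      ∀ (n : ℕ) (φ : ThompsonF → Perm (Fin n)) (ε : ℝ), 0 ≤ ε →
        (∀ a ∈ S, ∀ b ∈ S, mv ((φ (a * b))⁻¹ * (φ a * φ b)) ≤ ε * n) → ε * log n ^ s ≤ c →
        mv (φ g) ≤ η * n := by
  classical
  obtain ⟨w, hw, rfl⟩ : ∃ w ∈ commutator (FreeGroup (Fin 2)),
      PresentedGroup.mk thompsonRels w = g := by
    have h := map_commutator_eq (FreeGroup (Fin 2)) (PresentedGroup.mk thompsonRels)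
    rw [MonoidHom.range_eq_top.2 (PresentedGroup.mk_surjective _), ← commutator_def] at h
    rw [← h] at hg
    exact hg
  obtain ⟨N, N0, hN⟩ := mv_commutator hw
  obtain ⟨S0, C0, c0, h0⟩ := word (PresentedGroup.mk thompsonRels) w
  obtain ⟨S1, C1, c1, h1⟩ := word_one (PresentedGroup.mk thompsonRels)
    (PresentedGroup.one_of_mem (Set.mem_insert _ _))
  obtain ⟨S2, C2, c2, h2⟩ := word_one (PresentedGroup.mk thompsonRels)
    (PresentedGroup.one_of_mem (Set.mem_insert_of_mem _ (Set.mem_singleton _)))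
  refine ⟨S0 ∪ (S1 ∪ S2), fun s hs η hη => ?_⟩
  obtain ⟨c, hc, h⟩ := almost_commute hs (ε := η / (2 * (N + 1))) (by positivity)
  refine ⟨min (c / (C1 + C2 + 1)) (η / (2 * (C0 + 1)) * (1 / 2) ^ s),
    lt_min (by positivity) (by positivity), fun n φ ε hε hφ hl => ?_⟩
  have hn0 : (0 : ℝ) ≤ n := Nat.cast_nonneg n
  have he : 0 ≤ ε * n := by positivity
  rcases Nat.lt_or_ge n 2 with hn | hn
  · have : Subsingleton (Fin n) := Fin.subsingleton_iff_le_one.2 (by omega)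
    rw [Subsingleton.elim (φ _) 1, mv_one]; positivity
  have hn2 : (2 : ℝ) ≤ n := by exact_mod_cast hn
  have hlog : 1 / 2 ≤ log n := by
    have := log_le_log (by norm_num) hn2
    linarith [log_two_gt_d9]
  have k0 := h0 n φ _ he fun a ha b hb => hφ a (by simp [ha]) b (by simp [hb])
  have k1 := h1 n φ _ he fun a ha b hb => hφ a (by simp [ha]) b (by simp [hb])
  have k2 := h2 n φ _ he fun a ha b hb => hφ a (by simp [ha]) b (by simp [hb])
  have k3 := hN n fun i => φ (PresentedGroup.mk thompsonRels (FreeGroup.of i))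
  simp only [map_mul, map_inv, FreeGroup.lift_apply_of] at k1 k2
  generalize φ (PresentedGroup.mk thompsonRels (FreeGroup.of 0)) = t at k1 k2 k3
  generalize φ (PresentedGroup.mk thompsonRels (FreeGroup.of 1)) = q at k1 k2 k3
  rw [mv, card_comm] at k1 k2
  have e1 : cj t 1 q = t⁻¹ * q * t := by simp [cj]
  have e2 : cj t 2 q = t⁻¹ * t⁻¹ * q * t * t := by simp only [cj, pow_two, mul_inv_rev, mul_assoc]
  have k4 := h n t q ((C1 + C2 + 1) * ε) (by rw [e1]; nlinarith) (by rw [e2]; nlinarith) (by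
    have := hl.trans (min_le_left _ _)
    rw [le_div_iff₀ (by positivity)] at this
    linarith)
  have k5 : ε ≤ η / (2 * (C0 + 1)) := by
    have a1 : ((1 : ℝ) / 2) ^ s ≤ log n ^ s := rpow_le_rpow (by norm_num) hlog (by linarith)
    exact le_of_mul_le_mul_right (((mul_le_mul_of_nonneg_left a1 hε).trans hl).trans
      (min_le_right _ _)) (by positivity)
  rw [le_div_iff₀ (by positivity)] at k5
  generalize FreeGroup.lift (fun i => φ (PresentedGroup.mk thompsonRels (FreeGroup.of i))) w = u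
    at k0 k3
  have k6 := mv_mul u ((φ (PresentedGroup.mk thompsonRels w))⁻¹ * u)⁻¹
  rw [mv_inv, mul_inv_rev, inv_inv, mul_inv_cancel_left] at k6
  have k7 : N * K t q ≤ η / 2 * n := by
    refine (mul_le_mul (le_add_of_nonneg_right zero_le_one) k4 (K_nonneg _ _)
      (by positivity)).trans (le_of_eq ?_)
    field_simp
  nlinarith [mul_le_mul_of_nonneg_right k5 hn0]

end Pool.Agent.Lib.MP_3e9be7_al.H22
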