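import Pool.Agent.Lib.MP_3e9be7_al.H22Tri

/-!
Almost solutions of the two relators of Thompson's group `F` in small symmetric groups.
-/

namespace Pool.Agent.Lib.MP_3e9be7_al.H22

open Equiv Finset Real

variable {A : Type} [Fintype A] [DecidableEq A]

theorem seq_bound {l : ℝ} (hl : 1 < l) : ∃ C : ℝ, 0 < C ∧ ∀ (E : ℕ → ℝ) (D : ℝ), 0 ≤ D →
    E 1 ≤ D → E 2 ≤ D → (∀ i j, E (i + j + 1) ≤ E (i + j) + 2 * E i + 2 * E j) →
    ∀ k, 1 ≤ k → E k ≤ C * D * l ^ k := by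
  obtain ⟨N, hN⟩ := pow_unbounded_of_one_lt (4 / (l - 1)) hl
  rw [div_lt_iff₀ (by linarith)] at hN
  refine ⟨5 ^ (2 * N + 2), by positivity, fun E D hD h1 h2 hrec => ?_⟩
  have h5 : ∀ k, 1 ≤ k → E k ≤ 5 ^ k * D := by
    intro k
    induction k using Nat.strong_induction_on with
    | _ k ih =>
      intro hk
      rcases Nat.lt_or_ge k 3 with h | h
      · interval_cases k <;> nlinarith
      obtain ⟨j, rfl⟩ : ∃ j, k = 1 + j + 1 := ⟨k - 2, by omega⟩
      have a1 := ih (1 + j) (by omega) (by omega)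
      have a2 := ih j (by omega) (by omega)
      have a3 := hrec 1 j
      have a4 : (1 : ℝ) * D ≤ 5 ^ j * D :=
        mul_le_mul_of_nonneg_right (one_le_pow₀ (by norm_num)) hD
      rw [pow_succ, pow_add] at *
      nlinarith
  intro k
  induction k using Nat.strong_induction_on with
  | _ k ih =>
    intro hk
    have hCD : 0 ≤ (5 : ℝ) ^ (2 * N + 2) * D := by positivity
    rcases Nat.lt_or_ge k (2 * N + 3) with h | h
    · refine (h5 k hk).trans (le_trans ?_ (le_mul_of_one_le_right hCD (one_le_pow₀ hl.le)))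
      exact mul_le_mul_of_nonneg_right (pow_le_pow_right₀ (by norm_num) (by omega)) hD
    obtain ⟨j, rfl⟩ : ∃ j, k = N + 1 + j + 1 := ⟨k - (N + 2), by omega⟩
    have a1 := ih (N + 1 + j) (by omega) (by omega)
    have a2 := ih (N + 1) (by omega) (by omega)
    have a3 := ih j (by omega) (by omega)
    have a4 := hrec (N + 1) j
    have b1 : l ^ (N + 1) ≤ l ^ (j + 1) := pow_le_pow_right₀ hl.le (by omega)
    have b2 : l ^ j ≤ l ^ (j + 1) := pow_le_pow_right₀ hl.le (by omega)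
    have b3 : 4 * l ^ (j + 1) ≤ l ^ N * (l - 1) * l ^ (j + 1) :=
      mul_le_mul_of_nonneg_right hN.le (by positivity)
    have b4 : l ^ (N + 1 + j) + 2 * l ^ (N + 1) + 2 * l ^ j ≤ l ^ (N + 1 + j + 1) := by
      have e1 : l ^ (N + 1 + j) = l ^ N * l ^ (j + 1) := by ring
      have e2 : l ^ (N + 1 + j + 1) = l ^ N * l * l ^ (j + 1) := by ring
      rw [e1, e2]; nlinarith
    have b5 := mul_le_mul_of_nonneg_left b4 hCD
    nlinarith

/-- Conjugation by `t ^ k`. -/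
def cj (t : Perm A) (k : ℕ) (y : Perm A) : Perm A := (t ^ k)⁻¹ * y * t ^ k

theorem K_rec (t q : Perm A) (i j : ℕ) :
    K (t * q⁻¹) (cj t (i + j + 1) q) ≤ K (t * q⁻¹) (cj t (i + j) q) +
      2 * K (t * q⁻¹) (cj t i q) + 2 * K (t * q⁻¹) (cj t j q) := by
  have h1 := K_approx ((t ^ (i + 1))⁻¹ * (t * q⁻¹) * (t ^ (i + 1))⁻¹⁻¹) (t * q⁻¹)
    (cj t (i + j + 1) q)
  have e1 : (t ^ (i + 1))⁻¹ * (t * q⁻¹) * (t ^ (i + 1))⁻¹⁻¹ * cj t (i + j + 1) q *
      ((t ^ (i + 1))⁻¹ * (t * q⁻¹) * (t ^ (i + 1))⁻¹⁻¹)⁻¹ =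
      (cj t i q)⁻¹ * cj t (i + j) q * (cj t i q)⁻¹⁻¹ := by
    simp only [cj]; group
  have e2 : cj t (i + j + 1) q = (t ^ (i + 1))⁻¹ * cj t j q * (t ^ (i + 1))⁻¹⁻¹ := by
    simp only [cj]; group
  have h2 := K_conj_right (cj t i q)⁻¹ (t * q⁻¹) (cj t (i + j) q)
  rw [K_inv_right] at h2
  have h3 := K_conj (t ^ (i + 1))⁻¹ (t * q⁻¹) (cj t j q)
  rw [← e2] at h3
  rw [e1, h3] at h1
  linarith

/-- The conjugating elements: binary words in `p⁻¹` and `q`. -/
def G (p q : Perm A) : ℕ → ℕ → Perm A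
  | 0, _ => 1
  | d + 1, i => if i < 2 ^ d then p⁻¹ * G p q d i else q * G p q d (i - 2 ^ d)

omit [Fintype A] [DecidableEq A] in
theorem G_succ (p q : Perm A) (d i : ℕ) :
    ∃ j, G p q (d + 1) i = p⁻¹ * G p q d j ∨ G p q (d + 1) i = q * G p q d j := by
  by_cases h : i < 2 ^ d
  · exact ⟨i, Or.inl (if_pos h)⟩
  · exact ⟨i - 2 ^ d, Or.inr (if_neg h)⟩

section
variable {t q : Perm A} {B : ℕ → ℝ}

theorem K_right (hB : Monotone B) (hE : ∀ k, 1 ≤ k → K (t * q⁻¹) (cj t k q) ≤ B k) (d : ℕ) :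
    ∀ j k, 1 ≤ k → K (t * q⁻¹) (cj t k (G (t * q⁻¹) q d j * q * (G (t * q⁻¹) q d j)⁻¹)) ≤
      (2 * d + 1) * B (k + d) := by
  induction d with
  | zero => intro j k hk; simpa [G] using hE k hk
  | succ d ih =>
    intro i k hk
    have h0 : (0 : ℝ) ≤ 2 * d + 1 := by positivity
    have h1 : B k ≤ B (k + (d + 1)) := hB (by omega)
    have h2 := hE k hk
    obtain ⟨j, e | e⟩ := G_succ (t * q⁻¹) q d i
    · have h3 := ih j (k + 1) (by omega)
      set g := G (t * q⁻¹) q d j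
      have e1 : cj t k ((t * q⁻¹)⁻¹ * g * q * ((t * q⁻¹)⁻¹ * g)⁻¹) =
          cj t k q * cj t (k + 1) (g * q * g⁻¹) * (cj t k q)⁻¹ := by
        simp only [cj]; group
      have h4 := K_conj_right (cj t k q) (t * q⁻¹) (cj t (k + 1) (g * q * g⁻¹))
      rw [show k + 1 + d = k + (d + 1) by omega] at h3
      rw [e, e1]; push_cast; linarith
    · have h3 := (ih j k hk).trans
        (mul_le_mul_of_nonneg_left (hB (show k + d ≤ k + (d + 1) by omega)) h0)
      set g := G (t * q⁻¹) q d j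
      have e1 : cj t k (q * g * q * (q * g)⁻¹) =
          cj t k q * cj t k (g * q * g⁻¹) * (cj t k q)⁻¹ := by
        simp only [cj]; group
      have h4 := K_conj_right (cj t k q) (t * q⁻¹) (cj t k (g * q * g⁻¹))
      rw [e, e1]; push_cast; linarith

theorem K_left (hB : Monotone B) {y : Perm A} (hE : ∀ k, 1 ≤ k → K (t * q⁻¹) (cj t k y) ≤ B k)
    (d : ℕ) : ∀ j k, 1 ≤ k →
      K (G (t * q⁻¹) q d j * (t * q⁻¹) * (G (t * q⁻¹) q d j)⁻¹) (cj t k y) ≤
      (2 * d + 1) * B (k + d) := by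
  induction d with
  | zero => intro j k hk; simpa [G] using hE k hk
  | succ d ih =>
    intro i k hk
    have h0 : (0 : ℝ) ≤ 2 * d + 1 := by positivity
    have h1 : B k ≤ B (k + (d + 1)) := hB (by omega)
    have h2 := hE k hk
    obtain ⟨j, e | e⟩ := G_succ (t * q⁻¹) q d i
    · have h3 := (ih j k hk).trans
        (mul_le_mul_of_nonneg_left (hB (show k + d ≤ k + (d + 1) by omega)) h0)
      set g := G (t * q⁻¹) q d j
      have e1 : (t * q⁻¹)⁻¹ * g * (t * q⁻¹) * ((t * q⁻¹)⁻¹ * g)⁻¹ =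
          (t * q⁻¹)⁻¹ * (g * (t * q⁻¹) * g⁻¹) * (t * q⁻¹)⁻¹⁻¹ := by group
      have h4 := K_conj_left (t * q⁻¹)⁻¹ (g * (t * q⁻¹) * g⁻¹) (cj t k y)
      rw [K_inv_left] at h4
      rw [e, e1]; push_cast; linarith
    · have h3 := ih j (k + 1) (by omega)
      set g := G (t * q⁻¹) q d j
      have e1 : q * g * (t * q⁻¹) * (q * g)⁻¹ =
          (t * q⁻¹)⁻¹ * (t * (g * (t * q⁻¹) * g⁻¹) * t⁻¹) * (t * q⁻¹)⁻¹⁻¹ := by group
      have e2 : cj t k y = t * cj t (k + 1) y * t⁻¹ := by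
        simp only [cj]; group
      have h4 := K_conj_left (t * q⁻¹)⁻¹ (t * (g * (t * q⁻¹) * g⁻¹) * t⁻¹) (cj t k y)
      have h5 := K_conj t (g * (t * q⁻¹) * g⁻¹) (cj t (k + 1) y)
      rw [← e2] at h5
      rw [K_inv_left, h5] at h4
      rw [show k + 1 + d = k + (d + 1) by omega] at h3
      rw [e, e1]; push_cast; linarith

theorem K_pairs (hB : Monotone B) (hB0 : ∀ k, 0 ≤ B k)
    (hE : ∀ k, 1 ≤ k → K (t * q⁻¹) (cj t k q) ≤ B k) (d : ℕ) : ∀ i < 2 ^ d, ∀ j < i,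
      K (G (t * q⁻¹) q d i * (t * q⁻¹) * (G (t * q⁻¹) q d i)⁻¹)
        (G (t * q⁻¹) q d j * q * (G (t * q⁻¹) q d j)⁻¹) ≤
      (2 * d + 1) * ((2 * d + 1) * B (2 * d + 1)) := by
  induction d with
  | zero => intro i hi j hj; omega
  | succ d ih =>
    intro i hi j hj
    refine le_trans (b := (2 * d + 1) * ((2 * d + 1) * B (2 * d + 1))) ?_ ?_
    swap
    · have h1 : B (2 * d + 1) ≤ B (2 * (d + 1) + 1) := hB (by omega)
      have h2 := hB0 (2 * d + 1)
      push_cast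
      gcongr <;> linarith
    have conj : ∀ u g h : Perm A, K (u * g * (t * q⁻¹) * (u * g)⁻¹) (u * h * q * (u * h)⁻¹) =
        K (g * (t * q⁻¹) * g⁻¹) (h * q * h⁻¹) := by
      intro u g h
      rw [← K_conj u (g * (t * q⁻¹) * g⁻¹)]
      congr 1
    by_cases h1 : i < 2 ^ d
    · simp only [G, if_pos h1, if_pos (hj.trans h1)]
      rw [conj]
      exact ih i h1 j hj
    by_cases h2 : j < 2 ^ d
    · simp only [G, if_neg h1, if_pos h2]
      have h3 := K_left (B := fun k => (2 * d + 1) * B (k + d))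
        (fun a b hab => mul_le_mul_of_nonneg_left (hB (by omega)) (by positivity))
        (K_right hB hE d j) d (i - 2 ^ d) 1 le_rfl
      rw [show 1 + d + d = 2 * d + 1 by omega, ← K_conj q] at h3
      refine le_of_eq_of_le ?_ h3
      simp only [cj]
      congr 1
    · simp only [G, if_neg h1, if_neg h2]
      rw [conj]
      exact ih _ (by rw [pow_succ] at hi; omega) _ (by omega)

end

theorem main_bound {l : ℝ} (hl : 1 < l) : ∃ C : ℝ, 0 < C ∧
    ∀ (A : Type) [Fintype A] [DecidableEq A] (t q : Perm A) (D η : ℝ) (d : ℕ), 0 < η →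
      K (t * q⁻¹) (cj t 1 q) ≤ D → K (t * q⁻¹) (cj t 2 q) ≤ D →
      K t q ≤ 2 * η * Fintype.card A + C * (4 * l ^ 4) ^ d * D +
        2 * (Fintype.card A * log (Fintype.card A)) / η / 2 ^ d := by
  obtain ⟨C, hC, h⟩ := seq_bound hl
  have hl0 : 0 < l - 1 := by linarith
  refine ⟨6 * (2 / (l - 1) + 1) ^ 2 * C * l, by positivity, fun A _ _ t q D η d hη h1 h2 => ?_⟩
  have hD : 0 ≤ D := (K_nonneg _ _).trans h1
  have hE := h (fun k => K (t * q⁻¹) (cj t k q)) D hD h1 h2 (K_rec t q)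
  have hP := K_pairs (B := fun k => C * D * l ^ k)
    (fun a b hab => mul_le_mul_of_nonneg_left (pow_le_pow_right₀ hl.le hab) (by positivity))
    (fun k => by positivity) hE d
  have hκ : K t q ≤ K (t * q⁻¹) q := by
    have := K_mul_left (t * q⁻¹) q q
    rwa [inv_mul_cancel_right, K_self, add_zero] at this
  have hT := triangular (m := 2 ^ d) (κ := K t q)
    (fun i => G (t * q⁻¹) q d i * (t * q⁻¹) * (G (t * q⁻¹) q d i)⁻¹)
    (fun i => G (t * q⁻¹) q d i * q * (G (t * q⁻¹) q d i)⁻¹) hη (by positivity) hP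
    fun i _ => by rw [K_conj]; exact hκ
  have hd : (2 * d + 1 : ℝ) ≤ (2 / (l - 1) + 1) * l ^ d := by
    have b1 : 1 + d * (l - 1) ≤ l ^ d := by
      simpa using one_add_mul_le_pow (a := l - 1) (by linarith) d
    have b2 : (1 : ℝ) ≤ l ^ d := one_le_pow₀ hl.le
    have b3 : 2 * (d : ℝ) ≤ 2 / (l - 1) * l ^ d := by
      rw [div_mul_eq_mul_div, le_div_iff₀ hl0]; linarith
    linarith
  have hm : (0 : ℝ) < 2 ^ d := by positivity
  push_cast at hT
  have h3 : 6 * (2 ^ d * 2 ^ d * ((2 * d + 1) * ((2 * d + 1) * (C * D * l ^ (2 * d + 1))))) ≤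
      6 * (2 / (l - 1) + 1) ^ 2 * C * l * (4 * l ^ 4) ^ d * D := by
    calc _ ≤ 6 * (2 ^ d * 2 ^ d * (((2 / (l - 1) + 1) * l ^ d) * (((2 / (l - 1) + 1) * l ^ d) *
          (C * D * l ^ (2 * d + 1))))) := by gcongr
      _ = _ := by
        rw [mul_pow (4 : ℝ), show (4 : ℝ) ^ d = 2 ^ d * 2 ^ d by rw [← mul_pow]; norm_num]
        ring
  refine le_of_mul_le_mul_left (hT.trans ?_) hm
  rw [mul_add _ _ (_ / _ / _), mul_div_cancel₀ _ hm.ne']
  gcongr

theorem almost_commute {s ε : ℝ} (hs : 2 < s) (hε : 0 < ε) : ∃ c : ℝ, 0 < c ∧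
    ∀ (n : ℕ) (t q : Perm (Fin n)) (δ : ℝ), K (t * q⁻¹) (cj t 1 q) ≤ δ * n →
      K (t * q⁻¹) (cj t 2 q) ≤ δ * n → δ * log n ^ s ≤ c → K t q ≤ ε * n := by
  have hl : (1 : ℝ) < 2 ^ ((s - 2) / 4) := one_lt_rpow (by norm_num) (by linarith)
  obtain ⟨C, hC, h⟩ := main_bound hl
  refine ⟨ε / (2 * C * (128 / ε ^ 2) ^ s), by positivity, fun n t q δ h1 h2 h3 => ?_⟩
  have hn0 : (0 : ℝ) ≤ n := Nat.cast_nonneg n
  rcases Nat.lt_or_ge n 2 with hn | hn
  · have : Subsingleton (Fin n) := Fin.subsingleton_iff_le_one.2 (by omega)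
    rw [Subsingleton.elim t 1, K_one]; positivity
  rcases le_total 1 ε with h1ε | h1ε
  · refine (sum_le_sum fun z _ => nc_le_one t q z).trans ?_
    simpa using le_mul_of_one_le_left hn0 h1ε
  have hn2 : (2 : ℝ) ≤ n := by exact_mod_cast hn
  have hδ : 0 ≤ δ := nonneg_of_mul_nonneg_left ((K_nonneg _ _).trans h1) (by linarith)
  have hlog : 1 / 2 ≤ log n := by
    have := log_le_log (by norm_num) hn2
    linarith [log_two_gt_d9]
  have hε2 : 0 < ε ^ 2 := by positivity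
  have hX : 1 ≤ 64 * log n / ε ^ 2 := by
    rw [le_div_iff₀ hε2]; nlinarith
  obtain ⟨d, hd1, hd2⟩ := exists_nat_pow_near hX one_lt_two
  have h4 := h (Fin n) t q (δ * n) (ε / 8) (d + 1) (by positivity) h1 h2
  rw [Fintype.card_fin] at h4
  have e1 : (4 * ((2 : ℝ) ^ ((s - 2) / 4)) ^ 4) ^ (d + 1) = (2 ^ (d + 1)) ^ s := by
    have e2 : (4 : ℝ) * (2 ^ ((s - 2) / 4)) ^ 4 = 2 ^ s := by
      rw [← rpow_natCast, ← rpow_mul (by norm_num), show (4 : ℝ) = 2 ^ (2 : ℝ) by norm_num,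
        ← rpow_add (by norm_num)]
      congr 1; push_cast; ring
    rw [e2, ← rpow_natCast, ← rpow_natCast, ← rpow_mul (by norm_num), ← rpow_mul (by norm_num),
      mul_comm]
  have h5 : ((2 : ℝ) ^ (d + 1)) ^ s ≤ (128 / ε ^ 2) ^ s * log n ^ s := by
    rw [← mul_rpow (by positivity) (by linarith)]
    refine rpow_le_rpow (by positivity) ?_ (by linarith)
    have : 128 / ε ^ 2 * log n = 64 * log n / ε ^ 2 * 2 := by ring
    rw [this, pow_succ]; linarith
  have h6 : C * (2 ^ (d + 1)) ^ s * δ ≤ ε / 2 := by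
    rw [le_div_iff₀ (by positivity)] at h3
    have := mul_le_mul_of_nonneg_left h5 (mul_nonneg hC.le hδ)
    linarith
  have h7 : 2 * (n * log n) / (ε / 8) / 2 ^ (d + 1) ≤ ε / 4 * n := by
    rw [div_lt_iff₀ hε2] at hd2
    rw [div_le_iff₀ (by positivity), div_le_iff₀ (by positivity)]
    nlinarith [mul_le_mul_of_nonneg_left hd2.le hn0]
  rw [e1] at h4
  nlinarith [mul_le_mul_of_nonneg_right h6 hn0]

end Pool.Agent.Lib.MP_3e9be7_al.H22
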