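import Pool.Agent.Lib.MP_3e9be7_al.H22Ent

/-!
Coupling and the triangular lemma.
-/

namespace Pool.Agent.Lib.MP_3e9be7_al.H22

open Equiv Finset Real

variable {A : Type} [Fintype A] [DecidableEq A]

/-- `ξ` is dominated by `μ` along `s`. -/
def Dom {Ω Ω' : Type} [Fintype Ω] [Fintype Ω'] (ξ : Ω' → ℝ) (s : Ω' → Ω) (μ : Ω → ℝ) : Prop :=
  ∀ h : Ω → ℝ, (∀ w, 0 ≤ h w) → ∑ ω, ξ ω * h (s ω) ≤ ∑ w, μ w * h w

theorem exists_coupling {Ω : Type} [Fintype Ω] (μ : Ω → ℝ) (hμ : ∀ w, 0 ≤ μ w) (f g : Ω → A) :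
    ∃ ξ : Ω × Ω → ℝ, (∀ ω, 0 ≤ ξ ω) ∧ (∀ ω, ξ ω ≠ 0 → f ω.1 = g ω.2) ∧ Dom ξ Prod.fst μ ∧
      Dom ξ Prod.snd μ ∧ ∑ ω, ξ ω =
        ∑ y, min (∑ w, μ w * if g w = y then 1 else 0) (∑ w, μ w * if f w = y then 1 else 0) := by
  set a : A → ℝ := fun y => ∑ w, μ w * if g w = y then 1 else 0 with ha
  set b : A → ℝ := fun y => ∑ w, μ w * if f w = y then 1 else 0 with hb
  have ha0 : ∀ y, 0 ≤ a y := fun y =>
    sum_nonneg fun w _ => mul_nonneg (hμ w) (by split_ifs <;> norm_num)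
  have hb0 : ∀ y, 0 ≤ b y := fun y =>
    sum_nonneg fun w _ => mul_nonneg (hμ w) (by split_ifs <;> norm_num)
  set c : A → ℝ := fun y => min (a y) (b y) / (a y * b y) with hc
  have hc0 : ∀ y, 0 ≤ c y := fun y =>
    div_nonneg (le_min (ha0 y) (hb0 y)) (mul_nonneg (ha0 y) (hb0 y))
  have habc : ∀ y, a y * (b y * c y) = min (a y) (b y) := by
    intro y
    rcases (ha0 y).eq_or_lt with h | h
    · rw [← h, zero_mul, min_eq_left (hb0 y)]
    rcases (hb0 y).eq_or_lt with h' | h'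
    · rw [← h', zero_mul, mul_zero, min_eq_right h.le]
    simp only [hc]; field_simp
  have hac : ∀ y, a y * c y ≤ 1 := by
    intro y
    rcases (hb0 y).eq_or_lt with h' | h'
    · simp [hc, ← h']
    refine le_of_mul_le_mul_left ?_ h'
    rw [mul_left_comm, habc, mul_one]; exact min_le_right _ _
  have hbc : ∀ y, b y * c y ≤ 1 := by
    intro y
    rcases (ha0 y).eq_or_lt with h' | h'
    · simp [hc, ← h']
    refine le_of_mul_le_mul_left ?_ h'
    rw [habc, mul_one]; exact min_le_left _ _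
  set ξ : Ω × Ω → ℝ := fun ω => if f ω.1 = g ω.2 then μ ω.1 * μ ω.2 * c (g ω.2) else 0 with hξ
  have h1 : ∀ w, ∑ w', ξ (w, w') = μ w * (a (f w) * c (f w)) := by
    intro w
    simp only [ha, hξ, sum_mul, mul_sum]
    refine sum_congr rfl fun w' _ => ?_
    by_cases h : f w = g w'
    · simp [h]; ring
    · simp [h, Ne.symm h]
  have h2 : ∀ w', ∑ w, ξ (w, w') = μ w' * (b (g w') * c (g w')) := by
    intro w'
    simp only [hb, hξ, sum_mul, mul_sum]
    refine sum_congr rfl fun w _ => ?_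
    by_cases h : f w = g w'
    · simp [h]; ring
    · simp [h]
  refine ⟨ξ, fun ω => ?_, fun ω h => ?_, fun h hh => ?_, fun h hh => ?_, ?_⟩
  · simp only [hξ]; split_ifs
    · exact mul_nonneg (mul_nonneg (hμ _) (hμ _)) (hc0 _)
    · exact le_rfl
  · by_contra h'
    exact h (if_neg h')
  · rw [Fintype.sum_prod_type]
    refine sum_le_sum fun w _ => ?_
    simp only [← sum_mul, h1]
    exact mul_le_mul_of_nonneg_right (mul_le_of_le_one_right (hμ w) (hac _)) (hh w)
  · rw [Fintype.sum_prod_type_right]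
    refine sum_le_sum fun w _ => ?_
    simp only [← sum_mul, h2]
    exact mul_le_mul_of_nonneg_right (mul_le_of_le_one_right (hμ w) (hbc _)) (hh w)
  · rw [Fintype.sum_prod_type_right]
    simp only [h2]
    have h3 : ∀ y, min (a y) (b y) = ∑ w, μ w * if g w = y then b y * c y else 0 := by
      intro y
      rw [← habc]
      simp only [ha, sum_mul]
      refine sum_congr rfl fun w _ => ?_
      split_ifs <;> simp
    rw [sum_congr rfl fun y _ => h3 y, sum_comm]
    refine sum_congr rfl fun w _ => ?_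
    rw [← mul_sum]; simp

theorem dom_two {Ω Ω' : Type} [Fintype Ω] [Fintype Ω'] {ξ ξ' : Ω' → ℝ} {s s' : Ω' → Ω}
    {μ ν : Ω → ℝ} (hξ : ∀ ω, 0 ≤ ξ ω) (hν : ∀ w, 0 ≤ ν w) (h : Dom ξ s μ) (h' : Dom ξ' s' ν)
    (F : Ω → Ω → ℝ) (hF : ∀ w v, 0 ≤ F w v) :
    ∑ ω, ξ ω * ∑ ω', ξ' ω' * F (s ω) (s' ω') ≤ ∑ w, μ w * ∑ v, ν v * F w v :=
  (sum_le_sum fun ω _ => mul_le_mul_of_nonneg_left (h' _ (hF (s ω))) (hξ ω)).trans
    (h (fun w => ∑ v, ν v * F w v) fun w => sum_nonneg fun v _ => mul_nonneg (hν v) (hF w v))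

omit [Fintype A] in
theorem six_checks {a b W W' V V' : Perm A} {x : A} (h : W (a x) = W' x) (h' : V (b x) = V' x) :
    nc a b x ≤ nc (W * a) V' x + nc W' V' x + nc W' (V * b) x +
      (nc a V (b x) + nc W b (a x) + nc W V (b (a x))) := by
  have n1 := nc_nonneg (W * a) V' x
  have n2 := nc_nonneg W' V' x
  have n3 := nc_nonneg W' (V * b) x
  have n4 := nc_nonneg a V (b x)
  have n5 := nc_nonneg W b (a x)
  have n6 := nc_nonneg W V (b (a x))
  have n7 := nc_nonneg W V (a (b x))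
  have n0 := nc_le_one a b x
  by_cases c1 : (W * a) (V' x) = V' ((W * a) x)
  swap
  · have : nc (W * a) V' x = 1 := if_neg c1
    linarith
  by_cases c2 : W' (V' x) = V' (W' x)
  swap
  · have : nc W' V' x = 1 := if_neg c2
    linarith
  by_cases c3 : W' ((V * b) x) = (V * b) (W' x)
  swap
  · have : nc W' (V * b) x = 1 := if_neg c3
    linarith
  by_cases c4 : a (V (b x)) = V (a (b x))
  swap
  · have : nc a V (b x) = 1 := if_neg c4
    linarith
  by_cases c5 : W (b (a x)) = b (W (a x))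
  swap
  · have : nc W b (a x) = 1 := if_neg c5
    linarith
  by_cases c6 : W (V (b (a x))) = V (W (b (a x)))
  swap
  · have : nc W V (b (a x)) = 1 := if_neg c6
    linarith
  simp only [Perm.mul_apply] at c1 c3
  have e : W (V (a (b x))) = W (V (b (a x))) := by
    rw [← c4, h', c1, h, ← c2, ← h', c3, ← h, ← c5, c6]
  have : nc a b x = 0 := if_pos (V.injective (W.injective e))
  linarith

theorem avg_le {LW LV : List (Perm A)} {M : ℝ} (F : A → Perm A → Perm A → ℝ)
    (h : ∀ W V, mu LW W ≠ 0 → mu LV V ≠ 0 → ∑ x, F x W V ≤ M) :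
    ∑ x, ∑ W, mu LW W * ∑ V, mu LV V * F x W V ≤ M := by
  have h1 : ∑ x, ∑ W, mu LW W * ∑ V, mu LV V * F x W V =
      ∑ W, mu LW W * ∑ V, mu LV V * ∑ x, F x W V := by
    rw [sum_comm]
    refine sum_congr rfl fun W _ => ?_
    rw [← mul_sum, sum_comm]
    simp only [← mul_sum]
  have h2 : M = ∑ W, mu LW W * ∑ V, mu LV V * M := by
    simp only [← sum_mul, sum_mu, one_mul]
  rw [h1]
  refine le_trans (sum_le_sum fun W _ => ?_) h2.ge
  by_cases hW : mu LW W = 0
  · simp [hW]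
  refine mul_le_mul_of_nonneg_left (sum_le_sum fun V _ => ?_) (mu_nonneg _ _)
  by_cases hV : mu LV V = 0
  · simp [hV]
  exact mul_le_mul_of_nonneg_left (h W V hW hV) (mu_nonneg _ _)

theorem point_bound (LW LV : List (Perm A)) (a b : Perm A) (x : A) :
    nc a b x ≤ (1 - ov LW a x) + (1 - ov LV b x) +
      (∑ W, mu LW W * ∑ V, mu LV V * nc (W * a) V x + ∑ W, mu LW W * ∑ V, mu LV V * nc W V x +
        ∑ W, mu LW W * ∑ V, mu LV V * nc W (V * b) x +
        ∑ W, mu LW W * ∑ V, mu LV V * (nc a V (b x) + nc W b (a x) + nc W V (b (a x)))) := by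
  obtain ⟨ξ, p0, ps, p1, p2, pm⟩ :=
    exists_coupling (mu LW) (mu_nonneg LW) (fun W => W (a x)) fun W => W x
  obtain ⟨ξ', q0, qs, q1, q2, qm⟩ :=
    exists_coupling (mu LV) (mu_nonneg LV) (fun V => V (b x)) fun V => V x
  replace pm : ∑ ω, ξ ω = ov LW a x := pm
  replace qm : ∑ ω, ξ' ω = ov LV b x := qm
  have d1 := dom_two p0 (mu_nonneg LV) p1 q2 (fun W V => nc (W * a) V x) fun _ _ => nc_nonneg _ _ _
  have d2 := dom_two p0 (mu_nonneg LV) p2 q2 (fun W V => nc W V x) fun _ _ => nc_nonneg _ _ _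
  have d3 := dom_two p0 (mu_nonneg LV) p2 q1 (fun W V => nc W (V * b) x) fun _ _ => nc_nonneg _ _ _
  have d4 := dom_two p0 (mu_nonneg LV) p1 q1
    (fun W V => nc a V (b x) + nc W b (a x) + nc W V (b (a x))) fun _ _ =>
      add_nonneg (add_nonneg (nc_nonneg _ _ _) (nc_nonneg _ _ _)) (nc_nonneg _ _ _)
  have key : ov LW a x * (ov LV b x * nc a b x) ≤
      ∑ ω, ξ ω * ∑ ω', ξ' ω' * nc (ω.1 * a) ω'.2 x + ∑ ω, ξ ω * ∑ ω', ξ' ω' * nc ω.2 ω'.2 x +
      ∑ ω, ξ ω * ∑ ω', ξ' ω' * nc ω.2 (ω'.1 * b) x +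
      ∑ ω, ξ ω * ∑ ω', ξ' ω' * (nc a ω'.1 (b x) + nc ω.1 b (a x) + nc ω.1 ω'.1 (b (a x))) := by
    rw [← pm, ← qm, sum_mul, ← sum_add_distrib, ← sum_add_distrib, ← sum_add_distrib]
    refine sum_le_sum fun ω _ => ?_
    rw [← mul_add, ← mul_add, ← mul_add]
    by_cases hω : ξ ω = 0
    · simp [hω]
    refine mul_le_mul_of_nonneg_left ?_ (p0 ω)
    rw [sum_mul, ← sum_add_distrib, ← sum_add_distrib, ← sum_add_distrib]
    refine sum_le_sum fun ω' _ => ?_
    rw [← mul_add, ← mul_add, ← mul_add]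
    by_cases hω' : ξ' ω' = 0
    · simp [hω']
    exact mul_le_mul_of_nonneg_left (six_checks (ps ω hω) (qs ω' hω')) (q0 ω')
  have o1 := ov_nonneg LW a x
  have o2 := ov_le_one LW a x
  have o3 := ov_nonneg LV b x
  have o4 := ov_le_one LV b x
  have n0 := nc_nonneg a b x
  have n1 := nc_le_one a b x
  have e1 : nc a b x - ov LV b x * nc a b x ≤ 1 - ov LV b x := by nlinarith
  have e2 : ov LV b x * nc a b x ≤ 1 := mul_le_one₀ o4 n0 n1
  have e3 : ov LV b x * nc a b x - ov LW a x * (ov LV b x * nc a b x) ≤ 1 - ov LW a x := by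
    nlinarith
  linarith

theorem step_bound {LW LV : List (Perm A)} {a b : Perm A} {e η : ℝ} {m : ℕ} (hη : 0 < η)
    (he : 0 ≤ e) (hW : LW.length + 1 ≤ m) (hV : LV.length + 1 ≤ m)
    (h1 : ∀ γ ∈ LW, ∀ γ' ∈ LV, K γ γ' ≤ e) (h2 : ∀ γ ∈ LW, K γ b ≤ e) (h3 : ∀ γ' ∈ LV, K a γ' ≤ e) :
    K a b ≤ 2 * η * Fintype.card A +
      ((ent (a :: LW) - ent LW) + (ent (b :: LV) - ent LV)) / η + 6 * (m * m * e) := by
  have hW' : (LW.length : ℝ) + 1 ≤ m := by exact_mod_cast hW
  have hV' : (LV.length : ℝ) + 1 ≤ m := by exact_mod_cast hV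
  have hW0 : (0 : ℝ) ≤ LW.length := Nat.cast_nonneg _
  have hV0 : (0 : ℝ) ≤ LV.length := Nat.cast_nonneg _
  have hm : ∀ {r s : ℝ}, 0 ≤ r → r ≤ m → 0 ≤ s → s ≤ m → r * (s * e) ≤ m * m * e := by
    intro r s hr hr' hs hs'
    rw [← mul_assoc]
    exact mul_le_mul_of_nonneg_right (mul_le_mul hr' hs' hs (hr.trans hr')) he
  have kV : ∀ V, mu LV V ≠ 0 → ∀ γ ∈ LW, K γ V ≤ LV.length * e := fun V hV γ hγ => by
    rw [K_comm]; exact mu_supp LV V hV fun γ' h' => by rw [K_comm]; exact h1 γ hγ γ' h'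
  have kaV : ∀ V, mu LV V ≠ 0 → K a V ≤ LV.length * e := fun V hV => by
    rw [K_comm]; exact mu_supp LV V hV fun γ' h' => by rw [K_comm]; exact h3 γ' h'
  have kWV : ∀ W V, mu LW W ≠ 0 → mu LV V ≠ 0 → K W V ≤ LW.length * (LV.length * e) :=
    fun W V hW hV => mu_supp LW W hW (kV V hV)
  have kWb : ∀ W, mu LW W ≠ 0 → K W b ≤ LW.length * e := fun W hW => mu_supp LW W hW h2
  have a1 := avg_le (LW := LW) (LV := LV) (M := m * m * e) (fun x W V => nc (W * a) V x)
    fun W V hW hV => by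
      have := K_mul_left W a V
      have := hm (r := LW.length + 1) (s := LV.length) (by linarith) hW' hV0 (by linarith)
      have := kWV W V hW hV
      have := kaV V hV
      change K _ _ ≤ _
      linarith
  have a2 := avg_le (LW := LW) (LV := LV) (M := m * m * e) (fun x W V => nc W V x)
    fun W V hW hV => (kWV W V hW hV).trans (hm hW0 (by linarith) hV0 (by linarith))
  have a3 := avg_le (LW := LW) (LV := LV) (M := m * m * e) (fun x W V => nc W (V * b) x)
    fun W V hW hV => by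
      have := K_mul_right W V b
      have := hm (r := LW.length) (s := LV.length + 1) hW0 (by linarith) (by linarith) hV'
      have := kWV W V hW hV
      have := kWb W hW
      change K _ _ ≤ _
      linarith
  have a4 := avg_le (LW := LW) (LV := LV) (M := 3 * (m * m * e))
    (fun x W V => nc a V (b x) + nc W b (a x) + nc W V (b (a x))) fun W V hW hV => by
      have := hm (r := 1) (s := LV.length) zero_le_one (by linarith) hV0 (by linarith)
      have := hm (r := 1) (s := LW.length) zero_le_one (by linarith) hW0 (by linarith)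
      have := hm hW0 (by linarith) hV0 (by linarith)
      have := kWV W V hW hV
      have := kWb W hW
      have := kaV V hV
      have := K_shift W V (b * a)
      simp only [Perm.mul_apply] at this
      rw [sum_add_distrib, sum_add_distrib, K_shift, K_shift, this]
      linarith
  have s1 := ent_step LW a hη
  have s2 := ent_step LV b hη
  have s3 := sum_le_sum fun x (_ : x ∈ univ) => point_bound LW LV a b x
  simp only [sum_add_distrib] at s3 a4
  rw [add_div]
  change K a b ≤ _ at s3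
  linarith

/-- The list `γ (i - 1), …, γ 0`. -/
def pre (γ : ℕ → Perm A) : ℕ → List (Perm A)
  | 0 => []
  | i + 1 => γ i :: pre γ i

omit [Fintype A] [DecidableEq A] in
theorem length_pre (γ : ℕ → Perm A) : ∀ i, (pre γ i).length = i
  | 0 => rfl
  | i + 1 => by rw [pre, List.length_cons, length_pre γ i]

omit [Fintype A] [DecidableEq A] in
theorem mem_pre (γ : ℕ → Perm A) : ∀ i, ∀ x ∈ pre γ i, ∃ j < i, x = γ j
  | 0, _, h => by simp [pre] at h
  | i + 1, x, h => by
    rcases List.mem_cons.1 h with h | h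
    · exact ⟨i, i.lt_succ_self, h⟩
    · obtain ⟨j, hj, e⟩ := mem_pre γ i x h
      exact ⟨j, hj.trans i.lt_succ_self, e⟩

theorem sum_ent_pre (γ : ℕ → Perm A) (m : ℕ) :
    ∑ i ∈ range m, (ent (γ i :: pre γ i) - ent (pre γ i)) ≤
      Fintype.card A * log (Fintype.card A) := by
  have h := sum_range_sub (fun i => ent (pre γ i)) m
  simp only [pre, ent_nil, sub_zero] at h
  rw [h]; exact ent_le _

/-- The triangular lemma. -/
theorem triangular (α β : ℕ → Perm A) {m : ℕ} {e η κ : ℝ} (hη : 0 < η) (he : 0 ≤ e)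
    (h : ∀ i < m, ∀ j < i, K (α i) (β j) ≤ e) (hκ : ∀ i < m, κ ≤ K (α i) (β i)) :
    m * κ ≤ m * (2 * η * Fintype.card A + 6 * (m * m * e)) +
      2 * (Fintype.card A * log (Fintype.card A)) / η := by
  set α' : ℕ → Perm A := fun j => α (m - 1 - j) with hα'
  have h1 : ∀ i ∈ range m, κ ≤ (2 * η * Fintype.card A + 6 * (m * m * e)) +
      ((ent (α' (m - 1 - i) :: pre α' (m - 1 - i)) - ent (pre α' (m - 1 - i))) +
        (ent (β i :: pre β i) - ent (pre β i))) / η := by
    intro i hi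
    rw [mem_range] at hi
    have e0 : α' (m - 1 - i) = α i := by simp only [hα']; congr 1; omega
    have := step_bound (LW := pre α' (m - 1 - i)) (LV := pre β i) (a := α i) (b := β i)
      (m := m) hη he (by rw [length_pre]; omega) (by rw [length_pre]; omega)
      (fun γ hγ γ' hγ' => by
        obtain ⟨j, hj, rfl⟩ := mem_pre _ _ _ hγ
        obtain ⟨k, hk, rfl⟩ := mem_pre _ _ _ hγ'
        exact h _ (by omega) _ (by omega))
      (fun γ hγ => by
        obtain ⟨j, hj, rfl⟩ := mem_pre _ _ _ hγ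
        exact h _ (by omega) _ (by omega))
      (fun γ' hγ' => by
        obtain ⟨k, hk, rfl⟩ := mem_pre _ _ _ hγ'
        exact h _ hi _ hk)
    rw [e0]
    linarith [hκ i hi]
  have h2 := sum_le_sum h1
  have h3 := sum_range_reflect (fun i => ent (α' i :: pre α' i) - ent (pre α' i)) m
  rw [sum_add_distrib, ← sum_div, sum_const, sum_const, sum_add_distrib, h3] at h2
  simp only [card_range, nsmul_eq_mul] at h2
  refine h2.trans (add_le_add le_rfl (div_le_div_of_nonneg_right ?_ hη.le))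
  linarith [sum_ent_pre α' m, sum_ent_pre β m]

end Pool.Agent.Lib.MP_3e9be7_al.H22
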