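import Pool.Agent.Lib.MP_3e9be7_al.H96PL

/-!
Almost homomorphisms from Thompson's group `F` to finite groups with a commutator-contractive
invariant length function almost kill the commutator subgroup.
-/

namespace Pool.Agent.Lib.MP_3e9be7_al

/-- An invariant length function with `ℓ [g, h] ≤ 4 ℓ g ℓ h`. -/
structure ContrLen {K : Type} [Group K] (ℓ : K → ℝ) : Prop where
  one : ℓ 1 = 0
  inv : ∀ g, ℓ g⁻¹ = ℓ g
  mul : ∀ g h, ℓ (g * h) ≤ ℓ g + ℓ h
  conj : ∀ g h, ℓ (h * g * h⁻¹) = ℓ g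
  comm : ∀ g h, ℓ (g * h * g⁻¹ * h⁻¹) ≤ 4 * ℓ g * ℓ h

variable {K : Type} [Group K] {ℓ : K → ℝ}

lemma ContrLen.nonneg (h : ContrLen ℓ) (g : K) : 0 ≤ ℓ g := by
  have := h.mul g g⁻¹
  rw [mul_inv_cancel, h.one, h.inv] at this
  linarith

/-- The subgroups generated by short elements. -/
def short (ℓ : K → ℝ) (i : ℕ) : Subgroup K := Subgroup.closure {g | ℓ g ≤ 1 / 8 * (1 / 2) ^ i}

lemma ContrLen.normal (h : ContrLen ℓ) (i : ℕ) : (short ℓ i).Normal := ⟨fun n hn g => by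
  induction hn using Subgroup.closure_induction with
  | mem x hx => exact Subgroup.subset_closure ((h.conj x g).trans_le hx)
  | one => simp
  | mul x y _ _ hx hy => simpa [mul_assoc] using mul_mem hx hy
  | inv x _ hx => simpa [mul_assoc] using inv_mem hx⟩

lemma short_le (ℓ : K → ℝ) (i : ℕ) : short ℓ i ≤ short ℓ 0 :=
  Subgroup.closure_mono fun g (hg : ℓ g ≤ _) => hg.trans (mul_le_mul_of_nonneg_left
    (pow_le_pow_of_le_one (by norm_num) (by norm_num) i.zero_le) (by norm_num))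

lemma ContrLen.commute (h : ContrLen ℓ) (i : ℕ) {L : Type} [Group L] (q : K →* L)
    (hq : short ℓ (i + 1) ≤ q.ker) {x y : K} (hx : x ∈ short ℓ 0) (hy : y ∈ short ℓ i) :
    Commute (q x) (q y) := by
  induction hx using Subgroup.closure_induction with
  | one => simp
  | mul a b _ _ ha hb => simpa using ha.mul_left hb
  | inv a _ ha => simpa using ha.inv_left
  | mem x hx =>
    induction hy using Subgroup.closure_induction with
    | one => simp
    | mul a b _ _ ha hb => simpa using ha.mul_right hb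
    | inv a _ ha => simpa using ha.inv_right
    | mem y hy =>
      have h1 : x * y * x⁻¹ * y⁻¹ ∈ short ℓ (i + 1) := Subgroup.subset_closure
        ((h.comm x y).trans ((mul_le_mul (mul_le_mul_of_nonneg_left hx (by norm_num)) hy
          (h.nonneg y) (by norm_num)).trans_eq (by ring)))
      have h2 := hq h1
      rw [MonoidHom.mem_ker, map_mul, map_mul, map_mul, map_inv, map_inv] at h2
      exact commutatorElement_eq_one_iff_commute.1 h2

lemma ContrLen.core [Finite K] (h : ContrLen ℓ) {y a c : K} {η : ℝ} (hη : η ≤ 1 / 16)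
    (hy : y ∈ short ℓ 0)
    (he : ℓ ((a⁻¹ * y * a)⁻¹ * (y⁻¹ * (c⁻¹ * y * c) * y * (c⁻¹ * y * c)⁻¹)) ≤ η) : ℓ y ≤ 2 * η := by
  have η0 : 0 ≤ η := (h.nonneg _).trans he
  have key : ∀ i, ∃ n ∈ short ℓ i, ℓ (y * n) ≤ 2 * η := fun i => by
    induction i with
    | zero => exact ⟨y⁻¹, inv_mem hy, by rw [mul_inv_cancel, h.one]; positivity⟩
    | succ i ih =>
      obtain ⟨n, n1, n2⟩ := ih
      have N := h.normal (i + 1)
      have n3 : c⁻¹ * n * c ∈ short ℓ i := by simpa using (h.normal i).conj_mem n n1 c⁻¹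
      have y3 : c⁻¹ * y * c ∈ short ℓ 0 := by simpa using (h.normal 0).conj_mem y hy c⁻¹
      have e1 : c⁻¹ * (y * n) * c = c⁻¹ * y * c * (c⁻¹ * n * c) := by group
      have l1 : ℓ (c⁻¹ * (y * n) * c) = ℓ (y * n) := by simpa using h.conj (y * n) c⁻¹
      have l2 := h.comm (y * n)⁻¹ (c⁻¹ * (y * n) * c)
      rw [h.inv, l1, inv_inv, e1] at l2
      generalize c⁻¹ * y * c = z at he y3 l2
      generalize c⁻¹ * n * c = m at n3 l2
      have cm := fun {x y : K} => h.commute i (x := x) (y := y) (QuotientGroup.mk' _)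
        (QuotientGroup.ker_mk' _).ge
      have m1 : (y⁻¹ * z * y * z⁻¹)⁻¹ * ((y * n)⁻¹ * (z * m) * (y * n) * (z * m)⁻¹) ∈
          short ℓ (i + 1) := by
        rw [← QuotientGroup.eq, ← QuotientGroup.mk'_apply, ← QuotientGroup.mk'_apply]
        have c1 := cm (mul_mem (mul_mem (mul_mem (inv_mem hy) y3) (short_le ℓ i n3)) hy) n1
        have c2 := cm hy n3
        simp only [map_mul, map_inv] at c1 ⊢
        generalize QuotientGroup.mk' (short ℓ (i + 1)) = q at c1 c2 ⊢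
        calc (q y)⁻¹ * q z * q y * (q z)⁻¹
            = (q y)⁻¹ * q z * (q y * q m) * (q z * q m)⁻¹ := by group
          _ = (q n)⁻¹ * (q n * ((q y)⁻¹ * q z * q m * q y)) * (q z * q m)⁻¹ := by
              rw [c2.eq]; group
          _ = _ := by rw [← c1.eq]; group
      generalize hu : (y * n)⁻¹ * (z * m) * (y * n) * (z * m)⁻¹ = u at m1 l2
      generalize y⁻¹ * z * y * z⁻¹ = w at he m1
      refine ⟨_, N.conj_mem _ (N.conj_mem _ m1 ((a⁻¹ * y * a)⁻¹ * w)) a, ?_⟩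
      have e2 : y * (a * ((a⁻¹ * y * a)⁻¹ * w * (w⁻¹ * u) * ((a⁻¹ * y * a)⁻¹ * w)⁻¹) * a⁻¹) =
          a * (u * ((a⁻¹ * y * a)⁻¹ * w)⁻¹) * a⁻¹ := by group
      rw [e2, h.conj]
      refine (h.mul _ _).trans ?_
      rw [h.inv]
      nlinarith [h.nonneg (y * n), mul_le_mul n2 n2 (h.nonneg _) (by positivity)]
  have fin : ∀ᶠ i : ℕ in Filter.atTop, ∀ g : K, ℓ g ≤ 1 / 8 * (1 / 2) ^ i → ℓ g ≤ 0 := by
    refine Filter.eventually_all.2 fun g => ?_
    rcases le_or_gt (ℓ g) 0 with g1 | g1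
    · exact Filter.Eventually.of_forall fun _ _ => g1
    · have := ((tendsto_pow_atTop_nhds_zero_of_lt_one (r := (1 / 2 : ℝ)) (by norm_num)
        (by norm_num)).const_mul (1 / 8)).eventually (gt_mem_nhds (by simpa using g1))
      exact this.mono fun i hi g2 => absurd hi (not_lt.2 g2)
  obtain ⟨i, hi⟩ := fin.exists
  obtain ⟨n, n1, n2⟩ := key i
  have n3 : ℓ n ≤ 0 := by
    clear n2
    induction n1 using Subgroup.closure_induction with
    | mem x hx => exact hi x hx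
    | one => exact h.one.le
    | mul x y _ _ hx hy => linarith [h.mul x y]
    | inv x _ hx => rwa [h.inv]
  have := h.mul (y * n) n⁻¹
  rw [mul_inv_cancel_right, h.inv] at this
  linarith

/-- `φ` is `ε`-multiplicative on `S`. -/
def Appr {G : Type} [Group G] (ℓ : K → ℝ) (φ : G → K) (S : Finset G) (ε : ℝ) : Prop :=
  ∀ g ∈ S, ∀ h ∈ S, ℓ ((φ (g * h))⁻¹ * (φ g * φ h)) < ε

lemma Appr.mono {G : Type} [Group G] {φ : G → K} {S T : Finset G} {ε : ℝ} (h : Appr ℓ φ T ε)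
    (hS : S ⊆ T) : Appr ℓ φ S ε := fun g hg k hk => h g (hS hg) k (hS hk)

lemma word {G α : Type} [Group G] (π : FreeGroup α →* G) (w : FreeGroup α) :
    ∃ (S : Finset G) (C : ℝ), 0 ≤ C ∧ ∀ (K : Type) [Group K] (ℓ : K → ℝ) (φ : G → K) (ε : ℝ),
      ContrLen ℓ → Appr ℓ φ S ε → 0 ≤ ε →
        ℓ ((φ (π w))⁻¹ * FreeGroup.lift (fun i => φ (π (FreeGroup.of i))) w) ≤ C * ε := by
  classical
  have one : ∀ (K : Type) [Group K] (ℓ : K → ℝ) (φ : G → K) (ε : ℝ) (S : Finset G), 1 ∈ S →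
      Appr ℓ φ S ε → ℓ (φ 1) ≤ ε := fun K _ ℓ φ ε S h1 h => by simpa using (h 1 h1 1 h1).le
  induction w using FreeGroup.induction_on with
  | C1 =>
    refine ⟨{1}, 1, zero_le_one, fun K _ ℓ φ ε h hφ _ => ?_⟩
    simpa [h.inv] using one K ℓ φ ε _ (by simp) hφ
  | of i => exact ⟨∅, 0, le_rfl, fun K _ ℓ φ ε h _ _ => by simp [h.one]⟩
  | inv_of i _ =>
    refine ⟨{1, π (FreeGroup.of i), (π (FreeGroup.of i))⁻¹}, 2, by norm_num,
      fun K _ ℓ φ ε h hφ _ => ?_⟩
    have h1 := one K ℓ φ ε _ (by simp) hφ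
    have h2 := hφ (π (FreeGroup.of i)) (by simp) (π (FreeGroup.of i))⁻¹ (by simp)
    have h3 := h.mul (φ 1) ((φ 1)⁻¹ * (φ (π (FreeGroup.of i)) * φ (π (FreeGroup.of i))⁻¹))
    rw [mul_inv_cancel] at h2
    rw [mul_inv_cancel_left, ← h.inv, mul_inv_rev] at h3
    simp only [map_inv, FreeGroup.lift_apply_of]
    linarith
  | mul x y hx hy =>
    obtain ⟨S, C, C0, hS⟩ := hx
    obtain ⟨T, D, D0, hT⟩ := hy
    refine ⟨{π x, π y} ∪ (S ∪ T), 1 + C + D, by positivity, fun K _ ℓ φ ε h hφ e0 => ?_⟩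
    have h1 := hS K ℓ φ ε h (hφ.mono fun g hg => by simp [hg]) e0
    have h2 := hT K ℓ φ ε h (hφ.mono fun g hg => by simp [hg]) e0
    have h3 := hφ (π x) (by simp) (π y) (by simp)
    rw [map_mul, map_mul]
    generalize FreeGroup.lift (fun i => φ (π (FreeGroup.of i))) x = u at h1 ⊢
    generalize FreeGroup.lift (fun i => φ (π (FreeGroup.of i))) y = v at h2 ⊢
    have e : (φ (π x * π y))⁻¹ * (u * v) = (φ (π x * π y))⁻¹ * (φ (π x) * φ (π y)) *
        ((φ (π y))⁻¹ * ((φ (π x))⁻¹ * u) * (φ (π y))⁻¹⁻¹ * ((φ (π y))⁻¹ * v)) := by group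
    have h4 := h.mul ((φ (π y))⁻¹ * ((φ (π x))⁻¹ * u) * (φ (π y))⁻¹⁻¹) ((φ (π y))⁻¹ * v)
    rw [h.conj] at h4
    rw [e]
    refine (h.mul _ _).trans ?_
    linarith

lemma word_one {G α : Type} [Group G] (π : FreeGroup α →* G) {w : FreeGroup α} (hw : π w = 1) :
    ∃ (S : Finset G) (C : ℝ), 0 ≤ C ∧ ∀ (K : Type) [Group K] (ℓ : K → ℝ) (φ : G → K) (ε : ℝ),
      ContrLen ℓ → Appr ℓ φ S ε → 0 ≤ ε →
        ℓ (FreeGroup.lift (fun i => φ (π (FreeGroup.of i))) w) ≤ C * ε := by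
  classical
  obtain ⟨S, C, C0, hS⟩ := word π w
  refine ⟨insert 1 S, 1 + C, by positivity, fun K _ ℓ φ ε h hφ e0 => ?_⟩
  have h1 := hS K ℓ φ ε h (hφ.mono (Finset.subset_insert _ _)) e0
  have h2 : ℓ (φ 1) < ε := by simpa using hφ 1 (by simp) 1 (by simp)
  have h3 := h.mul (φ 1) ((φ 1)⁻¹ * FreeGroup.lift (fun i => φ (π (FreeGroup.of i))) w)
  rw [hw] at h1
  rw [mul_inv_cancel_left] at h3
  linarith

/-- Finite quotients of `F` identify the generators `x₁` and `x₂`. -/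
lemma finite_quot {Q : Type} [Group Q] [Finite Q] (f : ThompsonF →* Q) : f (xF 1) = f (xF 2) := by
  have hm := orderOf_pos (f (xF 0))
  have h1 : ∀ n, f (xF (n + orderOf (f (xF 0)) + 1)) = f (xF (n + 1)) := fun n => by
    have := pow_orderOf_eq_one (f (xF 0))
    simp only [xF, gen, map_mul, map_inv, map_pow, pow_add] at this ⊢
    rw [this, mul_one]
  have h2 := congrArg f (xF_rel 1 (0 + orderOf (f (xF 0)) + 1) (by omega))
  rw [map_mul, map_mul, map_inv, h1 0, show 0 + orderOf (f (xF 0)) + 1 + 1 =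
    1 + orderOf (f (xF 0)) + 1 by ring, h1 1] at h2
  simpa using h2

/-- The word `b⁻¹ a⁻¹ b a`. -/
def yw : FreeGroup (Fin 2) :=
  (FreeGroup.of 1)⁻¹ * ((FreeGroup.of 0)⁻¹ * FreeGroup.of 1 * FreeGroup.of 0)

lemma mk_yw : PresentedGroup.mk thompsonRels yw = (xF 1)⁻¹ * xF 2 := by
  simp [yw, xF, gen, PresentedGroup.of]

lemma yw_small : ∃ (S : Finset ThompsonF) (C : ℝ), 0 < C ∧ ∀ (K : Type) [Group K] [Finite K]
    (ℓ : K → ℝ) (φ : ThompsonF → K) (ε : ℝ), ContrLen ℓ → Appr ℓ φ S ε → 0 ≤ ε → C * ε ≤ 1 / 16 →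
      ℓ (FreeGroup.lift (fun i => φ (PresentedGroup.of i)) yw) ≤ 2 * (C * ε) := by
  classical
  let a : FreeGroup (Fin 2) := FreeGroup.of 0
  let c : FreeGroup (Fin 2) := FreeGroup.of 0 * FreeGroup.of 1
  have id0 : PresentedGroup.mk thompsonRels
      ((a⁻¹ * yw * a)⁻¹ * (yw⁻¹ * (c⁻¹ * yw * c) * yw * (c⁻¹ * yw * c)⁻¹)) = 1 := by
    have e0 : PresentedGroup.mk thompsonRels a = xF 0 := rfl
    have e1 : PresentedGroup.mk thompsonRels c = xF 0 * xF 1 := by
      simp [c, xF, gen, PresentedGroup.of]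
    have r1 : (xF 0)⁻¹ * ((xF 1)⁻¹ * xF 2) * xF 0 = (xF 2)⁻¹ * xF 3 := by
      rw [← xF_rel 0 2 (by norm_num), ← xF_rel 0 1 (by norm_num)]; group
    have r2 : (xF 1)⁻¹ * ((xF 2)⁻¹ * xF 3) * xF 1 = (xF 3)⁻¹ * xF 4 := by
      rw [← xF_rel 1 3 (by norm_num), ← xF_rel 1 2 (by norm_num)]; group
    have r3 : (xF 0 * xF 1)⁻¹ * ((xF 1)⁻¹ * xF 2) * (xF 0 * xF 1) = (xF 3)⁻¹ * xF 4 := by
      rw [← r2, ← r1]; group
    simp only [map_mul, map_inv, mk_yw, e0, e1, r1, r3]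
    have r4 : (xF 3)⁻¹ * xF 4 = (xF 1)⁻¹ * (xF 2 * ((xF 2)⁻¹ * xF 4 * (xF 2)⁻¹)) * xF 1 := by
      rw [← r2, ← xF_rel 2 3 (by norm_num)]; group
    nth_rewrite 1 [r4]
    group
  obtain ⟨S, C, C0, hS⟩ := word_one _ id0
  obtain ⟨T, D, D0, hT⟩ := word_one (PresentedGroup.mk thompsonRels)
    (PresentedGroup.one_of_mem (Set.mem_insert _ _))
  obtain ⟨U, E, E0, hU⟩ := word_one (PresentedGroup.mk thompsonRels)
    (PresentedGroup.one_of_mem (Set.mem_insert_of_mem _ (Set.mem_singleton _)))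
  refine ⟨S ∪ (T ∪ U), C + D + E + 1, by positivity, fun K _ _ ℓ φ ε h hφ e0 e1 => ?_⟩
  have h1 := hS K ℓ φ ε h (hφ.mono fun g hg => by simp [hg]) e0
  have h2 := hT K ℓ φ ε h (hφ.mono fun g hg => by simp [hg]) e0
  have h3 := hU K ℓ φ ε h (hφ.mono fun g hg => by simp [hg]) e0
  change ℓ (FreeGroup.lift (fun i => φ (PresentedGroup.of i)) _) ≤ _ at h1 h2 h3
  generalize FreeGroup.lift (fun i => φ (PresentedGroup.of i)) = f at h1 h2 h3 ⊢
  have := h.normal 0
  have p1 := mul_nonneg C0 e0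
  have p2 := mul_nonneg D0 e0
  have p3 := mul_nonneg E0 e0
  have hr : ∀ r ∈ thompsonRels, FreeGroup.lift
      (fun i => (QuotientGroup.mk' (short ℓ 0)).comp f (FreeGroup.of i)) r = 1 := by
    intro r hr
    rw [← FreeGroup.lift_unique ((QuotientGroup.mk' (short ℓ 0)).comp f) fun _ => rfl]
    refine (QuotientGroup.eq_one_iff _).2 (Subgroup.subset_closure ?_)
    rcases hr with rfl | rfl
    · exact h2.trans (by nlinarith)
    · exact h3.trans (by nlinarith)
  have hy : f yw ∈ short ℓ 0 := by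
    have q := finite_quot (PresentedGroup.toGroup hr)
    rw [← inv_mul_eq_one, ← map_inv, ← map_mul, ← mk_yw] at q
    rw [← QuotientGroup.eq_one_iff]
    exact (FreeGroup.lift_unique ((QuotientGroup.mk' (short ℓ 0)).comp f) fun _ => rfl).trans q
  refine h.core (a := f a) (c := f c) e1 hy ?_
  simp only [map_mul, map_inv] at h1
  exact h1.trans (by nlinarith)

theorem not_contr (g : ThompsonF) (hg : g ∈ commutator ThompsonF) :
    ∃ (S : Finset ThompsonF) (C : ℝ), 0 < C ∧ ∀ (K : Type) [Group K] [Finite K]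
      (ℓ : K → ℝ) (φ : ThompsonF → K) (ε : ℝ), ContrLen ℓ → Appr ℓ φ S ε → 0 ≤ ε → C * ε ≤ 1 →
        ℓ (φ g) ≤ C * ε := by
  classical
  let M : Subgroup (FreeGroup (Fin 2)) :=
    { carrier := {w | ∃ (S : Finset ThompsonF) (C : ℝ), 0 < C ∧ ∀ (K : Type) [Group K] [Finite K]
        (ℓ : K → ℝ) (φ : ThompsonF → K) (ε : ℝ), ContrLen ℓ → Appr ℓ φ S ε → 0 ≤ ε → C * ε ≤ 1 →
          ℓ (FreeGroup.lift (fun i => φ (PresentedGroup.of i)) w) ≤ C * ε}
      one_mem' := ⟨∅, 1, one_pos, fun K _ _ ℓ φ ε h _ e0 _ => by simpa [h.one] using e0⟩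
      mul_mem' := by
        rintro x y ⟨S, C, C0, hS⟩ ⟨T, D, D0, hT⟩
        refine ⟨S ∪ T, C + D, by positivity, fun K _ _ ℓ φ ε h hφ e0 e1 => ?_⟩
        have h1 := hS K ℓ φ ε h (hφ.mono Finset.subset_union_left) e0 (by nlinarith)
        have h2 := hT K ℓ φ ε h (hφ.mono Finset.subset_union_right) e0 (by nlinarith)
        rw [map_mul]
        exact (h.mul _ _).trans (by linarith)
      inv_mem' := by
        rintro x ⟨S, C, C0, hS⟩
        exact ⟨S, C, C0, fun K _ _ ℓ φ ε h hφ e0 e1 => by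
          rw [map_inv, h.inv]; exact hS K ℓ φ ε h hφ e0 e1⟩ }
  have N : M.Normal := ⟨by
    rintro x ⟨S, C, C0, hS⟩ y
    exact ⟨S, C, C0, fun K _ _ ℓ φ ε h hφ e0 e1 => by
      rw [map_mul, map_mul, map_inv, h.conj]; exact hS K ℓ φ ε h hφ e0 e1⟩⟩
  have hy : yw ∈ M := by
    obtain ⟨S, C, C0, hS⟩ := yw_small
    exact ⟨S, 16 * C, by positivity, fun K _ _ ℓ φ ε h hφ e0 e1 =>
      (hS K ℓ φ ε h hφ e0 (by linarith)).trans (by nlinarith)⟩
  have c01 : Commute (QuotientGroup.mk' M (FreeGroup.of 0)) (QuotientGroup.mk' M (FreeGroup.of 1)) := by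
    have := (QuotientGroup.eq_one_iff (N := M) yw).2 hy
    rw [← QuotientGroup.mk'_apply, yw] at this
    simp only [map_mul, map_inv] at this
    rw [inv_mul_eq_one, mul_assoc, eq_inv_mul_iff_mul_eq] at this
    exact this
  have cg : ∀ i j, Commute (QuotientGroup.mk' M (FreeGroup.of i))
      (QuotientGroup.mk' M (FreeGroup.of j)) := by
    simp only [Fin.forall_fin_two]
    exact ⟨⟨Commute.refl _, c01⟩, c01.symm, Commute.refl _⟩
  have ca : ∀ x y, Commute (QuotientGroup.mk' M x) (QuotientGroup.mk' M y) := fun x y => by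
    induction x using FreeGroup.induction_on with
    | C1 => simp
    | inv_of i h => simpa using h.inv_left
    | mul a b ha hb => simpa using ha.mul_left hb
    | of i =>
      induction y using FreeGroup.induction_on with
      | C1 => simp
      | inv_of j h => simpa using h.inv_right
      | mul a b ha hb => simpa using ha.mul_right hb
      | of j => exact cg i j
  have hM : commutator (FreeGroup (Fin 2)) ≤ M := Subgroup.commutator_le.2 fun x _ y _ => by
    rw [← QuotientGroup.eq_one_iff, ← QuotientGroup.mk'_apply, map_commutatorElement]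
    exact (ca x y).commutator_eq
  rw [commutator_def, ← Subgroup.map_top_of_surjective _ (PresentedGroup.mk_surjective thompsonRels),
    ← Subgroup.map_commutator] at hg
  obtain ⟨w, hw, rfl⟩ := hg
  obtain ⟨S, C, C0, hS⟩ := hM hw
  obtain ⟨T, D, D0, hT⟩ := word (PresentedGroup.mk thompsonRels) w
  refine ⟨S ∪ T, C + D, by positivity, fun K _ _ ℓ φ ε h hφ e0 e1 => ?_⟩
  have h1 := hS K ℓ φ ε h (hφ.mono Finset.subset_union_left) e0 (by nlinarith)
  have h2 := hT K ℓ φ ε h (hφ.mono Finset.subset_union_right) e0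
  change ℓ (_ * FreeGroup.lift (fun i => φ (PresentedGroup.of i)) _) ≤ _ at h2
  generalize FreeGroup.lift (fun i => φ (PresentedGroup.of i)) w = u at h1 h2
  have h3 := h.mul u ((φ (PresentedGroup.mk thompsonRels w))⁻¹ * u)⁻¹
  rw [h.inv, mul_inv_rev, inv_inv, mul_inv_cancel_left] at h3
  linarith

lemma commutator_ne_bot : (xF 1)⁻¹ * xF 2 ∈ commutator ThompsonF ∧ (xF 1)⁻¹ * xF 2 ≠ 1 := by
  constructor
  · have := Subgroup.commutator_mem_commutator (Subgroup.mem_top (xF 1)⁻¹)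
      (Subgroup.mem_top (xF 0)⁻¹)
    rw [commutatorElement_def, inv_inv, inv_inv] at this
    rw [← xF_rel 0 1 (by norm_num), ← mul_assoc, ← mul_assoc]
    exact this
  · intro h
    have h1 := congrArg (fun g => rho g 2) (inv_mul_eq_one.1 h)
    simp only [rho_xF] at h1
    rw [XX_mid (by norm_num) (by norm_num), XX_low (by norm_num)] at h1
    norm_num at h1

end Pool.Agent.Lib.MP_3e9be7_al
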