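import Mathlib

/-!
Two estimates on real numbers.
-/

namespace Pool.Agent.Lib.MP_3e9be7_al.H51

open Finset Real

theorem real_aux1 {a b : ℝ} (ha : 0 ≤ a) (hab : a ≤ b) :
    a + 4 * (a * log (1 + a) + b * log (1 + b)) ≤ 4 * ((a + b) * log (1 + (a + b))) +
      ((if a < 1 / 2 then a else 0) + if b < 1 / 2 then b else 0) := by
  have hb : 0 ≤ b := ha.trans hab
  have h1 := mul_le_mul_of_nonneg_left
    (log_le_log (by linarith) (by linarith : 1 + b ≤ 1 + (a + b))) hb
  have h2 : (0 : ℝ) ≤ if b < 1 / 2 then b else 0 := by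
    split_ifs
    · exact hb
    · exact le_rfl
  by_cases c : a < 1 / 2
  · have h3 := mul_le_mul_of_nonneg_left
      (log_le_log (by linarith) (by linarith : 1 + a ≤ 1 + (a + b))) ha
    rw [if_pos c]
    linarith
  · have h3 : log (1 + a) - log (1 + (a + b)) ≤ -(1 / 4) := by
      rw [← log_div (by linarith) (by linarith)]
      refine (log_le_sub_one_of_pos (by positivity)).trans ?_
      rw [sub_le_iff_le_add, div_le_iff₀ (by linarith)]
      linarith
    have h4 := mul_le_mul_of_nonneg_left h3 ha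
    rw [if_neg c]
    linarith

theorem real_aux2 {a b : ℝ} (ha : 0 ≤ a) (hb : 0 ≤ b) :
    min a b + 4 * (a * log (1 + a) + b * log (1 + b)) ≤ 4 * ((a + b) * log (1 + (a + b))) +
      ((if a < 1 / 2 then a else 0) + if b < 1 / 2 then b else 0) := by
  rcases le_total a b with h | h
  · rw [min_eq_left h]
    exact real_aux1 ha h
  · have := real_aux1 hb h
    rw [min_eq_right h, add_comm a b]
    linarith

theorem real_aux3 (g : Finset ℕ → ℝ) (j : ℕ) : ∑ σ ∈ (range (j + 1)).powerset, g σ =
    ∑ σ ∈ (range j).powerset, (g σ + g (insert j σ)) := by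
  rw [range_add_one, sum_powerset_insert notMem_range_self, sum_add_distrib]

theorem potential (k : ℕ) (w : ℕ → Finset ℕ → ℝ) (hw : ∀ j σ, 0 ≤ w j σ)
    (hs : ∀ j < k, ∀ σ ∈ (range j).powerset, w j σ = w (j + 1) σ + w (j + 1) (insert j σ))
    {D e : ℝ} (hD : ∑ σ ∈ (range k).powerset.erase ∅, w k σ ≤ D)
    (he : ∀ j ≤ k, ∑ σ ∈ (range j).powerset with w j σ < 1 / 2, w j σ ≤ e) :
    ∑ j ∈ range k, ∑ σ ∈ (range j).powerset,
      (if σ = ∅ then w (j + 1) (insert j σ) else min (w (j + 1) σ) (w (j + 1) (insert j σ))) ≤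
      4 * (D * (1 + log (1 + D))) + k * e := by
  have h1 : ∀ j ≤ k, ∑ σ ∈ (range j).powerset, (if σ = ∅ then 0 else w j σ) =
      ∑ i ∈ range j, w (i + 1) (insert i ∅) := by
    intro j hj
    induction j with
    | zero => simp
    | succ j ih =>
      rw [real_aux3, sum_range_succ, ← ih (by omega),
        ← sum_ite_eq_of_mem' (range j).powerset ∅ (fun σ => w (j + 1) (insert j σ)) (by simp),
        ← sum_add_distrib]
      refine sum_congr rfl fun σ hσ => ?_
      rw [hs j (by omega) σ hσ, if_neg (insert_ne_empty j σ)]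
      split_ifs <;> ring
  have h2 : ∑ i ∈ range k, w (i + 1) (insert i ∅) ≤ D := by
    rw [← h1 k le_rfl, ← sum_erase _ (a := ∅) (by simp)]
    exact (sum_congr rfl fun σ hσ => if_neg (ne_of_mem_erase hσ)).le.trans hD
  have D0 : 0 ≤ D := (sum_nonneg fun i _ => hw _ _).trans h2
  have L0 : 0 ≤ log (1 + D) := log_nonneg (by linarith)
  have h3 : ∀ j ≤ k, ∑ i ∈ range j, ∑ σ ∈ (range i).powerset,
      (if σ = ∅ then w (i + 1) (insert i σ) else min (w (i + 1) σ) (w (i + 1) (insert i σ))) +
      4 * ∑ σ ∈ (range j).powerset, (if σ = ∅ then 0 else w j σ * log (1 + w j σ)) ≤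
      (1 + 4 * log (1 + D)) * ∑ i ∈ range j, w (i + 1) (insert i ∅) + j * e := by
    intro j hj
    induction j with
    | zero => simp
    | succ j ih =>
      have a1 := he (j + 1) hj
      rw [sum_filter, real_aux3] at a1
      have a2 : w (j + 1) (insert j ∅) ≤ D :=
        (single_le_sum (f := fun i => w (i + 1) (insert i ∅)) (fun i _ => hw _ _)
          (mem_range.2 hj)).trans h2
      have a3 : ∑ σ ∈ (range j).powerset, ((if σ = ∅ then w (j + 1) (insert j σ) else
          min (w (j + 1) σ) (w (j + 1) (insert j σ))) +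
          4 * ((if σ = ∅ then 0 else w (j + 1) σ * log (1 + w (j + 1) σ)) +
            if insert j σ = ∅ then 0 else
              w (j + 1) (insert j σ) * log (1 + w (j + 1) (insert j σ)))) ≤
          ∑ σ ∈ (range j).powerset, (4 * (if σ = ∅ then 0 else w j σ * log (1 + w j σ)) +
            (if σ = ∅ then (1 + 4 * log (1 + D)) * w (j + 1) (insert j σ) else 0) +
            ((if w (j + 1) σ < 1 / 2 then w (j + 1) σ else 0) +
              if w (j + 1) (insert j σ) < 1 / 2 then w (j + 1) (insert j σ) else 0)) := by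
        refine sum_le_sum fun σ hσ => ?_
        rw [if_neg (insert_ne_empty j σ)]
        by_cases c : σ = ∅
        · subst c
          have b1 : 0 ≤ if w (j + 1) ∅ < 1 / 2 then w (j + 1) ∅ else 0 := by
            split_ifs
            · exact hw _ _
            · exact le_rfl
          have b2 : 0 ≤ if w (j + 1) (insert j ∅) < 1 / 2 then w (j + 1) (insert j ∅) else 0 := by
            split_ifs
            · exact hw _ _
            · exact le_rfl
          have b3 := mul_le_mul_of_nonneg_left (log_le_log (by linarith [hw (j + 1) (insert j ∅)])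
            (by linarith : 1 + w (j + 1) (insert j ∅) ≤ 1 + D)) (hw (j + 1) (insert j ∅))
          simp only [if_true]
          linarith
        · simp only [if_neg c]
          rw [hs j hj σ hσ]
          linarith [real_aux2 (hw (j + 1) σ) (hw (j + 1) (insert j σ))]
      simp only [sum_add_distrib, ← mul_sum] at a1 a3
      rw [sum_ite_eq_of_mem' _ ∅ (fun σ => (1 + 4 * log (1 + D)) * w (j + 1) (insert j σ))
        (by simp)] at a3
      rw [sum_range_succ, sum_range_succ, real_aux3, sum_add_distrib]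
      push_cast
      linarith [ih (by omega)]
  have h4 : 0 ≤ ∑ σ ∈ (range k).powerset, (if σ = ∅ then 0 else w k σ * log (1 + w k σ)) :=
    sum_nonneg fun σ _ => by
      split_ifs
      · exact le_rfl
      · exact mul_nonneg (hw _ _) (log_nonneg (by linarith [hw k σ]))
  have h5 := mul_le_mul_of_nonneg_left h2 (by linarith : 0 ≤ 1 + 4 * log (1 + D))
  linarith [h3 k le_rfl]

theorem log_self_bound (m : ℕ) {K : ℝ} (hK : 0 < K) : ∃ C : ℝ, 0 < C ∧ ∀ τ ε : ℝ, 0 ≤ τ → 0 ≤ ε →
    τ ≤ K * ε * log (2 + τ) ^ m → τ ≤ C * ε * log (2 + ε) ^ m := by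
  rcases Nat.eq_zero_or_pos m with rfl | hm
  · exact ⟨K, hK, fun τ ε _ _ h => by simpa using h⟩
  have m0 : (0 : ℝ) < m := by exact_mod_cast hm
  obtain ⟨c, c0, hc⟩ : ∃ c : ℝ, 0 < c ∧ c = K * (2 * m) ^ m := ⟨_, by positivity, rfl⟩
  have l2 : 0 < log 2 := log_pos one_lt_two
  have l3 : 0 ≤ log (1 + c) := log_nonneg (by linarith)
  refine ⟨K * (2 * (log (1 + c) / log 2 + 1)) ^ m, by positivity, fun τ ε h1 h2 h => ?_⟩
  have t0 : 0 ≤ log (2 + τ) := log_nonneg (by linarith)
  have a1 : log (2 + τ) ^ m ≤ (2 * m) ^ m * √(2 + τ) := by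
    refine (pow_le_pow_left₀ t0 (log_le_rpow_div (by linarith)
      (show (0 : ℝ) < 1 / (2 * m) by positivity)) m).trans (le_of_eq ?_)
    rw [div_div_eq_mul_div, div_one, mul_pow, ← rpow_natCast (_ ^ _), ← rpow_mul (by linarith),
      sqrt_eq_rpow, mul_comm]
    congr 2
    field_simp
  have a2 : τ ≤ c * ε * √(2 + τ) := by
    have := mul_le_mul_of_nonneg_left a1 (mul_nonneg hK.le h2)
    rw [hc]
    linarith
  have s0 : 0 < √(2 + τ) := sqrt_pos.2 (by linarith)
  have s1 := mul_self_sqrt (show 0 ≤ 2 + τ by linarith)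
  have ce := mul_nonneg c0.le h2
  have a3 : √(2 + τ) ≤ (1 + c) * (2 + ε) := by
    by_contra k
    rw [not_le] at k
    nlinarith
  have a4 : log 2 ≤ log (2 + ε) := log_le_log two_pos (by linarith)
  have a5 : log (2 + τ) ≤ 2 * (log (1 + c) / log 2 + 1) * log (2 + ε) := by
    have b1 := log_le_log s0 a3
    rw [log_sqrt (by linarith), log_mul (by linarith) (by linarith)] at b1
    have b2 := mul_le_mul_of_nonneg_left a4 (div_nonneg l3 l2.le)
    rw [div_mul_cancel₀ _ l2.ne'] at b2
    linarith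
  have a6 := mul_le_mul_of_nonneg_left (pow_le_pow_left₀ t0 a5 m) (mul_nonneg hK.le h2)
  rw [mul_pow] at a6
  linarith

end Pool.Agent.Lib.MP_3e9be7_al.H51
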