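import Pool.Agent.Lib.MP_3e9be7_al.H51Fr
import Pool.Agent.Lib.MP_3e9be7_al.H51Real

/-!
Sequential measurement of almost commuting projections.
-/

namespace Pool.Agent.Lib.MP_3e9be7_al.H51

open Matrix Finset

variable {n : Type} [Fintype n] [DecidableEq n]

/-- The product of the projections `P i` (for `i ∈ σ`) and `1 - P i` (for `i ∉ σ`), `i < j`. -/
noncomputable def KK (P : ℕ → Matrix n n ℂ) : ℕ → Finset ℕ → Matrix n n ℂ
  | 0, _ => 1
  | j + 1, σ => (if j ∈ σ then P j else 1 - P j) * KK P j σ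

/-- The bit `i` of the pattern `σ`. -/
noncomputable def bit (i : ℕ) (σ : Finset ℕ) : ℂ := if i ∈ σ then 1 else 0

variable {P : ℕ → Matrix n n ℂ}

lemma KK_congr (j : ℕ) {σ τ : Finset ℕ} (h : ∀ i < j, i ∈ σ ↔ i ∈ τ) : KK P j σ = KK P j τ := by
  induction j with
  | zero => rfl
  | succ j ih =>
    simp only [KK, h j (Nat.lt_succ_self j), ih fun i hi => h i (Nat.lt_succ_of_lt hi)]

lemma KK_insert (j : ℕ) (σ : Finset ℕ) : KK P (j + 1) (insert j σ) = P j * KK P j σ := by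
  rw [KK, if_pos (mem_insert_self _ _), KK_congr j (τ := σ) fun i hi => by simp [hi.ne]]

lemma KK_not {j : ℕ} {σ : Finset ℕ} (h : σ ∈ (range j).powerset) :
    KK P (j + 1) σ = (1 - P j) * KK P j σ := by
  rw [KK, if_neg fun hj => by simpa using mem_powerset.1 h hj]

lemma sum_succ {M : Type} [AddCommMonoid M] (j : ℕ) (f : Finset ℕ → M) :
    ∑ σ ∈ (range (j + 1)).powerset, f σ = ∑ σ ∈ (range j).powerset, (f σ + f (insert j σ)) := by
  rw [range_add_one, sum_powerset_insert notMem_range_self, sum_add_distrib]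

lemma fr_split {Q : Matrix n n ℂ} (h1 : Qᴴ = Q) (h2 : Q * Q = Q) (Z : Matrix n n ℂ) :
    fr ((1 - Q) * Z) + fr (Q * Z) = fr Z := by
  have := sum_fr_left (s := (univ : Finset Bool)) (K := fun b => if b then 1 - Q else Q) (by
    simp only [Fintype.sum_bool, if_true, Bool.false_eq_true, if_false, conjTranspose_sub,
      conjTranspose_one, h1, mul_sub, sub_mul, h2, mul_one, one_mul]
    abel) Z
  simpa using this

section
variable (hP : ∀ i, (P i)ᴴ = P i) (hP2 : ∀ i, P i * P i = P i)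
include hP hP2

lemma iso_left (j : ℕ) : ∑ σ ∈ (range j).powerset, (KK P j σ)ᴴ * KK P j σ = 1 := by
  induction j with
  | zero => simp [KK]
  | succ j ih =>
    rw [sum_succ, ← ih]
    refine sum_congr rfl fun σ hσ => ?_
    rw [KK_insert, KK_not hσ]
    simp only [conjTranspose_mul, conjTranspose_sub, conjTranspose_one, hP]
    have e : (KK P j σ)ᴴ * (1 - P j) * ((1 - P j) * KK P j σ) + (KK P j σ)ᴴ * P j * (P j * KK P j σ)
        = (KK P j σ)ᴴ * (1 - P j - P j + P j * P j + P j * P j) * KK P j σ := by noncomm_ring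
    rw [e, hP2]; noncomm_ring

lemma iso_right (j : ℕ) : ∑ σ ∈ (range j).powerset, KK P j σ * (KK P j σ)ᴴ = 1 := by
  induction j with
  | zero => simp [KK]
  | succ j ih =>
    rw [sum_succ]
    calc _ = ∑ σ ∈ (range j).powerset, ((1 - P j) * (KK P j σ * (KK P j σ)ᴴ) * (1 - P j) +
          P j * (KK P j σ * (KK P j σ)ᴴ) * P j) := by
          refine sum_congr rfl fun σ hσ => ?_
          rw [KK_insert, KK_not hσ]
          simp only [conjTranspose_mul, conjTranspose_sub, conjTranspose_one, hP, mul_assoc]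
      _ = (1 - P j) * 1 * (1 - P j) + P j * 1 * P j := by
          rw [sum_add_distrib, ← sum_mul, ← sum_mul, ← mul_sum, ← mul_sum, ih]
      _ = 1 - P j - P j + P j * P j + P j * P j := by noncomm_ring
      _ = 1 := by rw [hP2]; abel

lemma sum_fr_star (j : ℕ) (Z : Matrix n n ℂ) :
    ∑ σ ∈ (range j).powerset, fr (Z * (KK P j σ)ᴴ) = fr Z :=
  sum_fr_right (K := fun σ => (KK P j σ)ᴴ) (by simpa using iso_left hP hP2 j) Z

lemma comm_bound {Y : Matrix n n ℂ} {η : ℝ} (hη : 0 ≤ η) (j : ℕ)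
    (h : ∀ i < j, fr (P i * Y - Y * P i) ≤ η) :
    ∑ σ ∈ (range j).powerset, fr (KK P j σ * Y - Y * KK P j σ) ≤ 2 * ((j : ℝ) + 1) ^ 2 * η := by
  induction j with
  | zero => simp [KK, fr_zero, hη]
  | succ j ih =>
    have ih := ih fun i hi => h i (Nat.lt_succ_of_lt hi)
    have hj := h j (Nat.lt_succ_self j)
    have hs : (0 : ℝ) < 1 / (j + 1) := by positivity
    rw [sum_succ]
    have key : ∀ σ ∈ (range j).powerset,
        fr (KK P (j + 1) σ * Y - Y * KK P (j + 1) σ) +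
          fr (KK P (j + 1) (insert j σ) * Y - Y * KK P (j + 1) (insert j σ)) ≤
        (1 + 1 / (j + 1)) * fr (KK P j σ * Y - Y * KK P j σ) +
          2 * (j + 2) * fr ((P j * Y - Y * P j) * KK P j σ) := by
      intro σ hσ
      rw [KK_insert, KK_not hσ]
      have e1 : (1 - P j) * KK P j σ * Y - Y * ((1 - P j) * KK P j σ) =
          (1 - P j) * (KK P j σ * Y - Y * KK P j σ) + -((P j * Y - Y * P j) * KK P j σ) := by
        noncomm_ring
      have e2 : P j * KK P j σ * Y - Y * (P j * KK P j σ) =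
          P j * (KK P j σ * Y - Y * KK P j σ) + (P j * Y - Y * P j) * KK P j σ := by
        noncomm_ring
      rw [e1, e2]
      have a1 := fr_add_le hs ((1 - P j) * (KK P j σ * Y - Y * KK P j σ))
        (-((P j * Y - Y * P j) * KK P j σ))
      have a2 := fr_add_le hs (P j * (KK P j σ * Y - Y * KK P j σ))
        ((P j * Y - Y * P j) * KK P j σ)
      rw [fr_neg, one_div_one_div] at a1
      rw [one_div_one_div] at a2
      rw [← fr_split (hP j) (hP2 j) (KK P j σ * Y - Y * KK P j σ)]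
      linarith
    refine (sum_le_sum key).trans ?_
    rw [sum_add_distrib, ← mul_sum, ← mul_sum, sum_fr_right (iso_right hP hP2 j)]
    have b1 : (1 + 1 / ((j : ℝ) + 1)) * (2 * ((j : ℝ) + 1) ^ 2 * η) = 2 * (j + 1) * (j + 2) * η := by
      field_simp; ring
    have b2 := mul_le_mul_of_nonneg_left ih (show (0 : ℝ) ≤ 1 + 1 / (j + 1) by positivity)
    have b3 := mul_le_mul_of_nonneg_left hj (show (0 : ℝ) ≤ 2 * (j + 2) by positivity)
    push_cast
    nlinarith

lemma bit_bound (i j : ℕ) (hij : i < j) :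
    ∑ σ ∈ (range j).powerset, fr (KK P j σ * P i - bit i σ • KK P j σ) =
      ∑ σ ∈ (range i).powerset, fr (KK P i σ * P i - P i * KK P i σ) := by
  induction j, hij using Nat.le_induction with
  | base =>
    rw [sum_succ]
    refine sum_congr rfl fun σ hσ => ?_
    have hi : i ∉ σ := fun hj => by simpa using mem_powerset.1 hσ hj
    rw [KK_insert, KK_not hσ, bit, bit, if_neg hi, if_pos (mem_insert_self _ _), zero_smul,
      one_smul, ← fr_split (hP i) (hP2 i) (KK P i σ * P i - P i * KK P i σ)]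
    congr 2
    · have : (1 - P i) * (KK P i σ * P i - P i * KK P i σ) =
        (1 - P i) * KK P i σ * P i - (P i - P i * P i) * KK P i σ := by noncomm_ring
      rw [this, hP2]; simp
    · have : P i * (KK P i σ * P i - P i * KK P i σ) =
        P i * KK P i σ * P i - P i * P i * KK P i σ := by noncomm_ring
      rw [this, hP2]
  | succ j hij ih =>
    rw [sum_succ, ← ih]
    refine sum_congr rfl fun σ hσ => ?_
    have hb : bit i (insert j σ) = bit i σ := by
      have : i ≠ j := by omega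
      simp [bit, this]
    rw [KK_insert, KK_not hσ, hb, ← fr_split (hP j) (hP2 j) (KK P j σ * P i - bit i σ • KK P j σ)]
    simp only [mul_sub, mul_smul_comm, mul_assoc]

lemma intertwine {U : Matrix n n ℂ} (hU : U ∈ unitaryGroup n ℂ) {i l j : ℕ} {d : ℝ}
    (h : P i * U = U * P l)
    (hi : ∑ σ ∈ (range j).powerset, fr (KK P j σ * P i - bit i σ • KK P j σ) ≤ d)
    (hl : ∑ σ ∈ (range j).powerset, fr (KK P j σ * P l - bit l σ • KK P j σ) ≤ d) :
    ∑ σ ∈ (range j).powerset, ∑ τ ∈ (range j).powerset,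
      (if (i ∈ σ ↔ l ∈ τ) then 0 else fr (KK P j σ * U * (KK P j τ)ᴴ)) ≤ 4 * d := by
  have key : ∀ σ τ : Finset ℕ, (if (i ∈ σ ↔ l ∈ τ) then 0 else fr (KK P j σ * U * (KK P j τ)ᴴ)) ≤
      2 * fr ((KK P j σ * P i - bit i σ • KK P j σ) * U * (KK P j τ)ᴴ) +
        2 * fr (KK P j σ * (U * (KK P j τ * P l - bit l τ • KK P j τ)ᴴ)) := by
    intro σ τ
    have e : (bit l τ - bit i σ) • (KK P j σ * U * (KK P j τ)ᴴ) =
        (KK P j σ * P i - bit i σ • KK P j σ) * U * (KK P j τ)ᴴ -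
          KK P j σ * (U * (KK P j τ * P l - bit l τ • KK P j τ)ᴴ) := by
      have hb : star (bit l τ) = bit l τ := by unfold bit; split_ifs <;> simp
      have h' : KK P j σ * P i * U = KK P j σ * U * P l := by rw [mul_assoc, h, mul_assoc]
      simp only [conjTranspose_sub, conjTranspose_mul, conjTranspose_smul, hP, hb, sub_mul, mul_sub,
        smul_mul_assoc, mul_smul_comm, sub_smul, h', mul_assoc]
      abel
    have h1 := fr_sub_two ((KK P j σ * P i - bit i σ • KK P j σ) * U * (KK P j τ)ᴴ)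
      (KK P j σ * (U * (KK P j τ * P l - bit l τ • KK P j τ)ᴴ))
    rw [← e, fr_smul] at h1
    refine le_trans ?_ h1
    split_ifs with hc
    · exact mul_nonneg (by positivity) (fr_nonneg _)
    · have : ‖bit l τ - bit i σ‖ = 1 := by
        unfold bit
        by_cases h1 : i ∈ σ <;> by_cases h2 : l ∈ τ <;> simp_all
      rw [this]; simp
  refine (sum_le_sum fun σ _ => sum_le_sum fun τ _ => key σ τ).trans ?_
  simp only [sum_add_distrib, ← mul_sum, sum_fr_star hP hP2, fr_unit_right hU]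
  rw [sum_comm]
  simp only [sum_fr_left (iso_left hP hP2 j), fr_unit_left hU, fr_conjT]
  linarith

lemma offdiag {j : ℕ} {d : ℝ}
    (hd : ∀ i < j, ∑ σ ∈ (range j).powerset, fr (KK P j σ * P i - bit i σ • KK P j σ) ≤ d) :
    ∑ σ ∈ (range j).powerset, (fr (KK P j σ) - fr (KK P j σ * (KK P j σ)ᴴ)) ≤ j * (4 * d) := by
  have h1 : ∀ σ ∈ (range j).powerset, fr (KK P j σ) - fr (KK P j σ * (KK P j σ)ᴴ) ≤
      ∑ τ ∈ (range j).powerset, ∑ i ∈ range j,
        (if (i ∈ σ ↔ i ∈ τ) then 0 else fr (KK P j σ * 1 * (KK P j τ)ᴴ)) := by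
    intro σ hσ
    rw [← sum_fr_star hP hP2 j (KK P j σ), ← add_sum_erase _ _ hσ, ← add_sum_erase _ _ hσ]
    have h0 : 0 ≤ ∑ i ∈ range j,
        (if (i ∈ σ ↔ i ∈ σ) then 0 else fr (KK P j σ * 1 * (KK P j σ)ᴴ)) := by simp
    have h2 : ∑ τ ∈ (range j).powerset.erase σ, fr (KK P j σ * (KK P j τ)ᴴ) ≤
        ∑ τ ∈ (range j).powerset.erase σ, ∑ i ∈ range j,
        (if (i ∈ σ ↔ i ∈ τ) then 0 else fr (KK P j σ * 1 * (KK P j τ)ᴴ)) := by
      refine sum_le_sum fun τ hτ => ?_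
      obtain ⟨hne, hτ⟩ := mem_erase.1 hτ
      obtain ⟨i, hi⟩ : ∃ i, ¬ (i ∈ σ ↔ i ∈ τ) := by
        by_contra hc
        push Not at hc
        exact hne (Finset.ext hc).symm
      have hij : i ∈ range j := by
        by_contra hc
        exact hi ⟨fun h => absurd (mem_powerset.1 hσ h) hc, fun h => absurd (mem_powerset.1 hτ h) hc⟩
      refine le_trans ?_ (single_le_sum (f := fun i =>
        if (i ∈ σ ↔ i ∈ τ) then 0 else fr (KK P j σ * 1 * (KK P j τ)ᴴ)) (fun i _ => ?_) hij)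
      · simp [hi]
      · split_ifs
        · exact le_rfl
        · exact fr_nonneg _
    linarith
  refine (sum_le_sum h1).trans ?_
  simp only [sum_comm (s := (range j).powerset) (t := range j)]
  refine (sum_le_sum fun i hi => intertwine hP hP2 (one_mem _) (by simp) (hd i (mem_range.1 hi))
    (hd i (mem_range.1 hi))).trans ?_
  simp

lemma diag_le (j : ℕ) {σ : Finset ℕ} (hσ : σ ∈ (range j).powerset) (Z : Matrix n n ℂ) :
    fr (Z * (KK P j σ)ᴴ) ≤ fr Z := by
  rw [← sum_fr_star hP hP2 j Z]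
  exact single_le_sum (f := fun σ => fr (Z * (KK P j σ)ᴴ)) (fun _ _ => fr_nonneg _) hσ

lemma light {j : ℕ} {d : ℝ}
    (hd : ∀ i < j, ∑ σ ∈ (range j).powerset, fr (KK P j σ * P i - bit i σ • KK P j σ) ≤ d) :
    ∑ σ ∈ (range j).powerset with fr (KK P j σ) < 1 / 2, fr (KK P j σ) ≤ j * (8 * d) := by
  have h1 := offdiag hP hP2 hd
  have h2 : ∑ σ ∈ (range j).powerset with fr (KK P j σ) < 1 / 2, fr (KK P j σ) ≤
      ∑ σ ∈ (range j).powerset, 2 * (fr (KK P j σ) - fr (KK P j σ * (KK P j σ)ᴴ)) := by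
    rw [sum_filter]
    refine sum_le_sum fun σ hσ => ?_
    have a1 := diag_le hP hP2 j hσ (KK P j σ)
    have a2 := fr_mul_le (KK P j σ) (KK P j σ)ᴴ
    rw [fr_conjT] at a2
    have a3 := fr_nonneg (KK P j σ)
    split_ifs with hc
    · nlinarith
    · linarith
  rw [← mul_sum] at h2
  linarith

lemma nonconst {k : ℕ} {d ρ : ℝ} (hd0 : 0 ≤ d)
    (hd : ∀ i < k, ∑ σ ∈ (range k).powerset, fr (KK P k σ * P i - bit i σ • KK P k σ) ≤ d)
    {U X : Matrix n n ℂ} (hU : U ∈ unitaryGroup n ℂ) (c : ℕ → ℕ) (hc : ∀ j, P (c j) * U = U * P j)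
    (hX : fr X ≤ ρ) (hX' : ∀ Z, fr (Z * (1 - U - X)) ≤ fr Z / 4) :
    ∑ σ ∈ (range k).powerset with (∃ j < k, c j < k ∧ ¬ (c j ∈ σ ↔ j ∈ σ)), fr (KK P k σ) ≤
      k * (64 * d) + 12 * ρ := by
  classical
  set T := (range k).powerset.filter fun σ => ∃ j < k, c j < k ∧ ¬ (c j ∈ σ ↔ j ∈ σ) with hT
  have hsub : T ⊆ (range k).powerset := filter_subset _ _
  have h1 : ∑ σ ∈ T, (fr (KK P k σ) - fr (KK P k σ * (KK P k σ)ᴴ)) ≤ k * (4 * d) :=
    (sum_le_sum_of_subset_of_nonneg hsub fun σ hσ _ =>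
      sub_nonneg.2 (diag_le hP hP2 k hσ _)).trans (offdiag hP hP2 hd)
  have h2 : ∑ σ ∈ T, fr (KK P k σ * U * (KK P k σ)ᴴ) ≤ k * (4 * d) := by
    have a1 : ∀ σ ∈ T, fr (KK P k σ * U * (KK P k σ)ᴴ) ≤ ∑ j ∈ range k with c j < k,
        ∑ τ ∈ (range k).powerset,
          (if (c j ∈ σ ↔ j ∈ τ) then 0 else fr (KK P k σ * U * (KK P k τ)ᴴ)) := by
      intro σ hσ
      obtain ⟨hσ, j, hj, hcj, hne⟩ := mem_filter.1 hσ
      have nn : ∀ j τ, 0 ≤ (if (c j ∈ σ ↔ j ∈ τ) then 0 else fr (KK P k σ * U * (KK P k τ)ᴴ)) :=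
        fun j τ => by split_ifs; exacts [le_rfl, fr_nonneg _]
      refine le_trans ?_ (single_le_sum (f := fun j => ∑ τ ∈ (range k).powerset,
          (if (c j ∈ σ ↔ j ∈ τ) then 0 else fr (KK P k σ * U * (KK P k τ)ᴴ)))
          (fun j _ => sum_nonneg fun τ _ => nn j τ) (mem_filter.2 ⟨mem_range.2 hj, hcj⟩))
      refine le_trans ?_ (single_le_sum (f := fun τ =>
          (if (c j ∈ σ ↔ j ∈ τ) then 0 else fr (KK P k σ * U * (KK P k τ)ᴴ)))
          (fun τ _ => nn j τ) hσ)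
      simp [hne]
    refine (sum_le_sum a1).trans ((sum_le_sum_of_subset_of_nonneg hsub fun σ _ _ =>
      sum_nonneg fun j _ => sum_nonneg fun τ _ => by
        split_ifs; exacts [le_rfl, fr_nonneg _]).trans ?_)
    rw [sum_comm]
    refine (sum_le_sum fun j hj => intertwine hP hP2 hU (hc j) (hd _ (mem_filter.1 hj).2)
      (hd _ (mem_range.1 (mem_filter.1 hj).1))).trans ?_
    rw [sum_const, nsmul_eq_mul]
    gcongr
    exact_mod_cast (card_filter_le _ _).trans (card_range k).le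
  have h3 : ∑ σ ∈ T, fr (KK P k σ * X) ≤ ρ := by
    refine (sum_le_sum_of_subset_of_nonneg hsub fun σ _ _ => fr_nonneg _).trans ?_
    rwa [sum_fr_left (iso_left hP hP2 k)]
  have h4 : ∀ σ ∈ T, fr (KK P k σ * (KK P k σ)ᴴ) ≤ 3 * fr (KK P k σ * U * (KK P k σ)ᴴ) +
      3 * fr (KK P k σ * X) + 3 / 4 * fr (KK P k σ) := by
    intro σ hσ
    have e : KK P k σ * (KK P k σ)ᴴ = KK P k σ * U * (KK P k σ)ᴴ + KK P k σ * X * (KK P k σ)ᴴ +
        KK P k σ * (1 - U - X) * (KK P k σ)ᴴ := by noncomm_ring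
    have a1 := fr_add_three (KK P k σ * U * (KK P k σ)ᴴ) (KK P k σ * X * (KK P k σ)ᴴ)
      (KK P k σ * (1 - U - X) * (KK P k σ)ᴴ)
    have a2 := diag_le hP hP2 k (hsub hσ) (KK P k σ * X)
    have a3 := diag_le hP hP2 k (hsub hσ) (KK P k σ * (1 - U - X))
    have a4 := hX' (KK P k σ)
    rw [← e] at a1
    linarith
  have h5 := sum_le_sum h4
  simp only [sum_add_distrib, ← mul_sum, sum_sub_distrib] at h1 h5
  linarith

lemma predict (j : ℕ) (g : Finset ℕ → Prop) [DecidablePred g] {B : Matrix n n ℂ}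
    (hB : B ∈ unitaryGroup n ℂ) {d : ℝ}
    (h1 : ∑ σ ∈ (range j).powerset, fr (KK P j σ * P j - P j * KK P j σ) ≤ d)
    (h2 : ∑ σ ∈ (range j).powerset, fr (KK P j σ * B - B * KK P j σ) ≤ d)
    (h3 : ∑ σ ∈ (range j).powerset, fr (KK P j σ * Bᴴ - Bᴴ * KK P j σ) ≤ d) :
    fr (P j * B - B * P j) ≤ 24 * d + 16 * ∑ σ ∈ (range j).powerset,
      (if g σ then fr (KK P (j + 1) σ) else fr (KK P (j + 1) (insert j σ))) := by
  have iso := iso_left hP hP2 j
  set G := ∑ σ ∈ (range j).powerset, (KK P j σ)ᴴ * (if g σ then KK P j σ else 0) with hG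
  have a1 : fr (P j - G) ≤ 2 * d + 2 * ∑ σ ∈ (range j).powerset,
      (if g σ then fr (KK P (j + 1) σ) else fr (KK P (j + 1) (insert j σ))) := by
    have e : P j - G = ∑ σ ∈ (range j).powerset, (KK P j σ)ᴴ *
        (KK P j σ * P j - if g σ then KK P j σ else 0) := by
      simp only [mul_sub, sum_sub_distrib, ← mul_assoc, ← sum_mul, iso, one_mul, hG]
    rw [e]
    refine (stack iso _).trans ?_
    refine le_trans (sum_le_sum (g := fun σ => 2 * fr (KK P j σ * P j - P j * KK P j σ) +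
      2 * (if g σ then fr (KK P (j + 1) σ) else fr (KK P (j + 1) (insert j σ))))
      fun σ hσ => ?_) ?_
    · rw [KK_insert, KK_not hσ]
      split_ifs
      · refine le_of_eq_of_le (congrArg fr ?_) (fr_sub_two _ _)
        noncomm_ring
      · refine le_of_eq_of_le (congrArg fr ?_) (fr_add_two _ _)
        noncomm_ring
    · rw [sum_add_distrib, ← mul_sum, ← mul_sum]
      linarith
  have a2 : fr (G * B - B * G) ≤ 4 * d := by
    have e : G * B - B * G = ∑ σ ∈ (range j).powerset, (KK P j σ)ᴴ *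
        (if g σ then KK P j σ * B - B * KK P j σ else 0) -
        (∑ σ ∈ (range j).powerset, (KK P j σ)ᴴ *
        (if g σ then KK P j σ * Bᴴ - Bᴴ * KK P j σ else 0))ᴴ := by
      rw [hG, conjTranspose_sum, sum_mul, mul_sum, ← sum_sub_distrib, ← sum_sub_distrib]
      refine sum_congr rfl fun σ _ => ?_
      split_ifs
      · simp only [conjTranspose_mul, conjTranspose_sub, conjTranspose_conjTranspose]
        noncomm_ring
      · simp
    have b : ∀ Y : Matrix n n ℂ, ∑ σ ∈ (range j).powerset,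
        fr (if g σ then KK P j σ * Y - Y * KK P j σ else 0) ≤
        ∑ σ ∈ (range j).powerset, fr (KK P j σ * Y - Y * KK P j σ) := fun Y =>
      sum_le_sum fun σ _ => by
        split_ifs
        · exact le_rfl
        · rw [fr_zero]; exact fr_nonneg _
    have b1 := ((stack iso _).trans (b B)).trans h2
    have b2 := ((stack iso _).trans (b Bᴴ)).trans h3
    rw [e]
    refine (fr_sub_two _ _).trans ?_
    rw [fr_conjT]
    linarith
  have a3 := fr_sub_two ((P j - G) * B) (B * (P j - G))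
  rw [fr_unit_left hB, fr_unit_right hB] at a3
  have a4 := fr_add_two ((P j - G) * B - B * (P j - G)) (G * B - B * G)
  rw [show (P j - G) * B - B * (P j - G) + (G * B - B * G) = P j * B - B * P j by noncomm_ring] at a4
  linarith

theorem core {k : ℕ} (hk : 1 ≤ k) {B : ℕ → Matrix n n ℂ} {U V X Y : Matrix n n ℂ} {η ρ β : ℝ}
    (hη : 0 ≤ η) (hB : ∀ i, B i ∈ unitaryGroup n ℂ) (hU : U ∈ unitaryGroup n ℂ)
    (hV : V ∈ unitaryGroup n ℂ) (h1 : ∀ j, P (2 * j + 1) * U = U * P j)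
    (h2 : ∀ j, P (2 * j + 2) * V = V * P j) (hX : fr X ≤ ρ)
    (hX' : ∀ Z, fr (Z * (1 - U - X)) ≤ fr Z / 4) (hY : fr Y ≤ ρ)
    (hY' : ∀ Z, fr (Z * (1 - V - Y)) ≤ fr Z / 4) (h0 : fr (P 0) ≤ ρ)
    (hPP : ∀ l < k, ∀ i < l, fr (P i * P l - P l * P i) ≤ η)
    (hPB : ∀ l < k, ∀ i < l, fr (P i * B l - B l * P i) ≤ η)
    (hβ : ∀ j < k, β ≤ fr (P j * B j - B j * P j)) :
    k * β ≤ 64 * ((26 * ρ + 260 * k ^ 3 * η) * (1 + Real.log (1 + (26 * ρ + 260 * k ^ 3 * η)))) +
      304 * k ^ 4 * η := by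
  classical
  have hk1 : (1 : ℝ) ≤ k := by exact_mod_cast hk
  set d : ℝ := 2 * k ^ 2 * η with hd
  have hd0 : 0 ≤ d := by positivity
  have cb : ∀ j < k, ∀ Z : Matrix n n ℂ, (∀ i < j, fr (P i * Z - Z * P i) ≤ η) →
      ∑ σ ∈ (range j).powerset, fr (KK P j σ * Z - Z * KK P j σ) ≤ d := by
    intro j hj Z hZ
    refine (comm_bound hP hP2 hη j hZ).trans ?_
    have : (j : ℝ) + 1 ≤ k := by exact_mod_cast hj
    rw [hd]; gcongr
  have bb : ∀ j ≤ k, ∀ i < j,
      ∑ σ ∈ (range j).powerset, fr (KK P j σ * P i - bit i σ • KK P j σ) ≤ d := by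
    intro j hj i hi
    rw [bit_bound hP hP2 i j hi]
    exact cb i (by omega) _ (hPP i (by omega))
  have n1 := nonconst hP hP2 hd0 (bb k le_rfl) hU (fun j => 2 * j + 1) h1 hX hX'
  have n2 := nonconst hP hP2 hd0 (bb k le_rfl) hV (fun j => 2 * j + 2) h2 hY hY'
  have n0 : ∑ σ ∈ (range k).powerset with 0 ∈ σ, fr (KK P k σ) ≤ 2 * ρ + 2 * d := by
    have a1 : ∑ σ ∈ (range k).powerset with 0 ∈ σ, fr (KK P k σ) ≤ ∑ σ ∈ (range k).powerset,
        (2 * fr (KK P k σ * P 0) + 2 * fr (KK P k σ * P 0 - bit 0 σ • KK P k σ)) := by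
      rw [sum_filter]
      refine sum_le_sum fun σ _ => ?_
      split_ifs with h
      · refine le_of_eq_of_le (congrArg fr ?_) (fr_sub_two _ _)
        simp [bit, h]
      · have := fr_nonneg (KK P k σ * P 0)
        have := fr_nonneg (KK P k σ * P 0 - bit 0 σ • KK P k σ)
        positivity
    rw [sum_add_distrib, ← mul_sum, ← mul_sum, sum_fr_left (iso_left hP hP2 k)] at a1
    linarith [bb k le_rfl 0 hk]
  have hD : ∑ σ ∈ (range k).powerset.erase ∅, fr (KK P k σ) ≤ 26 * ρ + 260 * k ^ 3 * η := by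
    have a1 : ∑ σ ∈ (range k).powerset.erase ∅, fr (KK P k σ) ≤ ∑ σ ∈ (range k).powerset,
        ((if 0 ∈ σ then fr (KK P k σ) else 0) +
        (if (∃ j < k, 2 * j + 1 < k ∧ ¬ (2 * j + 1 ∈ σ ↔ j ∈ σ)) then fr (KK P k σ) else 0) +
        (if (∃ j < k, 2 * j + 2 < k ∧ ¬ (2 * j + 2 ∈ σ ↔ j ∈ σ)) then fr (KK P k σ) else 0)) := by
      refine (sum_le_sum fun σ hσ => ?_).trans (sum_le_sum_of_subset_of_nonneg (erase_subset _ _)
        fun σ _ _ => by have := fr_nonneg (KK P k σ); positivity)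
      obtain ⟨hne, hσ⟩ := mem_erase.1 hσ
      have hn := fr_nonneg (KK P k σ)
      have hne' : σ.Nonempty := nonempty_iff_ne_empty.2 hne
      have m1 := σ.min'_mem hne'
      have m2 : ∀ j, j < σ.min' hne' → j ∉ σ := fun j hj h => absurd (σ.min'_le j h) (by omega)
      have m3 : σ.min' hne' < k := mem_range.1 (mem_powerset.1 hσ m1)
      generalize σ.min' hne' = m at m1 m2 m3
      have c : m = 0 ∨ (∃ j, m = 2 * j + 1) ∨ ∃ j, m = 2 * j + 2 := by
        rcases Nat.even_or_odd' m with ⟨j, h | h⟩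
        · rcases j with _ | j
          · exact Or.inl h
          · exact Or.inr (Or.inr ⟨j, by omega⟩)
        · exact Or.inr (Or.inl ⟨j, h⟩)
      rcases c with rfl | ⟨j, rfl⟩ | ⟨j, rfl⟩
      · rw [if_pos m1]
        split_ifs <;> linarith
      · rw [if_pos (⟨j, by omega, m3, fun h => m2 j (by omega) (h.1 m1)⟩ :
          ∃ j < k, 2 * j + 1 < k ∧ ¬ (2 * j + 1 ∈ σ ↔ j ∈ σ))]
        split_ifs <;> linarith
      · rw [if_pos (⟨j, by omega, m3, fun h => m2 j (by omega) (h.1 m1)⟩ :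
          ∃ j < k, 2 * j + 2 < k ∧ ¬ (2 * j + 2 ∈ σ ↔ j ∈ σ))]
        split_ifs <;> linarith
    rw [sum_add_distrib, sum_add_distrib, ← sum_filter, ← sum_filter, ← sum_filter] at a1
    have a2 : d ≤ k * d := le_mul_of_one_le_left hd0 hk1
    have a3 : k * d = 2 * k ^ 3 * η := by rw [hd]; ring
    linarith
  have pot := potential k (fun j σ => fr (KK P j σ)) (fun _ _ => fr_nonneg _)
    (fun j _ σ hσ => by rw [KK_insert, KK_not hσ, fr_split (hP j) (hP2 j)]) hD (e := k * (8 * d))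
    (fun j hj => (light hP hP2 (bb j hj)).trans (by gcongr))
  have pr : ∀ j ∈ range k, β ≤ 24 * d + 16 * ∑ σ ∈ (range j).powerset,
      (if σ = ∅ then fr (KK P (j + 1) (insert j σ)) else
        min (fr (KK P (j + 1) σ)) (fr (KK P (j + 1) (insert j σ)))) := by
    intro j hj
    have hj := mem_range.1 hj
    have a1 := predict hP hP2 j
      (fun σ => σ ≠ ∅ ∧ fr (KK P (j + 1) σ) ≤ fr (KK P (j + 1) (insert j σ))) (hB j)
      (cb j hj _ (hPP j hj)) (cb j hj _ (hPB j hj)) (cb j hj _ fun i hi => by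
        have := hPB j hj i hi
        rwa [← fr_conjT, conjTranspose_sub, conjTranspose_mul, conjTranspose_mul, hP,
          fr_sub_comm] at this)
    refine ((hβ j hj).trans a1).trans (le_of_eq ?_)
    congr 2
    refine sum_congr rfl fun σ _ => ?_
    by_cases h : σ = ∅
    · simp [h]
    · simp only [h, ne_eq, not_false_eq_true, true_and, if_false, min_def]
  have s := sum_le_sum pr
  rw [sum_add_distrib, sum_const, sum_const, ← mul_sum, card_range, nsmul_eq_mul,
    nsmul_eq_mul] at s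
  have a2 : k * d ≤ k * (k * d) := le_mul_of_one_le_left (by positivity) hk1
  have a3 : k * (k * d) = 2 * k ^ 4 * η := by rw [hd]; ring
  linarith

end

end Pool.Agent.Lib.MP_3e9be7_al.H51
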