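import Mathlib

/-!
The Schatten norm of a complex square matrix.
-/

namespace Pool.Agent.Lib.MP_3e9be7_al.H51

/-- The Schatten `p`-norm of a `d × d` complex matrix: the `ℓ^p` norm of its `d` singular
values. It is not normalised by the dimension; `p = 2` gives the Frobenius norm. -/
noncomputable def schatten (p : ℝ) {d : ℕ} (X : Matrix (Fin d) (Fin d) ℂ) : ℝ :=
  (∑ i ∈ Finset.range d, (Matrix.toEuclideanLin X).singularValues i ^ p) ^ (1 / p)

end Pool.Agent.Lib.MP_3e9be7_al.H51
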