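import Pool.Agent.Lib.MP_3e9be7_al.H51Grp
import Pool.Agent.Lib.MP_3e9be7_al.H3Contr

/-!
The tree data inside the commutator subgroup of Thompson's group `F`.
-/

namespace Pool.Agent.Lib.MP_3e9be7_al.H51

/-- The elements `xₙ⁻¹ xₙ₊₁`. -/
def fdY (n : ℕ) : ThompsonF := (xF n)⁻¹ * xF (n + 1)

lemma fd_cx {i k : ℕ} (h : i + 2 ≤ k) : Commute (fdY i) (xF (k + 1)) := by
  have h1 := xF_rel i k (by omega)
  have h2 := xF_rel (i + 1) k (by omega)
  change fdY i * xF (k + 1) = xF (k + 1) * fdY i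
  calc fdY i * xF (k + 1) = (xF i)⁻¹ * xF k * xF (i + 1) := by rw [← h2, fdY]; group
    _ = _ := by rw [← h1, fdY]; group

lemma fd_c {i j : ℕ} (h : i + 3 ≤ j) : Commute (fdY i) (fdY j) := by
  obtain ⟨k, rfl⟩ : ∃ k, j = k + 1 := ⟨j - 1, by omega⟩
  exact (fd_cx (by omega)).inv_right.mul_right (fd_cx (by omega))

lemma fd_A (n : ℕ) : fdY n * fdY (n + 1) * fdY (n + 2) = fdY (n + 2) * fdY n := by
  have h1 : (xF n)⁻¹ * xF (n + 1) * xF n = xF (n + 2) := xF_rel n (n + 1) (by omega)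
  have h2 : (xF n)⁻¹ * xF (n + 2) * xF n = xF (n + 3) := xF_rel n (n + 2) (by omega)
  have h3 : (xF (n + 1))⁻¹ * xF (n + 2) * xF (n + 1) = xF (n + 3) :=
    xF_rel (n + 1) (n + 2) (by omega)
  change (xF n)⁻¹ * xF (n + 1) * ((xF (n + 1))⁻¹ * xF (n + 2)) * ((xF (n + 2))⁻¹ * xF (n + 3)) =
    (xF (n + 2))⁻¹ * xF (n + 3) * ((xF n)⁻¹ * xF (n + 1))
  generalize xF (n + 3) = d at *
  generalize xF (n + 2) = c at *
  generalize xF (n + 1) = b at *
  generalize xF n = a at *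
  calc a⁻¹ * b * (b⁻¹ * c) * (c⁻¹ * d) = a⁻¹ * d := by group
    _ = a⁻¹ * (b⁻¹ * c * b) := by rw [h3]
    _ = (a⁻¹ * b * a)⁻¹ * (a⁻¹ * c * a) * (a⁻¹ * b) := by group
    _ = _ := by rw [h1, h2]

lemma fd_D (n : ℕ) :
    fdY n * fdY (n + 1) * (fdY n)⁻¹ = (fdY (n + 3))⁻¹ * fdY (n + 2) * fdY (n + 3) := by
  have h1 : (xF n)⁻¹ * xF (n + 1) * xF n = xF (n + 2) := xF_rel n (n + 1) (by omega)
  have h2 : (xF n)⁻¹ * xF (n + 2) * xF n = xF (n + 3) := xF_rel n (n + 2) (by omega)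
  have h3 : (xF (n + 2))⁻¹ * xF (n + 4) * xF (n + 2) = xF (n + 5) :=
    xF_rel (n + 2) (n + 4) (by omega)
  have h4 : (xF (n + 3))⁻¹ * xF (n + 4) * xF (n + 3) = xF (n + 5) :=
    xF_rel (n + 3) (n + 4) (by omega)
  change (xF n)⁻¹ * xF (n + 1) * ((xF (n + 1))⁻¹ * xF (n + 2)) * ((xF n)⁻¹ * xF (n + 1))⁻¹ =
    ((xF (n + 3))⁻¹ * xF (n + 4))⁻¹ * ((xF (n + 2))⁻¹ * xF (n + 3)) *
      ((xF (n + 3))⁻¹ * xF (n + 4))
  generalize xF (n + 5) = f at *
  generalize xF (n + 4) = e at *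
  generalize xF (n + 3) = d at *
  generalize xF (n + 2) = c at *
  generalize xF (n + 1) = b at *
  generalize xF n = a at *
  calc a⁻¹ * b * (b⁻¹ * c) * (a⁻¹ * b)⁻¹ = (a⁻¹ * c * a) * (a⁻¹ * b * a)⁻¹ := by group
    _ = d * c⁻¹ := by rw [h1, h2]
    _ = e⁻¹ * d * (d⁻¹ * e * d) * c⁻¹ := by group
    _ = e⁻¹ * d * (c⁻¹ * e * c) * c⁻¹ := by rw [h3, h4]
    _ = _ := by group

lemma fd_shift (j : ℕ) : fdY (j + 2) = (xF 0)⁻¹ * fdY (j + 1) * xF 0 := by
  have h1 : (xF 0)⁻¹ * xF (j + 1) * xF 0 = xF (j + 2) := xF_rel 0 (j + 1) (by omega)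
  have h2 : (xF 0)⁻¹ * xF (j + 2) * xF 0 = xF (j + 3) := xF_rel 0 (j + 2) (by omega)
  change (xF (j + 2))⁻¹ * xF (j + 3) = (xF 0)⁻¹ * ((xF (j + 1))⁻¹ * xF (j + 2)) * xF 0
  calc (xF (j + 2))⁻¹ * xF (j + 3) =
      ((xF 0)⁻¹ * xF (j + 1) * xF 0)⁻¹ * ((xF 0)⁻¹ * xF (j + 2) * xF 0) := by rw [h1, h2]
    _ = _ := by group

lemma fd_mem_iff (N : Subgroup ThompsonF) [hN : N.Normal] (j : ℕ) : fdY (j + 1) ∈ N ↔ fdY 1 ∈ N := by
  induction j with
  | zero => rfl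
  | succ j ih =>
    rw [← ih, fd_shift]
    refine ⟨fun h => ?_, fun h => hN.conj_mem' _ h _⟩
    simpa [mul_assoc] using hN.conj_mem _ h (xF 0)

lemma fd_mem {j : ℕ} (h : 1 ≤ j) : fdY j ∈ commutator ThompsonF := by
  obtain ⟨k, rfl⟩ : ∃ k, j = k + 1 := ⟨j - 1, by omega⟩
  exact (fd_mem_iff _ k).2 commutator_ne_bot.1

/-- The subgroup generated by the elements with index in `[p, m]`. -/
def fdH (p m : ℕ) : Subgroup ThompsonF := Subgroup.closure {g | ∃ j, p ≤ j ∧ j ≤ m ∧ g = fdY j}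

lemma fd_in {p m j : ℕ} (h1 : p ≤ j) (h2 : j ≤ m) : fdY j ∈ fdH p m :=
  Subgroup.subset_closure ⟨j, h1, h2, rfl⟩

/-- An element of the commutator subgroup conjugates `A` into `B`. -/
def fdSh (A B : Subgroup ThompsonF) : Prop :=
  ∃ g ∈ commutator ThompsonF, ∀ s ∈ A, g * s * g⁻¹ ∈ B

lemma fdSh.refl (A : Subgroup ThompsonF) : fdSh A A := ⟨1, one_mem _, fun s h => by simpa using h⟩

lemma fdSh.trans {A B C : Subgroup ThompsonF} (h : fdSh A B) (h' : fdSh B C) : fdSh A C := by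
  obtain ⟨g, g1, g2⟩ := h
  obtain ⟨g', g3, g4⟩ := h'
  exact ⟨g' * g, mul_mem g3 g1, fun s hs => by simpa [mul_assoc] using g4 _ (g2 s hs)⟩

lemma fd_sh {p m : ℕ} {B : Subgroup ThompsonF} {g : ThompsonF} (hg : g ∈ commutator ThompsonF)
    (h : ∀ j, p ≤ j → j ≤ m → g * fdY j * g⁻¹ ∈ B) : fdSh (fdH p m) B := by
  refine ⟨g, hg, fun s hs => ?_⟩
  induction hs using Subgroup.closure_induction with
  | mem x hx =>
    obtain ⟨j, h1, h2, rfl⟩ := hx
    exact h j h1 h2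
  | one => simp
  | mul x y _ _ hx hy => simpa [mul_assoc] using mul_mem hx hy
  | inv x _ hx => simpa [mul_assoc] using inv_mem hx

lemma fd_right {p n : ℕ} (h : p ≤ n) : fdSh (fdH p (n + 2)) (fdH p (n + 1)) := by
  have h2 : (fdY (n + 3))⁻¹ * fdY (n + 2) * fdY (n + 3) ∈ fdH p (n + 1) := by
    rw [← fd_D]
    exact mul_mem (mul_mem (fd_in h (by omega)) (fd_in (by omega) le_rfl))
      (inv_mem (fd_in h (by omega)))
  refine fd_sh (inv_mem (fd_mem (j := n + 3) (by omega))) fun j j1 j2 => ?_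
  rw [inv_inv]
  rcases (by omega : j ≤ n ∨ j = n + 1 ∨ j = n + 2) with e | rfl | rfl
  · rw [mul_assoc, (fd_c (by omega : j + 3 ≤ n + 3)).eq, inv_mul_cancel_left]
    exact fd_in j1 (by omega)
  · have a : fdY (n + 1) * fdY (n + 2) * fdY (n + 3) = fdY (n + 3) * fdY (n + 1) := fd_A (n + 1)
    have e : (fdY (n + 3))⁻¹ * fdY (n + 1) * fdY (n + 3) =
        fdY (n + 1) * ((fdY (n + 3))⁻¹ * fdY (n + 2) * fdY (n + 3))⁻¹ := by
      calc _ = (fdY (n + 3))⁻¹ * (fdY (n + 1) * fdY (n + 2) * fdY (n + 3)) *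
            ((fdY (n + 3))⁻¹ * fdY (n + 2) * fdY (n + 3))⁻¹ := by group
        _ = _ := by rw [a]; group
    rw [e]
    exact mul_mem (fd_in j1 le_rfl) (inv_mem h2)
  · exact h2

lemma fd_left {p m : ℕ} (hp : 1 ≤ p) (h : p + 3 ≤ m) : fdSh (fdH (p + 1) m) (fdH (p + 2) m) := by
  have h2 : fdY p * fdY (p + 1) * (fdY p)⁻¹ ∈ fdH (p + 2) m := by
    rw [fd_D]
    exact mul_mem (mul_mem (inv_mem (fd_in (by omega) h)) (fd_in le_rfl (by omega)))
      (fd_in (by omega) h)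
  refine fd_sh (fd_mem hp) fun j j1 j2 => ?_
  rcases (by omega : p + 3 ≤ j ∨ j = p + 2 ∨ j = p + 1) with e | rfl | rfl
  · rw [(fd_c e).eq, mul_inv_cancel_right]
    exact fd_in (by omega) j2
  · have e : fdY p * fdY (p + 2) * (fdY p)⁻¹ =
        (fdY p * fdY (p + 1) * (fdY p)⁻¹)⁻¹ * fdY (p + 2) := by
      calc _ = (fdY p * fdY (p + 1) * (fdY p)⁻¹)⁻¹ * (fdY p * fdY (p + 1) * fdY (p + 2)) *
            (fdY p)⁻¹ := by group
        _ = _ := by rw [fd_A]; group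
    rw [e]
    exact mul_mem (inv_mem h2) (fd_in le_rfl j2)
  · exact h2

lemma fd_rights (n : ℕ) : fdSh (fdH 2 (n + 3)) (fdH 2 3) := by
  induction n with
  | zero => exact .refl _
  | succ n ih => exact (fd_right (n := n + 2) (by omega)).trans ih

lemma fd_lefts (n : ℕ) (h : n ≤ 9) : fdSh (fdH 2 12) (fdH (n + 2) 12) := by
  induction n with
  | zero => exact .refl _
  | succ n ih => exact (ih (by omega)).trans (fd_left (p := n + 1) (by omega) (by omega))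

lemma fd_le (p : ℕ) [DecidableEq ThompsonF] :
    fdH p (p + 1) ≤ Subgroup.closure (({fdY p, fdY (p + 1)} : Finset ThompsonF) : Set ThompsonF) := by
  refine Subgroup.closure_mono ?_
  rintro _ ⟨j, h1, h2, rfl⟩
  rcases (by omega : j = p ∨ j = p + 1) with rfl | rfl <;> simp

lemma fd_ab (N : Subgroup ThompsonF) [N.Normal] (h : fdY 1 ∈ N) : commutator ThompsonF ≤ N := by
  have c01 : Commute (QuotientGroup.mk' N (xF 0)) (QuotientGroup.mk' N (xF 1)) := by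
    have := (QuotientGroup.eq_one_iff (N := N) _).2 h
    rw [← QuotientGroup.mk'_apply, fdY, ← xF_rel 0 1 (by norm_num)] at this
    simp only [map_mul, map_inv] at this
    rw [inv_mul_eq_one, mul_assoc, eq_inv_mul_iff_mul_eq] at this
    exact this
  have e1 : (PresentedGroup.of 1 : ThompsonF) = xF 1 := by simp [xF, gen]
  have cg : ∀ i j, Commute (QuotientGroup.mk' N (PresentedGroup.of i))
      (QuotientGroup.mk' N (PresentedGroup.of j)) := by
    simp only [Fin.forall_fin_two, e1]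
    exact ⟨⟨Commute.refl _, c01⟩, c01.symm, Commute.refl _⟩
  have st : ∀ z : ThompsonF, (∀ i, Commute (QuotientGroup.mk' N z)
      (QuotientGroup.mk' N (PresentedGroup.of i))) →
      ∀ x, Commute (QuotientGroup.mk' N z) (QuotientGroup.mk' N x) := fun z hz x =>
    Subgroup.mem_centralizer_singleton_iff.1 (PresentedGroup.generated_by _
      ((Subgroup.centralizer {QuotientGroup.mk' N z}).comap (QuotientGroup.mk' N))
      (fun i => Subgroup.mem_centralizer_singleton_iff.2 (hz i).symm.eq) x) |>.symm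
  refine Subgroup.commutator_le.2 fun x _ y _ => ?_
  rw [← QuotientGroup.eq_one_iff, ← QuotientGroup.mk'_apply, map_commutatorElement]
  exact (st x (fun i => (st _ (cg i) x).symm) y).commutator_eq

theorem F_data : ∃ (α β a b : ThompsonF) (L R : Finset ThompsonF), TreeData α β a b L R ∧
    commutator ThompsonF ≤ Subgroup.normalClosure {cm a b} ∧ α ∈ commutator ThompsonF ∧
    β ∈ commutator ThompsonF ∧ a ∈ commutator ThompsonF ∧ b ∈ commutator ThompsonF := by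
  classical
  obtain ⟨α, hα, a1⟩ := fd_rights 9
  obtain ⟨β, hβ, b1⟩ := fd_lefts 9 le_rfl
  have mem : ∀ s, (s ∈ ({fdY 2, fdY 3} : Finset ThompsonF) ∨
      s ∈ ({fdY 11, fdY 12} : Finset ThompsonF) ∨ s = (fdY 6)⁻¹ ∨ s = fdY 8) → s ∈ fdH 2 12 := by
    intro s hs
    simp only [Finset.mem_insert, Finset.mem_singleton] at hs
    rcases hs with (rfl | rfl) | (rfl | rfl) | rfl | rfl
    all_goals first
      | exact fd_in (by omega) (by omega)
      | exact inv_mem (fd_in (by omega) (by omega))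
  have e : cm (fdY 6)⁻¹ (fdY 8) = fdY 7 := by
    have a : fdY 6 * fdY 7 * fdY 8 = fdY 8 * fdY 6 := fd_A 6
    calc cm (fdY 6)⁻¹ (fdY 8) = (fdY 6)⁻¹ * (fdY 8 * fdY 6) * (fdY 8)⁻¹ := by unfold cm; group
      _ = _ := by rw [← a]; group
  refine ⟨α, β, (fdY 6)⁻¹, fdY 8, {fdY 2, fdY 3}, {fdY 11, fdY 12},
    ⟨fun s hs => fd_le 2 (a1 s (mem s hs)), fun s hs => fd_le 11 (b1 s (mem s hs)), ?_, ?_, ?_⟩,
    ?_, hα, hβ, inv_mem (fd_mem (by omega)), fd_mem (by omega)⟩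
  · intro x hx y hy
    simp only [Finset.mem_insert, Finset.mem_singleton] at hx hy
    rcases hx with rfl | rfl <;> rcases hy with rfl | rfl <;> exact fd_c (by omega)
  · intro x hx
    simp only [Finset.mem_insert, Finset.mem_singleton] at hx
    rcases hx with rfl | rfl <;> exact ⟨(fd_c (by omega)).inv_right, fd_c (by omega)⟩
  · intro x hx
    simp only [Finset.mem_insert, Finset.mem_singleton] at hx
    rcases hx with rfl | rfl <;> exact ⟨(fd_c (by omega)).symm.inv_right, (fd_c (by omega)).symm⟩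
  · rw [e]
    exact fd_ab _ ((fd_mem_iff _ 6).1 (Subgroup.subset_normalClosure rfl))

end Pool.Agent.Lib.MP_3e9be7_al.H51
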