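import Mathlib

/-!
The squared Frobenius norm of a complex matrix and families of matrices that form an isometry.
-/

namespace Pool.Agent.Lib.MP_3e9be7_al.H51

open Matrix Finset

variable {n : Type} [Fintype n] [DecidableEq n]

/-- The squared Frobenius norm. -/
noncomputable def fr (X : Matrix n n ℂ) : ℝ := ∑ i, ∑ j, ‖X i j‖ ^ 2

omit [DecidableEq n]

lemma fr_nonneg (X : Matrix n n ℂ) : 0 ≤ fr X := by unfold fr; positivity

lemma fr_eq_trace (X : Matrix n n ℂ) : fr X = (trace (Xᴴ * X)).re := by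
  simp only [fr, trace, Matrix.diag, mul_apply, conjTranspose_apply, Complex.re_sum]
  rw [sum_comm]
  refine sum_congr rfl fun i _ => sum_congr rfl fun j _ => ?_
  rw [Complex.star_def, Complex.conj_mul', ← Complex.ofReal_pow, Complex.ofReal_re]

lemma fr_conjT (X : Matrix n n ℂ) : fr Xᴴ = fr X := by
  simp only [fr, conjTranspose_apply, norm_star]
  exact sum_comm

lemma fr_zero : fr (0 : Matrix n n ℂ) = 0 := by simp [fr]

lemma fr_neg (X : Matrix n n ℂ) : fr (-X) = fr X := by simp [fr]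

lemma fr_sub_comm (X Y : Matrix n n ℂ) : fr (X - Y) = fr (Y - X) := by
  rw [← fr_neg, neg_sub]

lemma fr_smul (c : ℂ) (X : Matrix n n ℂ) : fr (c • X) = ‖c‖ ^ 2 * fr X := by
  simp only [fr, Matrix.smul_apply, smul_eq_mul, norm_mul, mul_pow, mul_sum]

lemma fr_add_le {s : ℝ} (hs : 0 < s) (X Y : Matrix n n ℂ) :
    fr (X + Y) ≤ (1 + s) * fr X + (1 + 1 / s) * fr Y := by
  simp only [fr, mul_sum, ← sum_add_distrib, Matrix.add_apply]
  refine sum_le_sum fun i _ => sum_le_sum fun j _ => ?_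
  have h1 := norm_add_le (X i j) (Y i j)
  have h2 : ‖X i j + Y i j‖ ^ 2 ≤ (‖X i j‖ + ‖Y i j‖) ^ 2 := by gcongr
  have h3 : 2 * (‖X i j‖ * ‖Y i j‖) ≤ s * ‖X i j‖ ^ 2 + 1 / s * ‖Y i j‖ ^ 2 := by
    have : 0 ≤ (s * ‖X i j‖ - ‖Y i j‖) ^ 2 / s := by positivity
    have e : (s * ‖X i j‖ - ‖Y i j‖) ^ 2 / s =
        s * ‖X i j‖ ^ 2 + 1 / s * ‖Y i j‖ ^ 2 - 2 * (‖X i j‖ * ‖Y i j‖) := by
      field_simp; ring
    linarith
  nlinarith

lemma fr_add_two (X Y : Matrix n n ℂ) : fr (X + Y) ≤ 2 * fr X + 2 * fr Y := by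
  have := fr_add_le one_pos X Y
  norm_num at this
  exact this

lemma fr_sub_two (X Y : Matrix n n ℂ) : fr (X - Y) ≤ 2 * fr X + 2 * fr Y := by
  rw [sub_eq_add_neg, ← fr_neg Y]; exact fr_add_two _ _

lemma fr_add_three (X Y Z : Matrix n n ℂ) : fr (X + Y + Z) ≤ 3 * fr X + 3 * fr Y + 3 * fr Z := by
  have h1 := fr_add_le (s := 1 / 2) (by norm_num) (X + Y) Z
  have h2 := fr_add_two X Y
  norm_num at h1
  linarith

lemma fr_mul_le (X Y : Matrix n n ℂ) : fr (X * Y) ≤ fr X * fr Y := by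
  have h : fr X * fr Y = ∑ i, ∑ j, (∑ k, ‖X i k‖ ^ 2) * ∑ k, ‖Y k j‖ ^ 2 := by
    rw [fr, fr, sum_comm (f := fun i j => ‖Y i j‖ ^ 2), sum_mul_sum]
  rw [h, fr]
  refine sum_le_sum fun i _ => sum_le_sum fun j _ => ?_
  refine le_trans ?_ (sum_mul_sq_le_sq_mul_sq univ (fun k => ‖X i k‖) fun k => ‖Y k j‖)
  gcongr
  rw [mul_apply]
  exact (norm_sum_le _ _).trans (le_of_eq (sum_congr rfl fun k _ => norm_mul _ _))

variable [DecidableEq n] {ι : Type}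

lemma sum_fr_left {s : Finset ι} {K : ι → Matrix n n ℂ} (h : ∑ σ ∈ s, (K σ)ᴴ * K σ = 1)
    (Z : Matrix n n ℂ) : ∑ σ ∈ s, fr (K σ * Z) = fr Z := by
  simp only [fr_eq_trace, ← Complex.re_sum, ← trace_sum]
  congr 2
  calc ∑ σ ∈ s, (K σ * Z)ᴴ * (K σ * Z) = Zᴴ * (∑ σ ∈ s, (K σ)ᴴ * K σ) * Z := by
        simp only [mul_sum, sum_mul, conjTranspose_mul, Matrix.mul_assoc]
    _ = _ := by rw [h, Matrix.mul_one]

lemma sum_fr_right {s : Finset ι} {K : ι → Matrix n n ℂ} (h : ∑ σ ∈ s, K σ * (K σ)ᴴ = 1)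
    (Z : Matrix n n ℂ) : ∑ σ ∈ s, fr (Z * K σ) = fr Z := by
  rw [← fr_conjT Z, ← sum_fr_left (s := s) (K := fun σ => (K σ)ᴴ) (by simpa using h) Zᴴ]
  refine sum_congr rfl fun σ _ => ?_
  rw [← fr_conjT, conjTranspose_mul]

lemma fr_unit_left {U : Matrix n n ℂ} (h : U ∈ unitaryGroup n ℂ) (Z : Matrix n n ℂ) :
    fr (U * Z) = fr Z := by
  have := sum_fr_left (s := ({()} : Finset Unit)) (K := fun _ => U)
    (by simpa [star_eq_conjTranspose] using mem_unitaryGroup_iff'.1 h) Z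
  simpa using this

lemma fr_unit_right {U : Matrix n n ℂ} (h : U ∈ unitaryGroup n ℂ) (Z : Matrix n n ℂ) :
    fr (Z * U) = fr Z := by
  have := sum_fr_right (s := ({()} : Finset Unit)) (K := fun _ => U)
    (by simpa [star_eq_conjTranspose] using mem_unitaryGroup_iff.1 h) Z
  simpa using this

lemma stack {s : Finset ι} {K : ι → Matrix n n ℂ} (h : ∑ σ ∈ s, (K σ)ᴴ * K σ = 1)
    (Z : ι → Matrix n n ℂ) : fr (∑ σ ∈ s, (K σ)ᴴ * Z σ) ≤ ∑ σ ∈ s, fr (Z σ) := by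
  set S := ∑ σ ∈ s, (K σ)ᴴ * Z σ with hS
  have h0 : 0 ≤ ∑ σ ∈ s, fr (Z σ - K σ * S) := sum_nonneg fun σ _ => fr_nonneg _
  have h1 : ∑ σ ∈ s, (Z σ - K σ * S)ᴴ * (Z σ - K σ * S) =
      ∑ σ ∈ s, (Z σ)ᴴ * Z σ - Sᴴ * S := by
    have e1 : ∑ σ ∈ s, (Z σ)ᴴ * K σ = Sᴴ := by
      rw [hS, conjTranspose_sum]; simp
    calc ∑ σ ∈ s, (Z σ - K σ * S)ᴴ * (Z σ - K σ * S)
        = ∑ σ ∈ s, (Z σ)ᴴ * Z σ - (∑ σ ∈ s, (Z σ)ᴴ * K σ) * S -
          Sᴴ * (∑ σ ∈ s, (K σ)ᴴ * Z σ) + Sᴴ * (∑ σ ∈ s, (K σ)ᴴ * K σ) * S := by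
          simp only [mul_sum, sum_mul, ← sum_sub_distrib, ← sum_add_distrib]
          refine sum_congr rfl fun σ _ => ?_
          simp only [conjTranspose_sub, conjTranspose_mul]
          noncomm_ring
      _ = _ := by rw [e1, ← hS, h]; noncomm_ring
  simp only [fr_eq_trace, ← Complex.re_sum, ← trace_sum] at h0 ⊢
  rw [h1, trace_sub, Complex.sub_re] at h0
  linarith

end Pool.Agent.Lib.MP_3e9be7_al.H51
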