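import Mathlib

/-!
Almost multiplicative maps into groups with an invariant length: a binary tree of conjugates
that almost commute.
-/

namespace Pool.Agent.Lib.MP_3e9be7_al.H51

/-- An invariant length function on a group. -/
structure InvLen {K : Type} [Group K] (ℓ : K → ℝ) : Prop where
  one : ℓ 1 = 0
  inv : ∀ g, ℓ g⁻¹ = ℓ g
  mul : ∀ g h, ℓ (g * h) ≤ ℓ g + ℓ h
  conj : ∀ g h, ℓ (h * g * h⁻¹) = ℓ g

/-- `φ` is `ε`-multiplicative on `S`. -/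
def Ap {G K : Type} [Group G] [Group K] (ℓ : K → ℝ) (φ : G → K) (S : Finset G) (ε : ℝ) : Prop :=
  ∀ x ∈ S, ∀ y ∈ S, ℓ (φ (x * y) * (φ x * φ y)⁻¹) ≤ ε

/-- The commutator `x y x⁻¹ y⁻¹`. -/
def cm {G : Type} [Group G] (x y : G) : G := x * y * x⁻¹ * y⁻¹

/-- Two elements `α`, `β` that conjugate three commuting blocks into the outer blocks. -/
structure TreeData {G : Type} [Group G] (α β a b : G) (L R : Finset G) : Prop where
  hα : ∀ s, (s ∈ L ∨ s ∈ R ∨ s = a ∨ s = b) → α * s * α⁻¹ ∈ Subgroup.closure (L : Set G)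
  hβ : ∀ s, (s ∈ L ∨ s ∈ R ∨ s = a ∨ s = b) → β * s * β⁻¹ ∈ Subgroup.closure (R : Set G)
  cLR : ∀ x ∈ L, ∀ y ∈ R, Commute x y
  cL : ∀ x ∈ L, Commute x a ∧ Commute x b
  cR : ∀ y ∈ R, Commute y a ∧ Commute y b

section Len

variable {K : Type} [Group K] {ℓ : K → ℝ}

lemma InvLen.nonneg (h : InvLen ℓ) (g : K) : 0 ≤ ℓ g := by
  have h1 := h.mul g g⁻¹
  rw [mul_inv_cancel, h.one, h.inv] at h1
  linarith

lemma InvLen.symm (h : InvLen ℓ) (x y : K) : ℓ (x * y⁻¹) = ℓ (y * x⁻¹) := by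
  rw [← h.inv]
  congr 1
  group

lemma InvLen.tri (h : InvLen ℓ) (x y z : K) : ℓ (x * z⁻¹) ≤ ℓ (x * y⁻¹) + ℓ (y * z⁻¹) := by
  have h1 := h.mul (x * y⁻¹) (y * z⁻¹)
  rwa [show x * y⁻¹ * (y * z⁻¹) = x * z⁻¹ by group] at h1

lemma InvLen.le_add (h : InvLen ℓ) (x y : K) : ℓ x ≤ ℓ (x * y⁻¹) + ℓ y := by
  have h1 := h.mul (x * y⁻¹) y
  rwa [inv_mul_cancel_right] at h1

lemma InvLen.dmul (h : InvLen ℓ) (x y x' y' : K) :
    ℓ (x * y * (x' * y')⁻¹) ≤ ℓ (x * x'⁻¹) + ℓ (y * y'⁻¹) := by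
  have h1 := h.mul (x * (y * y'⁻¹) * x⁻¹) (x * x'⁻¹)
  rw [h.conj, show x * (y * y'⁻¹) * x⁻¹ * (x * x'⁻¹) = x * y * (x' * y')⁻¹ by group] at h1
  linarith

lemma InvLen.dinv (h : InvLen ℓ) (x y : K) : ℓ (x⁻¹ * y⁻¹⁻¹) = ℓ (x * y⁻¹) := by
  rw [h.symm x y, ← h.conj (y * x⁻¹) x⁻¹]
  congr 1
  group

lemma InvLen.cm_symm (h : InvLen ℓ) (x y : K) : ℓ (cm x y) = ℓ (cm y x) := by
  rw [← h.inv]
  congr 1
  unfold cm
  group

lemma InvLen.cm_mul (h : InvLen ℓ) (x y z : K) : ℓ (cm (x * y) z) ≤ ℓ (cm x z) + ℓ (cm y z) := by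
  have h1 := h.mul (x * cm y z * x⁻¹) (cm x z)
  rw [h.conj, show x * cm y z * x⁻¹ * cm x z = cm (x * y) z by unfold cm; group] at h1
  linarith

lemma InvLen.cm_inv (h : InvLen ℓ) (x z : K) : ℓ (cm x⁻¹ z) = ℓ (cm x z) := by
  rw [h.cm_symm x z, ← h.conj (cm z x) x⁻¹]
  congr 1
  unfold cm
  group

lemma InvLen.cm_le (h : InvLen ℓ) (x z : K) : ℓ (cm x z) ≤ 2 * ℓ x := by
  have h1 := h.mul x (z * x⁻¹ * z⁻¹)
  rw [h.conj, h.inv, show x * (z * x⁻¹ * z⁻¹) = cm x z by unfold cm; group] at h1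
  linarith

lemma InvLen.cm_conj (h : InvLen ℓ) (u x y : K) :
    ℓ (cm (u * x * u⁻¹) (u * y * u⁻¹)) = ℓ (cm x y) := by
  rw [← h.conj (cm x y) u]
  congr 1
  unfold cm
  group

/-- `x` is at distance at most `e` from a word of length at most `m` in `T`. -/
def Near (ℓ : K → ℝ) (T : Set K) (m : ℕ) (e : ℝ) (x : K) : Prop :=
  ∃ l : List K, (∀ z ∈ l, z ∈ T ∨ z⁻¹ ∈ T) ∧ l.length ≤ m ∧ ℓ (x * l.prod⁻¹) ≤ e

variable {T T' : Set K} {m m' : ℕ} {e e' : ℝ} {x y : K}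

lemma Near.mono (h : Near ℓ T m e x) (h1 : T ⊆ T') (h2 : m ≤ m') (h3 : e ≤ e') :
    Near ℓ T' m' e' x := by
  obtain ⟨l, a, b, c⟩ := h
  exact ⟨l, fun z hz => (a z hz).imp (fun h => h1 h) fun h => h1 h, b.trans h2, c.trans h3⟩

lemma Near.of_mem (h : InvLen ℓ) (hx : x ∈ T) : Near ℓ T 1 0 x :=
  ⟨[x], by simp [hx], le_rfl, by simp [h.one]⟩

lemma Near.nil (hx : ℓ x ≤ e) : Near ℓ T 0 e x := ⟨[], by simp, le_rfl, by simpa using hx⟩

lemma Near.mul (h : InvLen ℓ) (hx : Near ℓ T m e x) (hy : Near ℓ T m' e' y) :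
    Near ℓ T (m + m') (e + e') (x * y) := by
  obtain ⟨l, a, b, c⟩ := hx
  obtain ⟨l', a', b', c'⟩ := hy
  refine ⟨l ++ l', List.forall_mem_append.2 ⟨a, a'⟩, by rw [List.length_append]; omega, ?_⟩
  rw [List.prod_append]
  exact (h.dmul _ _ _ _).trans (add_le_add c c')

lemma Near.inv (h : InvLen ℓ) (hx : Near ℓ T m e x) : Near ℓ T m e x⁻¹ := by
  obtain ⟨l, a, b, c⟩ := hx
  refine ⟨(l.map fun z => z⁻¹).reverse, fun z hz => ?_, by simpa using b, ?_⟩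
  · obtain ⟨w, hw, rfl⟩ := List.mem_map.1 (List.mem_reverse.1 hz)
    rw [inv_inv]
    exact (a w hw).symm
  · rwa [← List.prod_inv_reverse, h.dinv]

lemma Near.close (h : InvLen ℓ) (hy : Near ℓ T m e y) (hx : ℓ (x * y⁻¹) ≤ e') :
    Near ℓ T m (e + e') x := by
  obtain ⟨l, a, b, c⟩ := hy
  exact ⟨l, a, b, (h.tri x y _).trans (by linarith)⟩

lemma Near.conj (h : InvLen ℓ) {u : K} {Λ : ℕ} {δ : ℝ} (hδ : 0 ≤ δ)
    (hu : ∀ z ∈ T, Near ℓ T' Λ δ (u * z * u⁻¹)) (hx : Near ℓ T m e x) :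
    Near ℓ T' (Λ * m) (m * δ + e) (u * x * u⁻¹) := by
  obtain ⟨l, a, b, c⟩ := hx
  have key : ∀ l : List K, (∀ z ∈ l, z ∈ T ∨ z⁻¹ ∈ T) →
      Near ℓ T' (Λ * l.length) (l.length * δ) (u * l.prod * u⁻¹) := by
    intro l
    induction l with
    | nil => exact fun _ => Near.nil (by simp [h.one])
    | cons z l ih =>
      intro a
      have h1 : Near ℓ T' Λ δ (u * z * u⁻¹) := by
        rcases a z List.mem_cons_self with hz | hz
        · exact hu z hz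
        · have := (hu _ hz).inv h
          rwa [show (u * z⁻¹ * u⁻¹)⁻¹ = u * z * u⁻¹ by group] at this
      have h2 := h1.mul h (ih fun w hw => a w (List.mem_cons_of_mem _ hw))
      rw [show u * z * u⁻¹ * (u * l.prod * u⁻¹) = u * (z * l.prod) * u⁻¹ by group] at h2
      rw [List.prod_cons, List.length_cons]
      refine h2.mono le_rfl (le_of_eq (by ring)) (le_of_eq ?_)
      push_cast
      ring
  refine ((key l a).close h (e' := e) ?_).mono le_rfl (Nat.mul_le_mul_left _ b) ?_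
  · rwa [show u * x * u⁻¹ * (u * l.prod * u⁻¹)⁻¹ = u * (x * l.prod⁻¹) * u⁻¹ by group, h.conj]
  · gcongr

lemma Near.cm_one (h : InvLen ℓ) {w : K} {δ : ℝ} (hδ : 0 ≤ δ) (hw : ∀ z ∈ T, ℓ (cm z w) ≤ δ)
    (hx : Near ℓ T m e x) : ℓ (cm x w) ≤ 2 * e + m * δ := by
  obtain ⟨l, a, b, c⟩ := hx
  have key : ∀ l : List K, (∀ z ∈ l, z ∈ T ∨ z⁻¹ ∈ T) → ℓ (cm l.prod w) ≤ l.length * δ := by
    intro l
    induction l with
    | nil => exact fun _ => by simp [cm, h.one]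
    | cons z l ih =>
      intro a
      have h1 : ℓ (cm z w) ≤ δ := by
        rcases a z List.mem_cons_self with hz | hz
        · exact hw z hz
        · rw [← h.cm_inv]
          exact hw _ hz
      have h2 := ih fun w hw => a w (List.mem_cons_of_mem _ hw)
      have h3 := h.cm_mul z l.prod w
      rw [List.prod_cons, List.length_cons]
      push_cast
      linarith
  have h1 := h.cm_mul (x * l.prod⁻¹) l.prod w
  rw [inv_mul_cancel_right] at h1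
  have h2 := h.cm_le (x * l.prod⁻¹) w
  have h3 := key l a
  have h4 : (l.length : ℝ) * δ ≤ m * δ := by gcongr
  linarith

lemma Near.cm_two (h : InvLen ℓ) {δ : ℝ} (hδ : 0 ≤ δ) (hw : ∀ z ∈ T, ∀ w ∈ T', ℓ (cm z w) ≤ δ)
    (hm : 1 ≤ m') (hx : Near ℓ T m (δ * m) x) (hy : Near ℓ T' m' (δ * m') y) :
    ℓ (cm x y) ≤ 5 * δ * (m * m') := by
  have h1 := hx.cm_one h (w := y) (δ := 2 * (δ * m') + m' * δ) (by positivity) fun z hz => by
    rw [h.cm_symm]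
    exact hy.cm_one h hδ fun w hw' => by
      rw [h.cm_symm]
      exact hw z hz w hw'
  have h2 : (1 : ℝ) ≤ m' := by exact_mod_cast hm
  have h3 : δ * m * 1 ≤ δ * m * m' := by gcongr
  nlinarith

lemma cases_grp (i : ℕ) : i = 0 ∨ (∃ j, i = 2 * j + 1) ∨ ∃ j, i = 2 * j + 2 := by
  rcases Nat.even_or_odd' i with ⟨_ | j, h | h⟩
  · exact .inl (by omega)
  · exact .inr (.inl ⟨_, h⟩)
  · exact .inr (.inr ⟨j, by omega⟩)
  · exact .inr (.inl ⟨_, h⟩)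

lemma tree_abs (h : InvLen ℓ) {A L R : Set K} {u v : K} {Λ : ℕ} {δ : ℝ} (hδ : 0 ≤ δ)
    (hu : ∀ z ∈ A ∪ L ∪ R, Near ℓ L Λ δ (u * z * u⁻¹))
    (hv : ∀ z ∈ A ∪ L ∪ R, Near ℓ R Λ δ (v * z * v⁻¹))
    (cAL : ∀ x ∈ A, ∀ y ∈ L, ℓ (cm x y) ≤ δ) (cAR : ∀ x ∈ A, ∀ y ∈ R, ℓ (cm x y) ≤ δ)
    (cLR : ∀ x ∈ L, ∀ y ∈ R, ℓ (cm x y) ≤ δ) {W : ℕ → K} (h0 : W 0 = 1)
    (h1 : ∀ j, W (2 * j + 1) = u * W j) (h2 : ∀ j, W (2 * j + 2) = v * W j) :
    ∀ i l, i ≠ l → ∀ x ∈ A, ∀ y ∈ A, ℓ (cm (W i * x * (W i)⁻¹) (W l * y * (W l)⁻¹)) ≤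
      5 * δ * (((i + 1) ^ (Λ + 1) : ℕ) * ((l + 1) ^ (Λ + 1) : ℕ)) := by
  obtain ⟨M, hM⟩ : ∃ M : ℕ → ℕ, ∀ i, (i + 1) ^ (Λ + 1) = M i := ⟨_, fun _ => rfl⟩
  simp only [hM]
  have m0 : ∀ i, 1 ≤ M i := fun i => hM i ▸ Nat.one_le_pow _ _ (by omega)
  have m1 : ∀ {i j}, i ≤ j → M i ≤ M j := fun hij => by
    rw [← hM, ← hM]
    exact Nat.pow_le_pow_left (by omega) _
  have m2 : ∀ j, M (2 * j + 1) = 2 ^ (Λ + 1) * M j := fun j => by
    rw [← hM, ← hM, ← mul_pow]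
    congr 1
  have m3 : ∀ j, Λ * M j ≤ M (2 * j + 1) := fun j => by
    rw [m2]
    exact Nat.mul_le_mul_right _ ((Nat.le_succ _).trans Nat.lt_two_pow_self.le)
  have m4 : ∀ j, 2 * M j ≤ M (2 * j + 1) := fun j => by
    rw [m2]
    exact Nat.mul_le_mul_right _ (Nat.le_self_pow (by omega) 2)
  have e1 : ∀ j x, W (2 * j + 1) * x * (W (2 * j + 1))⁻¹ = u * (W j * x * (W j)⁻¹) * u⁻¹ :=
    fun j x => by rw [h1]; group
  have e2 : ∀ j x, W (2 * j + 2) * x * (W (2 * j + 2))⁻¹ = v * (W j * x * (W j)⁻¹) * v⁻¹ :=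
    fun j x => by rw [h2]; group
  have step : ∀ {T : Set K} {w x : K} {j i : ℕ}, (∀ z ∈ A ∪ L ∪ R, Near ℓ T Λ δ (w * z * w⁻¹)) →
      Near ℓ (A ∪ L ∪ R) (M j) (δ * M j) x → 2 * j + 1 ≤ i →
      Near ℓ T (M i) (δ * M i) (w * x * w⁻¹) := by
    intro T w x j i hw hx hi
    refine (hx.conj h hδ hw).mono le_rfl ((m3 j).trans (m1 hi)) ?_
    have : ((2 * M j : ℕ) : ℝ) ≤ M i := by exact_mod_cast (m4 j).trans (m1 hi)
    push_cast at this
    nlinarith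
  have n0 : ∀ x ∈ A, Near ℓ A (M 0) (δ * M 0) (W 0 * x * (W 0)⁻¹) := fun x hx => by
    rw [h0, one_mul, inv_one, mul_one]
    exact (Near.of_mem h hx).mono le_rfl (m0 0) (by positivity)
  have nA : ∀ i, ∀ x ∈ A, Near ℓ (A ∪ L ∪ R) (M i) (δ * M i) (W i * x * (W i)⁻¹) := by
    intro i
    induction i using Nat.strong_induction_on with
    | _ i ih =>
      intro x hx
      rcases cases_grp i with rfl | ⟨j, rfl⟩ | ⟨j, rfl⟩
      · exact (n0 x hx).mono (fun _ h => .inl (.inl h)) le_rfl le_rfl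
      · rw [e1]
        exact (step hu (ih j (by omega) x hx) le_rfl).mono (fun _ h => .inl (.inr h)) le_rfl le_rfl
      · rw [e2]
        exact (step hv (ih j (by omega) x hx) (by omega)).mono (fun _ h => .inr h) le_rfl le_rfl
  have n1 : ∀ j, ∀ x ∈ A, Near ℓ L (M (2 * j + 1)) (δ * M (2 * j + 1))
      (W (2 * j + 1) * x * (W (2 * j + 1))⁻¹) := fun j x hx => by
    rw [e1]
    exact step hu (nA j x hx) le_rfl
  have n2 : ∀ j, ∀ x ∈ A, Near ℓ R (M (2 * j + 2)) (δ * M (2 * j + 2))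
      (W (2 * j + 2) * x * (W (2 * j + 2))⁻¹) := fun j x hx => by
    rw [e2]
    exact step hv (nA j x hx) (by omega)
  have sw : ∀ {T T' : Set K}, (∀ x ∈ T, ∀ y ∈ T', ℓ (cm x y) ≤ δ) →
      ∀ x ∈ T', ∀ y ∈ T, ℓ (cm x y) ≤ δ := fun c x hx y hy => by
    rw [h.cm_symm]
    exact c y hy x hx
  have up : ∀ {i l i' l' : ℕ}, i ≤ i' → l ≤ l' →
      5 * δ * (M i * M l : ℝ) ≤ 5 * δ * (M i' * M l' : ℝ) := fun a b => by
    have a' := m1 a
    have b' := m1 b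
    gcongr
  intro i
  induction i using Nat.strong_induction_on with
  | _ i ih =>
    intro l hil x hx y hy
    rcases cases_grp i with rfl | ⟨j, rfl⟩ | ⟨j, rfl⟩ <;>
      rcases cases_grp l with rfl | ⟨j', rfl⟩ | ⟨j', rfl⟩
    · exact absurd rfl hil
    · exact Near.cm_two h hδ cAL (m0 _) (n0 x hx) (n1 j' y hy)
    · exact Near.cm_two h hδ cAR (m0 _) (n0 x hx) (n2 j' y hy)
    · exact Near.cm_two h hδ (sw cAL) (m0 _) (n1 j x hx) (n0 y hy)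
    · rw [e1, e1, h.cm_conj]
      exact (ih j (by omega) j' (by omega) x hx y hy).trans (up (by omega) (by omega))
    · exact Near.cm_two h hδ cLR (m0 _) (n1 j x hx) (n2 j' y hy)
    · exact Near.cm_two h hδ (sw cAR) (m0 _) (n2 j x hx) (n0 y hy)
    · exact Near.cm_two h hδ (sw cLR) (m0 _) (n2 j x hx) (n1 j' y hy)
    · rw [e2, e2, h.cm_conj]
      exact (ih j (by omega) j' (by omega) x hx y hy).trans (up (by omega) (by omega))

variable {G : Type} [Group G] {φ : G → K} {S S' : Finset G} {ε : ℝ}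

lemma Ap.mono (h : Ap ℓ φ S ε) (h' : S' ⊆ S) : Ap ℓ φ S' ε :=
  fun x hx y hy => h x (h' hx) y (h' hy)

lemma Ap.one (hl : InvLen ℓ) (h : Ap ℓ φ S ε) (h1 : 1 ∈ S) : ℓ (φ 1) ≤ ε := by
  have := h 1 h1 1 h1
  rwa [mul_one, show φ 1 * (φ 1 * φ 1)⁻¹ = (φ 1)⁻¹ by group, hl.inv] at this

lemma Ap.inv (hl : InvLen ℓ) (h : Ap ℓ φ S ε) (h1 : 1 ∈ S) {x : G} (hx : x ∈ S) (hx' : x⁻¹ ∈ S) :
    ℓ (φ x⁻¹ * (φ x)⁻¹⁻¹) ≤ 2 * ε := by
  have h2 := h _ hx' x hx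
  rw [inv_mul_cancel, hl.symm] at h2
  have h3 := hl.le_add (φ x⁻¹ * φ x) (φ 1)
  have h4 := h.one hl h1
  rw [inv_inv]
  linarith

lemma Ap.eq (hl : InvLen ℓ) (h : Ap ℓ φ S ε) {x y x' y' : G} (hx : x ∈ S) (hy : y ∈ S)
    (hx' : x' ∈ S) (hy' : y' ∈ S) (e : x * y = x' * y') :
    ℓ (φ x * φ y * (φ x' * φ y')⁻¹) ≤ 2 * ε := by
  have h1 := h x hx y hy
  have h2 := h x' hx' y' hy'
  rw [hl.symm, e] at h1
  have h3 := hl.tri (φ x * φ y) (φ (x' * y')) (φ x' * φ y')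
  linarith

lemma Ap.conj (hl : InvLen ℓ) (h : Ap ℓ φ S ε) {u s : G} (hu : u ∈ S) (hs : s ∈ S)
    (hc : u * s * u⁻¹ ∈ S) : ℓ (φ u * φ s * (φ u)⁻¹ * (φ (u * s * u⁻¹))⁻¹) ≤ 2 * ε := by
  have h1 := h.eq hl hu hs hc hu (by group)
  rwa [mul_inv_rev, ← mul_assoc] at h1

lemma Ap.comm (hl : InvLen ℓ) (h : Ap ℓ φ S ε) {x y : G} (hx : x ∈ S) (hy : y ∈ S)
    (e : Commute x y) : ℓ (cm (φ x) (φ y)) ≤ 2 * ε := by
  have h1 := h.eq hl hx hy hy hx e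
  rwa [mul_inv_rev, ← mul_assoc] at h1

end Len

lemma near_closure {G : Type} [Group G] (T : Set G) {x : G} (hx : x ∈ Subgroup.closure T) :
    ∃ (S : Finset G) (C : ℝ) (m : ℕ), 0 ≤ C ∧ ∀ (K : Type) [Group K] (ℓ : K → ℝ) (φ : G → K)
      (ε : ℝ), InvLen ℓ → Ap ℓ φ S ε → Near ℓ (φ '' T) m (C * ε) (φ x) := by
  classical
  induction hx using Subgroup.closure_induction with
  | mem x hx =>
    exact ⟨∅, 0, 1, le_rfl, fun K _ ℓ φ ε h _ => by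
      rw [zero_mul]
      exact Near.of_mem h ⟨x, hx, rfl⟩⟩
  | one =>
    exact ⟨{1}, 1, 0, zero_le_one, fun K _ ℓ φ ε h a => Near.nil (by
      rw [one_mul]
      exact a.one h (by simp))⟩
  | mul x y _ _ hx hy =>
    obtain ⟨S, C, m, c, hx⟩ := hx
    obtain ⟨S', C', m', c', hy⟩ := hy
    refine ⟨S ∪ S' ∪ {x, y}, C + C' + 1, m + m', by positivity, fun K _ ℓ φ ε h a => ?_⟩
    refine (((hx K ℓ φ ε h (a.mono fun z hz => by simp [hz])).mul h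
      (hy K ℓ φ ε h (a.mono fun z hz => by simp [hz]))).close h
      (a x (by simp) y (by simp))).mono le_rfl le_rfl (le_of_eq (by ring))
  | inv x _ hx =>
    obtain ⟨S, C, m, c, hx⟩ := hx
    refine ⟨S ∪ {1, x, x⁻¹}, C + 2, m, by positivity, fun K _ ℓ φ ε h a => ?_⟩
    exact (((hx K ℓ φ ε h (a.mono fun z hz => by simp [hz])).inv h).close h
      (a.inv h (by simp) (by simp) (by simp))).mono le_rfl le_rfl (le_of_eq (by ring))

lemma near_conj {G : Type} [Group G] (T : Set G) (u : G) (F : Finset G)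
    (hF : ∀ s ∈ F, u * s * u⁻¹ ∈ Subgroup.closure T) :
    ∃ (S : Finset G) (C : ℝ) (m : ℕ), 0 ≤ C ∧ ∀ (K : Type) [Group K] (ℓ : K → ℝ) (φ : G → K)
      (ε : ℝ), InvLen ℓ → Ap ℓ φ S ε → 0 ≤ ε → ∀ s ∈ F,
        Near ℓ (φ '' T) m (C * ε) (φ u * φ s * (φ u)⁻¹) := by
  classical
  induction F using Finset.induction_on with
  | empty => exact ⟨∅, 0, 0, le_rfl, fun _ _ _ _ _ _ _ _ s hs => absurd hs (by simp)⟩
  | insert t F _ ih =>
    obtain ⟨S, C, m, c, h1⟩ := ih fun s hs => hF s (Finset.mem_insert_of_mem hs)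
    obtain ⟨S', C', m', c', h2⟩ := near_closure T (hF t (Finset.mem_insert_self _ _))
    refine ⟨S ∪ S' ∪ {u, t, u * t * u⁻¹}, C + C' + 2, m + m', by positivity,
      fun K _ ℓ φ ε h a hε s hs => ?_⟩
    have c1 := mul_nonneg c hε
    have c2 := mul_nonneg c' hε
    rcases Finset.mem_insert.1 hs with rfl | hs
    · exact ((h2 K ℓ φ ε h (a.mono fun z hz => by simp [hz])).close h
        (a.conj h (by simp) (by simp) (by simp))).mono le_rfl (by omega) (by linarith)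
    · exact (h1 K ℓ φ ε h (a.mono fun z hz => by simp [hz]) hε s hs).mono le_rfl (by omega)
        (by linarith)

theorem tree_ctrl {G : Type} [Group G] {α β a b : G} {L R : Finset G}
    (D : TreeData α β a b L R) :
    ∃ (S : Finset G) (C : ℝ) (e : ℕ), 0 < C ∧ ∀ (K : Type) [Group K] (ℓ : K → ℝ) (φ : G → K)
      (ε : ℝ) (W : ℕ → K), InvLen ℓ → Ap ℓ φ S ε → 0 ≤ ε → W 0 = 1 →
      (∀ j, W (2 * j + 1) = φ α * W j) → (∀ j, W (2 * j + 2) = φ β * W j) →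
      ∀ i l, i ≠ l → ∀ z, (z = a ∨ z = b) →
        ℓ (cm (W i * φ a * (W i)⁻¹) (W l * φ z * (W l)⁻¹)) ≤
          C * ε * (((i : ℝ) + 1) * (l + 1)) ^ e := by
  classical
  obtain ⟨S, C, m, c, h1⟩ := near_conj (L : Set G) α (L ∪ R ∪ {a, b}) fun s hs =>
    D.hα s (by simpa only [Finset.mem_union, Finset.mem_insert, Finset.mem_singleton, or_assoc] using hs)
  obtain ⟨S', C', m', c', h2⟩ := near_conj (R : Set G) β (L ∪ R ∪ {a, b}) fun s hs =>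
    D.hβ s (by simpa only [Finset.mem_union, Finset.mem_insert, Finset.mem_singleton, or_assoc] using hs)
  refine ⟨S ∪ S' ∪ (L ∪ R ∪ {a, b}), 5 * (C + C' + 2), m + m' + 1, by positivity,
    fun K _ ℓ φ ε W h ap hε w0 w1 w2 i l hil z hz => ?_⟩
  have c1 := mul_nonneg c hε
  have c2 := mul_nonneg c' hε
  have hm : ∀ z ∈ φ '' {a, b} ∪ φ '' L ∪ φ '' R, ∃ s ∈ L ∪ R ∪ {a, b}, φ s = z := by
    rintro _ ((⟨s, hs, rfl⟩ | ⟨s, hs, rfl⟩) | ⟨s, hs, rfl⟩)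
    · exact ⟨s, Finset.mem_union_right _ (by simpa using hs), rfl⟩
    · exact ⟨s, Finset.mem_union_left _ (Finset.mem_union_left _ hs), rfl⟩
    · exact ⟨s, Finset.mem_union_left _ (Finset.mem_union_right _ hs), rfl⟩
  have hc : ∀ x ∈ L ∪ R ∪ {a, b}, ∀ y ∈ L ∪ R ∪ {a, b}, Commute x y →
      ℓ (cm (φ x) (φ y)) ≤ (C + C' + 2) * ε := fun x hx y hy e =>
    (ap.comm h (Finset.mem_union_right _ hx) (Finset.mem_union_right _ hy) e).trans (by linarith)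
  have key := tree_abs h (A := φ '' {a, b}) (L := φ '' L) (R := φ '' R) (u := φ α) (v := φ β)
    (Λ := m + m') (δ := (C + C' + 2) * ε) (by positivity)
    (fun z hz => by
      obtain ⟨s, hs, rfl⟩ := hm z hz
      exact (h1 K ℓ φ ε h (ap.mono fun z hz => by simp [hz]) hε s hs).mono le_rfl (by omega)
        (by linarith))
    (fun z hz => by
      obtain ⟨s, hs, rfl⟩ := hm z hz
      exact (h2 K ℓ φ ε h (ap.mono fun z hz => by simp [hz]) hε s hs).mono le_rfl (by omega)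
        (by linarith))
    (by
      rintro _ ⟨x, rfl | rfl, rfl⟩ _ ⟨y, hy, rfl⟩
      · exact hc _ (by simp) y (by simp [Finset.mem_coe.1 hy]) (D.cL y hy).1.symm
      · exact hc _ (by simp) y (by simp [Finset.mem_coe.1 hy]) (D.cL y hy).2.symm)
    (by
      rintro _ ⟨x, rfl | rfl, rfl⟩ _ ⟨y, hy, rfl⟩
      · exact hc _ (by simp) y (by simp [Finset.mem_coe.1 hy]) (D.cR y hy).1.symm
      · exact hc _ (by simp) y (by simp [Finset.mem_coe.1 hy]) (D.cR y hy).2.symm)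
    (by
      rintro _ ⟨x, hx, rfl⟩ _ ⟨y, hy, rfl⟩
      exact hc _ (by simp [Finset.mem_coe.1 hx]) y (by simp [Finset.mem_coe.1 hy]) (D.cLR x hx y hy))
    w0 w1 w2 i l hil (φ a) ⟨a, .inl rfl, rfl⟩ (φ z) ⟨z, hz, rfl⟩
  refine key.trans (le_of_eq ?_)
  push_cast
  rw [mul_pow]
  ring

theorem ncl_ctrl {G : Type} [Group G] (a b g : G) (hg : g ∈ Subgroup.normalClosure {cm a b}) :
    ∃ (S : Finset G) (C : ℝ), 0 < C ∧ ∀ (K : Type) [Group K] (ℓ : K → ℝ) (φ : G → K) (ε : ℝ),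
      InvLen ℓ → Ap ℓ φ S ε → 0 ≤ ε → ℓ (φ g) ≤ C * (ℓ (cm (φ a) (φ b)) + ε) := by
  classical
  induction hg using Subgroup.closure_induction with
  | mem g hg =>
    obtain ⟨c, hc, hg⟩ := Group.mem_conjugatesOfSet_iff.1 hg
    obtain ⟨u, rfl⟩ := isConj_iff.1 hg
    rw [Set.mem_singleton_iff] at hc
    refine ⟨{u, c, u * c * u⁻¹, a, b, b * a}, 5, by norm_num, fun K _ ℓ φ ε h ap hε => ?_⟩
    have h1 := ap.conj h (u := u) (s := c) (by simp) (by simp) (by simp)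
    rw [h.symm] at h1
    have h2 := h.le_add (φ (u * c * u⁻¹)) (φ u * φ c * (φ u)⁻¹)
    rw [h.conj] at h2
    have h3 := ap.eq h (x := c) (y := b * a) (x' := a) (y' := b) (by simp) (by simp) (by simp)
      (by simp) (by rw [hc, cm]; group)
    have h4 := ap b (by simp) a (by simp)
    rw [h.symm] at h4
    have h5 := h.dmul (φ c) (φ b * φ a) (φ c) (φ (b * a))
    rw [mul_inv_cancel, h.one] at h5
    have h6 := h.tri (φ c * (φ b * φ a)) (φ c * φ (b * a)) (φ a * φ b)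
    rw [show φ c * (φ b * φ a) * (φ a * φ b)⁻¹ = φ c * (cm (φ a) (φ b))⁻¹ by unfold cm; group] at h6
    have h7 := h.le_add (φ c) (cm (φ a) (φ b))
    have h8 := h.nonneg (cm (φ a) (φ b))
    linarith
  | one =>
    refine ⟨{1}, 1, one_pos, fun K _ ℓ φ ε h ap _ => ?_⟩
    have h1 := ap.one h (by simp)
    have h8 := h.nonneg (cm (φ a) (φ b))
    linarith
  | mul x y _ _ hx hy =>
    obtain ⟨S, C, c, hx⟩ := hx
    obtain ⟨S', C', c', hy⟩ := hy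
    refine ⟨S ∪ S' ∪ {x, y}, C + C' + 1, by positivity, fun K _ ℓ φ ε h ap hε => ?_⟩
    have h1 := hx K ℓ φ ε h (ap.mono fun z hz => by simp [hz]) hε
    have h2 := hy K ℓ φ ε h (ap.mono fun z hz => by simp [hz]) hε
    have h3 := ap x (by simp) y (by simp)
    have h4 := h.le_add (φ (x * y)) (φ x * φ y)
    have h5 := h.mul (φ x) (φ y)
    have h8 := h.nonneg (cm (φ a) (φ b))
    linarith
  | inv x _ hx =>
    obtain ⟨S, C, c, hx⟩ := hx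
    refine ⟨S ∪ {1, x, x⁻¹}, C + 2, by positivity, fun K _ ℓ φ ε h ap hε => ?_⟩
    have h1 := hx K ℓ φ ε h (ap.mono fun z hz => by simp [hz]) hε
    have h3 := ap.inv h (x := x) (by simp) (by simp) (by simp)
    have h4 := h.le_add (φ x⁻¹) (φ x)⁻¹
    rw [h.inv] at h4
    have h8 := h.nonneg (cm (φ a) (φ b))
    linarith

end Pool.Agent.Lib.MP_3e9be7_al.H51
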