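import Pool.Agent.Lib.MP_3e9be7_al.H51Mat
import Pool.Agent.Lib.MP_3e9be7_al.H51FData

/-!
Almost representations of Thompson's group `F` in a unitarily invariant norm that grows like
the Schatten `p`-norm on projections almost kill the commutator subgroup.
-/

namespace Pool.Agent.Lib.MP_3e9be7_al.H51

open Matrix Finset

lemma half_le_log {x : ℝ} (hx : 0 ≤ x) : 1 / 2 ≤ Real.log (2 + x) := by
  have := Real.log_le_log (by norm_num) (show (2 : ℝ) ≤ 2 + x by linarith)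
  linarith [Real.log_two_gt_d9]

theorem mat_main {p C : ℝ} (hp : 1 ≤ p) (hC : 1 ≤ C) : ∃ c M : ℝ, 0 < c ∧ 0 < M ∧
    ∀ (n : Type) [Fintype n] [DecidableEq n] (N : Matrix n n ℂ → ℝ) (A B U V : Matrix n n ℂ)
      (W : ℕ → Matrix n n ℂ) (τ η : ℝ) (k : ℕ), UINorm p N → A ∈ unitaryGroup n ℂ →
      B ∈ unitaryGroup n ℂ → U ∈ unitaryGroup n ℂ → V ∈ unitaryGroup n ℂ →
      (∀ i, W i ∈ unitaryGroup n ℂ) → (∀ j, W (2 * j + 1) = U * W j) →
      (∀ j, W (2 * j + 2) = V * W j) → 0 < τ → τ ≤ N (A * B - B * A) → N (A - 1) ≤ C * τ →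
      N (B - 1) ≤ C * τ → N (U - 1) ≤ C * τ → N (V - 1) ≤ C * τ → 1 ≤ k →
      (∀ l < k, ∀ i < l, N (W i * A * (W i)ᴴ * (W l * A * (W l)ᴴ) -
        W l * A * (W l)ᴴ * (W i * A * (W i)ᴴ)) ≤ η) →
      (∀ l < k, ∀ i < l, N (W i * A * (W i)ᴴ * (W l * B * (W l)ᴴ) -
        W l * B * (W l)ᴴ * (W i * A * (W i)ᴴ)) ≤ η) →
      η * k ^ 24 ≤ c * τ → k ≤ M * Real.log (2 + τ) := by
  have hC0 : 0 < C := by linarith
  have hR : (1 : ℝ) ≤ 32 * C ^ 2 := by nlinarith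
  set c1 : ℝ := (1 / (192 * (32 * C ^ 2))) ^ 2 / (384 * (32 * C ^ 2)) ^ p with hc1
  have c10 : 0 < c1 := by positivity
  set u : ℝ := min (1 / (32 * C)) (c1 / (2432000 * C)) with hu
  have u0 : 0 < u := lt_min (by positivity) (by positivity)
  have u1 : C * u ≤ 1 / 32 := by
    have := min_le_left (1 / (32 * C)) (c1 / (2432000 * C))
    rw [← hu, le_div_iff₀ (by positivity)] at this
    linarith
  have u2 : 2432000 * (C * u) ≤ c1 := by
    have := min_le_right (1 / (32 * C)) (c1 / (2432000 * C))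
    rw [← hu, le_div_iff₀ (by positivity)] at this
    linarith
  have l1 : 0 ≤ Real.log 33001 := Real.log_nonneg (by norm_num)
  have l2 : 0 ≤ p * Real.log (32 * C ^ 2) := mul_nonneg (by linarith) (Real.log_nonneg hR)
  refine ⟨u ^ 8, 4224000 / c1 * (2 * (1 + Real.log 33001 + p * Real.log (32 * C ^ 2)) + p),
    by positivity, by positivity,
    fun n _ _ N A B U V W τ η k hN hA hB hU hV hW hW1 hW2 hτ h0 a1 a2 a3 a4 hk hAA hAB hη => ?_⟩
  have hk1 : (1 : ℝ) ≤ k := by exact_mod_cast hk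
  have e1 : η ≤ (u / k ^ 3) ^ 8 * τ := by
    rw [div_pow, div_mul_eq_mul_div, le_div_iff₀ (by positivity), ← pow_mul]
    exact hη
  have e2 : u / k ^ 3 ≤ 1 / (32 * C) :=
    (div_le_self u0.le (one_le_pow₀ hk1)).trans (min_le_left _ _)
  have h := mat_core hN hp hA hB hU hV hW hW1 hW2 hC hτ (by positivity) e2 h0 a1 a2 a3 a4 hk
    (fun l hl i hi => (hAA l hl i hi).trans e1) (fun l hl i hi => (hAB l hl i hi).trans e1) rfl rfl
  have e3 : (1 / (192 * (32 * C ^ 2))) ^ 2 * (τ / 384) ^ p = c1 * (32 * C ^ 2 * τ) ^ p := by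
    rw [hc1, div_mul_eq_mul_div, mul_div_assoc, ← Real.div_rpow (by positivity) (by positivity)]
    congr 2
    field_simp
  have e4 : 1 + 33000 * (32 * C ^ 2 * τ) ^ p ≤ 33001 * (32 * C ^ 2 * (2 + τ)) ^ p := by
    have b1 : (32 * C ^ 2 * τ) ^ p ≤ (32 * C ^ 2 * (2 + τ)) ^ p :=
      Real.rpow_le_rpow (by positivity) (by nlinarith) (by linarith)
    have b2 : 1 ≤ (32 * C ^ 2 * (2 + τ)) ^ p := Real.one_le_rpow (by nlinarith) (by linarith)
    linarith
  have e5 := Real.log_le_log (by positivity) e4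
  rw [Real.log_mul (by norm_num) (by positivity), Real.log_rpow (by positivity),
    Real.log_mul (by positivity) (by positivity)] at e5
  rw [e3] at h
  have hρ : 0 < (32 * C ^ 2 * τ) ^ p := by positivity
  generalize (32 * C ^ 2 * τ) ^ p = ρ at h e5 hρ
  have e6 : 260 * k ^ 3 * (4000 * C * (u / k ^ 3) * ρ) = 1040000 * (C * u * ρ) := by
    field_simp; ring
  have e7 : 304 * k ^ 4 * (4000 * C * (u / k ^ 3) * ρ) = 1216000 * (C * u) * (k * ρ) := by
    field_simp; ring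
  rw [e6, e7] at h
  have e8 : C * u * ρ ≤ 1 / 32 * ρ := mul_le_mul_of_nonneg_right u1 hρ.le
  have e9 : 0 ≤ C * u * ρ := by positivity
  have hD : 26 * (4 * ρ) + 1040000 * (C * u * ρ) ≤ 33000 * ρ := by linarith
  have hL := Real.log_le_log (by positivity) (add_le_add_right hD 1)
  have hL0 : 0 ≤ Real.log (1 + (26 * (4 * ρ) + 1040000 * (C * u * ρ))) :=
    Real.log_nonneg (by linarith)
  have f1 := mul_le_mul hD (add_le_add_right hL 1) (by linarith) (by positivity)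
  have f2 : 2432000 * (C * u) * (k * ρ) ≤ c1 * (k * ρ) :=
    mul_le_mul_of_nonneg_right u2 (by positivity)
  have f3 : c1 * k * ρ ≤ 4224000 * (1 + Real.log (1 + 33000 * ρ)) * ρ := by linarith
  have f4 := le_of_mul_le_mul_right f3 hρ
  have f5 := half_le_log hτ.le
  have f6 := mul_le_mul_of_nonneg_left f5
    (show 0 ≤ 2 * (1 + Real.log 33001 + p * Real.log (32 * C ^ 2)) by positivity)
  rw [div_mul_eq_mul_div, div_mul_eq_mul_div, le_div_iff₀ c10]
  nlinarith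

lemma exists_tree {K : Type} [Group K] (u v : K) : ∃ W : ℕ → K, W 0 = 1 ∧
    (∀ j, W (2 * j + 1) = u * W j) ∧ ∀ j, W (2 * j + 2) = v * W j := by
  let W : ℕ → K := fun i => Nat.strongRecOn i fun i r =>
    if h : i = 0 then 1 else (if i % 2 = 1 then u else v) * r ((i - 1) / 2) (by omega)
  have hW : ∀ i, W i = if i = 0 then 1 else (if i % 2 = 1 then u else v) * W ((i - 1) / 2) := by
    intro i
    simp only [W]
    rw [Nat.strongRecOn_eq]
    split_ifs <;> rfl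
  refine ⟨W, by rw [hW, if_pos rfl], fun j => ?_, fun j => ?_⟩
  · rw [hW, if_neg (by omega), if_pos (by omega), show (2 * j + 1 - 1) / 2 = j by omega]
  · rw [hW, if_neg (by omega), if_neg (by omega), show (2 * j + 2 - 1) / 2 = j by omega]

section
variable {n : Type} [Fintype n] [DecidableEq n] {p : ℝ} {N : Matrix n n ℂ → ℝ}

lemma UINorm.left (hN : UINorm p N) (U : unitaryGroup n ℂ) (X : Matrix n n ℂ) :
    N (U * X) = N X := by simpa using hN.unit _ U.2 _ (one_mem _) X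

lemma UINorm.right (hN : UINorm p N) (U : unitaryGroup n ℂ) (X : Matrix n n ℂ) :
    N (X * U) = N X := by simpa using hN.unit _ (one_mem _) _ U.2 X

lemma UINorm.div (hN : UINorm p N) (U V : unitaryGroup n ℂ) :
    N (((U * V⁻¹ : unitaryGroup n ℂ) : Matrix n n ℂ) - 1) = N ((U : Matrix n n ℂ) - V) := by
  rw [← hN.right V, sub_mul, one_mul, ← Submonoid.coe_mul, inv_mul_cancel_right]

lemma UINorm.invLen (hN : UINorm p N) :
    InvLen fun U : unitaryGroup n ℂ => N ((U : Matrix n n ℂ) - 1) where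
  one := by simpa using hN.smul 0 0
  inv g := by
    have := hN.div 1 g
    rw [one_mul] at this
    rw [this, hN.sub_comm]; rfl
  mul g h := by
    have := hN.add ((g : Matrix n n ℂ) - 1) (g * ((h : Matrix n n ℂ) - 1))
    rw [hN.left] at this
    refine le_of_eq_of_le (congrArg N ?_) this
    rw [Submonoid.coe_mul]; noncomm_ring
  conj g h := by
    rw [hN.div, ← hN.left h ((g : Matrix n n ℂ) - 1), Submonoid.coe_mul, mul_sub, mul_one]

lemma UINorm.cm_eq (hN : UINorm p N) (U V : unitaryGroup n ℂ) :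
    N (((cm U V : unitaryGroup n ℂ) : Matrix n n ℂ) - 1) =
      N ((U : Matrix n n ℂ) * V - (V : Matrix n n ℂ) * U) := by
  have : cm U V = U * V * (V * U)⁻¹ := by rw [cm]; group
  rw [this, hN.div, Submonoid.coe_mul, Submonoid.coe_mul]

end

theorem main_general : ∃ s : ℕ, ∀ g ∈ commutator ThompsonF, ∃ S : Finset ThompsonF,
    ∀ p : ℝ, 1 ≤ p → ∃ C : ℝ, ∀ (n : Type) [Fintype n] [DecidableEq n] (N : Matrix n n ℂ → ℝ),
      UINorm p N → ∀ (φ : ThompsonF → unitaryGroup n ℂ) (ε : ℝ), 0 ≤ ε →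
      (∀ x ∈ S, ∀ y ∈ S, N ((φ (x * y) : Matrix n n ℂ) - (φ x : Matrix n n ℂ) * φ y) ≤ ε) →
      N ((φ g : Matrix n n ℂ) - 1) ≤ C * ε * Real.log (2 + ε) ^ s := by
  classical
  obtain ⟨α, β, a, b, L, R, D, hF, hα, hβ, ha, hb⟩ := F_data
  obtain ⟨S0, C0, e, C00, h0⟩ := tree_ctrl D
  obtain ⟨S1, C1, C10, h1⟩ := ncl_ctrl a b α (hF hα)
  obtain ⟨S2, C2, C20, h2⟩ := ncl_ctrl a b β (hF hβ)
  obtain ⟨S3, C3, C30, h3⟩ := ncl_ctrl a b a (hF ha)
  obtain ⟨S4, C4, C40, h4⟩ := ncl_ctrl a b b (hF hb)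
  refine ⟨2 * e + 24, fun g hg => ?_⟩
  obtain ⟨S5, C5, C50, h5⟩ := ncl_ctrl a b g (hF hg)
  refine ⟨S0 ∪ (S1 ∪ (S2 ∪ (S3 ∪ (S4 ∪ S5)))), fun p hp => ?_⟩
  obtain ⟨c, M, c0, M0, hM⟩ := mat_main hp (C := 1 + 2 * (C1 + C2 + C3 + C4)) (by linarith)
  obtain ⟨C6, C60, h6⟩ := log_self_bound (2 * e + 24) (K := C0 * (M + 2) ^ (2 * e + 24) / c)
    (by positivity)
  refine ⟨2 * C5 * (C6 + 2 ^ (2 * e + 24)), fun n _ _ N hN φ ε ε0 hφ => ?_⟩
  have hℓ := hN.invLen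
  have ap : ∀ S : Finset ThompsonF, S ⊆ S0 ∪ (S1 ∪ (S2 ∪ (S3 ∪ (S4 ∪ S5)))) →
      Ap (fun U : unitaryGroup n ℂ => N ((U : Matrix n n ℂ) - 1)) φ S ε := fun S hS x hx y hy => by
    have := hφ x (hS hx) y (hS hy)
    rwa [← Submonoid.coe_mul, ← hN.div] at this
  have g1 := h1 _ _ φ ε hℓ (ap _ fun x hx => by simp [hx]) ε0
  have g2 := h2 _ _ φ ε hℓ (ap _ fun x hx => by simp [hx]) ε0
  have g3 := h3 _ _ φ ε hℓ (ap _ fun x hx => by simp [hx]) ε0
  have g4 := h4 _ _ φ ε hℓ (ap _ fun x hx => by simp [hx]) ε0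
  have g5 := h5 _ _ φ ε hℓ (ap _ fun x hx => by simp [hx]) ε0
  obtain ⟨W, W0, W1, W2⟩ := exists_tree (φ α) (φ β)
  have g0 := h0 _ _ φ ε W hℓ (ap _ fun x hx => by simp [hx]) ε0 W0 W1 W2
  simp only [hN.cm_eq] at g0 g1 g2 g3 g4 g5
  have hτ0 := hN.nonneg ((φ a : Matrix n n ℂ) * φ b - (φ b : Matrix n n ℂ) * φ a)
  set τ := N ((φ a : Matrix n n ℂ) * φ b - (φ b : Matrix n n ℂ) * φ a) with hτ
  have l0 : 0 ≤ Real.log (2 + ε) ^ (2 * e + 24) :=
    pow_nonneg (le_trans (by norm_num) (half_le_log ε0)) _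
  have l1 : ε ≤ 2 ^ (2 * e + 24) * ε * Real.log (2 + ε) ^ (2 * e + 24) := by
    rw [mul_right_comm, ← mul_pow]
    exact le_mul_of_one_le_left ε0 (one_le_pow₀ (by linarith [half_le_log ε0]))
  have l2 : 0 ≤ C6 * ε * Real.log (2 + ε) ^ (2 * e + 24) := by positivity
  suffices key : ε < τ → τ ≤ C6 * ε * Real.log (2 + ε) ^ (2 * e + 24) by
    refine g5.trans ?_
    have : τ + ε ≤ 2 * (C6 * ε * Real.log (2 + ε) ^ (2 * e + 24) +
        2 ^ (2 * e + 24) * ε * Real.log (2 + ε) ^ (2 * e + 24)) := by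
      rcases lt_or_ge ε τ with h | h
      · linarith [key h]
      · linarith
    refine (mul_le_mul_of_nonneg_left this C50.le).trans (le_of_eq ?_)
    ring
  intro hε
  have τ0 : 0 < τ := ε0.trans_lt hε
  refine h6 τ ε hτ0 ε0 ?_
  have l3 := half_le_log hτ0
  set k := ⌊M * Real.log (2 + τ)⌋₊ + 1 with hk
  have k1 : M * Real.log (2 + τ) < k := by rw [hk]; push_cast; exact Nat.lt_floor_add_one _
  have k2 : (k : ℝ) ≤ (M + 2) * Real.log (2 + τ) := by
    have := Nat.floor_le (show 0 ≤ M * Real.log (2 + τ) by positivity)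
    rw [hk]; push_cast; linarith
  have up : ∀ C' x : ℝ, 0 < C' → 2 * C' ≤ 1 + 2 * (C1 + C2 + C3 + C4) → x ≤ C' * (τ + ε) →
      x ≤ (1 + 2 * (C1 + C2 + C3 + C4)) * τ := fun C' x q1 q2 q3 => by nlinarith
  have bd : ∀ l < k, ∀ i < l, C0 * ε * (((i : ℝ) + 1) * (l + 1)) ^ e ≤ C0 * ε * k ^ (2 * e) := by
    intro l hl i hi
    have q1 : (l : ℝ) + 1 ≤ k := by exact_mod_cast hl
    have q2 : (i : ℝ) + 1 ≤ k := by exact_mod_cast hi.trans hl
    rw [pow_mul, pow_two]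
    gcongr
  have co : ∀ x y : unitaryGroup n ℂ, ((x * y * x⁻¹ : unitaryGroup n ℂ) : Matrix n n ℂ) =
      (x : Matrix n n ℂ) * y * (x : Matrix n n ℂ)ᴴ := fun x y => rfl
  simp only [co] at g0
  have fin := mt (hM n N (φ a) (φ b) (φ α) (φ β) (fun i => W i) τ (C0 * ε * k ^ (2 * e)) k hN
    (φ a).2 (φ b).2 (φ α).2 (φ β).2 (fun i => (W i).2) (fun j => by rw [W1]; rfl)
    (fun j => by rw [W2]; rfl) τ0 le_rfl (up _ _ C30 (by linarith) g3)
    (up _ _ C40 (by linarith) g4) (up _ _ C10 (by linarith) g1) (up _ _ C20 (by linarith) g2)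
    (by omega) (fun l hl i hi => (g0 i l hi.ne a (Or.inl rfl)).trans (bd l hl i hi))
    (fun l hl i hi => (g0 i l hi.ne b (Or.inr rfl)).trans (bd l hl i hi))) (not_le.2 k1)
  rw [not_le, mul_assoc, ← pow_add] at fin
  have q : (k : ℝ) ^ (2 * e + 24) ≤ ((M + 2) * Real.log (2 + τ)) ^ (2 * e + 24) := by gcongr
  have q2 := mul_le_mul_of_nonneg_left q (show 0 ≤ C0 * ε by positivity)
  rw [mul_pow] at q2
  rw [div_mul_eq_mul_div, div_mul_eq_mul_div, le_div_iff₀ c0]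
  nlinarith

end Pool.Agent.Lib.MP_3e9be7_al.H51
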