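import Pool.Agent.Lib.MP_3e9be7_al.H51SVD

/-!
Functions of a Hermitian matrix: a Lipschitz estimate for commutators and the choice of a
spectral projection.
-/

namespace Pool.Agent.Lib.MP_3e9be7_al.H51

open Matrix Finset
open scoped Matrix.Norms.L2Operator

variable {n : Type} [Fintype n] [DecidableEq n]

/-- The matrix with eigenvalues `g` in the orthonormal basis given by the columns of `E`. -/
noncomputable def cd (E : Matrix n n ℂ) (g : n → ℝ) : Matrix n n ℂ :=
  E * diagonal (fun i => (g i : ℂ)) * Eᴴ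

variable {E : Matrix n n ℂ} {p : ℝ} {N : Matrix n n ℂ → ℝ}

lemma sel_star (hE : E ∈ unitaryGroup n ℂ) : Eᴴ ∈ unitaryGroup n ℂ := by
  rw [← star_eq_conjTranspose]
  exact Unitary.star_mem hE

lemma sel_l (hE : E ∈ unitaryGroup n ℂ) : Eᴴ * E = 1 := by
  rw [← star_eq_conjTranspose]
  exact mem_unitaryGroup_iff'.1 hE

lemma sel_r (hE : E ∈ unitaryGroup n ℂ) : E * Eᴴ = 1 := by
  rw [← star_eq_conjTranspose]
  exact mem_unitaryGroup_iff.1 hE

lemma sel_mul (hE : E ∈ unitaryGroup n ℂ) (X Z : Matrix n n ℂ) :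
    E * X * Eᴴ * (E * Z * Eᴴ) = E * (X * Z) * Eᴴ := by
  calc E * X * Eᴴ * (E * Z * Eᴴ) = E * X * (Eᴴ * E) * Z * Eᴴ := by
        simp only [Matrix.mul_assoc]
    _ = _ := by rw [sel_l hE, Matrix.mul_one]; simp only [Matrix.mul_assoc]

lemma sel_fr (hE : E ∈ unitaryGroup n ℂ) (X : Matrix n n ℂ) : fr (E * X * Eᴴ) = fr X := by
  rw [fr_unit_right (sel_star hE), fr_unit_left hE]

lemma sel_norm {U V : Matrix n n ℂ} (hU : U ∈ unitaryGroup n ℂ) (hV : V ∈ unitaryGroup n ℂ)
    (X : Matrix n n ℂ) : ‖U * X * V‖ ≤ ‖X‖ := by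
  have h1 := norm_unit_le hU
  have h2 := norm_unit_le hV
  calc ‖U * X * V‖ ≤ ‖U * X‖ * ‖V‖ := l2_opNorm_mul _ _
    _ ≤ ‖U * X‖ := mul_le_of_le_one_right (norm_nonneg _) h2
    _ ≤ ‖U‖ * ‖X‖ := l2_opNorm_mul _ _
    _ ≤ ‖X‖ := mul_le_of_le_one_left (norm_nonneg _) h1

lemma cd_conjT (E : Matrix n n ℂ) (g : n → ℝ) : (cd E g)ᴴ = cd E g := by
  have h : (diagonal fun i => (g i : ℂ))ᴴ = diagonal fun i => (g i : ℂ) := by
    rw [diagonal_conjTranspose]
    congr 1
    funext i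
    simp
  simp only [cd, conjTranspose_mul, conjTranspose_conjTranspose, h, Matrix.mul_assoc]

lemma cd_mul (hE : E ∈ unitaryGroup n ℂ) (g h : n → ℝ) :
    cd E g * cd E h = cd E (fun i => g i * h i) := by
  simp only [cd, sel_mul hE, diagonal_mul_diagonal, Complex.ofReal_mul]

lemma cd_sub (E : Matrix n n ℂ) (g h : n → ℝ) : cd E g - cd E h = cd E (fun i => g i - h i) := by
  simp only [cd, ← Matrix.sub_mul, ← Matrix.mul_sub, diagonal_sub, Complex.ofReal_sub]

lemma cd_conj (W E : Matrix n n ℂ) (g : n → ℝ) : W * cd E g * Wᴴ = cd (W * E) g := by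
  simp only [cd, conjTranspose_mul, Matrix.mul_assoc]

lemma fr_cd (hE : E ∈ unitaryGroup n ℂ) (g : n → ℝ) : fr (cd E g) = ∑ i, g i ^ 2 := by
  rw [cd, sel_fr hE, fr]
  refine sum_congr rfl fun i _ => ?_
  rw [sum_eq_single i]
  · simp
  · intro j _ hj
    simp [diagonal_apply_ne' _ hj]
  · simp

lemma norm_cd_le (hE : E ∈ unitaryGroup n ℂ) {g : n → ℝ} {c : ℝ} (hc : 0 ≤ c)
    (hg : ∀ i, |g i| ≤ c) : ‖cd E g‖ ≤ c := by
  refine (sel_norm hE (sel_star hE) _).trans ?_
  rw [l2_opNorm_diagonal]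
  exact (pi_norm_le_iff_of_nonneg hc).2 fun i => by simpa using hg i

lemma abs_le_norm_cd (hE : E ∈ unitaryGroup n ℂ) (g : n → ℝ) (i : n) : |g i| ≤ ‖cd E g‖ := by
  have h1 : Eᴴ * cd E g * E = diagonal fun i => (g i : ℂ) := by
    calc Eᴴ * cd E g * E = (Eᴴ * E) * diagonal (fun i => (g i : ℂ)) * (Eᴴ * E) := by
          simp only [cd, Matrix.mul_assoc]
      _ = _ := by rw [sel_l hE, Matrix.one_mul, Matrix.mul_one]
  have h2 := sel_norm (sel_star hE) hE (cd E g)
  rw [h1, l2_opNorm_diagonal] at h2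
  refine le_trans ?_ h2
  simpa using norm_le_pi_norm (fun i => (g i : ℂ)) i

lemma exists_cd {H : Matrix n n ℂ} (hH : Hᴴ = H) :
    ∃ E ∈ unitaryGroup n ℂ, ∃ h : n → ℝ, H = cd E h := by
  have hA : H.IsHermitian := hH
  refine ⟨hA.eigenvectorUnitary, hA.eigenvectorUnitary.2, hA.eigenvalues, ?_⟩
  have := hA.spectral_theorem
  rw [Unitary.conjStarAlgAut_apply] at this
  exact this

lemma UINorm.cd_eq (hN : UINorm p N) (hE : E ∈ unitaryGroup n ℂ) (g : n → ℝ) :
    N (cd E g) = N (diagonal fun i => (g i : ℂ)) := by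
  exact hN.unit E hE Eᴴ (sel_star hE) _

lemma schur (hE : E ∈ unitaryGroup n ℂ) {f h q : n → ℝ} {Λ : ℝ}
    (hf : ∀ a b, |f a - f b| ≤ Λ * |h a - h b|) (hq : ∀ a, f a ≠ 0 → q a = 1)
    (Y : Matrix n n ℂ) :
    fr (cd E f * Y - Y * cd E f) ≤ Λ ^ 2 * (fr (cd E q * (cd E h * Y - Y * cd E h)) +
      fr ((cd E h * Y - Y * cd E h) * cd E q)) := by
  obtain ⟨Z, rfl⟩ : ∃ Z, Y = E * Z * Eᴴ := by
    refine ⟨Eᴴ * Y * E, ?_⟩
    calc Y = (E * Eᴴ) * Y * (E * Eᴴ) := by rw [sel_r hE, Matrix.one_mul, Matrix.mul_one]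
      _ = _ := by simp only [Matrix.mul_assoc]
  simp only [cd, sel_mul hE, ← Matrix.sub_mul, ← Matrix.mul_sub, sel_fr hE]
  simp only [fr, mul_sum, mul_add, ← sum_add_distrib]
  refine sum_le_sum fun a _ => sum_le_sum fun b _ => ?_
  simp only [Matrix.sub_apply, diagonal_mul, mul_diagonal]
  have e : ∀ u : n → ℝ, (u a : ℂ) * Z a b - Z a b * u b = ((u a - u b : ℝ) : ℂ) * Z a b := by
    intro u
    push_cast
    ring
  simp only [e, norm_mul, Complex.norm_real, Real.norm_eq_abs, mul_pow]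
  have h1 : |f a - f b| ^ 2 ≤ Λ ^ 2 * |h a - h b| ^ 2 := by
    rw [← mul_pow]
    exact pow_le_pow_left₀ (abs_nonneg _) (hf a b) 2
  have h2 : |f a - f b| ^ 2 ≤ Λ ^ 2 * |h a - h b| ^ 2 * (|q a| ^ 2 + |q b| ^ 2) := by
    by_cases ha : f a = 0
    · by_cases hb : f b = 0
      · rw [ha, hb, sub_self, abs_zero, zero_pow two_ne_zero]
        positivity
      · rw [hq b hb, abs_one, one_pow]
        exact h1.trans (le_mul_of_one_le_right (by positivity) (by nlinarith [sq_nonneg |q a|]))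
    · rw [hq a ha, abs_one, one_pow]
      exact h1.trans (le_mul_of_one_le_right (by positivity) (by nlinarith [sq_nonneg |q b|]))
  have h3 := mul_le_mul_of_nonneg_right h2 (sq_nonneg ‖Z a b‖)
  linarith

lemma sel_cd_add (E : Matrix n n ℂ) (g h : n → ℝ) :
    cd E (fun i => g i + h i) = cd E g + cd E h := by
  simp only [cd, ← Matrix.add_mul, ← Matrix.mul_add, diagonal_add, Complex.ofReal_add]

lemma sel_cd_smul (E : Matrix n n ℂ) (c : ℝ) (g : n → ℝ) :
    cd E (fun i => c * g i) = (c : ℂ) • cd E g := by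
  have h : (diagonal fun i => ((c * g i : ℝ) : ℂ)) = (c : ℂ) • diagonal fun i => (g i : ℂ) := by
    rw [← diagonal_smul]
    congr 1
    funext i
    simp
  simp only [cd, h, Matrix.mul_smul, Matrix.smul_mul]

/-- The norm of the commutator of a function of the Hermitian matrix with `B`. -/
noncomputable def selC (N : Matrix n n ℂ → ℝ) (E B : Matrix n n ℂ) (g : n → ℝ) : ℝ :=
  N (cd E g * B - B * cd E g)

lemma selC_add (hN : UINorm p N) (B : Matrix n n ℂ) (g h : n → ℝ) :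
    selC N E B (fun i => g i + h i) ≤ selC N E B g + selC N E B h := by
  unfold selC
  refine le_trans (le_of_eq ?_) (hN.add _ _)
  rw [sel_cd_add]
  congr 1
  noncomm_ring

lemma selC_smul (hN : UINorm p N) (B : Matrix n n ℂ) (c : ℝ) (g : n → ℝ) :
    selC N E B (fun i => c * g i) = |c| * selC N E B g := by
  unfold selC
  rw [sel_cd_smul, Matrix.smul_mul, Matrix.mul_smul, ← smul_sub, hN.smul, Complex.norm_real,
    Real.norm_eq_abs]

lemma selC_sum (hN : UINorm p N) (B : Matrix n n ℂ) (g : ℕ → n → ℝ) (J : ℕ) :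
    selC N E B (fun i => ∑ j ∈ range J, g j i) ≤ ∑ j ∈ range J, selC N E B (g j) := by
  induction J with
  | zero =>
    have := selC_smul (E := E) hN B 0 fun _ => 0
    simp only [zero_mul, abs_zero] at this
    simp only [range_zero, sum_empty, this, le_refl]
  | succ J ih =>
    simp only [sum_range_succ]
    exact (selC_add hN B _ _).trans (add_le_add_left ih _)

lemma selC_le (hN : UINorm p N) (hE : E ∈ unitaryGroup n ℂ) (B : Matrix n n ℂ) {g : n → ℝ}
    {c : ℝ} (hc : 0 ≤ c) (hg : ∀ i, |g i| ≤ c) : selC N E B g ≤ 2 * c * N (B - 1) := by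
  unfold selC
  have e : cd E g * B - B * cd E g = cd E g * (B - 1) - (B - 1) * cd E g := by noncomm_ring
  have h1 := mul_le_mul_of_nonneg_right (norm_cd_le hE hc hg) (hN.nonneg (B - 1))
  have h2 := hN.sub (cd E g * (B - 1)) ((B - 1) * cd E g)
  have h3 := hN.mul_left (cd E g) (B - 1)
  have h4 := hN.mul_right (cd E g) (B - 1)
  rw [e]
  linarith

lemma sel_step {d κ : ℝ} (hκ : 0 < κ) (hd : 2 * κ ≤ d) (x : ℝ) (J : ℕ) :
    min (x - d) (2 * κ * J) ≤ 2 * κ * ∑ j ∈ range J, (if d + 2 * κ * j < x then (1 : ℝ) else 0) ∧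
    2 * κ * ∑ j ∈ range J, (if d + 2 * κ * j < x then (1 : ℝ) else 0) ≤ max x 0 ∧
    2 * κ * ∑ j ∈ range J, (if d + 2 * κ * j < x then (1 : ℝ) else 0) ≤ 2 * κ * J := by
  induction J with
  | zero => simp
  | succ J ih =>
    obtain ⟨h1, h2, h3⟩ := ih
    rw [sum_range_succ, mul_add, Nat.cast_succ, mul_add, mul_one]
    split_ifs with h
    · rw [min_eq_right (by linarith)] at h1
      exact ⟨(min_le_right _ _).trans (by linarith), le_max_of_le_left (by linarith), by linarith⟩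
    · rw [min_eq_left (by linarith)] at h1
      exact ⟨(min_le_left _ _).trans (by linarith), by linarith, by linarith⟩

omit [DecidableEq n] in
lemma sel_windows {d κ l : ℝ} (hκ : 0 < κ) (hl : l ≤ d - κ) (x : n → ℝ) (J : ℕ) :
    ∑ j ∈ range J, (((univ : Finset n).filter fun a => |x a - (d + 2 * κ * j)| < κ).card : ℝ) ≤
      ((univ : Finset n).filter fun a => l ≤ |x a|).card := by
  classical
  rw [← Nat.cast_sum, ← card_biUnion]
  · refine Nat.cast_le.2 (card_le_card fun a ha => ?_)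
    obtain ⟨j, -, hj⟩ := mem_biUnion.1 ha
    have h1 := (abs_lt.1 (mem_filter.1 hj).2).1
    have h2 : 0 ≤ 2 * κ * j := by positivity
    exact mem_filter.2 ⟨mem_univ _, le_trans (by linarith) (le_abs_self _)⟩
  · intro i _ j _ hij
    refine disjoint_left.2 fun a hi hj => hij ?_
    have h1 := abs_lt.1 (mem_filter.1 hi).2
    have h2 := abs_lt.1 (mem_filter.1 hj).2
    have h3 : (i : ℝ) < j + 1 := lt_of_mul_lt_mul_left (a := 2 * κ) (by linarith) (by positivity)
    have h4 : (j : ℝ) < i + 1 := lt_of_mul_lt_mul_left (a := 2 * κ) (by linarith) (by positivity)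
    have h5 : i < j + 1 := by exact_mod_cast h3
    have h6 : j < i + 1 := by exact_mod_cast h4
    omega

theorem select (hN : UINorm p N) (hp : 1 ≤ p) (hE : E ∈ unitaryGroup n ℂ) {h : n → ℝ}
    (hh : ∀ a, |h a| ≤ 2) {B : Matrix n n ℂ} {C τ κ : ℝ} (hC : 1 ≤ C) (hτ : 0 < τ)
    (hκ : 0 < κ) (hκC : κ ≤ 1 / (32 * C)) (h1 : N (cd E h) ≤ C * τ) (h2 : N (B - 1) ≤ C * τ)
    (h3 : τ / 2 ≤ N (cd E h * B - B * cd E h)) :
    ∃ e θ : ℝ, (e = 1 ∨ e = -1) ∧ 1 / (16 * C) ≤ θ ∧
      τ / 48 ≤ N (cd E (fun a => if θ < e * h a then 1 else 0) * B -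
        B * cd E (fun a => if θ < e * h a then 1 else 0)) ∧
      (((univ : Finset n).filter fun a => |e * h a - θ| < κ).card : ℝ) ≤
        128 * C * κ * (32 * C ^ 2 * τ) ^ p := by
  by_contra hcon
  obtain ⟨d, hd⟩ : ∃ d : ℝ, d = 1 / (16 * C) := ⟨_, rfl⟩
  have hC0 : 0 < C := by linarith
  have hdC : d * C = 1 / 16 := by rw [hd]; field_simp
  have hd2 : 1 / (32 * C) = d / 2 := by rw [hd]; field_simp; norm_num
  have hd0 : 0 < d := by rw [hd]; positivity
  rw [hd2] at hκC
  rw [← hd] at hcon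
  have hκ1 : κ ≤ 1 / 2 := by nlinarith
  obtain ⟨J, hJ1, hJ2⟩ : ∃ J : ℕ, 1 ≤ κ * J ∧ κ * J ≤ 3 / 2 := by
    refine ⟨⌈1 / κ⌉₊, ?_, ?_⟩
    · have := mul_le_mul_of_nonneg_left (Nat.le_ceil (1 / κ)) hκ.le
      rwa [mul_one_div_cancel hκ.ne'] at this
    · have := mul_le_mul_of_nonneg_left (Nat.ceil_lt_add_one (by positivity : 0 ≤ 1 / κ)).le hκ.le
      rw [mul_add, mul_one_div_cancel hκ.ne'] at this
      linarith
  obtain ⟨ρ, hρ⟩ : ∃ ρ : ℝ, ρ = (32 * C ^ 2 * τ) ^ p := ⟨_, rfl⟩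
  have hρ0 : 0 < ρ := by rw [hρ]; positivity
  rw [← hρ] at hcon
  have hcount : (((univ : Finset n).filter fun a => d / 2 ≤ |h a|).card : ℝ) ≤ ρ := by
    refine (hN.count hp h (by positivity)).trans ?_
    rw [hρ, ← hN.cd_eq hE]
    refine Real.rpow_le_rpow (div_nonneg (hN.nonneg _) (by positivity)) ?_ (by linarith)
    rw [div_le_iff₀ (by positivity)]
    refine h1.trans (le_of_eq ?_)
    linear_combination (-16 * C * τ) * hdC
  obtain ⟨P, hP⟩ : ∃ P : ℝ → ℕ → n → ℝ,
      P = fun e (j : ℕ) a => if d + 2 * κ * j < e * h a then 1 else 0 := ⟨_, rfl⟩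
  have hsum : ∀ e : ℝ, e = 1 ∨ e = -1 →
      2 * κ * ∑ j ∈ range J, selC N E B (P e j) ≤ τ / 16 + τ / 32 := by
    intro e he
    have hw := sel_windows (d := d) (l := d / 2) hκ (by linarith) (fun a => e * h a) J
    have hea : ∀ a, |e * h a| = |h a| := by
      intro a
      rcases he with rfl | rfl <;> simp
    simp only [hea] at hw
    have ht : ∀ j ∈ range J, 128 * C * κ * ρ * selC N E B (P e j) ≤ 128 * C * κ * ρ * (τ / 48) +
        2 * C * τ *
          (((univ : Finset n).filter fun a => |e * h a - (d + 2 * κ * j)| < κ).card : ℝ) := by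
      intro j _
      have hμ : 0 < 128 * C * κ * ρ := by positivity
      by_cases hs : τ / 48 ≤ selC N E B (P e j)
      · have h4 : 128 * C * κ * ρ <
            (((univ : Finset n).filter fun a => |e * h a - (d + 2 * κ * j)| < κ).card : ℝ) := by
          refine not_le.1 fun h5 => hcon ⟨e, d + 2 * κ * j, he,
            le_add_of_nonneg_right (by positivity), ?_, h5⟩
          simpa only [hP, selC] using hs
        have h5 := selC_le hN hE B (g := P e j) zero_le_one fun a => by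
          simp only [hP]
          split_ifs <;> simp
        have h6 : selC N E B (P e j) ≤ 2 * C * τ := by linarith
        have h7 := mul_le_mul_of_nonneg_left h6 hμ.le
        have h8 := mul_le_mul_of_nonneg_left h4.le (by positivity : 0 ≤ 2 * C * τ)
        have h9 : 0 ≤ 128 * C * κ * ρ * (τ / 48) := by positivity
        linarith
      · have h7 := mul_le_mul_of_nonneg_left (not_le.1 hs).le hμ.le
        have h8 : 0 ≤ 2 * C * τ *
          (((univ : Finset n).filter fun a => |e * h a - (d + 2 * κ * j)| < κ).card : ℝ) := by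
          positivity
        linarith
    have h4 := sum_le_sum ht
    rw [sum_add_distrib, ← mul_sum, ← mul_sum, ← mul_sum, sum_const, card_range,
      nsmul_eq_mul] at h4
    have h5 := mul_le_mul_of_nonneg_left (hw.trans hcount) (by positivity : 0 ≤ 2 * C * τ)
    have h6 := mul_le_mul_of_nonneg_left hJ2 (by positivity : 0 ≤ C * ρ * τ)
    refine le_of_mul_le_mul_left ?_ (by positivity : 0 < 64 * C * ρ)
    linarith
  have hg : ∀ a, |h a - (2 * κ * ∑ j ∈ range J, P 1 j a +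
      -(2 * κ) * ∑ j ∈ range J, P (-1) j a)| ≤ d := by
    intro a
    obtain ⟨a1, a2, -⟩ := sel_step (d := d) hκ (by linarith) (h a) J
    obtain ⟨b1, b2, -⟩ := sel_step (d := d) hκ (by linarith) (-h a) J
    have hb := abs_le.1 (hh a)
    rw [min_eq_left (by linarith)] at a1 b1
    have p1 : 0 ≤ 2 * κ * ∑ j ∈ range J, (if d + 2 * κ * j < h a then (1 : ℝ) else 0) :=
      mul_nonneg (by positivity) (sum_nonneg fun j _ => by split_ifs <;> norm_num)
    have p2 : 0 ≤ 2 * κ * ∑ j ∈ range J, (if d + 2 * κ * j < -h a then (1 : ℝ) else 0) :=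
      mul_nonneg (by positivity) (sum_nonneg fun j _ => by split_ifs <;> norm_num)
    simp only [hP, one_mul, neg_mul]
    rcases le_total 0 (h a) with h0 | h0
    · rw [max_eq_left h0] at a2
      rw [max_eq_right (by linarith)] at b2
      rw [abs_le]
      constructor <;> linarith
    · rw [max_eq_right h0] at a2
      rw [max_eq_left (by linarith)] at b2
      rw [abs_le]
      constructor <;> linarith
  have k1 := selC_le hN hE B hd0.le hg
  have k2 := selC_add (E := E) hN B (fun a => h a - (2 * κ * ∑ j ∈ range J, P 1 j a +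
      -(2 * κ) * ∑ j ∈ range J, P (-1) j a)) fun a => 2 * κ * ∑ j ∈ range J, P 1 j a +
      -(2 * κ) * ∑ j ∈ range J, P (-1) j a
  have k3 := selC_add (E := E) hN B (fun a => 2 * κ * ∑ j ∈ range J, P 1 j a)
    fun a => -(2 * κ) * ∑ j ∈ range J, P (-1) j a
  rw [selC_smul hN, selC_smul hN, abs_neg, abs_of_pos (by positivity : 0 < 2 * κ)] at k3
  have k4 := mul_le_mul_of_nonneg_left (selC_sum (E := E) hN B (P 1) J)
    (by positivity : 0 ≤ 2 * κ)
  have k5 := mul_le_mul_of_nonneg_left (selC_sum (E := E) hN B (P (-1)) J)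
    (by positivity : 0 ≤ 2 * κ)
  have k6 := hsum 1 (Or.inl rfl)
  have k7 := hsum (-1) (Or.inr rfl)
  simp only [sub_add_cancel] at k2
  have k8 : τ / 2 ≤ selC N E B fun a => h a := h3
  have k9 := mul_le_mul_of_nonneg_left h2 hd0.le
  have k10 : d * (C * τ) = τ / 16 := by linear_combination τ * hdC
  linarith

end Pool.Agent.Lib.MP_3e9be7_al.H51
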