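import Pool.Agent.Lib.MP_3e9be7_al.H51Core
import Pool.Agent.Lib.MP_3e9be7_al.H51Sel

/-!
A binary tree of almost commuting conjugates of a pair of unitary matrices that do not commute
has logarithmic size.
-/

namespace Pool.Agent.Lib.MP_3e9be7_al.H51

open Matrix Finset
open scoped Matrix.Norms.L2Operator

variable {n : Type} [Fintype n] [DecidableEq n] {p : ℝ} {N : Matrix n n ℂ → ℝ}

lemma mul_conjT {U : Matrix n n ℂ} (h : U ∈ unitaryGroup n ℂ) : U * Uᴴ = 1 :=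
  mem_unitaryGroup_iff.1 h

lemma conjT_mul {U : Matrix n n ℂ} (h : U ∈ unitaryGroup n ℂ) : Uᴴ * U = 1 :=
  mem_unitaryGroup_iff'.1 h

lemma conjT_mem {U : Matrix n n ℂ} (h : U ∈ unitaryGroup n ℂ) : Uᴴ ∈ unitaryGroup n ℂ :=
  Unitary.star_mem h

lemma UINorm.sub_comm (hN : UINorm p N) (X Y : Matrix n n ℂ) : N (X - Y) = N (Y - X) := by
  rw [← hN.neg, neg_sub]

/-- A Hermitian part of `A - 1`. -/
noncomputable def hh (c : ℂ) (A : Matrix n n ℂ) : Matrix n n ℂ := c • (A - 1) + star c • (A - 1)ᴴ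

omit [Fintype n] in
lemma hh_conjT (c : ℂ) (A : Matrix n n ℂ) : (hh c A)ᴴ = hh c A := by
  simp only [hh, conjTranspose_add, conjTranspose_smul, star_star, conjTranspose_conjTranspose]
  abel

lemma hh_conj (c : ℂ) (A : Matrix n n ℂ) {W : Matrix n n ℂ} (hW : W ∈ unitaryGroup n ℂ) :
    W * hh c A * Wᴴ = hh c (W * A * Wᴴ) := by
  simp only [hh, conjTranspose_sub, conjTranspose_one, conjTranspose_mul,
    conjTranspose_conjTranspose, mul_add, add_mul, mul_smul_comm, smul_mul_assoc, mul_sub, sub_mul,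
    mul_one, mul_conjT hW, mul_assoc]

lemma hh_norm {c : ℂ} (hc : ‖c‖ = 1 / 2) {A : Matrix n n ℂ} (hA : A ∈ unitaryGroup n ℂ) :
    ‖hh c A‖ ≤ 2 := by
  have h1 : ‖A - 1‖ ≤ 2 := (norm_sub_le _ _).trans (by
    linarith [norm_unit_le hA, norm_unit_le (one_mem (unitaryGroup n ℂ))])
  refine (norm_add_le _ _).trans ?_
  rw [norm_smul, norm_smul, norm_star, hc, l2_opNorm_conjTranspose]
  linarith

lemma hh_le (hN : UINorm p N) {c : ℂ} (hc : ‖c‖ = 1 / 2) (A : Matrix n n ℂ) :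
    N (hh c A) ≤ N (A - 1) := by
  refine (hN.add _ _).trans ?_
  rw [hN.smul, hN.smul, norm_star, hc, hN.conjT]
  linarith

lemma hh_comm (hN : UINorm p N) {c : ℂ} (hc : ‖c‖ = 1 / 2) {A : Matrix n n ℂ}
    (hA : A ∈ unitaryGroup n ℂ) (Y : Matrix n n ℂ) :
    N (hh c A * Y - Y * hh c A) ≤ N (A * Y - Y * A) := by
  have e1 : Aᴴ * (Y * A - A * Y) * Aᴴ = Aᴴ * Y - Y * Aᴴ := by
    calc Aᴴ * (Y * A - A * Y) * Aᴴ = Aᴴ * Y * (A * Aᴴ) - Aᴴ * A * Y * Aᴴ := by noncomm_ring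
      _ = _ := by rw [mul_conjT hA, conjT_mul hA, mul_one, one_mul]
  have e : hh c A * Y - Y * hh c A = c • (A * Y - Y * A) + star c • (Aᴴ * (Y * A - A * Y) * Aᴴ) := by
    rw [e1]
    simp only [hh, conjTranspose_sub, conjTranspose_one, mul_add, add_mul, mul_smul_comm,
      smul_mul_assoc, mul_sub, sub_mul, mul_one, one_mul, smul_sub]
    abel
  rw [e]
  refine (hN.add _ _).trans ?_
  rw [hN.smul, hN.smul, norm_star, hc, hN.unit _ (conjT_mem hA) _ (conjT_mem hA),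
    hN.sub_comm (Y * A)]
  linarith

lemma exists_hh (hN : UINorm p N) (A B : Matrix n n ℂ) : ∃ c : ℂ, ‖c‖ = 1 / 2 ∧
    N (A * B - B * A) / 2 ≤ N (hh c A * B - B * hh c A) := by
  have e0 : hh (1 / 2) A + Complex.I • hh (-Complex.I / 2) A = A - 1 := by
    simp only [hh, smul_add, smul_smul]
    have a1 : star (1 / 2 : ℂ) = 1 / 2 := by simp
    have a2 : Complex.I * (-Complex.I / 2) = 1 / 2 := by
      rw [neg_div, mul_neg, ← mul_div_assoc, Complex.I_mul_I]; ring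
    have a3 : Complex.I * star (-Complex.I / 2) = -(1 / 2) := by
      simp only [star_div₀, star_neg, Complex.star_def, Complex.conj_I, neg_neg, map_ofNat]
      rw [← mul_div_assoc, Complex.I_mul_I]; ring
    rw [a1, a2, a3, neg_smul]
    module
  have e : A * B - B * A = (hh (1 / 2) A * B - B * hh (1 / 2) A) +
      Complex.I • (hh (-Complex.I / 2) A * B - B * hh (-Complex.I / 2) A) := by
    calc A * B - B * A = (A - 1) * B - B * (A - 1) := by noncomm_ring
      _ = _ := by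
        rw [← e0]
        simp only [mul_add, add_mul, mul_smul_comm, smul_mul_assoc, smul_sub]
        abel
  have h := hN.add (hh (1 / 2) A * B - B * hh (1 / 2) A)
    (Complex.I • (hh (-Complex.I / 2) A * B - B * hh (-Complex.I / 2) A))
  rw [← e, hN.smul, Complex.norm_I, one_mul] at h
  by_cases h1 : N (A * B - B * A) / 2 ≤ N (hh (1 / 2) A * B - B * hh (1 / 2) A)
  · exact ⟨_, by simp, h1⟩
  · exact ⟨-Complex.I / 2, by simp, by linarith⟩

lemma cd_one {E : Matrix n n ℂ} (hE : E ∈ unitaryGroup n ℂ) : cd E (fun _ => 1) = 1 := by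
  simp [cd, mul_conjT hE]

lemma fr_comm_le (X : Matrix n n ℂ) {Y : Matrix n n ℂ} (hY : ‖Y‖ ≤ 1) :
    fr (X * Y - Y * X) ≤ 4 * fr X := by
  have h1 := fr_sub_two (X * Y) (Y * X)
  have h2 := fr_mul_left_le Y X
  have h3 := fr_mul_right_le Y X
  have h4 : ‖Y‖ ^ 2 * fr X ≤ 1 * fr X :=
    mul_le_mul_of_nonneg_right (pow_le_one₀ (norm_nonneg _) hY) (fr_nonneg _)
  linarith

lemma local_comm (hN : UINorm p N) (hp : 1 ≤ p) {E Y : Matrix n n ℂ} (hE : E ∈ unitaryGroup n ℂ)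
    {f h q : n → ℝ} {κ τ ρ : ℝ} (hκ : 0 < κ) (hκ1 : κ ≤ 1) (hτ : 0 < τ) (hρ : τ ^ p ≤ ρ)
    (hf : ∀ a b, |f a - f b| ≤ 1 / (2 * κ) * |h a - h b|) (hq : ∀ a, f a ≠ 0 → q a = 1)
    (hq1 : ∀ a, |q a| ≤ 1) (hq2 : ∑ a, q a ^ 2 ≤ ρ) (hh2 : ∀ a, |h a| ≤ 2) (hY : ‖Y‖ ≤ 2)
    (hc : N (cd E h * Y - Y * cd E h) ≤ κ ^ 8 * τ) :
    fr (cd E f * Y - Y * cd E f) ≤ 65 * κ ^ 3 * ρ := by
  refine (schur hE hf hq Y).trans ?_
  have hH := norm_cd_le hE (by norm_num) hh2
  have hX : ‖cd E h * Y - Y * cd E h‖ ≤ 8 := by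
    refine (norm_sub_le _ _).trans ?_
    have a1 := (norm_mul_le (cd E h) Y).trans (mul_le_mul hH hY (norm_nonneg _) (by norm_num))
    have a2 := (norm_mul_le Y (cd E h)).trans (mul_le_mul hY hH (norm_nonneg _) (by norm_num))
    linarith
  generalize cd E h * Y - Y * cd E h = X at hc hX
  have hQ := norm_cd_le hE (by norm_num) hq1
  have hQ2 : fr (cd E q) ≤ ρ := by rwa [fr_cd hE]
  generalize cd E q = Q at hQ hQ2
  obtain ⟨Z, z1, z2, -⟩ := hN.dec hp X (l := κ ^ 3) (by positivity)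
  have hρ0 : 0 ≤ ρ := (fr_nonneg _).trans hQ2
  have z3 : fr Z ≤ 64 * (κ ^ 5 * ρ) := by
    refine z2.trans (mul_le_mul (by nlinarith [norm_nonneg X]) ?_
      (Real.rpow_nonneg (div_nonneg (hN.nonneg _) (by positivity)) _) (by norm_num))
    have a1 : N X / κ ^ 3 ≤ κ ^ 5 * τ := by
      rw [div_le_iff₀ (by positivity)]; linarith
    refine (Real.rpow_le_rpow (div_nonneg (hN.nonneg _) (by positivity)) a1 (by linarith)).trans ?_
    rw [Real.mul_rpow (by positivity) hτ.le]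
    refine mul_le_mul ?_ hρ (by positivity) (by positivity)
    exact Real.rpow_le_self_of_le_one (by positivity) (pow_le_one₀ hκ.le hκ1) hp
  have z4 : ‖X - Z‖ ^ 2 * fr Q ≤ κ ^ 5 * ρ := by
    refine mul_le_mul ?_ hQ2 (fr_nonneg _) (by positivity)
    calc ‖X - Z‖ ^ 2 ≤ (κ ^ 3) ^ 2 := by gcongr
      _ = κ ^ 5 * κ := by ring
      _ ≤ κ ^ 5 := mul_le_of_le_one_right (by positivity) hκ1
  have z5 : ‖Q‖ ^ 2 * fr Z ≤ 1 * fr Z :=
    mul_le_mul_of_nonneg_right (pow_le_one₀ (norm_nonneg _) hQ) (fr_nonneg _)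
  have b1 := fr_add_two (Q * (X - Z)) (Q * Z)
  have b2 := fr_add_two ((X - Z) * Q) (Z * Q)
  rw [← mul_add, sub_add_cancel] at b1
  rw [← add_mul, sub_add_cancel] at b2
  have b3 := fr_mul_left_le (X - Z) Q
  have b4 := fr_mul_right_le (X - Z) Q
  have b5 := fr_mul_left_le Q Z
  have b6 := fr_mul_right_le Q Z
  have b7 : fr (Q * X) + fr (X * Q) ≤ 260 * (κ ^ 5 * ρ) := by linarith
  refine (mul_le_mul_of_nonneg_left b7 (by positivity)).trans (le_of_eq ?_)
  field_simp; ring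

lemma beta_lower (hN : UINorm p N) (hp : 1 ≤ p) {P B : Matrix n n ℂ} (hP : P * P = P)
    (hP1 : ‖P‖ ≤ 1) (hB : B ∈ unitaryGroup n ℂ) {τ r : ℝ} (hτ : 0 < τ) (hr : 0 < r)
    (h1 : N P ≤ r * τ) (h2 : τ / 48 ≤ N (P * B - B * P)) :
    (1 / (192 * r)) ^ 2 * (τ / 384) ^ p ≤ fr (P * B - B * P) := by
  have hX : ‖P * B - B * P‖ ≤ 2 := by
    refine (norm_sub_le _ _).trans ?_
    have hB1 := norm_unit_le hB
    have a1 := (norm_mul_le P B).trans (mul_le_mul hP1 hB1 (norm_nonneg _) (by norm_num))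
    have a2 := (norm_mul_le B P).trans (mul_le_mul hB1 hP1 (norm_nonneg _) (by norm_num))
    linarith
  have e : P * B - B * P = P * (P * B - B * P) + (P * B - B * P) * P := by
    have : P * (P * B - B * P) + (P * B - B * P) * P = P * P * B - B * (P * P) := by noncomm_ring
    rw [this, hP]
  generalize P * B - B * P = X at h2 hX e
  have hl : 0 < 1 / (192 * r) := by positivity
  obtain ⟨Z, z1, -, z2⟩ := hN.dec hp X hl
  have e' : X = (P * (X - Z) + P * Z) + ((X - Z) * P + Z * P) := by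
    rw [← mul_add, ← add_mul, sub_add_cancel]; exact e
  have a0 := hN.add (P * (X - Z) + P * Z) ((X - Z) * P + Z * P)
  rw [← e'] at a0
  have a1 := hN.add (P * (X - Z)) (P * Z)
  have a2 := hN.add ((X - Z) * P) (Z * P)
  have a3 := hN.mul_left (X - Z) P
  have a4 := hN.mul_right (X - Z) P
  have a5 := hN.mul_left P Z
  have a6 := hN.mul_right P Z
  have a7 : ‖P‖ * N Z ≤ 1 * N Z := mul_le_mul_of_nonneg_right hP1 (hN.nonneg _)
  have a8 : ‖X - Z‖ * N P ≤ τ / 192 := by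
    refine (mul_le_mul z1 h1 (hN.nonneg _) hl.le).trans (le_of_eq ?_)
    field_simp
  have h0 : 0 ≤ fr X / (1 / (192 * r)) ^ 2 := div_nonneg (fr_nonneg _) (by positivity)
  have a9 : N Z ≤ 2 * (fr X / (1 / (192 * r)) ^ 2) ^ (1 / p) :=
    z2.trans (mul_le_mul_of_nonneg_right hX (Real.rpow_nonneg h0 _))
  have b1 : τ / 384 ≤ (fr X / (1 / (192 * r)) ^ 2) ^ (1 / p) := by linarith
  have b2 := Real.rpow_le_rpow (by positivity) b1 (show 0 ≤ p by linarith)
  rw [← Real.rpow_mul h0, one_div_mul_cancel (by linarith), Real.rpow_one,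
    le_div_iff₀ (by positivity)] at b2
  linarith

lemma near_one (hN : UINorm p N) (hp : 1 ≤ p) {U : Matrix n n ℂ} (hU : U ∈ unitaryGroup n ℂ)
    {C τ : ℝ} (hC : 1 ≤ C) (hτ : 0 < τ) (h : N (U - 1) ≤ C * τ) : ∃ X : Matrix n n ℂ,
      fr X ≤ 4 * (32 * C ^ 2 * τ) ^ p ∧ ∀ Z, fr (Z * (1 - U - X)) ≤ fr Z / 4 := by
  obtain ⟨X, x1, x2, -⟩ := hN.dec hp (1 - U) (l := 1 / 2) (by norm_num)
  have h1 : ‖1 - U‖ ≤ 2 := (norm_sub_le _ _).trans (by
    linarith [norm_unit_le hU, norm_unit_le (one_mem (unitaryGroup n ℂ))])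
  have h0 : 0 ≤ N (1 - U) / (1 / 2) := div_nonneg (hN.nonneg _) (by norm_num)
  refine ⟨X, x2.trans (mul_le_mul (by nlinarith [norm_nonneg (1 - U)])
    (Real.rpow_le_rpow h0 ?_ (by linarith)) (Real.rpow_nonneg h0 _) (by norm_num)), fun Z => ?_⟩
  · rw [hN.sub_comm]
    nlinarith [mul_pos hτ (show 0 < C by linarith)]
  · refine (fr_mul_right_le _ Z).trans ?_
    have : ‖1 - U - X‖ ^ 2 ≤ (1 / 2) ^ 2 := by gcongr
    nlinarith [fr_nonneg Z]

lemma clamp_lip (x y : ℝ) : |max 0 (min 1 x) - max 0 (min 1 y)| ≤ |x - y| := by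
  refine (abs_max_sub_max_le_max _ _ _ _).trans ?_
  rw [sub_self, abs_zero, max_eq_right (abs_nonneg _)]
  refine (abs_min_sub_min_le_max _ _ _ _).trans ?_
  rw [sub_self, abs_zero, max_eq_right (abs_nonneg _)]

theorem mat_core (hN : UINorm p N) (hp : 1 ≤ p) {A B U V : Matrix n n ℂ} {W : ℕ → Matrix n n ℂ}
    (hA : A ∈ unitaryGroup n ℂ) (hB : B ∈ unitaryGroup n ℂ) (hU : U ∈ unitaryGroup n ℂ)
    (hV : V ∈ unitaryGroup n ℂ) (hW : ∀ i, W i ∈ unitaryGroup n ℂ)
    (hW1 : ∀ j, W (2 * j + 1) = U * W j) (hW2 : ∀ j, W (2 * j + 2) = V * W j) {C τ κ : ℝ}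
    (hC : 1 ≤ C) (hτ : 0 < τ) (hκ : 0 < κ) (hκC : κ ≤ 1 / (32 * C))
    (h0 : τ ≤ N (A * B - B * A)) (a1 : N (A - 1) ≤ C * τ) (a2 : N (B - 1) ≤ C * τ)
    (a3 : N (U - 1) ≤ C * τ) (a4 : N (V - 1) ≤ C * τ) {k : ℕ} (hk : 1 ≤ k)
    (hAA : ∀ l < k, ∀ i < l, N (W i * A * (W i)ᴴ * (W l * A * (W l)ᴴ) -
      W l * A * (W l)ᴴ * (W i * A * (W i)ᴴ)) ≤ κ ^ 8 * τ)
    (hAB : ∀ l < k, ∀ i < l, N (W i * A * (W i)ᴴ * (W l * B * (W l)ᴴ) -
      W l * B * (W l)ᴴ * (W i * A * (W i)ᴴ)) ≤ κ ^ 8 * τ) {ρ η : ℝ}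
    (hρ : ρ = (32 * C ^ 2 * τ) ^ p) (hη : η = 4000 * C * κ * ρ) :
    k * ((1 / (192 * (32 * C ^ 2))) ^ 2 * (τ / 384) ^ p) ≤
      64 * ((26 * (4 * ρ) + 260 * k ^ 3 * η) *
        (1 + Real.log (1 + (26 * (4 * ρ) + 260 * k ^ 3 * η)))) + 304 * k ^ 4 * η := by
  have hC0 : 0 < C := by linarith
  have hκ1 : κ ≤ 1 := hκC.trans (by rw [div_le_one (by positivity)]; linarith)
  have hρ0 : 0 < ρ := by rw [hρ]; positivity
  have hτρ : τ ^ p ≤ ρ := by
    rw [hρ]
    exact Real.rpow_le_rpow hτ.le (le_mul_of_one_le_left hτ.le (by nlinarith)) (by linarith)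
  obtain ⟨c, hc, h3⟩ := exists_hh hN A B
  obtain ⟨E, hE, h, hH⟩ := exists_cd (hh_conjT c A)
  have hh2 : ∀ a, |h a| ≤ 2 := fun a => (abs_le_norm_cd hE h a).trans (hH ▸ hh_norm hc hA)
  have h1 : N (cd E h) ≤ C * τ := hH ▸ (hh_le hN hc A).trans a1
  obtain ⟨e, θ, he, hθ, s1, s2⟩ := select hN hp hE hh2 hC hτ hκ hκC h1 a2
    (by rw [← hH]; linarith)
  rw [← hρ] at s2
  have he1 : ∀ x, |e * x| = |x| := fun x => by rcases he with rfl | rfl <;> simp
  set ind : n → ℝ := fun a => if θ < e * h a then 1 else 0 with hind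
  set f : n → ℝ := fun a => max 0 (min 1 ((e * h a - θ) / (2 * κ) + 1 / 2)) with hf
  set q : n → ℝ := fun a => if θ - κ < e * h a then 1 else 0 with hq
  have cnt : ∀ g : n → ℝ, (∀ a, g a = 0 ∨ (g a = 1 ∧ θ - κ < e * h a)) →
      (((univ : Finset n).filter fun a => g a = 1).card : ℝ) ≤ ρ := by
    intro g hg
    have b1 := hN.count hp h (l := 1 / (32 * C)) (by positivity)
    rw [← hN.cd_eq hE] at b1
    refine le_trans ?_ (b1.trans ?_)
    · refine Nat.cast_le.2 (card_le_card fun a ha => ?_)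
      rcases hg a with h0 | ⟨-, h0⟩
      · rw [(mem_filter.1 ha).2] at h0; exact absurd h0 one_ne_zero
      · refine mem_filter.2 ⟨mem_univ _, ?_⟩
        have b2 : 1 / (16 * C) = 2 * (1 / (32 * C)) := by field_simp; norm_num
        rw [← he1]
        linarith [le_abs_self (e * h a)]
    · rw [hρ]
      refine Real.rpow_le_rpow (div_nonneg (hN.nonneg _) (by positivity)) ?_ (by linarith)
      rw [div_le_iff₀ (by positivity)]
      refine h1.trans (le_of_eq ?_)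
      field_simp
  have sq : ∀ g : n → ℝ, (∀ a, g a = 0 ∨ (g a = 1 ∧ θ - κ < e * h a)) → ∑ a, g a ^ 2 ≤ ρ := by
    intro g hg
    refine le_trans (le_of_eq ?_) (cnt g hg)
    rw [card_filter, Nat.cast_sum]
    refine sum_congr rfl fun a _ => ?_
    rcases hg a with h0 | ⟨h0, -⟩ <;> simp [h0]
  have i01 : ∀ a, ind a = 0 ∨ (ind a = 1 ∧ θ - κ < e * h a) := fun a => by
    by_cases h0 : θ < e * h a
    · exact Or.inr ⟨if_pos h0, by linarith⟩
    · exact Or.inl (if_neg h0)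
  have q01 : ∀ a, q a = 0 ∨ (q a = 1 ∧ θ - κ < e * h a) := fun a => by
    by_cases h0 : θ - κ < e * h a
    · exact Or.inr ⟨if_pos h0, h0⟩
    · exact Or.inl (if_neg h0)
  have i1 : ∀ a, |ind a| ≤ 1 := fun a => by rcases i01 a with h0 | ⟨h0, -⟩ <;> simp [h0]
  have q1 : ∀ a, |q a| ≤ 1 := fun a => by rcases q01 a with h0 | ⟨h0, -⟩ <;> simp [h0]
  have f0 : ∀ a, 0 ≤ f a := fun a => le_max_left _ _
  have f1 : ∀ a, f a ≤ 1 := fun a => max_le zero_le_one (min_le_left _ _)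
  have f1' : ∀ a, |f a| ≤ 1 := fun a => by rw [abs_of_nonneg (f0 a)]; exact f1 a
  have flip : ∀ a b, |f a - f b| ≤ 1 / (2 * κ) * |h a - h b| := fun a b => by
    refine (clamp_lip _ _).trans (le_of_eq ?_)
    rw [← he1 (h a - h b), ← abs_of_pos (show 0 < 1 / (2 * κ) by positivity), ← abs_mul]
    congr 1
    ring
  have fq : ∀ a, f a ≠ 0 → q a = 1 := fun a ha => by
    refine if_pos ?_
    by_contra h0
    refine ha (max_eq_left ((min_le_right _ _).trans ?_))
    have : (e * h a - θ) / (2 * κ) ≤ -(1 / 2) := by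
      rw [div_le_iff₀ (by positivity)]; linarith
    linarith
  have win : ∑ a, (ind a - f a) ^ 2 ≤ 128 * C * κ * ρ := by
    refine le_trans ?_ s2
    rw [card_filter, Nat.cast_sum]
    refine sum_le_sum fun a _ => ?_
    split_ifs with h0
    · have := f0 a
      have := f1 a
      rcases i01 a with h1 | ⟨h1, -⟩ <;> rw [h1] <;> push_cast <;> nlinarith
    · rw [not_lt, le_abs] at h0
      have : ind a = f a := by
        rcases h0 with h0 | h0
        · have : 1 / 2 ≤ (e * h a - θ) / (2 * κ) := by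
            rw [le_div_iff₀ (by positivity)]; linarith
          simp only [hind, hf]
          rw [if_pos (by linarith), min_eq_left (by linarith), max_eq_right zero_le_one]
        · have : (e * h a - θ) / (2 * κ) ≤ -(1 / 2) := by
            rw [div_le_iff₀ (by positivity)]; linarith
          simp only [hind, hf]
          rw [if_neg (by linarith), max_eq_left ((min_le_right _ _).trans (by linarith))]
      simp [this]
  have hEi : ∀ i, W i * E ∈ unitaryGroup n ℂ := fun i => mul_mem (hW i) hE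
  have hAi : ∀ i, W i * A * (W i)ᴴ ∈ unitaryGroup n ℂ :=
    fun i => mul_mem (mul_mem (hW i) hA) (conjT_mem (hW i))
  have hBi : ∀ i, W i * B * (W i)ᴴ ∈ unitaryGroup n ℂ :=
    fun i => mul_mem (mul_mem (hW i) hB) (conjT_mem (hW i))
  have hHi : ∀ i, cd (W i * E) h = hh c (W i * A * (W i)ᴴ) := fun i => by
    rw [← cd_conj, ← hH, hh_conj c A (hW i)]
  have wi : ∀ i, fr (cd (W i * E) ind - cd (W i * E) f) ≤ 128 * C * κ * ρ := fun i => by
    rwa [cd_sub, fr_cd (hEi i)]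
  have idem : ∀ E' ∈ unitaryGroup n ℂ, cd E' ind * cd E' ind = cd E' ind := fun E' hE' => by
    rw [cd_mul hE']
    congr 1
    funext a
    rcases i01 a with h0 | ⟨h0, -⟩ <;> simp [h0]
  have κρ : 0 < κ * ρ := mul_pos hκ hρ0
  have κρC : κ * ρ ≤ C * κ * ρ := by nlinarith
  obtain ⟨X, x1, x2⟩ := near_one hN hp hU hC hτ a3
  obtain ⟨Y, y1, y2⟩ := near_one hN hp hV hC hτ a4
  rw [← hρ] at x1 y1
  refine core (P := fun i => cd (W i * E) ind) (fun i => cd_conjT _ _) (fun i => idem _ (hEi i)) hk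
    (B := fun i => W i * B * (W i)ᴴ) (by rw [hη]; positivity) hBi hU hV (fun j => ?_) (fun j => ?_)
    x1 x2 y1 y2 ?_ (fun l hl i hi => ?_) (fun l hl i hi => ?_) fun j _ => ?_
  · simp only [hW1, mul_assoc U, ← cd_conj U, mul_assoc _ Uᴴ, conjT_mul hU, mul_one]
  · simp only [hW2, mul_assoc V, ← cd_conj V, mul_assoc _ Vᴴ, conjT_mul hV, mul_one]
  · rw [fr_cd (hEi 0)]
    linarith [sq ind i01]
  · have b1 := local_comm hN hp (hEi i) (Y := cd (W l * E) h) hκ hκ1 hτ hτρ flip fq q1 (sq q q01)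
      hh2 (norm_cd_le (hEi l) (by norm_num) hh2) (by
        rw [hHi, hHi]
        refine (hh_comm hN hc (hAi i) _).trans ?_
        rw [hN.sub_comm]
        refine (hh_comm hN hc (hAi l) _).trans ?_
        rw [hN.sub_comm]
        exact hAA l hl i hi)
    have b2 := schur (hEi l) (q := fun _ => 1) flip (fun _ _ => rfl) (cd (W i * E) f)
    rw [cd_one (hEi l), one_mul, mul_one, fr_sub_comm, fr_sub_comm (cd (W l * E) h * _)] at b2
    have b3 : fr (cd (W i * E) f * cd (W l * E) f - cd (W l * E) f * cd (W i * E) f) ≤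
        65 / 2 * (κ * ρ) := by
      refine b2.trans ((mul_le_mul_of_nonneg_left (add_le_add b1 b1) (by positivity)).trans
        (le_of_eq ?_))
      field_simp; ring
    have b4 := fr_comm_le (cd (W i * E) ind - cd (W i * E) f) (norm_cd_le (hEi l) zero_le_one i1)
    have b5 := fr_comm_le (cd (W l * E) ind - cd (W l * E) f) (norm_cd_le (hEi i) zero_le_one f1')
    rw [fr_sub_comm] at b5
    have b6 := wi i
    have b7 := wi l
    refine le_of_eq_of_le (congrArg fr ?_) ((fr_add_three _ _ _).trans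
      ((add_le_add (add_le_add (mul_le_mul_of_nonneg_left b4 (by norm_num))
        (mul_le_mul_of_nonneg_left b5 (by norm_num)))
        (mul_le_mul_of_nonneg_left b3 (by norm_num))).trans ?_))
    · noncomm_ring
    · rw [hη]; linarith
  · have b1 := local_comm hN hp (hEi i) (Y := W l * B * (W l)ᴴ) hκ hκ1 hτ hτρ flip fq q1 (sq q q01)
      hh2 ((norm_unit_le (hBi l)).trans one_le_two) (by
        rw [hHi]
        exact (hh_comm hN hc (hAi i) _).trans (hAB l hl i hi))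
    have b4 := fr_comm_le (cd (W i * E) ind - cd (W i * E) f) (norm_unit_le (hBi l))
    have b6 := wi i
    have b7 : κ ^ 3 * ρ ≤ κ * ρ :=
      mul_le_mul_of_nonneg_right (pow_le_of_le_one hκ.le hκ1 (by norm_num)) hρ0.le
    refine le_of_eq_of_le (congrArg fr ?_) ((fr_add_two _ _).trans
      ((add_le_add (mul_le_mul_of_nonneg_left b4 (by norm_num))
        (mul_le_mul_of_nonneg_left b1 (by norm_num))).trans ?_))
    · noncomm_ring
    · rw [hη]; linarith
  · have b1 : N (cd E ind) ≤ 32 * C ^ 2 * τ := by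
      have b2 := hN.proj ((univ : Finset n).filter fun a => ind a = 1)
      rw [hN.cd_eq hE]
      refine le_of_eq_of_le (Eq.trans (congrArg N ?_) b2) ?_
      · congr 1
        funext a
        rcases i01 a with h0 | ⟨h0, -⟩ <;> simp [h0]
      · refine (Real.rpow_le_rpow (Nat.cast_nonneg _) (cnt ind i01) (by positivity)).trans ?_
        rw [hρ, ← Real.rpow_mul (by positivity), mul_one_div_cancel (by linarith), Real.rpow_one]
    refine (beta_lower hN hp (idem E hE) (norm_cd_le hE zero_le_one i1) hB hτ (by positivity) b1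
      s1).trans (le_of_eq ?_)
    rw [← fr_unit_left (hW j), ← fr_unit_right (conjT_mem (hW j)), ← cd_conj]
    congr 1
    have b3 : ∀ Z : Matrix n n ℂ, (W j)ᴴ * (W j * Z) = Z := fun Z => by
      rw [← mul_assoc, conjT_mul (hW j), one_mul]
    simp only [mul_sub, sub_mul, mul_assoc, b3]

end Pool.Agent.Lib.MP_3e9be7_al.H51
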