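import Pool.Agent.Lib.MP_3e9be7_al.H51Fr

/-!
Singular value decomposition and unitarily invariant norms.
-/

namespace Pool.Agent.Lib.MP_3e9be7_al.H51

open Matrix Finset
open scoped Matrix.Norms.L2Operator

variable {n : Type} [Fintype n] [DecidableEq n]

/-- A unitarily invariant norm that takes the value `k ^ (1 / p)` on projections of rank `k`. -/
structure UINorm (p : ℝ) (N : Matrix n n ℂ → ℝ) : Prop where
  add : ∀ X Y, N (X + Y) ≤ N X + N Y
  smul : ∀ (c : ℂ) X, N (c • X) = ‖c‖ * N X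
  unit : ∀ U ∈ unitaryGroup n ℂ, ∀ V ∈ unitaryGroup n ℂ, ∀ X, N (U * X * V) = N X
  proj : ∀ s : Finset n, N (diagonal fun i => if i ∈ s then (1 : ℂ) else 0) = (s.card : ℝ) ^ (1 / p)

lemma svd_cols (B : Matrix n n ℂ) (e : n → ℝ) (he : ∀ i, 0 ≤ e i)
    (h : Bᴴ * B = diagonal fun i => (e i : ℂ)) :
    ∃ U ∈ unitaryGroup n ℂ, B = U * diagonal (fun i => ((√(e i) : ℝ) : ℂ)) := by
  let c : n → EuclideanSpace ℂ n := fun j => WithLp.toLp 2 fun k => B k j
  have hc : ∀ i j, inner ℂ (c i) (c j) = if i = j then (e i : ℂ) else 0 := by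
    intro i j
    have h1 := congrFun (congrFun h i) j
    rw [diagonal_apply, mul_apply] at h1
    rw [← h1, PiLp.inner_apply]
    refine sum_congr rfl fun k _ => ?_
    simp [c, conjTranspose_apply, mul_comm]
  have hs : ∀ i, e i ≠ 0 → ((√(e i) : ℝ) : ℂ) ≠ 0 := fun i hi =>
    Complex.ofReal_ne_zero.2 (Real.sqrt_ne_zero'.2 (lt_of_le_of_ne (he i) (Ne.symm hi)))
  let v : n → EuclideanSpace ℂ n := fun j => ((√(e j) : ℝ) : ℂ)⁻¹ • c j
  have hv : Orthonormal ℂ (Set.domRestrict {i | e i ≠ 0} v) := by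
    rw [orthonormal_iff_ite]
    rintro ⟨i, hi⟩ ⟨j, hj⟩
    simp only [Set.domRestrict_apply, v, inner_smul_left, inner_smul_right, hc, Subtype.mk.injEq]
    split_ifs with hij
    · subst hij
      have h1 := hs i hi
      have h2 : (e i : ℂ) = ((√(e i) : ℝ) : ℂ) * ((√(e i) : ℝ) : ℂ) := by
        rw [← Complex.ofReal_mul, Real.mul_self_sqrt (he i)]
      rw [map_inv₀, Complex.conj_ofReal]
      generalize ((√(e i) : ℝ) : ℂ) = r at h1 h2
      rw [h2]
      field_simp
    · simp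
  obtain ⟨b, hb⟩ := hv.exists_orthonormalBasis_extension_of_card_eq (by simp)
  refine ⟨(EuclideanSpace.basisFun n ℂ).toBasis.toMatrix b.toBasis,
    (EuclideanSpace.basisFun n ℂ).toMatrix_orthonormalBasis_mem_unitary b, ?_⟩
  ext k j
  rw [mul_diagonal]
  change B k j = b j k * _
  by_cases hj : e j = 0
  · have h1 : c j = 0 := inner_self_eq_zero.1 (by rw [hc]; simp [hj])
    have h2 : c j k = 0 := by rw [h1]; rfl
    have h3 : B k j = 0 := h2
    simp [h3, hj]
  · rw [hb j hj]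
    have h1 := hs j hj
    change B k j = ((√(e j) : ℝ) : ℂ)⁻¹ * B k j * _
    field_simp

theorem svd (X : Matrix n n ℂ) : ∃ U ∈ unitaryGroup n ℂ, ∃ V ∈ unitaryGroup n ℂ,
    X = U * diagonal (fun i =>
      ((√((isHermitian_conjTranspose_mul_self X).eigenvalues i) : ℝ) : ℂ)) * V := by
  set hA := isHermitian_conjTranspose_mul_self X
  have hW := hA.eigenvectorUnitary.2
  have h1 := hA.conjStarAlgAut_star_eigenvectorUnitary
  rw [Unitary.conjStarAlgAut_star_apply] at h1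
  set W : Matrix n n ℂ := hA.eigenvectorUnitary.1 with hWd
  have h2 : (X * W)ᴴ * (X * W) = diagonal fun i => ((hA.eigenvalues i : ℝ) : ℂ) := by
    rw [conjTranspose_mul, ← star_eq_conjTranspose W]
    calc star W * Xᴴ * (X * W) = star W * (Xᴴ * X) * W := by simp only [Matrix.mul_assoc]
      _ = _ := h1
  obtain ⟨U, hU, hX⟩ := svd_cols (X * W) hA.eigenvalues
    (eigenvalues_conjTranspose_mul_self_nonneg X) h2
  refine ⟨U, hU, star W, Unitary.star_mem hW, ?_⟩
  rw [← hX, Matrix.mul_assoc, mem_unitaryGroup_iff.1 hW, Matrix.mul_one]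

lemma norm_unit_le {U : Matrix n n ℂ} (h : U ∈ unitaryGroup n ℂ) : ‖U‖ ≤ 1 := by
  have h1 := l2_opNorm_conjTranspose_mul_self U
  rw [← star_eq_conjTranspose, mem_unitaryGroup_iff'.1 h, ← diagonal_one,
    l2_opNorm_diagonal] at h1
  have h2 : ‖(fun _ => 1 : n → ℂ)‖ ≤ 1 := (pi_norm_le_iff_of_nonneg zero_le_one).2 fun _ => by simp
  nlinarith [norm_nonneg U]

lemma norm_unit_mul_le {U V : Matrix n n ℂ} (hU : U ∈ unitaryGroup n ℂ)
    (hV : V ∈ unitaryGroup n ℂ) (X : Matrix n n ℂ) : ‖U * X * V‖ ≤ ‖X‖ := by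
  have h1 := l2_opNorm_mul (U * X) V
  have h2 := l2_opNorm_mul U X
  have h3 := norm_unit_le hU
  have h4 := norm_unit_le hV
  have h5 := norm_nonneg X
  have h6 := norm_nonneg (U * X)
  nlinarith

lemma norm_diag_le {d : n → ℂ} {c : ℝ} (hc : 0 ≤ c) (h : ∀ i, ‖d i‖ ≤ c) :
    ‖(diagonal d : Matrix n n ℂ)‖ ≤ c := by
  rw [l2_opNorm_diagonal]
  exact (pi_norm_le_iff_of_nonneg hc).2 h

/-- The decomposition with the two bounds for the diagonal entries. -/
lemma svd_ex (X : Matrix n n ℂ) : ∃ U ∈ unitaryGroup n ℂ, ∃ V ∈ unitaryGroup n ℂ, ∃ s : n → ℝ,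
    (∀ i, 0 ≤ s i) ∧ (∀ i, s i ≤ ‖X‖) ∧ X = U * diagonal (fun i => (s i : ℂ)) * V := by
  obtain ⟨U, hU, V, hV, hX⟩ := svd X
  generalize hs : (fun i => √((isHermitian_conjTranspose_mul_self X).eigenvalues i)) = s
  have hs0 : ∀ i, 0 ≤ s i := fun i => by rw [← hs]; exact Real.sqrt_nonneg _
  have hX' : X = U * diagonal (fun i => (s i : ℂ)) * V := by rw [← hs]; exact hX
  refine ⟨U, hU, V, hV, s, hs0, fun i => ?_, hX'⟩
  have h1 : star U * X * star V = diagonal (fun i => (s i : ℂ)) := by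
    rw [hX']
    calc star U * (U * diagonal (fun i => (s i : ℂ)) * V) * star V
        = (star U * U) * diagonal (fun i => (s i : ℂ)) * (V * star V) := by
          simp only [Matrix.mul_assoc]
      _ = _ := by
          rw [mem_unitaryGroup_iff'.1 hU, mem_unitaryGroup_iff.1 hV, Matrix.one_mul,
            Matrix.mul_one]
  have h2 := norm_unit_mul_le (Unitary.star_mem hU) (Unitary.star_mem hV) X
  rw [h1, l2_opNorm_diagonal] at h2
  have h3 := norm_le_pi_norm (fun i => (s i : ℂ)) i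
  rw [Complex.norm_real, Real.norm_of_nonneg (hs0 i)] at h3
  exact h3.trans h2

lemma diag_unit {z : n → ℂ} (h : ∀ i, star (z i) * z i = 1) :
    diagonal z ∈ unitaryGroup n ℂ := by
  rw [mem_unitaryGroup_iff', star_eq_conjTranspose, diagonal_conjTranspose,
    diagonal_mul_diagonal, ← diagonal_one]
  congr 1
  funext i
  exact h i

lemma fr_diagonal (d : n → ℂ) : fr (diagonal d) = ∑ i, ‖d i‖ ^ 2 := by
  unfold fr
  refine sum_congr rfl fun i _ => ?_
  rw [sum_eq_single i]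
  · rw [diagonal_apply_eq]
  · intro j _ hj
    rw [diagonal_apply_ne' _ hj]
    simp
  · intro hi
    exact absurd (mem_univ i) hi

lemma norm_half {c : ℝ} (hc : 0 ≤ c) : ‖((c / 2 : ℝ) : ℂ)‖ = c / 2 := by
  rw [Complex.norm_real, Real.norm_of_nonneg (by positivity)]

lemma avg_unit {X : Matrix n n ℂ} {c : ℝ} (h : ‖X‖ ≤ c) :
    ∃ U ∈ unitaryGroup n ℂ, ∃ V ∈ unitaryGroup n ℂ, X = ((c / 2 : ℝ) : ℂ) • (U + V) := by
  have hc0 : 0 ≤ c := (norm_nonneg X).trans h
  rcases hc0.eq_or_lt with hc | hc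
  · refine ⟨1, one_mem _, 1, one_mem _, ?_⟩
    subst hc
    rw [norm_le_zero_iff.1 h]
    simp
  obtain ⟨U, hU, V, hV, s, hs0, hs1, hX⟩ := svd_ex X
  let z : n → ℂ := fun i => ⟨s i / c, √(1 - (s i / c) ^ 2)⟩
  have hz : ∀ i, star (z i) * z i = 1 := by
    intro i
    have h1 : s i / c ≤ 1 := (div_le_one hc).2 ((hs1 i).trans h)
    have h2 : 0 ≤ s i / c := div_nonneg (hs0 i) hc.le
    have h3 : 0 ≤ 1 - (s i / c) ^ 2 := by nlinarith
    rw [Complex.star_def, Complex.conj_mul', ← Complex.ofReal_pow, ← Complex.normSq_eq_norm_sq,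
      Complex.normSq_mk, Real.mul_self_sqrt h3]
    push_cast
    ring
  have hz' : ∀ i, star (star (z i)) * star (z i) = 1 := by
    intro i
    rw [star_star, mul_comm, hz]
  refine ⟨U * diagonal z * V, mul_mem (mul_mem hU (diag_unit hz)) hV,
    U * diagonal (fun i => star (z i)) * V, mul_mem (mul_mem hU (diag_unit hz')) hV, ?_⟩
  have e : diagonal (fun i => (s i : ℂ)) =
      ((c / 2 : ℝ) : ℂ) • (diagonal z + diagonal fun i => star (z i)) := by
    rw [diagonal_add, ← diagonal_smul]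
    congr 1
    funext i
    have hc' : (c : ℂ) ≠ 0 := Complex.ofReal_ne_zero.2 hc.ne'
    simp only [Pi.smul_apply, smul_eq_mul, Complex.star_def, Complex.add_conj, z]
    push_cast
    field_simp
  rw [hX, e, Matrix.mul_smul, Matrix.smul_mul, Matrix.mul_add, Matrix.add_mul]

lemma fr_mul_left_le (X Z : Matrix n n ℂ) : fr (X * Z) ≤ ‖X‖ ^ 2 * fr Z := by
  obtain ⟨U, hU, V, hV, hX⟩ := avg_unit (le_refl ‖X‖)
  generalize hc : ‖X‖ = c at hX
  have hc0 : 0 ≤ c := hc ▸ norm_nonneg X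
  rw [hX, Matrix.smul_mul, fr_smul, norm_half hc0, Matrix.add_mul]
  have h1 := fr_add_two (U * Z) (V * Z)
  rw [fr_unit_left hU, fr_unit_left hV] at h1
  nlinarith [sq_nonneg c]

lemma fr_mul_right_le (X Z : Matrix n n ℂ) : fr (Z * X) ≤ ‖X‖ ^ 2 * fr Z := by
  rw [← fr_conjT, conjTranspose_mul, ← fr_conjT Z, ← l2_opNorm_conjTranspose X]
  exact fr_mul_left_le _ _

variable {p : ℝ} {N : Matrix n n ℂ → ℝ}

lemma UINorm.nonneg (hN : UINorm p N) (X : Matrix n n ℂ) : 0 ≤ N X := by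
  have h0 : N 0 = 0 := by simpa using hN.smul 0 X
  have h1 : N (-X) = N X := by simpa using hN.smul (-1) X
  have h2 := hN.add X (-X)
  rw [add_neg_cancel, h0, h1] at h2
  linarith

lemma UINorm.neg (hN : UINorm p N) (X : Matrix n n ℂ) : N (-X) = N X := by
  simpa using hN.smul (-1) X

lemma UINorm.sub (hN : UINorm p N) (X Y : Matrix n n ℂ) : N (X - Y) ≤ N X + N Y := by
  rw [sub_eq_add_neg, ← hN.neg Y]
  exact hN.add _ _

lemma UINorm.conjT (hN : UINorm p N) (X : Matrix n n ℂ) : N Xᴴ = N X := by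
  obtain ⟨U, hU, V, hV, s, -, -, hX⟩ := svd_ex X
  have h1 : Xᴴ = star V * diagonal (fun i => (s i : ℂ)) * star U := by
    rw [hX, conjTranspose_mul, conjTranspose_mul, diagonal_conjTranspose, Matrix.mul_assoc,
      star_eq_conjTranspose, star_eq_conjTranspose]
    congr 3
    funext i
    simp
  rw [h1, hN.unit _ (Unitary.star_mem hV) _ (Unitary.star_mem hU), hX, hN.unit _ hU _ hV]

lemma UINorm.mul_left (hN : UINorm p N) (X Z : Matrix n n ℂ) : N (X * Z) ≤ ‖X‖ * N Z := by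
  obtain ⟨U, hU, V, hV, hX⟩ := avg_unit (le_refl ‖X‖)
  generalize hc : ‖X‖ = c at hX
  have hc0 : 0 ≤ c := hc ▸ norm_nonneg X
  rw [hX, Matrix.smul_mul, hN.smul, norm_half hc0, Matrix.add_mul]
  have h1 := hN.add (U * Z) (V * Z)
  have h2 := hN.unit U hU 1 (one_mem _) Z
  have h3 := hN.unit V hV 1 (one_mem _) Z
  rw [Matrix.mul_one] at h2 h3
  rw [h2, h3] at h1
  nlinarith

lemma UINorm.mul_right (hN : UINorm p N) (X Z : Matrix n n ℂ) : N (Z * X) ≤ ‖X‖ * N Z := by
  rw [← hN.conjT, conjTranspose_mul, ← hN.conjT Z, ← l2_opNorm_conjTranspose X]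
  exact hN.mul_left _ _

lemma UINorm.count (hN : UINorm p N) (hp : 1 ≤ p) (g : n → ℝ) {l : ℝ} (hl : 0 < l) :
    (((univ : Finset n).filter fun i => l ≤ |g i|).card : ℝ) ≤
      (N (diagonal fun i => (g i : ℂ)) / l) ^ p := by
  set S := (univ : Finset n).filter fun i => l ≤ |g i| with hS
  have hmem : ∀ i, i ∈ S ↔ l ≤ |g i| := fun i => by simp [hS]
  have e : (diagonal fun i => if i ∈ S then (1 : ℂ) else 0) =
      (diagonal fun i => if i ∈ S then (g i : ℂ)⁻¹ else 0) * diagonal fun i => (g i : ℂ) := by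
    rw [diagonal_mul_diagonal]
    congr 1
    funext i
    split_ifs with hi
    · have h1 : g i ≠ 0 := abs_pos.1 (hl.trans_le ((hmem i).1 hi))
      rw [inv_mul_cancel₀ (Complex.ofReal_ne_zero.2 h1)]
    · rw [zero_mul]
  have h1 : ‖(diagonal fun i => if i ∈ S then (g i : ℂ)⁻¹ else 0 : Matrix n n ℂ)‖ ≤ l⁻¹ := by
    refine norm_diag_le (by positivity) fun i => ?_
    split_ifs with hi
    · rw [norm_inv, Complex.norm_real, Real.norm_eq_abs]
      exact inv_anti₀ hl ((hmem i).1 hi)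
    · rw [norm_zero]
      positivity
  have h2 : (S.card : ℝ) ^ (1 / p) ≤ N (diagonal fun i => (g i : ℂ)) / l := by
    rw [← hN.proj S, e, div_eq_inv_mul]
    exact (hN.mul_left _ _).trans (mul_le_mul_of_nonneg_right h1 (hN.nonneg _))
  have hp0 : 0 < p := by linarith
  have h3 := Real.rpow_le_rpow (by positivity) h2 hp0.le
  rwa [one_div, Real.rpow_inv_rpow (by positivity) hp0.ne'] at h3

lemma UINorm.dec (hN : UINorm p N) (hp : 1 ≤ p) (X : Matrix n n ℂ) {l : ℝ} (hl : 0 < l) :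
    ∃ Y : Matrix n n ℂ, ‖X - Y‖ ≤ l ∧ fr Y ≤ ‖X‖ ^ 2 * (N X / l) ^ p ∧
      N Y ≤ ‖X‖ * (fr X / l ^ 2) ^ (1 / p) := by
  obtain ⟨U, hU, V, hV, s, hs0, hs1, hX⟩ := svd_ex X
  have hp0 : 0 < p := by linarith
  have hcount := hN.count hp s hl
  set S := (univ : Finset n).filter fun i => l ≤ |s i| with hS
  have hmem : ∀ i, i ∈ S ↔ l ≤ |s i| := fun i => by simp [hS]
  set D : Matrix n n ℂ := diagonal fun i => (s i : ℂ) with hD
  set P : Matrix n n ℂ := diagonal fun i => if i ∈ S then (1 : ℂ) else 0 with hP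
  have hDn : ‖D‖ ≤ ‖X‖ := norm_diag_le (norm_nonneg X) fun i => by
    rw [Complex.norm_real, Real.norm_of_nonneg (hs0 i)]
    exact hs1 i
  have hND : N D = N X := by rw [hX, hN.unit _ hU _ hV]
  have hfD : fr D = fr X := by rw [hX, fr_unit_right hV, fr_unit_left hU]
  have hfP : fr P = S.card := by
    rw [hP, fr_diagonal]
    have : ∀ i, ‖(if i ∈ S then (1 : ℂ) else 0)‖ ^ 2 = if i ∈ S then (1 : ℝ) else 0 := by
      intro i
      split_ifs <;> simp
    simp only [this]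
    simp
  refine ⟨U * (D * P) * V, ?_, ?_, ?_⟩
  · have e : X - U * (D * P) * V =
        U * (diagonal fun i => if i ∈ S then 0 else (s i : ℂ)) * V := by
      have e1 : (diagonal fun i => if i ∈ S then 0 else (s i : ℂ)) = D - D * P := by
        rw [hD, hP, diagonal_mul_diagonal, diagonal_sub]
        congr 1
        funext i
        split_ifs <;> simp
      rw [e1, Matrix.mul_sub, Matrix.sub_mul, ← hX]
    rw [e]
    refine (norm_unit_mul_le hU hV _).trans (norm_diag_le hl.le fun i => ?_)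
    split_ifs with hi
    · rw [norm_zero]
      exact hl.le
    · rw [Complex.norm_real, Real.norm_eq_abs]
      exact (not_le.1 fun h => hi ((hmem i).2 h)).le
  · rw [fr_unit_right hV, fr_unit_left hU]
    refine (fr_mul_left_le D P).trans ?_
    rw [hfP, ← hND]
    have h0 := norm_nonneg D
    gcongr
  · rw [hN.unit _ hU _ hV]
    refine (hN.mul_left D P).trans ?_
    rw [hP, hN.proj S]
    have h1 : (S.card : ℝ) ≤ fr X / l ^ 2 := by
      rw [le_div_iff₀ (by positivity), ← hfD, hD, fr_diagonal]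
      calc (S.card : ℝ) * l ^ 2 = ∑ i ∈ S, l ^ 2 := by rw [sum_const, nsmul_eq_mul]
        _ ≤ ∑ i ∈ S, ‖(s i : ℂ)‖ ^ 2 := by
            refine sum_le_sum fun i hi => ?_
            rw [Complex.norm_real, Real.norm_eq_abs]
            have := (hmem i).1 hi
            gcongr
        _ ≤ ∑ i, ‖(s i : ℂ)‖ ^ 2 :=
            sum_le_sum_of_subset_of_nonneg (subset_univ S) fun i _ _ => by positivity
    have h2 := Real.rpow_le_rpow (by positivity) h1 (one_div_pos.2 hp0).le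
    exact mul_le_mul hDn h2 (by positivity) (norm_nonneg X)

end Pool.Agent.Lib.MP_3e9be7_al.H51
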