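import Pool.Agent.Lib.MP_3e9be7_al.H51Defs
import Pool.Agent.Lib.MP_3e9be7_al.H51SVD

/-!
The Schatten norm is a unitarily invariant norm.
-/

namespace Pool.Agent.Lib.MP_3e9be7_al.H51

open Matrix Finset

/-- The singular values, indexed by the index type of the matrix. -/
noncomputable def schSv {d : ℕ} (X : Matrix (Fin d) (Fin d) ℂ) (i : Fin d) : ℝ :=
  √((isHermitian_conjTranspose_mul_self X).eigenvalues i)

lemma sch_eq (p : ℝ) {d : ℕ} (X : Matrix (Fin d) (Fin d) ℂ) :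
    schatten p X = (∑ i, schSv X i ^ p) ^ (1 / p) := by
  unfold schatten
  congr 1
  have hT : Matrix.toEuclideanLin (Xᴴ * X) =
      LinearMap.adjoint (Matrix.toEuclideanLin X) ∘ₗ Matrix.toEuclideanLin X := by
    rw [← Matrix.toEuclideanLin_conjTranspose_eq_adjoint]
    exact Matrix.toLpLin_mul_same _ _ _
  have hn : Module.finrank ℂ (EuclideanSpace ℂ (Fin d)) = Fintype.card (Fin d) :=
    finrank_euclideanSpace
  have he : (Matrix.toEuclideanLin X).isSymmetric_adjoint_comp_self.eigenvalues hn =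
      (isHermitian_conjTranspose_mul_self X).eigenvalues₀ := by
    unfold Matrix.IsHermitian.eigenvalues₀
    rw [LinearMap.IsSymmetric.eigenvalues_eq_eigenvalues_iff, hT]
  have h1 : ∑ i ∈ Finset.range d, (Matrix.toEuclideanLin X).singularValues i ^ p =
      ∑ i : Fin (Fintype.card (Fin d)), (Matrix.toEuclideanLin X).singularValues i ^ p := by
    rw [Fin.sum_univ_eq_sum_range fun i => (Matrix.toEuclideanLin X).singularValues i ^ p,
      Fintype.card_fin]
  rw [h1]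
  simp only [LinearMap.singularValues_fin _ hn, he, schSv, Matrix.IsHermitian.eigenvalues]
  exact (Equiv.sum_comp (Fintype.equivOfCardEq (Fintype.card_fin _)).symm
    fun i => √((isHermitian_conjTranspose_mul_self X).eigenvalues₀ i) ^ p).symm

variable {n : Type} [Fintype n] [DecidableEq n]

lemma sch_row {A : Matrix n n ℂ} (hA : A ∈ unitaryGroup n ℂ) (i : n) :
    ∑ j, ‖A i j‖ ^ 2 = 1 := by
  have h := congrFun (congrFun (mem_unitaryGroup_iff.1 hA) i) i
  simp only [mul_apply, star_apply, one_apply_eq, Complex.star_def, Complex.mul_conj'] at h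
  exact_mod_cast h

lemma sch_col {A : Matrix n n ℂ} (hA : A ∈ unitaryGroup n ℂ) (j : n) :
    ∑ i, ‖A i j‖ ^ 2 = 1 := by
  have h := congrFun (congrFun (mem_unitaryGroup_iff'.1 hA) j) j
  simp only [mul_apply, star_apply, one_apply_eq, Complex.star_def, Complex.conj_mul'] at h
  exact_mod_cast h

lemma sch_cs (a b : n → ℝ) (ha : ∑ i, a i ^ 2 = 1) (hb : ∑ i, b i ^ 2 = 1) :
    ∑ i, a i * b i ≤ 1 := by
  have h : ∑ i, a i * b i ≤ ∑ i, (a i ^ 2 + b i ^ 2) / 2 :=
    sum_le_sum fun i _ => by nlinarith [sq_nonneg (a i - b i)]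
  rw [← sum_div, sum_add_distrib, ha, hb] at h
  linarith

lemma sch_jensen {p : ℝ} (hp : 1 ≤ p) (w f : n → ℝ) (hw : ∀ i, 0 ≤ w i) (hf : ∀ i, 0 ≤ f i)
    (h1 : ∑ i, w i ≤ 1) : (∑ i, w i * f i) ^ p ≤ ∑ i, w i * f i ^ p := by
  have hp0 : 0 < p := by linarith
  have h := Real.inner_le_weight_mul_Lp_of_nonneg univ hp w f hw hf
  have hS : 0 ≤ ∑ i, w i * f i ^ p :=
    sum_nonneg fun i _ => mul_nonneg (hw i) (Real.rpow_nonneg (hf i) _)
  have h2 : (∑ i, w i) ^ (1 - p⁻¹) ≤ 1 :=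
    Real.rpow_le_one (sum_nonneg fun i _ => hw i) h1 (sub_nonneg.2 (inv_le_one_of_one_le₀ hp))
  have h3 : ∑ i, w i * f i ≤ (∑ i, w i * f i ^ p) ^ p⁻¹ :=
    h.trans (mul_le_of_le_one_left (Real.rpow_nonneg hS _) h2)
  calc (∑ i, w i * f i) ^ p ≤ ((∑ i, w i * f i ^ p) ^ p⁻¹) ^ p :=
        Real.rpow_le_rpow (sum_nonneg fun i _ => mul_nonneg (hw i) (hf i)) h3 hp0.le
    _ = _ := Real.rpow_inv_rpow hS hp0.ne'

lemma sch_diag {p : ℝ} (hp : 1 ≤ p) {A B : Matrix n n ℂ} (hA : A ∈ unitaryGroup n ℂ)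
    (hB : B ∈ unitaryGroup n ℂ) (s : n → ℝ) (hs : ∀ i, 0 ≤ s i) :
    ∑ i, ‖(A * diagonal (fun j => (s j : ℂ)) * B) i i‖ ^ p ≤ ∑ j, s j ^ p := by
  have hp0 : 0 < p := by linarith
  have h1 : ∀ i, ‖(A * diagonal (fun j => (s j : ℂ)) * B) i i‖ ^ p ≤
      ∑ j, (‖A i j‖ * ‖B j i‖) * s j ^ p := by
    intro i
    refine le_trans (Real.rpow_le_rpow (norm_nonneg _) ?_ hp0.le)
      (sch_jensen hp (fun j => ‖A i j‖ * ‖B j i‖) s (fun j => by positivity) hs
        (sch_cs _ _ (sch_row hA i) (sch_col hB i)))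
    rw [mul_apply]
    refine (norm_sum_le _ _).trans (le_of_eq (sum_congr rfl fun j _ => ?_))
    rw [mul_diagonal, norm_mul, norm_mul, Complex.norm_real, Real.norm_of_nonneg (hs j)]
    ring
  refine (sum_le_sum fun i _ => h1 i).trans ?_
  rw [sum_comm]
  refine sum_le_sum fun j _ => ?_
  rw [← sum_mul]
  exact mul_le_of_le_one_left (Real.rpow_nonneg (hs j) _)
    (sch_cs _ _ (sch_col hA j) (sch_row hB j))

lemma sch_mono {p a b : ℝ} (hp : 1 ≤ p) (ha : 0 ≤ a) (h : a ≤ b) : a ^ (1 / p) ≤ b ^ (1 / p) :=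
  Real.rpow_le_rpow ha h (by positivity)

/-- The norm of the diagonal is at most the Schatten norm. -/
lemma sch_le {p : ℝ} (hp : 1 ≤ p) {d : ℕ} (X : Matrix (Fin d) (Fin d) ℂ)
    {U V : Matrix (Fin d) (Fin d) ℂ} (hU : U ∈ unitaryGroup (Fin d) ℂ)
    (hV : V ∈ unitaryGroup (Fin d) ℂ) :
    (∑ i, ‖(U * X * V) i i‖ ^ p) ^ (1 / p) ≤ schatten p X := by
  obtain ⟨A, hA, B, hB, hX⟩ := svd X
  rw [sch_eq]
  refine sch_mono hp (sum_nonneg fun i _ => by positivity) ?_
  have h := sch_diag hp (mul_mem hU hA) (mul_mem hB hV) (schSv X) fun i => Real.sqrt_nonneg _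
  have h2 : U * X * V = U * A * diagonal (fun j => (schSv X j : ℂ)) * (B * V) := by
    conv_lhs => rw [hX]
    simp only [Matrix.mul_assoc, schSv]
  rwa [h2]

/-- Equality is attained. -/
lemma sch_att (p : ℝ) {d : ℕ} (X : Matrix (Fin d) (Fin d) ℂ) :
    ∃ U ∈ unitaryGroup (Fin d) ℂ, ∃ V ∈ unitaryGroup (Fin d) ℂ,
      schatten p X = (∑ i, ‖(U * X * V) i i‖ ^ p) ^ (1 / p) := by
  obtain ⟨A, hA, B, hB, hX⟩ := svd X
  refine ⟨star A, Unitary.star_mem hA, star B, Unitary.star_mem hB, ?_⟩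
  have h2 : star A * X * star B = diagonal (fun j => (schSv X j : ℂ)) := by
    conv_lhs => rw [hX]
    rw [← Matrix.mul_assoc, ← Matrix.mul_assoc, mem_unitaryGroup_iff'.1 hA, Matrix.one_mul,
      Matrix.mul_assoc, mem_unitaryGroup_iff.1 hB, Matrix.mul_one]
    rfl
  rw [sch_eq, h2]
  congr 1
  refine sum_congr rfl fun i _ => ?_
  rw [diagonal_apply_eq, Complex.norm_real,
    Real.norm_of_nonneg (show 0 ≤ schSv X i from Real.sqrt_nonneg _)]

lemma sch_smul_aux {p : ℝ} (hp : 1 ≤ p) (c : ℂ) (X U V : Matrix n n ℂ) :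
    (∑ i, ‖(U * (c • X) * V) i i‖ ^ p) ^ (1 / p) =
      ‖c‖ * (∑ i, ‖(U * X * V) i i‖ ^ p) ^ (1 / p) := by
  have hp0 : 0 < p := by linarith
  have h : ∑ i, ‖(U * (c • X) * V) i i‖ ^ p = ‖c‖ ^ p * ∑ i, ‖(U * X * V) i i‖ ^ p := by
    rw [mul_sum]
    refine sum_congr rfl fun i _ => ?_
    rw [Matrix.mul_smul, Matrix.smul_mul, Matrix.smul_apply, norm_smul,
      Real.mul_rpow (norm_nonneg _) (norm_nonneg _)]
  rw [h, Real.mul_rpow (by positivity) (sum_nonneg fun i _ => by positivity), one_div,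
    Real.rpow_rpow_inv (norm_nonneg _) hp0.ne']

lemma sch_unit_le {p : ℝ} (hp : 1 ≤ p) {d : ℕ} (X : Matrix (Fin d) (Fin d) ℂ)
    {U V : Matrix (Fin d) (Fin d) ℂ} (hU : U ∈ unitaryGroup (Fin d) ℂ)
    (hV : V ∈ unitaryGroup (Fin d) ℂ) : schatten p (U * X * V) ≤ schatten p X := by
  obtain ⟨A, hA, B, hB, h⟩ := sch_att p (U * X * V)
  have h2 : A * (U * X * V) * B = A * U * X * (V * B) := by simp only [Matrix.mul_assoc]
  rw [h, h2]
  exact sch_le hp X (mul_mem hA hU) (mul_mem hV hB)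

lemma sch_diagonal {p : ℝ} (hp : 1 ≤ p) {d : ℕ} (s : Fin d → ℝ) (hs : ∀ i, 0 ≤ s i) :
    schatten p (diagonal fun j => (s j : ℂ)) = (∑ j, s j ^ p) ^ (1 / p) := by
  apply le_antisymm
  · obtain ⟨A, hA, B, hB, h⟩ := sch_att p (diagonal fun j => (s j : ℂ))
    rw [h]
    exact sch_mono hp (sum_nonneg fun i _ => by positivity) (sch_diag hp hA hB s hs)
  · have h := sch_le hp (diagonal fun j => (s j : ℂ)) (one_mem _) (one_mem _)
    rw [Matrix.one_mul, Matrix.mul_one] at h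
    refine le_trans (le_of_eq ?_) h
    congr 1
    refine sum_congr rfl fun i _ => ?_
    rw [diagonal_apply_eq, Complex.norm_real, Real.norm_of_nonneg (hs i)]

theorem schatten_uinorm {p : ℝ} (hp : 1 ≤ p) (d : ℕ) :
    UINorm p (fun X : Matrix (Fin d) (Fin d) ℂ => schatten p X) := by
  have hp0 : 0 < p := by linarith
  refine ⟨fun X Y => ?_, fun c X => ?_, fun U hU V hV X => ?_, fun s => ?_⟩
  · obtain ⟨A, hA, B, hB, h⟩ := sch_att p (X + Y)
    have h1 := Real.Lp_add_le_of_nonneg univ (f := fun i => ‖(A * X * B) i i‖)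
      (g := fun i => ‖(A * Y * B) i i‖) hp (fun i _ => norm_nonneg _) (fun i _ => norm_nonneg _)
    have h2 := sch_le hp X hA hB
    have h3 := sch_le hp Y hA hB
    refine le_trans ?_ (h1.trans (add_le_add h2 h3))
    rw [h]
    refine sch_mono hp (sum_nonneg fun i _ => by positivity) (sum_le_sum fun i _ => ?_)
    refine Real.rpow_le_rpow (norm_nonneg _) ?_ hp0.le
    rw [Matrix.mul_add, Matrix.add_mul, Matrix.add_apply]
    exact norm_add_le _ _
  · apply le_antisymm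
    · obtain ⟨A, hA, B, hB, h⟩ := sch_att p (c • X)
      rw [h, sch_smul_aux hp]
      exact mul_le_mul_of_nonneg_left (sch_le hp X hA hB) (norm_nonneg _)
    · obtain ⟨A, hA, B, hB, h⟩ := sch_att p X
      rw [h, ← sch_smul_aux hp]
      exact sch_le hp _ hA hB
  · refine le_antisymm (sch_unit_le hp X hU hV) ?_
    have h := sch_unit_le hp (U * X * V) (Unitary.star_mem hU) (Unitary.star_mem hV)
    rwa [← Matrix.mul_assoc, ← Matrix.mul_assoc, mem_unitaryGroup_iff'.1 hU, Matrix.one_mul,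
      Matrix.mul_assoc, mem_unitaryGroup_iff.1 hV, Matrix.mul_one] at h
  · have h := sch_diagonal hp (fun i => if i ∈ s then (1 : ℝ) else 0)
      fun i => by split_ifs <;> norm_num
    have h1 : (fun j => (((if j ∈ s then (1 : ℝ) else 0) : ℝ) : ℂ)) =
        fun j => if j ∈ s then (1 : ℂ) else 0 := by
      funext j
      split_ifs <;> simp
    rw [h1] at h
    rw [h]
    congr 1
    simp [Real.zero_rpow hp0.ne']

end Pool.Agent.Lib.MP_3e9be7_al.H51
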