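import Mathlib

/-!
Asymptotic actions on sequences of finite sets give sofic approximations.
-/

set_option autoImplicit false

open Filter Topology Classical

namespace Pool.Agent.Lib.MP_3e9be7_al.Stk

/-- The proportion of points with a property. -/
noncomputable def dens {α : Type} [Fintype α] (P : α → Prop) : ℝ :=
  ((Finset.univ.filter P).card : ℝ) / Fintype.card α

lemma dens_nonneg {α : Type} [Fintype α] (P : α → Prop) : 0 ≤ dens P := by
  unfold dens; positivity

lemma dens_le_add {α : Type} [Fintype α] {P Q R : α → Prop} (h : ∀ a, P a → Q a ∨ R a) :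
    dens P ≤ dens Q + dens R := by
  unfold dens
  rw [← add_div]
  refine div_le_div_of_nonneg_right ?_ (Nat.cast_nonneg _)
  have : Finset.univ.filter P ⊆ Finset.univ.filter Q ∪ Finset.univ.filter R := by
    intro a ha
    simp only [Finset.mem_filter, Finset.mem_univ, true_and, Finset.mem_union] at ha ⊢
    exact h a ha
  exact_mod_cast (Finset.card_le_card this).trans (Finset.card_union_le _ _)

lemma dens_mono {α : Type} [Fintype α] {P Q : α → Prop} (h : ∀ a, P a → Q a) :
    dens P ≤ dens Q := by
  unfold dens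
  refine div_le_div_of_nonneg_right ?_ (Nat.cast_nonneg _)
  have : Finset.univ.filter P ⊆ Finset.univ.filter Q := by
    intro a ha
    simp only [Finset.mem_filter, Finset.mem_univ, true_and] at ha ⊢
    exact h a ha
  exact_mod_cast Finset.card_le_card this

lemma card_filter_equiv {α β : Type} [Fintype α] [Fintype β] (e : α ≃ β) (P : β → Prop) :
    (Finset.univ.filter fun a => P (e a)).card = (Finset.univ.filter P).card := by
  refine Finset.card_equiv e ?_
  simp

lemma dens_perm {α : Type} [Fintype α] (e : Equiv.Perm α) (P : α → Prop) :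
    dens (fun a => P (e a)) = dens P := by
  unfold dens
  rw [card_filter_equiv e P]

variable {Ω : ℕ → Type} [∀ j, Fintype (Ω j)]

/-- A sequence of properties whose density tends to zero. -/
def Small (P : ∀ j, Ω j → Prop) : Prop := Tendsto (fun j => dens (P j)) atTop (𝓝 0)

lemma Small.union {P Q R : ∀ j, Ω j → Prop} (hQ : Small Q) (hR : Small R)
    (h : ∀ j a, P j a → Q j a ∨ R j a) : Small P := by
  have := hQ.add hR
  rw [add_zero] at this
  exact squeeze_zero (fun j => dens_nonneg _) (fun j => dens_le_add (h j)) this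

lemma Small.mono {P Q : ∀ j, Ω j → Prop} (hQ : Small Q) (h : ∀ j a, P j a → Q j a) : Small P :=
  squeeze_zero (fun _ => dens_nonneg _) (fun j => dens_mono (h j)) hQ

lemma Small.perm {P : ∀ j, Ω j → Prop} (hP : Small P) (e : ∀ j, Equiv.Perm (Ω j)) :
    Small fun j a => P j (e j a) := by
  unfold Small at hP ⊢
  simpa only [dens_perm] using hP

lemma small_false : Small (Ω := Ω) fun _ _ => False := by
  unfold Small dens
  simp

variable (Ω) in
/-- Sequences of permutations that move a vanishing proportion of the points. -/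
def null : Subgroup (∀ j, Equiv.Perm (Ω j)) where
  carrier := {σ | Small fun j a => σ j a ≠ a}
  one_mem' := small_false.mono fun j a h => h rfl
  mul_mem' := by
    intro σ τ hσ hτ
    refine Small.union (Small.perm hσ τ) hτ fun j a h => ?_
    by_contra hc
    push Not at hc
    apply h
    change σ j (τ j a) = a
    rw [hc.1, hc.2]
  inv_mem' := by
    intro σ hσ
    refine (Small.perm hσ σ⁻¹).mono fun j a h hc => h ?_
    have : σ j ((σ j)⁻¹ a) = (σ j)⁻¹ a := hc
    change (σ j)⁻¹ a = a
    rw [← this]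
    simp

instance null_normal : (null Ω).Normal where
  conj_mem := by
    intro σ hσ τ
    refine (Small.perm hσ τ⁻¹).mono fun j a h hc => h ?_
    have : σ j ((τ j)⁻¹ a) = (τ j)⁻¹ a := hc
    change τ j (σ j ((τ j)⁻¹ a)) = a
    rw [this]
    simp

lemma mk_eq_iff (σ τ : ∀ j, Equiv.Perm (Ω j)) :
    (QuotientGroup.mk σ : _ ⧸ null Ω) = QuotientGroup.mk τ ↔ Small fun j a => σ j a ≠ τ j a := by
  rw [QuotientGroup.eq]
  change (Small fun j a => (σ j)⁻¹ (τ j a) ≠ a) ↔ _
  have : (fun j a => (σ j)⁻¹ (τ j a) ≠ a) = fun j (a : Ω j) => σ j a ≠ τ j a := by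
    funext j a
    simp only [ne_eq, Equiv.Perm.inv_eq_iff_eq, eq_iff_iff]
    exact not_congr eq_comm
  rw [this]

theorem sofic_of_hom [∀ j, Nonempty (Ω j)] {G : Type} [Group G]
    (f : G →* (∀ j, Equiv.Perm (Ω j)) ⧸ null Ω)
    (hf : ∀ g, g ≠ 1 → ∃ σ : ∀ j, Equiv.Perm (Ω j), QuotientGroup.mk σ = f g ∧
      Small fun j a => σ j a = a)
    (S : Finset G) (ε : ℝ) (hε : 0 < ε) :
    ∃ n : ℕ, ∃ φ : G → Equiv.Perm (Fin n),
      (∀ g ∈ S, ∀ h ∈ S,
        ((Finset.univ.filter (fun i : Fin n => φ (g * h) i ≠ (φ g * φ h) i)).card : ℝ)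
          < ε * (n : ℝ)) ∧
      (∀ g ∈ S, g ≠ 1 →
        ((Finset.univ.filter (fun i : Fin n => φ g i ≠ i)).card : ℝ) > (1 - ε) * (n : ℝ)) := by
  let L : G → ∀ j, Equiv.Perm (Ω j) := fun g => (f g).out
  have hL : ∀ g, (QuotientGroup.mk (L g) : _ ⧸ null Ω) = f g := fun g => QuotientGroup.out_eq' _
  have h1 : ∀ g h, Small fun j a => L (g * h) j a ≠ (L g * L h) j a := by
    intro g h
    rw [← mk_eq_iff, QuotientGroup.mk_mul, hL, hL, hL, map_mul]
  have h2 : ∀ g, g ≠ 1 → Small fun j a => L g j a = a := by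
    intro g hg
    obtain ⟨σ, hσ, hs⟩ := hf g hg
    rw [← hL, mk_eq_iff] at hσ
    refine Small.union hs hσ fun j a h => ?_
    by_contra hc
    push Not at hc
    exact hc.1 (hc.2.trans h)
  have e1 : ∀ᶠ j in atTop, ∀ g ∈ S, ∀ h ∈ S,
      dens (fun a => L (g * h) j a ≠ (L g * L h) j a) < ε := by
    rw [Filter.eventually_all_finset]
    intro g _
    rw [Filter.eventually_all_finset]
    intro h _
    exact (h1 g h).eventually (gt_mem_nhds hε)
  have e2 : ∀ᶠ j in atTop, ∀ g ∈ S, g ≠ 1 → dens (fun a => L g j a = a) < ε := by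
    rw [Filter.eventually_all_finset]
    intro g _
    by_cases hg : g = 1
    · exact Filter.Eventually.of_forall fun j h => (h hg).elim
    · exact ((h2 g hg).eventually (gt_mem_nhds hε)).mono fun j h _ => h
  obtain ⟨j, j1, j2⟩ := (e1.and e2).exists
  have hn : (0 : ℝ) < Fintype.card (Ω j) := by exact_mod_cast Fintype.card_pos
  let e : Ω j ≃ Fin (Fintype.card (Ω j)) := Fintype.equivFin _
  refine ⟨Fintype.card (Ω j), fun g => e.permCongr (L g j), fun g hg h hh => ?_, fun g hg g1 => ?_⟩
  · have := j1 g hg h hh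
    unfold dens at this
    rw [div_lt_iff₀ hn] at this
    refine lt_of_eq_of_lt ?_ this
    congr 1
    refine Finset.card_equiv e.symm ?_
    intro i
    refine Iff.trans ?_ (@Finset.mem_filter _ _ (_) _ _).symm
    simp [Equiv.permCongr_apply]
  · have := j2 g hg g1
    unfold dens at this
    rw [div_lt_iff₀ hn] at this
    have hc := Finset.card_filter_add_card_filter_not (s := (Finset.univ : Finset (Ω j)))
      (fun a => L g j a = a)
    rw [Finset.card_univ] at hc
    have hc' : ((Finset.univ.filter fun a => L g j a = a).card : ℝ) +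
        ((Finset.univ.filter fun a => ¬ L g j a = a).card : ℝ) = Fintype.card (Ω j) := by
      exact_mod_cast hc
    have he : (Finset.univ.filter (fun i : Fin (Fintype.card (Ω j)) =>
        e.permCongr (L g j) i ≠ i)).card = (Finset.univ.filter fun a => ¬ L g j a = a).card := by
      refine Finset.card_equiv e.symm ?_
      intro i
      simp [Equiv.permCongr_apply, ← Equiv.eq_symm_apply]
    rw [he]
    linarith

end Pool.Agent.Lib.MP_3e9be7_al.Stk
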