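import Pool.Agent.Lib.MP_3e9be7_al.H53Model

/-!
Almost every state of the stack machine starts with many pairwise distinct letters.
-/

set_option autoImplicit false

open Filter Topology Classical

namespace Pool.Agent.Lib.MP_3e9be7_al.Stk

lemma dens_le_of_inj {α β γ : Type} [Fintype α] [Nonempty α] [Fintype β] [Nonempty β] [Fintype γ]
    (P : α → Prop) (f : {a // P a} × β → α × γ) (hf : Function.Injective f) :
    dens P ≤ (Fintype.card γ : ℝ) / Fintype.card β := by
  have h := Fintype.card_le_of_injective f hf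
  rw [Fintype.card_prod, Fintype.card_prod, Fintype.card_subtype] at h
  have ha : (0 : ℝ) < Fintype.card α := by exact_mod_cast Fintype.card_pos
  have hb : (0 : ℝ) < Fintype.card β := by exact_mod_cast Fintype.card_pos
  unfold dens
  rw [div_le_div_iff₀ ha hb, mul_comm (Fintype.card γ : ℝ)]
  exact_mod_cast h

variable {k N : ℕ}

lemma dens_coll {i j : ℕ} (hij : i < j) :
    dens (fun ω : Om k N => j < ω.1.1.length ∧ at' ω.1 i = at' ω.1 j) ≤ 1 / ((k : ℝ) + 1) := by
  have := dens_le_of_inj (β := Fin (k + 1)) (γ := Unit)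
    (fun ω : Om k N => j < ω.1.1.length ∧ at' ω.1 i = at' ω.1 j)
    (fun x => (⟨(x.1.1.1.1.set j x.2, x.1.1.1.2), by
      have := x.1.1.2
      simpa [tot] using this⟩, ())) ?_
  · simpa using this
  rintro ⟨⟨⟨⟨b, s⟩, h0⟩, h1, h2⟩, c⟩ ⟨⟨⟨⟨b', s'⟩, h0'⟩, h1', h2'⟩, c'⟩ e
  simp only [Prod.mk.injEq, Subtype.mk.injEq, and_true] at e
  obtain ⟨e1, rfl⟩ := e
  simp only [at'] at h1 h2 h1' h2'
  have hc : c = c' := by
    have := congrArg (fun l => l[j]?) e1
    simpa [List.getElem?_set, h1, h1'] using this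
  have hne : ∀ t, t ≠ j → b[t]? = b'[t]? := by
    intro t ht
    have := congrArg (fun l => l[t]?) e1
    simpa [List.getElem?_set, Ne.symm ht] using this
  have hb : b = b' := by
    apply List.ext_getElem?
    intro t
    by_cases ht : t = j
    · subst ht
      rw [hne i (by omega), h2', List.getElem?_eq_getElem h1, List.getElem?_eq_getElem h1'] at h2
      simp only [Option.getD_some] at h2
      rw [List.getElem?_eq_getElem h1, List.getElem?_eq_getElem h1', h2]
    · exact hne t ht
  subst hb hc
  rfl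

lemma exists_long {W m : ℕ} (hN : (k + 1) * m + W ≤ N) (ω : Om k N) (h : ω.1.1.length < W) :
    ∃ c, m ≤ (ω.1.2 c).length := by
  by_contra hc
  push Not at hc
  have h1 : ∑ c, (ω.1.2 c).length ≤ ∑ _c : Fin (k + 1), m :=
    Finset.sum_le_sum fun c _ => (hc c).le
  have h2 := ω.2
  simp only [Finset.sum_const, Finset.card_univ, Fintype.card_fin, smul_eq_mul] at h1
  unfold tot at h2
  omega

lemma tot_move (ω : St k) (c : Fin (k + 1)) (r : ℕ) :
    tot (ω.1 ++ (ω.2 c).take r, Function.update ω.2 c ((ω.2 c).drop r)) = tot ω := by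
  unfold tot
  have h1 := Finset.add_sum_erase Finset.univ (fun d => (ω.2 d).length) (Finset.mem_univ c)
  have h2 := Finset.add_sum_erase Finset.univ
    (fun d => (Function.update ω.2 c ((ω.2 c).drop r) d).length) (Finset.mem_univ c)
  have h3 : ∑ d ∈ Finset.univ.erase c, (Function.update ω.2 c ((ω.2 c).drop r) d).length =
      ∑ d ∈ Finset.univ.erase c, (ω.2 d).length :=
    Finset.sum_congr rfl fun d hd => by rw [Function.update_of_ne (Finset.ne_of_mem_erase hd)]
  have h4 : ((ω.2 c).take r).length + ((ω.2 c).drop r).length = (ω.2 c).length := by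
    rw [← List.length_append, List.take_append_drop]
  simp only [Function.update_self] at h2
  simp only [List.length_append]
  omega

lemma dens_short {W m : ℕ} (hN : (k + 1) * (m + 1) + W ≤ N) :
    dens (fun ω : Om k N => ω.1.1.length < W) ≤ ((k : ℝ) + 1) * W / ((m : ℝ) + 1) := by
  choose col hcol using fun ω : {ω : Om k N // ω.1.1.length < W} => exists_long hN ω.1 ω.2
  have := dens_le_of_inj (β := Fin (m + 1)) (γ := Fin (k + 1) × Fin W)
    (fun ω : Om k N => ω.1.1.length < W)
    (fun x => (⟨(x.1.1.1.1 ++ (x.1.1.1.2 (col x.1)).take x.2,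
        Function.update x.1.1.1.2 (col x.1) ((x.1.1.1.2 (col x.1)).drop x.2)),
      (tot_move _ _ _).trans x.1.1.2⟩, col x.1, ⟨x.1.1.1.1.length, x.1.2⟩)) ?_
  · simpa using this
  rintro ⟨x, r⟩ ⟨x', r'⟩ e
  simp only [Prod.mk.injEq, Subtype.mk.injEq, Fin.mk.injEq] at e
  obtain ⟨⟨e1, e2⟩, e3, e4⟩ := e
  have h := hcol x
  have h' := hcol x'
  rw [← e3] at e1 e2 h'
  obtain ⟨a1, a2⟩ := List.append_inj e1 e4
  have hr : r = r' := by
    have := congrArg List.length a2
    have h1 := r.2
    have h2 := r'.2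
    simp only [List.length_take] at this
    ext
    omega
  subst hr
  have a3 := congrFun e2 (col x)
  simp only [Function.update_self] at a3
  have : x = x' := by
    refine Subtype.ext (Subtype.ext (Prod.ext a1 (funext fun d => ?_)))
    by_cases hd : d = col x
    · rw [hd, ← List.take_append_drop r (x.1.1.2 (col x)), a2, a3, List.take_append_drop]
    · have := congrFun e2 d
      rwa [Function.update_of_ne hd, Function.update_of_ne hd] at this
  rw [this]

/-- The number of letters used with `k + 1` colours. -/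
def NN (k : ℕ) : ℕ := (k + 1) * ((k + 1) * (k + 1)) + k

lemma small_short (W : ℕ) : Small (Ω := fun k => Om k (NN k)) fun _ ω => ω.1.1.length < W := by
  have h0 : Tendsto (fun k : ℕ => (W : ℝ) * (1 / ((k : ℝ) + 1))) atTop (𝓝 0) := by
    simpa using (tendsto_one_div_add_atTop_nhds_zero_nat (𝕜 := ℝ)).const_mul (W : ℝ)
  refine squeeze_zero' (Eventually.of_forall fun _ => dens_nonneg _) ?_ h0
  filter_upwards [eventually_ge_atTop W] with k hk
  have := dens_short (k := k) (N := NN k) (W := W) (m := k * (k + 2)) (by unfold NN; nlinarith)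
  refine this.trans (le_of_eq ?_)
  push_cast
  have : (k : ℝ) * (k + 2) + 1 = (k + 1) * (k + 1) := by ring
  rw [this]
  field_simp

lemma small_coll {i j : ℕ} (hij : i < j) : Small (Ω := fun k => Om k (NN k))
    fun _ ω => j < ω.1.1.length ∧ at' ω.1 i = at' ω.1 j :=
  squeeze_zero (fun _ => dens_nonneg _) (fun _ => dens_coll hij)
    tendsto_one_div_add_atTop_nhds_zero_nat

lemma Small.exists_lt {Ω : ℕ → Type} [∀ j, Fintype (Ω j)] {P : ℕ → ∀ j, Ω j → Prop} (n : ℕ)
    (h : ∀ i, i < n → Small (P i)) : Small fun j a => ∃ i, i < n ∧ P i j a := by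
  induction n with
  | zero => exact small_false.mono (by simp)
  | succ n ih =>
    refine Small.union (ih fun i hi => h i (by omega)) (h n (by omega)) ?_
    rintro j a ⟨i, hi, hP⟩
    rcases Nat.lt_succ_iff_lt_or_eq.1 hi with hi | rfl
    · exact Or.inl ⟨i, hi, hP⟩
    · exact Or.inr hP

theorem small_not_good (W : ℕ) : Small (Ω := fun k => Om k (NN k)) fun _ ω => ¬ Good W ω.1 := by
  have h := Small.exists_lt (Ω := fun k => Om k (NN k)) W fun j _ =>
    Small.exists_lt (Ω := fun k => Om k (NN k)) j fun i hi => small_coll hi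
  refine Small.union (small_short W) h fun k ω hω => ?_
  by_contra hc
  push Not at hc
  exact hω ⟨hc.1, fun i j hij hj => hc.2 j hj i hij (by omega)⟩

end Pool.Agent.Lib.MP_3e9be7_al.Stk
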