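import Pool.Agent.Lib.MP_3e9be7_al.Defs

/-!
The infinite presentation of Thompson's group `F` and normal forms.
-/

namespace Pool.Agent.Lib.MP_3e9be7_al

/-- The standard generators `x₀ = a`, `x_{n+1} = a⁻ⁿ b aⁿ`. -/
def gen {G : Type*} [Group G] (a b : G) : ℕ → G
  | 0 => a
  | n + 1 => (a ^ n)⁻¹ * b * a ^ n

lemma gen_succ {G : Type*} [Group G] (a b : G) (n : ℕ) :
    gen a b (n + 2) = a⁻¹ * gen a b (n + 1) * a := by
  simp only [gen]
  group

lemma gen_rel {G : Type*} [Group G] {a b : G}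
    (h2 : (a * b⁻¹) * (a⁻¹ * b * a) * (a * b⁻¹)⁻¹ * (a⁻¹ * b * a)⁻¹ = 1)
    (h3 : (a * b⁻¹) * (a⁻¹ * a⁻¹ * b * a * a) * (a * b⁻¹)⁻¹ * (a⁻¹ * a⁻¹ * b * a * a)⁻¹ = 1)
    (i j : ℕ) (hij : i < j) : (gen a b i)⁻¹ * gen a b j * gen a b i = gen a b (j + 1) := by
  have shift : ∀ i j, (gen a b (i + 1))⁻¹ * gen a b (j + 1) * gen a b (i + 1) = gen a b (j + 2) →
      (gen a b (i + 2))⁻¹ * gen a b (j + 2) * gen a b (i + 2) = gen a b (j + 3) := by
    intro i j h
    calc (gen a b (i + 2))⁻¹ * gen a b (j + 2) * gen a b (i + 2)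
        = a⁻¹ * ((gen a b (i + 1))⁻¹ * gen a b (j + 1) * gen a b (i + 1)) * a := by
          rw [gen_succ a b i, gen_succ a b j]
          group
      _ = gen a b (j + 3) := by rw [h, gen_succ a b (j + 1)]
  have hb : gen a b 1 = b := by simp [gen]
  have key : ∀ y : G, (a * b⁻¹) * y * (a * b⁻¹)⁻¹ * y⁻¹ = 1 → b⁻¹ * y * b = a⁻¹ * y * a := by
    intro y hy
    calc b⁻¹ * y * b = a⁻¹ * ((a * b⁻¹) * y * (a * b⁻¹)⁻¹ * y⁻¹) * y * a := by group
      _ = a⁻¹ * y * a := by rw [hy]; group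
  have r12 : (gen a b 1)⁻¹ * gen a b 2 * gen a b 1 = gen a b 3 := by
    rw [hb, gen_succ a b 1]
    apply key
    simpa [gen] using h2
  have r13 : (gen a b 1)⁻¹ * gen a b 3 * gen a b 1 = gen a b 4 := by
    rw [hb, gen_succ a b 2]
    apply key
    have : gen a b 3 = a⁻¹ * a⁻¹ * b * a * a := by
      simp only [gen, pow_two]
      group
    rw [this]
    exact h3
  have rs : ∀ n, (gen a b (n + 1))⁻¹ * gen a b (n + 2) * gen a b (n + 1) = gen a b (n + 3) := by
    intro n
    induction n with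
    | zero => exact r12
    | succ n ih => exact shift n (n + 1) ih
  have r1 : ∀ n, (gen a b 1)⁻¹ * gen a b (n + 2) * gen a b 1 = gen a b (n + 3) ∧
      (gen a b 1)⁻¹ * gen a b (n + 3) * gen a b 1 = gen a b (n + 4) := by
    intro n
    induction n with
    | zero => exact ⟨r12, r13⟩
    | succ n ih =>
      refine ⟨ih.2, ?_⟩
      have e1 := rs (n + 1)
      have e2 := rs (n + 2)
      change (gen a b 1)⁻¹ * gen a b (n + 4) * gen a b 1 = gen a b (n + 5)
      change (gen a b (n + 2))⁻¹ * gen a b (n + 3) * gen a b (n + 2) = gen a b (n + 4) at e1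
      change (gen a b (n + 3))⁻¹ * gen a b (n + 4) * gen a b (n + 3) = gen a b (n + 5) at e2
      calc (gen a b 1)⁻¹ * gen a b (n + 4) * gen a b 1
          = ((gen a b 1)⁻¹ * gen a b (n + 2) * gen a b 1)⁻¹ *
            ((gen a b 1)⁻¹ * gen a b (n + 3) * gen a b 1) *
            ((gen a b 1)⁻¹ * gen a b (n + 2) * gen a b 1) := by rw [← e1]; group
        _ = gen a b (n + 5) := by rw [ih.1, ih.2, e2]
  have rg : ∀ i d, (gen a b (i + 1))⁻¹ * gen a b (i + d + 2) * gen a b (i + 1) =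
      gen a b (i + d + 3) := by
    intro i d
    induction i with
    | zero => simpa using (r1 d).1
    | succ i ih =>
      have := shift i (i + d + 1) ih
      have e : i + 1 + d = i + d + 1 := by omega
      rw [e]
      exact this
  obtain ⟨d, rfl⟩ := Nat.exists_eq_add_of_lt hij
  cases i with
  | zero =>
    simp only [zero_add]
    rw [gen_succ a b d]
    rfl
  | succ i =>
    have := rg i d
    have e : i + 1 + d + 1 = i + d + 2 := by omega
    rw [e]
    exact this

/-- A positive word. -/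
def pos {G : Type*} [Group G] (x : ℕ → G) (l : List ℕ) : G := (l.map x).prod

lemma pos_nil {G : Type*} [Group G] (x : ℕ → G) : pos x [] = 1 := rfl

lemma pos_cons {G : Type*} [Group G] (x : ℕ → G) (i : ℕ) (l : List ℕ) :
    pos x (i :: l) = x i * pos x l := by simp [pos]

lemma pos_append {G : Type*} [Group G] (x : ℕ → G) (l l' : List ℕ) :
    pos x (l ++ l') = pos x l * pos x l' := by simp [pos]

section rel

variable {G : Type*} [Group G] {x : ℕ → G}

lemma inv_mul_pos (hx : ∀ i j, i < j → (x i)⁻¹ * x j * x i = x (j + 1)) (l : List ℕ) :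
    ∀ i, ∃ l₁ l₂, (x i)⁻¹ * pos x l = pos x l₁ * (pos x l₂)⁻¹ := by
  induction l with
  | nil => intro i; exact ⟨[], [i], by simp [pos]⟩
  | cons j l ih =>
    intro i
    rcases lt_trichotomy i j with h | rfl | h
    · obtain ⟨l₁, l₂, e⟩ := ih i
      refine ⟨(j + 1) :: l₁, l₂, ?_⟩
      rw [pos_cons, pos_cons, ← hx i j h, mul_assoc _ (pos x l₁), ← e]
      group
    · exact ⟨l, [], by simp [pos]⟩
    · obtain ⟨l₁, l₂, e⟩ := ih (i + 1)
      refine ⟨j :: l₁, l₂, ?_⟩
      rw [pos_cons, pos_cons, mul_assoc _ (pos x l₁), ← e, ← hx j i h]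
      group

lemma insert_pos (hx : ∀ i j, i < j → (x i)⁻¹ * x j * x i = x (j + 1)) (l : List ℕ) :
    l.Pairwise (· ≤ ·) → ∀ j m, m ≤ j → (∀ y ∈ l, m ≤ y) →
      ∃ l' : List ℕ, l'.Pairwise (· ≤ ·) ∧ (∀ y ∈ l', m ≤ y) ∧ x j * pos x l = pos x l' := by
  induction l with
  | nil =>
    intro _ j m hm _
    exact ⟨[j], by simp, by simpa using hm, by simp [pos]⟩
  | cons i l ih =>
    intro hs j m hm hl
    rw [List.pairwise_cons] at hs
    by_cases h : j ≤ i
    · refine ⟨j :: i :: l, ?_, ?_, by simp [pos]⟩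
      · simp only [List.pairwise_cons, List.mem_cons, forall_eq_or_imp]
        exact ⟨⟨h, fun y hy => h.trans (hs.1 y hy)⟩, hs.1, hs.2⟩
      · intro y hy
        rcases List.mem_cons.1 hy with rfl | hy
        · exact hm
        · exact hl y hy
    · push Not at h
      obtain ⟨l', h1, h2, h3⟩ := ih hs.2 (j + 1) i (by omega) hs.1
      refine ⟨i :: l', List.pairwise_cons.2 ⟨h2, h1⟩, ?_, ?_⟩
      · intro y hy
        have hi := hl i (by simp)
        rcases List.mem_cons.1 hy with rfl | hy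
        · exact hi
        · exact hi.trans (h2 y hy)
      · rw [pos_cons, pos_cons, ← h3, ← hx i j h]
        group

lemma sort_pos (hx : ∀ i j, i < j → (x i)⁻¹ * x j * x i = x (j + 1)) (l : List ℕ) :
    ∃ l' : List ℕ, l'.Pairwise (· ≤ ·) ∧ pos x l = pos x l' := by
  induction l with
  | nil => exact ⟨[], by simp, rfl⟩
  | cons j l ih =>
    obtain ⟨l', h1, h2⟩ := ih
    obtain ⟨l'', h3, -, h4⟩ := insert_pos hx l' h1 j 0 (Nat.zero_le _) (fun _ _ => Nat.zero_le _)
    exact ⟨l'', h3, by rw [pos_cons, h2, h4]⟩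

end rel

/-- The standard generators of Thompson's group. -/
def xF : ℕ → ThompsonF := gen (PresentedGroup.of 0) (PresentedGroup.of 1)

lemma xF_rel (i j : ℕ) (hij : i < j) : (xF i)⁻¹ * xF j * xF i = xF (j + 1) := by
  apply gen_rel _ _ i j hij
  · have := PresentedGroup.one_of_mem (rels := thompsonRels) (Set.mem_insert _ _)
    simpa [PresentedGroup.of] using this
  · have := PresentedGroup.one_of_mem (rels := thompsonRels)
      (Set.mem_insert_of_mem _ (Set.mem_singleton _))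
    simpa [PresentedGroup.of] using this

theorem normal_form (g : ThompsonF) : ∃ l l' : List ℕ, l.Pairwise (· ≤ ·) ∧
    l'.Pairwise (· ≤ ·) ∧ g = pos xF l * (pos xF l')⁻¹ := by
  suffices h : ∃ l l' : List ℕ, g = pos xF l * (pos xF l')⁻¹ by
    obtain ⟨l, l', rfl⟩ := h
    obtain ⟨m, h1, h2⟩ := sort_pos xF_rel l
    obtain ⟨m', h3, h4⟩ := sort_pos xF_rel l'
    exact ⟨m, m', h1, h3, by rw [h2, h4]⟩
  have hg : g ∈ Subgroup.closure (Set.range (PresentedGroup.of : Fin 2 → ThompsonF)) := by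
    rw [PresentedGroup.closure_range_of]
    trivial
  have hof : ∀ i : Fin 2, (PresentedGroup.of i : ThompsonF) = xF i := by
    intro i
    fin_cases i <;> simp [xF, gen]
  induction hg using Subgroup.closure_induction_left with
  | one => exact ⟨[], [], by simp [pos]⟩
  | mul_left y hy z _ ih =>
    obtain ⟨i, rfl⟩ := hy
    obtain ⟨l, l', rfl⟩ := ih
    exact ⟨i :: l, l', by rw [pos_cons, hof, mul_assoc]⟩
  | inv_mul_cancel y hy z _ ih =>
    obtain ⟨i, rfl⟩ := hy
    obtain ⟨l, l', rfl⟩ := ih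
    obtain ⟨l₁, l₂, e⟩ := inv_mul_pos xF_rel l i
    refine ⟨l₁, l' ++ l₂, ?_⟩
    rw [hof, ← mul_assoc, e, pos_append]
    group

end Pool.Agent.Lib.MP_3e9be7_al
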