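import Pool.Agent.Lib.MP_3e9be7_al.H53Count
import Pool.Agent.Lib.MP_3e9be7_al.H96Pres

/-!
Thompson's group `F` is sofic.
-/

set_option autoImplicit false

open Filter Topology Classical

namespace Pool.Agent.Lib.MP_3e9be7_al.Stk

/-- The sequence of state spaces. -/
abbrev Oms (k : ℕ) : Type := Om k (NN k)

/-- The moves, as sequences of permutations. -/
noncomputable def yy (i : ℕ) : ∀ k, Equiv.Perm (Oms k) := fun k => Y k (NN k) i

/-- The moves, modulo sequences that move almost nothing. -/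
noncomputable def yq (i : ℕ) : (∀ k, Equiv.Perm (Oms k)) ⧸ null Oms := QuotientGroup.mk (yy i)

lemma yq_rel (i j : ℕ) (hij : i < j) : (yq i)⁻¹ * yq j * yq i = yq (j + 1) := by
  have : yq j * yq i = yq i * yq (j + 1) := by
    unfold yq
    rw [← QuotientGroup.mk_mul, ← QuotientGroup.mk_mul, mk_eq_iff]
    exact (small_not_good (j + 3)).mono fun k ω h hg => h (Y_rel hij ω hg)
  rw [mul_assoc, this]
  group

lemma gen_yq (n : ℕ) : gen (yq 0) (yq 1) n = yq n := by
  have : ∀ n, gen (yq 0) (yq 1) (n + 1) = yq (n + 1) := by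
    intro n
    induction n with
    | zero => simp [gen]
    | succ n ih => rw [gen_succ, ih, yq_rel 0 (n + 1) (by omega)]
  cases n with
  | zero => rfl
  | succ n => exact this n

/-- The asymptotic action of `F`. -/
noncomputable def act : ThompsonF →* (∀ k, Equiv.Perm (Oms k)) ⧸ null Oms :=
  PresentedGroup.toGroup (f := fun i : Fin 2 => yq i) (by
    have h2 : (yq 0)⁻¹ * yq 1 * yq 0 = yq 2 := yq_rel 0 1 (by omega)
    have h3 : (yq 0)⁻¹ * yq 2 * yq 0 = yq 3 := yq_rel 0 2 (by omega)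
    have h4 : (yq 0)⁻¹ * yq 3 * yq 0 = yq 4 := yq_rel 0 3 (by omega)
    have k3 : (yq 1)⁻¹ * yq 2 * yq 1 = yq 3 := yq_rel 1 2 (by omega)
    have k4 : (yq 1)⁻¹ * yq 3 * yq 1 = yq 4 := yq_rel 1 3 (by omega)
    have h3' : (yq 0)⁻¹ * (yq 0)⁻¹ * yq 1 * yq 0 * yq 0 = yq 3 := by
      rw [← h3, ← h2]; group
    rintro r (rfl | rfl)
    · simp only [map_mul, map_inv, FreeGroup.lift_apply_of, Fin.val_zero, Fin.val_one]
      rw [h2]
      calc _ = yq 0 * ((yq 1)⁻¹ * yq 2 * yq 1) * (yq 0)⁻¹ * (yq 2)⁻¹ := by group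
        _ = 1 := by rw [k3, ← h3]; group
    · simp only [map_mul, map_inv, FreeGroup.lift_apply_of, Fin.val_zero, Fin.val_one]
      rw [h3']
      calc _ = yq 0 * ((yq 1)⁻¹ * yq 3 * yq 1) * (yq 0)⁻¹ * (yq 3)⁻¹ := by group
        _ = 1 := by rw [k4, ← h4]; group)

lemma act_xF (n : ℕ) : act (xF n) = yq n := by
  have h0 : act (PresentedGroup.of 0) = yq 0 := PresentedGroup.toGroup.of _
  have h1 : act (PresentedGroup.of 1) = yq 1 := PresentedGroup.toGroup.of _
  rw [← gen_yq]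
  cases n with
  | zero => exact h0
  | succ n => simp only [xF, gen, map_mul, map_inv, map_pow, h0, h1]

lemma act_pos (l : List ℕ) : act (pos xF l) = QuotientGroup.mk (pos yy l) := by
  induction l with
  | nil => simp [pos_nil]
  | cons i l ih => rw [pos_cons, pos_cons, map_mul, ih, act_xF, QuotientGroup.mk_mul]; rfl

lemma pos_yy (l : List ℕ) (k : ℕ) : pos yy l k = (l.map (Y k (NN k))).prod := by
  induction l with
  | nil => rfl
  | cons i l ih => rw [pos_cons, List.map_cons, List.prod_cons, ← ih]; rfl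

theorem act_free (g : ThompsonF) (hg : g ≠ 1) : ∃ σ : ∀ k, Equiv.Perm (Oms k),
    QuotientGroup.mk σ = act g ∧ Small fun k ω => σ k ω = ω := by
  obtain ⟨p, q, hp, hq, rfl⟩ := normal_form g
  have hpq : p ≠ q := by
    rintro rfl
    exact hg (mul_inv_cancel _)
  refine ⟨pos yy p * (pos yy q)⁻¹, ?_, ?_⟩
  · rw [map_mul, map_inv, act_pos, act_pos, QuotientGroup.mk_mul, QuotientGroup.mk_inv]
  · obtain ⟨M, hM⟩ := (p ++ q).toFinset.bddAbove
    have hM' : ∀ i ∈ p ++ q, i < M + 1 := fun i hi =>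
      Nat.lt_succ_of_le (hM (by simpa using hi))
    refine ((small_not_good (M + 1 + p.length + q.length)).perm (pos yy q)⁻¹).mono
      fun k ω h hgood => hpq ?_
    refine Y_ne _ hp hq (fun i hi => hM' i (List.mem_append_left _ hi))
      (fun i hi => hM' i (List.mem_append_right _ hi)) hgood ?_
    rw [← pos_yy, ← pos_yy]
    change pos yy p k ((pos yy q k)⁻¹ ω) = pos yy q k ((pos yy q k)⁻¹ ω)
    have : pos yy p k ((pos yy q k)⁻¹ ω) = ω := h
    rw [this]
    simp

theorem thompsonF_sofic (S : Finset ThompsonF) (ε : ℝ) (hε : 0 < ε) :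
    ∃ n : ℕ, ∃ φ : ThompsonF → Equiv.Perm (Fin n),
      (∀ g ∈ S, ∀ h ∈ S,
        ((Finset.univ.filter (fun i : Fin n => φ (g * h) i ≠ (φ g * φ h) i)).card : ℝ)
          < ε * (n : ℝ)) ∧
      (∀ g ∈ S, g ≠ 1 →
        ((Finset.univ.filter (fun i : Fin n => φ g i ≠ i)).card : ℝ) > (1 - ε) * (n : ℝ)) :=
  sofic_of_hom act act_free S ε hε

end Pool.Agent.Lib.MP_3e9be7_al.Stk
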