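import Pool.Agent.Lib.MP_3e9be7_al.H53Abs

/-!
The stack machine: a list of colours and one stack for every colour. The move number `i` deletes
the letter at place `i + 1` and pushes it on the stack named by the letter at place `i`.
-/

set_option autoImplicit false

open Filter Topology Classical

namespace Pool.Agent.Lib.MP_3e9be7_al.Stk

/-- Raw states. -/
abbrev St (k : ℕ) := List (Fin (k + 1)) × (Fin (k + 1) → List (Fin (k + 1)))

variable {k : ℕ}

/-- The total number of letters. -/
def tot (ω : St k) : ℕ := ω.1.length + ∑ c, (ω.2 c).length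

/-- The letter at place `i`. -/
def at' (ω : St k) (i : ℕ) : Fin (k + 1) := (ω.1[i]?).getD 0

/-- The move number `i`. -/
def step (i : ℕ) (ω : St k) : St k :=
  (ω.1.eraseIdx (i + 1), Function.update ω.2 (at' ω i) (at' ω (i + 1) :: ω.2 (at' ω i)))

lemma at'_step_le {i t : ℕ} (ω : St k) (h : t ≤ i) : at' (step i ω) t = at' ω t := by
  simp only [at', step, List.getElem?_eraseIdx]
  rw [if_pos (by omega)]

lemma at'_step_gt {i t : ℕ} (ω : St k) (h : i < t) : at' (step i ω) t = at' ω (t + 1) := by
  simp only [at', step, List.getElem?_eraseIdx]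
  rw [if_neg (by omega)]

lemma length_step {i : ℕ} (ω : St k) (h : i + 1 < ω.1.length) :
    (step i ω).1.length + 1 = ω.1.length := by
  simp only [step, List.length_eraseIdx, if_pos h]
  omega

lemma length_step_stack (i : ℕ) (ω : St k) (c : Fin (k + 1)) :
    ((step i ω).2 c).length = (ω.2 c).length + if at' ω i = c then 1 else 0 := by
  simp only [step]
  by_cases h : at' ω i = c
  · subst h
    simp
  · rw [Function.update_of_ne (Ne.symm h), if_neg h, add_zero]

lemma tot_step {i : ℕ} (ω : St k) (h : i + 1 < ω.1.length) : tot (step i ω) = tot ω := by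
  have h1 := length_step ω h
  unfold tot
  simp only [length_step_stack, Finset.sum_add_distrib, Finset.sum_ite_eq, Finset.mem_univ, if_true]
  omega

lemma step_inj {i : ℕ} {ω ω' : St k} (h : i + 1 < ω.1.length) (h' : i + 1 < ω'.1.length)
    (e : step i ω = step i ω') : ω = ω' := by
  have e0 : at' ω i = at' ω' i := by
    rw [← at'_step_le ω (le_refl i), e, at'_step_le ω' (le_refl i)]
  have e1 : ω.1.eraseIdx (i + 1) = ω'.1.eraseIdx (i + 1) := congrArg Prod.fst e
  have e2 : Function.update ω.2 (at' ω i) (at' ω (i + 1) :: ω.2 (at' ω i)) =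
      Function.update ω'.2 (at' ω' i) (at' ω' (i + 1) :: ω'.2 (at' ω' i)) := congrArg Prod.snd e
  rw [← e0] at e2
  have e3 := congrFun e2 (at' ω i)
  simp only [Function.update_self, List.cons.injEq] at e3
  refine Prod.ext ?_ ?_
  · apply List.ext_getElem?
    intro t
    rcases lt_trichotomy t (i + 1) with ht | rfl | ht
    · have := congrArg (fun l => l[t]?) e1
      simpa only [List.getElem?_eraseIdx, if_pos ht] using this
    · have := e3.1
      simp only [at', List.getElem?_eq_getElem h, List.getElem?_eq_getElem h',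
        Option.getD_some] at this
      rw [List.getElem?_eq_getElem h, List.getElem?_eq_getElem h', this]
    · obtain ⟨t, rfl⟩ : ∃ u, t = u + 1 := ⟨t - 1, by omega⟩
      have := congrArg (fun l => l[t]?) e1
      simpa only [List.getElem?_eraseIdx, if_neg (show ¬ t < i + 1 by omega)] using this
  · funext c
    by_cases hc : c = at' ω i
    · rw [hc]; exact e3.2
    · have := congrFun e2 c
      rwa [Function.update_of_ne hc, Function.update_of_ne hc] at this

lemma step_step {i j : ℕ} (hij : i < j) (ω : St k) (h : at' ω i ≠ at' ω (j + 1)) :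
    step j (step i ω) = step i (step (j + 1) ω) := by
  refine Prod.ext ?_ ?_
  · apply List.ext_getElem?
    intro t
    simp only [step, List.getElem?_eraseIdx]
    split_ifs <;> first | rfl | omega
  · have a1 : at' (step i ω) j = at' ω (j + 1) := at'_step_gt ω hij
    have a2 : at' (step i ω) (j + 1) = at' ω (j + 1 + 1) := at'_step_gt ω (by omega)
    have a3 : at' (step (j + 1) ω) i = at' ω i := at'_step_le ω (by omega)
    have a4 : at' (step (j + 1) ω) (i + 1) = at' ω (i + 1) := at'_step_le ω (by omega)
    change Function.update (step i ω).2 _ (_ :: (step i ω).2 _) =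
      Function.update (step (j + 1) ω).2 _ (_ :: (step (j + 1) ω).2 _)
    rw [a1, a2, a3, a4]
    simp only [step]
    rw [Function.update_of_ne h, Function.update_of_ne (Ne.symm h), Function.update_comm h]

/-- States with `N` letters. -/
abbrev Om (k N : ℕ) : Type := {ω : St k // tot ω = N}

instance (k N : ℕ) : Finite (Om k N) := by
  have h : {ω : St k | tot ω = N}.Finite := by
    refine ((List.finite_length_le (Fin (k + 1)) N).prod
      (Set.Finite.pi' fun _ : Fin (k + 1) => List.finite_length_le (Fin (k + 1)) N)).subset ?_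
    intro ω hω
    have hω : tot ω = N := hω
    unfold tot at hω
    refine ⟨by simp only [Set.mem_ofPred_eq]; omega, fun c => ?_⟩
    have := Finset.single_le_sum (f := fun c => (ω.2 c).length) (fun _ _ => Nat.zero_le _)
      (Finset.mem_univ c)
    simp only [Set.mem_ofPred_eq]
    omega
  exact h

noncomputable instance (k N : ℕ) : Fintype (Om k N) := Fintype.ofFinite _

instance (k N : ℕ) : Nonempty (Om k N) :=
  ⟨⟨(List.replicate N 0, fun _ => []), by simp [tot]⟩⟩

lemma exists_perm (k N i : ℕ) : ∃ Y : Equiv.Perm (Om k N),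
    ∀ ω : Om k N, i + 1 < ω.1.1.length → (Y ω).1 = step i ω.1 := by
  obtain ⟨Y, hY⟩ := Equiv.Perm.exists_extending_pair
    (f := fun ω : {ω : Om k N // i + 1 < ω.1.1.length} => ω.1)
    (g := fun ω : {ω : Om k N // i + 1 < ω.1.1.length} =>
      (⟨step i ω.1.1, (tot_step _ ω.2).trans ω.1.2⟩ : Om k N))
    Subtype.val_injective (by
      intro ω ω' e
      exact Subtype.ext (Subtype.ext (step_inj ω.2 ω'.2 (congrArg Subtype.val e))))
  exact ⟨Y, fun ω h => congrArg Subtype.val (hY ⟨ω, h⟩)⟩

/-- A permutation of the states extending the move number `i`. -/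
noncomputable def Y (k N i : ℕ) : Equiv.Perm (Om k N) := (exists_perm k N i).choose

lemma Y_val {N i : ℕ} (ω : Om k N) (h : i + 1 < ω.1.1.length) :
    (Y k N i ω).1 = step i ω.1 := (exists_perm k N i).choose_spec ω h

/-- The first `W` letters exist and are pairwise distinct. -/
def Good (W : ℕ) (ω : St k) : Prop :=
  W ≤ ω.1.length ∧ ∀ i j, i < j → j < W → at' ω i ≠ at' ω j

lemma Y_rel {N i j : ℕ} (hij : i < j) (ω : Om k N) (h : Good (j + 3) ω.1) :
    Y k N j (Y k N i ω) = Y k N i (Y k N (j + 1) ω) := by
  have hl := h.1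
  have e1 := Y_val (i := i) ω (by omega)
  have e2 := Y_val (i := j + 1) ω (by omega)
  have l1 := length_step (i := i) ω.1 (by omega)
  have l2 := length_step (i := j + 1) ω.1 (by omega)
  apply Subtype.ext
  rw [Y_val (i := j) (Y k N i ω) (by rw [e1]; omega),
    Y_val (i := i) (Y k N (j + 1) ω) (by rw [e2]; omega), e1, e2]
  exact step_step hij _ (h.2 _ _ (by omega) (by omega))

lemma Y_sorted {N M : ℕ} (ω : Om k N) (p : List ℕ) : p.Pairwise (· ≤ ·) → (∀ i ∈ p, i < M) →
    M + p.length ≤ ω.1.1.length →
    ((p.map (Y k N)).prod ω).1.1.length + p.length = ω.1.1.length ∧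
    (∀ t, (∀ i ∈ p, t ≤ i) → at' ((p.map (Y k N)).prod ω).1 t = at' ω.1 t) ∧
    ∀ c, (((p.map (Y k N)).prod ω).1.2 c).length =
      (ω.1.2 c).length + p.countP fun i => at' ω.1 i = c := by
  induction p with
  | nil => simp
  | cons i p ih =>
    intro hs hM hl
    rw [List.pairwise_cons] at hs
    simp only [List.length_cons] at hl
    obtain ⟨h1, h2, h3⟩ := ih hs.2 (fun x hx => hM x (List.mem_cons_of_mem _ hx)) (by omega)
    have hi := hM i List.mem_cons_self
    have hv := Y_val (i := i) ((p.map (Y k N)).prod ω) (by omega)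
    have hl' := length_step (i := i) ((p.map (Y k N)).prod ω).1 (by omega)
    simp only [List.map_cons, List.prod_cons, Equiv.Perm.mul_apply, List.length_cons]
    rw [hv]
    refine ⟨by omega, fun t ht => ?_, fun c => ?_⟩
    · rw [at'_step_le _ (ht i List.mem_cons_self)]
      exact h2 t fun x hx => ht x (List.mem_cons_of_mem _ hx)
    · rw [length_step_stack, h3, h2 i hs.1, List.countP_cons]
      simp [add_assoc]

lemma Y_ne {N M : ℕ} (ω : Om k N) {p q : List ℕ} (hp : p.Pairwise (· ≤ ·))
    (hq : q.Pairwise (· ≤ ·)) (hpM : ∀ i ∈ p, i < M) (hqM : ∀ i ∈ q, i < M)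
    (h : Good (M + p.length + q.length) ω.1)
    (e : (p.map (Y k N)).prod ω = (q.map (Y k N)).prod ω) : p = q := by
  have hl := h.1
  have a := (Y_sorted ω p hp hpM (by omega)).2.2
  have b := (Y_sorted ω q hq hqM (by omega)).2.2
  have key : ∀ l : List ℕ, (∀ i ∈ l, i < M) → ∀ t, t < M →
      (l.countP fun i => at' ω.1 i = at' ω.1 t) = l.count t := by
    intro l hlM t ht
    rw [List.count]
    refine List.countP_congr fun i hi => ?_
    have hi' := hlM i hi
    simp only [decide_eq_true_eq, beq_iff_eq]
    refine ⟨fun hh => ?_, fun hh => by rw [hh]⟩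
    rcases lt_trichotomy i t with h1 | h1 | h1
    · exact (h.2 i t h1 (by omega) hh).elim
    · exact h1
    · exact (h.2 t i h1 (by omega) hh.symm).elim
  refine List.Perm.eq_of_pairwise (le := (· ≤ ·)) (fun _ _ _ _ h1 h2 => le_antisymm h1 h2) hp hq ?_
  rw [List.perm_iff_count]
  intro t
  by_cases ht : t < M
  · have a' := a (at' ω.1 t)
    have b' := b (at' ω.1 t)
    rw [e, b', key p hpM t ht, key q hqM t ht] at a'
    omega
  · rw [List.count_eq_zero_of_not_mem fun hh => ht (hpM t hh),
      List.count_eq_zero_of_not_mem fun hh => ht (hqM t hh)]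

end Pool.Agent.Lib.MP_3e9be7_al.Stk
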