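import Pool.Agent.Lib.MP_3e9be7_al.H53VMerge

/-!
Every group of permutations of the binary streams that act by replacing initial words is sofic.
-/

set_option autoImplicit false

open Filter Topology Classical

namespace Pool.Agent.Lib.MP_3e9be7_al.Stk

variable {k : ℕ}

/-- `f` replaces the initial word `u` by `v`. -/
def Cone (f : Equiv.Perm (Stream' Bool)) (u v : List Bool) : Prop := ∀ x, f (u ++ₛ x) = v ++ₛ x

/-- `f` replaces every initial word of length `n`. -/
def Lev (f : Equiv.Perm (Stream' Bool)) (n : ℕ) : Prop :=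
  ∀ u : List Bool, u.length = n → ∃ v, Cone f u v

variable {f g h : Equiv.Perm (Stream' Bool)}

lemma Cone.append {u v : List Bool} (hc : Cone f u v) (t : List Bool) :
    Cone f (u ++ t) (v ++ t) := fun x => by
  rw [Stream'.append_append_stream, Stream'.append_append_stream, hc]

lemma Cone.unique {u v v' : List Bool} (h1 : Cone f u v) (h2 : Cone f u v') : v = v' := by
  have key : ∀ a b : List Bool, (∀ x, a ++ₛ x = b ++ₛ x) → ¬ a.length < b.length := by
    intro a b e hl
    have := congrArg (fun y => Stream'.get y a.length) (e (Stream'.const (!b[a.length])))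
    simp only [Stream'.get_append_length, Stream'.get_const] at this
    rw [Stream'.get_append_left _ _ _ hl] at this
    simp at this
  have e : ∀ x, v ++ₛ x = v' ++ₛ x := fun x => (h1 x).symm.trans (h2 x)
  have l1 := key v v' e
  have l2 := key v' v fun x => (e x).symm
  exact Stream'.append_left_injective _ _ _ _ (e (Stream'.const false)) (by omega)

lemma Lev.split {n : ℕ} (hl : Lev f n) {u v : List Bool} (hn : n ≤ u.length) (hc : Cone f u v) :
    ∃ u0 v0 t, u0.length = n ∧ Cone f u0 v0 ∧ u = u0 ++ t ∧ v = v0 ++ t := by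
  obtain ⟨v0, h0⟩ := hl (u.take n) (by simp [hn])
  refine ⟨u.take n, v0, u.drop n, by simp [hn], h0, (List.take_append_drop _ _).symm, ?_⟩
  have := h0.append (u.drop n)
  rw [List.take_append_drop] at this
  exact hc.unique this

lemma Lev.mono {n n' : ℕ} (hl : Lev f n) (hn : n ≤ n') : Lev f n' := by
  intro u hu
  obtain ⟨v0, h0⟩ := hl (u.take n) (by simp; omega)
  have := h0.append (u.drop n)
  rw [List.take_append_drop] at this
  exact ⟨_, this⟩

lemma exists_bound (f : Equiv.Perm (Stream' Bool)) (n : ℕ) :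
    ∃ D, ∀ u v : List Bool, u.length = n → Cone f u v → v.length ≤ D := by
  have : ∀ u : List Bool, ∃ d, ∀ v, Cone f u v → v.length ≤ d := by
    intro u
    by_cases hu : ∃ v, Cone f u v
    · obtain ⟨v, hv⟩ := hu
      exact ⟨v.length, fun v' hv' => by rw [hv'.unique hv]⟩
    · exact ⟨0, fun v hv => (hu ⟨v, hv⟩).elim⟩
  choose d hd using this
  obtain ⟨D, hD⟩ := ((List.finite_length_eq Bool n).image d).bddAbove
  exact ⟨D, fun u v hu hv => (hd u v hv).trans (hD ⟨u, hu, rfl⟩)⟩

lemma Lev.inv {n : ℕ} (hl : Lev f n) : ∃ D, Lev f⁻¹ D := by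
  obtain ⟨D, hD⟩ := exists_bound f n
  refine ⟨D, fun z hz => ?_⟩
  let y := f⁻¹ (z ++ₛ Stream'.const false)
  obtain ⟨v, hv⟩ := hl (y.take n) (by simp)
  have hl := hD _ v (by simp) hv
  have e1 := hv (y.drop n)
  rw [Stream'.append_take_drop] at e1
  have e2 : z ++ₛ Stream'.const false = v ++ₛ y.drop n := by rw [← e1]; simp [y]
  rw [← List.take_append_drop v.length z, Stream'.append_append_stream] at e2
  have e3 := Stream'.append_left_injective _ _ _ _ e2 (by simp; omega)
  refine ⟨y.take n ++ z.drop v.length, fun x => ?_⟩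
  rw [Equiv.Perm.inv_eq_iff_eq, hv.append, ← e3, List.length_take_of_le (by omega),
    List.take_append_drop]

lemma exists_enum (n : ℕ) : ∃ (m : ℕ) (w : ℕ → List Bool), (∀ i < m, (w i).length = n) ∧
    (∀ u : List Bool, u.length = n → ∃ i < m, w i = u) ∧ ∀ i < m, ∀ j < m, w i = w j → i = j := by
  let L := (List.finite_length_eq Bool n).toFinset.toList
  have hL : ∀ u, u ∈ L ↔ u.length = n := by simp [L]
  refine ⟨L.length, fun i => L.getD i [], fun i hi => ?_, fun u hu => ?_, fun i hi j hj e => ?_⟩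
  · simp only [← hL, List.getD_eq_getElem _ _ hi]
    exact List.getElem_mem _
  · obtain ⟨i, hi, e⟩ := List.getElem_of_mem ((hL u).2 hu)
    exact ⟨i, hi, by simp only [List.getD_eq_getElem _ _ hi, e]⟩
  · simp only [List.getD_eq_getElem _ _ hi, List.getD_eq_getElem _ _ hj] at e
    exact (List.Nodup.getElem_inj_iff (Finset.nodup_toList _)).1 e

lemma loc_append (ω : St k) (u t : List Bool) :
    loc ω (u ++ t) = t.foldl (stp ω.2) (loc ω u) := List.foldl_append

lemma lab_zeros (ω : St k) (u : List Bool) (j : ℕ) :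
    (loc ω (u ++ List.replicate j false)).1 = (loc ω u).1 := by
  induction j with
  | zero => simp
  | succ j ih => rw [List.replicate_succ', ← List.append_assoc, loc_append, ← ih]; rfl

/-- The colours seen at depth `D` are pairwise distinct. -/
def Inj (D : ℕ) (ω : St k) : Prop := ∀ u u' : List Bool, u.length = D → u'.length = D →
  (loc ω u).1 = (loc ω u').1 → u = u'

lemma Inj.pad {D : ℕ} {ω : St k} (hi : Inj D ω) {u u' : List Bool} (hu : u.length ≤ D)
    (hu' : u'.length ≤ D) (e : (loc ω u).1 = (loc ω u').1) :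
    u ++ List.replicate (D - u.length) false = u' ++ List.replicate (D - u'.length) false :=
  hi _ _ (by simp; omega) (by simp; omega) (by rw [lab_zeros, lab_zeros, e])

/-- The state `ω'` looks like the image of `ω` under `f`, seen from depth `n`. -/
def Rel (f : Equiv.Perm (Stream' Bool)) (n : ℕ) (ω ω' : St k) : Prop :=
  (∀ u v : List Bool, u.length = n → Cone f u v → loc ω' v = loc ω u) ∧
  (∀ c, (∀ u : List Bool, u.length = n → (loc ω u).1 ≠ c) → ω'.2 c = ω.2 c) ∧
  ω'.1.tail = ω.1.tail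

lemma Rel.deep {n D : ℕ} {ω ω' : St k} (hr : Rel f n ω ω') (hi : Inj D ω) {u v : List Bool}
    (hu : u.length = n) (hc : Cone f u v) (t : List Bool) :
    n + t.length ≤ D → loc ω' (v ++ t) = loc ω (u ++ t) := by
  induction t using List.reverseRecOn with
  | nil => intro _; simpa using hr.1 u v hu hc
  | append_singleton t b ih =>
    intro hl
    simp only [List.length_append, List.length_singleton] at hl
    rw [← List.append_assoc, ← List.append_assoc, loc_append, loc_append ω (u ++ t),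
      ih (by omega)]
    cases b
    · rfl
    · simp only [List.foldl_cons, List.foldl_nil, stp, if_true, Prod.mk.injEq, true_and]
      refine hr.2.1 _ fun u' hu' e => ?_
      have e' : (loc ω u').1 = (loc ω (u ++ (t ++ [true]))).1 := by
        rw [← List.append_assoc, loc_append]; exact e
      have := hi.pad (by omega) (by simp; omega) e'
      rw [List.append_assoc] at this
      have h2 := (List.append_inj this (by omega)).2
      have : true ∈ List.replicate (D - u'.length) false := by rw [h2]; simp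
      simp at this

lemma Rel.lift {n D : ℕ} {ω ω' : St k} (hr : Rel f n ω ω') (hl : Lev f n) (hi : Inj D ω)
    (hn : n ≤ D) : Rel f D ω ω' := by
  refine ⟨fun u v hu hc => ?_, fun c hc => hr.2.1 c fun u hu => ?_, hr.2.2⟩
  · obtain ⟨u0, v0, t, h1, h2, rfl, rfl⟩ := hl.split (by omega) hc
    exact hr.deep hi h1 h2 t (by simp at hu; omega)
  · rw [← lab_zeros ω u (D - n)]
    exact hc _ (by simp; omega)

lemma Lev.comp {n m : ℕ} (hh : Lev h n) (hg : Lev g m) : Lev (g * h) (n + m) := by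
  intro u hu
  obtain ⟨v, hv⟩ := hh.mono (Nat.le_add_right n m) u hu
  obtain ⟨u0, v0, t, h1, -, h2, h3⟩ := hh.split (by omega) hv
  have : m ≤ v.length := by
    rw [h2] at hu
    rw [h3]
    simp only [List.length_append] at hu ⊢
    omega
  obtain ⟨z, hz⟩ := hg.mono this v rfl
  exact ⟨z, fun x => by rw [Equiv.Perm.mul_apply, hv, hz]⟩

lemma Rel.comp {n m D : ℕ} {ω ω' ω'' : St k} (hh : Lev h n) (hg : Lev g m)
    (hD : ∀ u v : List Bool, u.length = n + m → Cone h u v → v.length ≤ D)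
    (r1 : Rel h (n + m) ω ω') (r2 : Rel g m ω' ω'') (hi : Inj D ω') :
    Rel (g * h) (n + m) ω ω'' := by
  have long : ∀ u : List Bool, u.length = n + m → ∃ v, Cone h u v ∧ m ≤ v.length := by
    intro u hu
    obtain ⟨v, hv⟩ := hh.mono (Nat.le_add_right n m) u hu
    obtain ⟨u0, v0, t, h1, -, h2, h3⟩ := hh.split (by omega) hv
    refine ⟨v, hv, ?_⟩
    rw [h2] at hu
    rw [h3]
    simp only [List.length_append] at hu ⊢
    omega
  refine ⟨fun u z hu hc => ?_, fun c hc => ?_, r2.2.2.trans r1.2.2⟩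
  · obtain ⟨v, hv, hm⟩ := long u hu
    have hz : Cone g v z := fun x => by rw [← hv, ← hc]; rfl
    obtain ⟨v0, z0, t, h1, h2, h3, rfl⟩ := hg.split hm hz
    have := hD u v hu hv
    rw [← r1.1 u v hu hv, h3]
    exact r2.deep hi h1 h2 t (by rw [h3] at this; simp at this; omega)
  · rw [← r1.2.1 c hc]
    refine r2.2.1 c fun v1 hv1 e => ?_
    let y := h⁻¹ (v1 ++ₛ Stream'.const false)
    obtain ⟨v, hv, hm⟩ := long (y.take (n + m)) (by simp)
    have e1 := hv (y.drop (n + m))
    rw [Stream'.append_take_drop] at e1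
    have e2 : v1 ++ₛ Stream'.const false = v ++ₛ y.drop (n + m) := by rw [← e1]; simp [y]
    have e3 : v1 ++ List.replicate (v.length - m) false = v := by
      refine Stream'.append_left_injective _ _ (Stream'.const false) (y.drop (n + m)) ?_
        (by simp; omega)
      rw [← e2, Stream'.append_append_stream]
      congr 1
      generalize v.length - m = j
      induction j with
      | zero => rfl
      | succ j ih => rw [List.replicate_succ, Stream'.cons_append_stream, ih, ← Stream'.const_eq]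
    refine hc (y.take (n + m)) (by simp) ?_
    rw [← r1.1 _ v (by simp) hv, ← e3, lab_zeros, e]

lemma exists_pair {n : ℕ} (hl : Lev f n) : ∃ m, ∀ k N, ∃ Z Z' : Equiv.Perm (Om k N),
    (∀ ω, Good m ω.1 → Rel f n (Z ω).1 (Z' ω).1) ∧ (∀ ω, Good m ω.1 → Inj n (Z ω).1) ∧
    ∀ ω0 ω1 ω, Good m ω0.1 → Good m ω1.1 → Rel f n ω (Z' ω0).1 → Rel f n ω (Z' ω1).1 →
      ω0 = ω1 := by
  obtain ⟨m, w, w1, w2, w3⟩ := exists_enum n
  obtain ⟨D, hD⟩ := exists_bound f n
  choose! v hv using hl
  have c1 : ∀ x, ∃ i < m, Pre (w i) x := fun x => by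
    obtain ⟨i, hi, e⟩ := w2 (x.take n) (by simp)
    exact ⟨i, hi, x.drop n, by rw [e, Stream'.append_take_drop]⟩
  have c2 : ∀ x, ∀ i < m, ∀ j < m, Pre (w i) x → Pre (w j) x → i = j := by
    rintro x i hi j hj ⟨y, rfl⟩ ⟨y', e⟩
    exact w3 i hi j hj (Stream'.append_left_injective _ _ _ _ e (by rw [w1 i hi, w1 j hj]))
  have c3 : ∀ x, ∀ i < m, Pre (v (w i)) x ↔ Pre (w i) (f⁻¹ x) := by
    intro x i hi
    refine exists_congr fun y => ?_
    rw [← hv _ (w1 i hi) y, Equiv.Perm.inv_eq_iff_eq]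
  refine ⟨m, fun k N => ?_⟩
  obtain ⟨Z, hZ⟩ := exists_code_perm (k := k) N m n w (fun i hi => (w1 i hi).le) c1 c2
  obtain ⟨Z', hZ'⟩ := exists_code_perm (k := k) N m D (fun i => v (w i))
    (fun i hi => hD _ _ (w1 i hi) (hv _ (w1 i hi)))
    (fun x => by
      obtain ⟨i, hi, e⟩ := c1 (f⁻¹ x)
      exact ⟨i, hi, (c3 x i hi).2 e⟩)
    (fun x i hi j hj h1 h2 => c2 _ i hi j hj ((c3 x i hi).1 h1) ((c3 x j hj).1 h2))
  refine ⟨Z, Z', fun ω hω => ?_, fun ω hω => ?_, fun ω0 ω1 ω h0 h1 r0 r1 => ?_⟩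
  · obtain ⟨a1, a2, a3⟩ := hZ ω hω
    obtain ⟨b1, b2, b3⟩ := hZ' ω hω
    refine ⟨fun u z hu hc => ?_, fun c hc => ?_, b3.trans a3.symm⟩
    · obtain ⟨i, hi, rfl⟩ := w2 u hu
      rw [hc.unique (hv _ hu), a1 i hi, b1 i hi]
    · have : ∀ i < m, at' ω.1 i ≠ c := fun i hi => by
        have := hc _ (w1 i hi)
        rwa [a1 i hi] at this
      rw [a2 c this, b2 c this]
  · intro u u' hu hu' e
    obtain ⟨i, hi, rfl⟩ := w2 u hu
    obtain ⟨j, hj, rfl⟩ := w2 u' hu'
    rw [(hZ ω hω).1 i hi, (hZ ω hω).1 j hj] at e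
    rw [hω.injOn (by simpa using hi) (by simpa using hj) e]
  · obtain ⟨a1, a2, a3⟩ := hZ' ω0 h0
    obtain ⟨b1, b2, b3⟩ := hZ' ω1 h1
    have e0 : ∀ i < m, loc ω (w i) = (at' ω0.1 i, ω0.1.2 (at' ω0.1 i)) := fun i hi => by
      rw [← a1 i hi, r0.1 _ _ (w1 i hi) (hv _ (w1 i hi))]
    have e1 : ∀ i < m, loc ω (w i) = (at' ω1.1 i, ω1.1.2 (at' ω1.1 i)) := fun i hi => by
      rw [← b1 i hi, r1.1 _ _ (w1 i hi) (hv _ (w1 i hi))]
    have e2 : ∀ i < m, at' ω0.1 i = at' ω1.1 i := fun i hi =>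
      congrArg Prod.fst ((e0 i hi).symm.trans (e1 i hi))
    refine Subtype.ext (Prod.ext (ext_at h0.1 h1.1 e2 ?_) (funext fun c => ?_))
    · rw [← a3, ← b3, r0.2.2, r1.2.2]
    · by_cases hc : ∃ i < m, at' ω0.1 i = c
      · obtain ⟨i, hi, rfl⟩ := hc
        have := congrArg Prod.snd ((e0 i hi).symm.trans (e1 i hi))
        simp only at this
        rw [this, e2 i hi]
      · push Not at hc
        have hc' : ∀ u : List Bool, u.length = n → (loc ω u).1 ≠ c := by
          intro u hu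
          obtain ⟨i, hi, rfl⟩ := w2 u hu
          rw [e0 i hi]
          exact hc i hi
        rw [← a2 c hc, ← b2 c fun i hi => by rw [← e2 i hi]; exact hc i hi, r0.2.1 c hc',
          r1.2.1 c hc']

/-- The sequence of state spaces. -/
abbrev Omv (k : ℕ) : Type := Om k (NN k)

lemma small_not_inj (D : ℕ) : Small (Ω := Omv) fun _ ω => ¬ Inj D ω.1 := by
  obtain ⟨m, hm⟩ := exists_pair (f := 1) (n := D) fun u _ => ⟨u, fun _ => rfl⟩
  choose Z Z' _ h2 _ using fun k => hm k (NN k)
  refine ((small_not_good m).perm Z⁻¹).mono fun k ω hω hg => hω ?_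
  simpa using h2 k _ hg

/-- The sequence of permutations `σ` follows `f`. -/
def Tracks (f : Equiv.Perm (Stream' Bool)) (σ : ∀ k, Equiv.Perm (Omv k)) : Prop :=
  ∃ n, Lev f n ∧ Small (Ω := Omv) fun k ω => ¬ Rel f n ω.1 (σ k ω).1

lemma exists_tracks {n : ℕ} (hl : Lev f n) : ∃ σ, Tracks f σ := by
  obtain ⟨m, hm⟩ := exists_pair hl
  choose Z Z' h1 _ _ using fun k => hm k (NN k)
  refine ⟨Z' * Z⁻¹, n, hl, ((small_not_good m).perm Z⁻¹).mono fun k ω hω hg => hω ?_⟩
  simpa using h1 k _ hg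

lemma small_lift {n D : ℕ} {σ : ∀ k, Equiv.Perm (Omv k)} (hl : Lev f n) (hn : n ≤ D)
    (hs : Small (Ω := Omv) fun k ω => ¬ Rel f n ω.1 (σ k ω).1) :
    Small (Ω := Omv) fun k ω => ¬ Rel f D ω.1 (σ k ω).1 := by
  refine Small.union hs (small_not_inj D) fun k ω hω => ?_
  by_contra hc
  push Not at hc
  exact hω (hc.1.lift hl hc.2 hn)

lemma Tracks.unique {σ τ : ∀ k, Equiv.Perm (Omv k)} (h1 : Tracks f σ) (h2 : Tracks f τ) :
    Small (Ω := Omv) fun k ω => σ k ω ≠ τ k ω := by
  obtain ⟨n, l1, s1⟩ := h1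
  obtain ⟨n', l2, s2⟩ := h2
  have s1' := small_lift l1 (Nat.le_add_right n n') s1
  have s2' := small_lift l2 (Nat.le_add_left n' n) s2
  obtain ⟨m, hm⟩ := exists_pair (l1.mono (Nat.le_add_right n n'))
  choose Z Z' _ _ h3 using fun k => hm k (NN k)
  have g1 := (small_not_good m).perm (Z'⁻¹ * σ)
  have g2 := (small_not_good m).perm (Z'⁻¹ * τ)
  refine Small.union (Small.union s1' s2' fun _ _ h => h) (Small.union g1 g2 fun _ _ h => h)
    fun k ω hω => ?_
  by_contra hc
  push Not at hc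
  have := h3 k _ _ ω.1 hc.2.1 hc.2.2 (by simpa using hc.1.1) (by simpa using hc.1.2)
  exact hω (by simpa using this)

lemma Tracks.mul {σ τ : ∀ k, Equiv.Perm (Omv k)} (h1 : Tracks g σ) (h2 : Tracks h τ) :
    Tracks (g * h) (σ * τ) := by
  obtain ⟨m, l1, s1⟩ := h1
  obtain ⟨n, l2, s2⟩ := h2
  obtain ⟨D, hD⟩ := exists_bound h (n + m)
  refine ⟨n + m, l2.comp l1, Small.union (small_lift l2 (Nat.le_add_right n m) s2)
    (Small.union (s1.perm τ) ((small_not_inj D).perm τ) fun _ _ h => h) fun k ω hω => ?_⟩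
  by_contra hc
  push Not at hc
  exact hω (Rel.comp l2 l1 hD hc.1 hc.2.1 hc.2.2)

lemma Tracks.free {σ : ∀ k, Equiv.Perm (Omv k)} (h1 : Tracks f σ) (hf : f ≠ 1) :
    Small (Ω := Omv) fun k ω => σ k ω = ω := by
  obtain ⟨n, l1, s1⟩ := h1
  obtain ⟨x, p, hp⟩ : ∃ x p, (f x).get p ≠ x.get p := by
    by_contra hc
    push Not at hc
    exact hf (Equiv.ext fun x => Stream'.ext (hc x))
  obtain ⟨v, hv⟩ := l1.mono (Nat.le_add_right n (p + 1)) (x.take (n + (p + 1))) (by simp)
  have hlen : p < v.length := by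
    obtain ⟨u0, v0, t, h1, -, h2, h3⟩ := l1.split (by simp) hv
    have := congrArg List.length h2
    rw [h3]
    simp only [Stream'.length_take, List.length_append] at this ⊢
    omega
  refine Small.union (small_lift l1 (Nat.le_add_right n (p + 1)) s1)
    (small_not_inj (n + (p + 1) + v.length)) fun k ω hω => ?_
  by_contra hc
  push Not at hc
  rw [hω] at hc
  have e := hc.2.pad (by omega) (by simp) (congrArg Prod.fst (hc.1.1 _ v (by simp) hv))
  have e1 := hv (x.drop (n + (p + 1)))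
  rw [Stream'.append_take_drop] at e1
  apply hp
  rw [e1, Stream'.get_append_left _ _ _ hlen]
  have e2 := congrArg (fun l => l[p]?) e
  simp only [List.getElem?_append_left hlen] at e2
  rw [List.getElem?_append_left (by simp; omega), List.getElem?_eq_getElem hlen,
    List.getElem?_eq_getElem (by simp; omega)] at e2
  simpa using e2

theorem sofic_of_replacing {G : Type} [Group G] (ρ : G →* Equiv.Perm (Stream' Bool))
    (hρ : Function.Injective ρ) (hV : ∀ g, ∃ n, Lev (ρ g) n) (S : Finset G) (ε : ℝ) (hε : 0 < ε) :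
    ∃ n : ℕ, ∃ φ : G → Equiv.Perm (Fin n),
      (∀ g ∈ S, ∀ h ∈ S,
        ((Finset.univ.filter (fun i : Fin n => φ (g * h) i ≠ (φ g * φ h) i)).card : ℝ)
          < ε * (n : ℝ)) ∧
      (∀ g ∈ S, g ≠ 1 →
        ((Finset.univ.filter (fun i : Fin n => φ g i ≠ i)).card : ℝ) > (1 - ε) * (n : ℝ)) := by
  choose σ hσ using fun g => exists_tracks (hV g).choose_spec
  refine sofic_of_hom (Ω := Omv) (MonoidHom.mk' (fun g => QuotientGroup.mk (σ g)) fun a b => ?_)
    (fun g hg => ⟨σ g, rfl, (hσ g).free fun e => hg (hρ (by rw [e, map_one]))⟩) S ε hε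
  rw [← QuotientGroup.mk_mul, mk_eq_iff]
  refine (hσ (a * b)).unique ?_
  rw [map_mul]
  exact (hσ a).mul (hσ b)

end Pool.Agent.Lib.MP_3e9be7_al.Stk
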