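import Pool.Agent.Lib.MP_3e9be7_al.H53Count

/-!
Merging the letters attached to the words of a complete code into one letter, with the help of
the stacks.
-/

set_option autoImplicit false

open Filter Topology Classical

namespace Pool.Agent.Lib.MP_3e9be7_al.Stk

variable {k : ℕ}

/-- One step down the binary tree: keep the colour and pop its stack, or pass to the popped
colour. -/
def stp (s : Fin (k + 1) → List (Fin (k + 1))) (p : Fin (k + 1) × List (Fin (k + 1))) (b : Bool) :
    Fin (k + 1) × List (Fin (k + 1)) :=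
  if b then (p.2.headD 0, s (p.2.headD 0)) else (p.1, p.2.tail)

/-- The stream `x` begins with the word `u`. -/
def Pre (u : List Bool) (x : Stream' Bool) : Prop := ∃ y, x = u ++ₛ y

lemma pre_cons {a b : Bool} {u : List Bool} {x : Stream' Bool} :
    Pre (a :: u) (Stream'.cons b x) ↔ a = b ∧ Pre u x := by
  constructor
  · rintro ⟨y, hy⟩
    rw [Stream'.cons_append_stream] at hy
    have h1 := congrArg Stream'.head hy
    have h2 := congrArg Stream'.tail hy
    simp only [Stream'.head_cons, Stream'.tail_cons] at h1 h2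
    exact ⟨h1.symm, y, h2⟩
  · rintro ⟨rfl, y, rfl⟩
    exact ⟨y, rfl⟩

/-- The properties of the merging map. -/
def IsMerge (I : Finset ℕ) (w : ℕ → List Bool)
    (μ : (ℕ → Fin (k + 1)) → (Fin (k + 1) → List (Fin (k + 1))) →
      Fin (k + 1) × (Fin (k + 1) → List (Fin (k + 1)))) : Prop :=
  (∀ f s, ∑ c, ((μ f s).2 c).length + 1 = ∑ c, (s c).length + I.card) ∧
  (∀ f s f' s', μ f s = μ f' s' → (∀ i ∈ I, f i = f' i) ∧ s = s') ∧
  (∀ f s, ∃ i ∈ I, (μ f s).1 = f i) ∧
  (∀ f s c, (∀ i ∈ I, f i ≠ c) → (μ f s).2 c = s c) ∧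
  (∀ f s, Set.InjOn f I → ∀ t : Fin (k + 1) → List (Fin (k + 1)),
    (∀ i ∈ I, f i ≠ (μ f s).1 → t (f i) = (μ f s).2 (f i)) →
    ∀ i ∈ I, (w i).foldl (stp t) ((μ f s).1, (μ f s).2 (μ f s).1) = (f i, s (f i)))

lemma merge_leaf {I : Finset ℕ} {w : ℕ → List Bool}
    (hu : ∀ x, ∀ i ∈ I, ∀ j ∈ I, Pre (w i) x → Pre (w j) x → i = j)
    {a : ℕ} (ha : a ∈ I) (h0 : w a = []) : ∃ μ, IsMerge (k := k) I w μ := by
  have hI : ∀ j ∈ I, j = a := fun j hj =>
    hu (w j ++ₛ Stream'.const false) j hj a ha ⟨_, rfl⟩ ⟨_, by rw [h0]; rfl⟩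
  have hI' : I = {a} := Finset.eq_singleton_iff_unique_mem.2 ⟨ha, hI⟩
  subst hI'
  refine ⟨fun f s => (f a, s), by simp, ?_, by simp, by simp, ?_⟩
  · intro f s f' s' h
    simpa using h
  · intro f s _ t _ i hi
    rw [hI i hi, h0]
    rfl

lemma sum_push (s : Fin (k + 1) → List (Fin (k + 1))) (a b : Fin (k + 1)) :
    ∑ c, (Function.update s a (b :: s a) c).length = ∑ c, (s c).length + 1 := by
  have : ∀ c, (Function.update s a (b :: s a) c).length = (s c).length + if a = c then 1 else 0 := by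
    intro c
    by_cases h : a = c
    · subst h
      simp
    · rw [Function.update_of_ne (Ne.symm h), if_neg h, add_zero]
  simp only [this, Finset.sum_add_distrib, Finset.sum_ite_eq, Finset.mem_univ, if_true]

lemma merge_node {I : Finset ℕ} {w : ℕ → List Bool} (hne : ∀ i ∈ I, w i ≠ [])
    {μ ν : (ℕ → Fin (k + 1)) → (Fin (k + 1) → List (Fin (k + 1))) →
      Fin (k + 1) × (Fin (k + 1) → List (Fin (k + 1)))}
    (hμ : IsMerge (I.filter fun i => (w i).headD false = false) (fun i => (w i).tail) μ)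
    (hν : IsMerge (I.filter fun i => (w i).headD false = true) (fun i => (w i).tail) ν) :
    ∃ μ, IsMerge (k := k) I w μ := by
  obtain ⟨a1, a2, a3, a4, a5⟩ := hμ
  obtain ⟨b1, b2, b3, b4, b5⟩ := hν
  have hw : ∀ i ∈ I, w i = (w i).headD false :: (w i).tail := by
    intro i hi
    have := hne i hi
    cases h : w i with
    | nil => exact (this h).elim
    | cons a l => rfl
  refine ⟨fun f s => ((μ f s).1, Function.update (ν f (μ f s).2).2 (μ f s).1
    ((ν f (μ f s).2).1 :: (ν f (μ f s).2).2 (μ f s).1)), ?_, ?_, ?_, ?_, ?_⟩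
  · intro f s
    have h1 := a1 f s
    have h2 := b1 f (μ f s).2
    have h3 := Finset.card_filter_add_card_filter_not (s := I) fun i => (w i).headD false = false
    simp only [Bool.not_eq_false] at h3
    simp only [sum_push]
    omega
  · intro f s f' s' h
    simp only [Prod.mk.injEq] at h
    obtain ⟨e1, e2⟩ := h
    rw [← e1] at e2
    have e3 := congrFun e2 (μ f s).1
    simp only [Function.update_self, List.cons.injEq] at e3
    have e4 : ν f (μ f s).2 = ν f' (μ f' s').2 := by
      refine Prod.ext e3.1 (funext fun c => ?_)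
      by_cases hc : c = (μ f s).1
      · rw [hc]; exact e3.2
      · have := congrFun e2 c
        rwa [Function.update_of_ne hc, Function.update_of_ne hc] at this
    obtain ⟨e5, e6⟩ := b2 _ _ _ _ e4
    obtain ⟨e7, e8⟩ := a2 _ _ _ _ (Prod.ext e1 e6)
    refine ⟨fun i hi => ?_, e8⟩
    cases hb : (w i).headD false
    · exact e7 i (Finset.mem_filter.2 ⟨hi, hb⟩)
    · exact e5 i (Finset.mem_filter.2 ⟨hi, hb⟩)
  · intro f s
    obtain ⟨i, hi, h⟩ := a3 f s
    exact ⟨i, (Finset.mem_filter.1 hi).1, h⟩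
  · intro f s c hc
    obtain ⟨i, hi, h⟩ := a3 f s
    have : c ≠ (μ f s).1 := by rw [h]; exact (hc i (Finset.mem_filter.1 hi).1).symm
    simp only [Function.update_of_ne this]
    rw [b4 _ _ c fun j hj => hc j (Finset.mem_filter.1 hj).1,
      a4 _ _ c fun j hj => hc j (Finset.mem_filter.1 hj).1]
  · intro f s hf t ht i hi
    have hsep : ∀ i ∈ I.filter fun i => (w i).headD false = false,
        ∀ j ∈ I.filter fun i => (w i).headD false = true, f j ≠ f i := by
      intro i hi j hj e
      rw [Finset.mem_filter] at hi hj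
      have := hf hj.1 hi.1 e
      subst this
      rw [hi.2] at hj
      exact Bool.false_ne_true hj.2
    obtain ⟨ia, hia, ea⟩ := a3 f s
    obtain ⟨ib, hib, eb⟩ := b3 f (μ f s).2
    have hsub : ∀ b : Bool, Set.InjOn f (I.filter fun i => (w i).headD false = b) := fun b =>
      hf.mono (Finset.coe_subset.2 (Finset.filter_subset _ _))
    simp only [Function.update_self] at ht ⊢
    rw [hw i hi, List.foldl_cons]
    cases hb : (w i).headD false
    · have e : (ν f (μ f s).2).2 (μ f s).1 = (μ f s).2 (μ f s).1 :=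
        b4 _ _ _ fun j hj => by rw [ea]; exact hsep ia hia j hj
      simp only [stp, Bool.false_eq_true, if_false, List.tail_cons, e]
      refine a5 f s (hsub false) t (fun j hj hj' => ?_) i (Finset.mem_filter.2 ⟨hi, hb⟩)
      rw [ht j (Finset.mem_filter.1 hj).1 hj', Function.update_of_ne hj']
      exact b4 _ _ _ fun l hl => hsep j hj l hl
    · have hj : ∀ j ∈ I.filter fun i => (w i).headD false = true,
          t (f j) = (ν f (μ f s).2).2 (f j) := by
        intro j hj
        have : f j ≠ (μ f s).1 := by rw [ea]; exact hsep ia hia j hj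
        rw [ht j (Finset.mem_filter.1 hj).1 this, Function.update_of_ne this]
      have e : t (ν f (μ f s).2).1 = (ν f (μ f s).2).2 (ν f (μ f s).2).1 := by
        rw [eb]; exact hj ib hib
      have hi' : i ∈ I.filter fun i => (w i).headD false = true := Finset.mem_filter.2 ⟨hi, hb⟩
      simp only [stp, if_true, List.headD_cons, e]
      rw [b5 f _ (hsub true) t (fun j hj' _ => hj j hj') i hi',
        a4 _ _ _ fun l hl => (hsep l hl i hi').symm]

lemma exists_merge (D : ℕ) : ∀ (I : Finset ℕ) (w : ℕ → List Bool), (∀ i ∈ I, (w i).length ≤ D) →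
    (∀ x, ∃ i ∈ I, Pre (w i) x) → (∀ x, ∀ i ∈ I, ∀ j ∈ I, Pre (w i) x → Pre (w j) x → i = j) →
    ∃ μ, IsMerge (k := k) I w μ := by
  induction D with
  | zero =>
    intro I w hD hc hu
    obtain ⟨i, hi, -⟩ := hc (Stream'.const false)
    exact merge_leaf hu hi (List.length_eq_zero_iff.1 (Nat.le_zero.1 (hD i hi)))
  | succ D ih =>
    intro I w hD hc hu
    by_cases h : ∃ a ∈ I, w a = []
    · obtain ⟨a, ha, h0⟩ := h
      exact merge_leaf hu ha h0
    push Not at h
    have hw : ∀ i ∈ I, w i = (w i).headD false :: (w i).tail := by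
      intro i hi
      have := h i hi
      cases h : w i with
      | nil => exact (this h).elim
      | cons a l => rfl
    have key : ∀ b : Bool, ∃ μ, IsMerge (k := k) (I.filter fun i => (w i).headD false = b)
        (fun i => (w i).tail) μ := by
      intro b
      refine ih _ _ (fun i hi => ?_) (fun x => ?_) (fun x i hi j hj h1 h2 => ?_)
      · have := hD i (Finset.mem_filter.1 hi).1
        simp only [List.length_tail]
        omega
      · obtain ⟨i, hi, hx⟩ := hc (Stream'.cons b x)
        rw [hw i hi, pre_cons] at hx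
        exact ⟨i, Finset.mem_filter.2 ⟨hi, hx.1⟩, hx.2⟩
      · rw [Finset.mem_filter] at hi hj
        refine hu (Stream'.cons b x) i hi.1 j hj.1 ?_ ?_
        · rw [hw i hi.1, pre_cons]; exact ⟨hi.2, h1⟩
        · rw [hw j hj.1, pre_cons]; exact ⟨hj.2, h2⟩
    obtain ⟨μ, hμ⟩ := key false
    obtain ⟨ν, hν⟩ := key true
    exact merge_node h hμ hν

/-- The colour and the remaining stack seen at the vertex `u` of the binary tree. -/
def loc (ω : St k) (u : List Bool) : Fin (k + 1) × List (Fin (k + 1)) :=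
  u.foldl (stp ω.2) (at' ω 0, ω.2 (at' ω 0))

lemma Good.injOn {m : ℕ} {ω : St k} (h : Good m ω) : Set.InjOn (at' ω) (Finset.range m) := by
  intro i hi j hj e
  simp only [Finset.coe_range, Set.mem_Iio] at hi hj
  rcases lt_trichotomy i j with h1 | h1 | h1
  · exact (h.2 i j h1 hj e).elim
  · exact h1
  · exact (h.2 j i h1 hi e.symm).elim

lemma ext_at {m : ℕ} {ω ω' : St k} (h : m ≤ ω.1.length) (h' : m ≤ ω'.1.length)
    (e1 : ∀ i < m, at' ω i = at' ω' i) (e2 : ω.1.drop m = ω'.1.drop m) : ω.1 = ω'.1 := by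
  rw [← List.take_append_drop m ω.1, ← List.take_append_drop m ω'.1, e2]
  congr 1
  apply List.ext_getElem?
  intro t
  by_cases ht : t < m
  · have := e1 t ht
    simp only [at', List.getElem?_eq_getElem (show t < ω.1.length by omega),
      List.getElem?_eq_getElem (show t < ω'.1.length by omega), Option.getD_some] at this
    rw [List.getElem?_take_of_lt ht, List.getElem?_take_of_lt ht,
      List.getElem?_eq_getElem (show t < ω.1.length by omega),
      List.getElem?_eq_getElem (show t < ω'.1.length by omega), this]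
  · rw [List.getElem?_eq_none (by simp; omega), List.getElem?_eq_none (by simp; omega)]

/-- The permutation attached to a complete code. -/
theorem exists_code_perm (N m D : ℕ) (w : ℕ → List Bool) (hD : ∀ i < m, (w i).length ≤ D)
    (hc : ∀ x, ∃ i < m, Pre (w i) x)
    (hu : ∀ x, ∀ i < m, ∀ j < m, Pre (w i) x → Pre (w j) x → i = j) :
    ∃ Z : Equiv.Perm (Om k N), ∀ ω : Om k N, Good m ω.1 →
      (∀ i < m, loc (Z ω).1 (w i) = (at' ω.1 i, ω.1.2 (at' ω.1 i))) ∧
      (∀ c, (∀ i < m, at' ω.1 i ≠ c) → (Z ω).1.2 c = ω.1.2 c) ∧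
      (Z ω).1.1.tail = ω.1.1.drop m := by
  obtain ⟨μ, a1, a2, -, a4, a5⟩ := exists_merge (k := k) D (Finset.range m) w (by simpa using hD)
    (by simpa using hc) (by simpa using hu)
  obtain ⟨Z, hZ⟩ := Equiv.Perm.exists_extending_pair
    (f := fun ω : {ω : Om k N // m ≤ ω.1.1.length} => ω.1)
    (g := fun ω : {ω : Om k N // m ≤ ω.1.1.length} =>
      (⟨((μ (at' ω.1.1) ω.1.1.2).1 :: ω.1.1.1.drop m, (μ (at' ω.1.1) ω.1.1.2).2), by
        have h1 := a1 (at' ω.1.1) ω.1.1.2
        have h2 := ω.1.2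
        have h3 := ω.2
        simp only [tot, List.length_cons, List.length_drop, Finset.card_range] at h1 h2 ⊢
        omega⟩ : Om k N))
    Subtype.val_injective (by
      intro ω ω' e
      simp only [Subtype.mk.injEq, Prod.mk.injEq, List.cons.injEq] at e
      obtain ⟨e1, e2⟩ := a2 _ _ _ _ (Prod.ext e.1.1 e.2)
      exact Subtype.ext (Subtype.ext (Prod.ext
        (ext_at ω.2 ω'.2 (fun i hi => e1 i (Finset.mem_range.2 hi)) e.1.2) e2)))
  refine ⟨Z, fun ω h => ?_⟩
  have := congrArg Subtype.val (hZ ⟨ω, h.1⟩)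
  simp only at this
  rw [this]
  refine ⟨fun i hi => ?_, fun c hc => a4 _ _ c (by simpa using hc), rfl⟩
  exact a5 _ _ h.injOn _ (fun _ _ _ => rfl) i (Finset.mem_range.2 hi)

end Pool.Agent.Lib.MP_3e9be7_al.Stk
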