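import Pool.Agent.Lib.MP_3e9be7_al.H96Tower

/-!
From the tower argument to metric approximations by finite `p`-groups.
-/

namespace Pool.Agent.Lib.MP_3e9be7_al

open Pointwise

universe u

section wordlength

variable {K : Type} [Group K]

lemma ex_len (D : Set K) (k : ℕ) (x : K) : ∃ j, k ≤ j ∨ x ∈ D ^ j := ⟨k, Or.inl le_rfl⟩

open Classical in
/-- The word length with respect to `D`, truncated at `k`. -/
noncomputable def len (D : Set K) (k : ℕ) (x : K) : ℕ := Nat.find (ex_len D k x)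

lemma len_spec (D : Set K) (k : ℕ) (x : K) : k ≤ len D k x ∨ x ∈ D ^ len D k x := by
  classical
  exact Nat.find_spec (ex_len D k x)

lemma len_le {D : Set K} {k j : ℕ} {x : K} (h : k ≤ j ∨ x ∈ D ^ j) : len D k x ≤ j := by
  classical
  exact Nat.find_min' (ex_len D k x) h

lemma len_le_k (D : Set K) (k : ℕ) (x : K) : len D k x ≤ k := len_le (Or.inl le_rfl)

lemma len_eq_zero {D : Set K} {k : ℕ} (hk : 0 < k) {x : K} : len D k x = 0 ↔ x = 1 := by
  constructor
  · intro h
    rcases len_spec D k x with h' | h'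
    · omega
    · rw [h] at h'
      simpa using h'
  · rintro rfl
    exact Nat.le_zero.1 (len_le (Or.inr (by simp)))

lemma len_mul (D : Set K) (k : ℕ) (x y : K) : len D k (x * y) ≤ len D k x + len D k y := by
  apply len_le
  rcases len_spec D k x with hx | hx
  · left; omega
  rcases len_spec D k y with hy | hy
  · left; omega
  right
  rw [pow_add]
  exact Set.mul_mem_mul hx hy

lemma len_inv_le {D : Set K} (hD : D⁻¹ = D) (k : ℕ) (x : K) : len D k x⁻¹ ≤ len D k x := by
  apply len_le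
  rcases len_spec D k x with hx | hx
  · exact Or.inl hx
  · right
    rw [← Set.mem_inv, ← inv_pow, hD]
    exact hx

lemma len_inv {D : Set K} (hD : D⁻¹ = D) (k : ℕ) (x : K) : len D k x⁻¹ = len D k x := by
  apply le_antisymm (len_inv_le hD k x)
  simpa using len_inv_le hD k x⁻¹

lemma conj_mem_pow {D : Set K} (hD : ∀ x ∈ D, ∀ y, y * x * y⁻¹ ∈ D) (y : K) (j : ℕ) :
    ∀ x ∈ D ^ j, y * x * y⁻¹ ∈ D ^ j := by
  induction j with
  | zero => intro x hx; simp at hx; simp [hx]
  | succ j ih =>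
    intro x hx
    rw [pow_succ] at hx ⊢
    obtain ⟨a, ha, b, hb, rfl⟩ := hx
    refine ⟨_, ih a ha, _, hD b hb y, ?_⟩
    group

lemma len_conj_le {D : Set K} (hD : ∀ x ∈ D, ∀ y, y * x * y⁻¹ ∈ D) (k : ℕ) (x y : K) :
    len D k (y * x * y⁻¹) ≤ len D k x := by
  apply len_le
  rcases len_spec D k x with hx | hx
  · exact Or.inl hx
  · exact Or.inr (conj_mem_pow hD y _ x hx)

lemma len_conj {D : Set K} (hD : ∀ x ∈ D, ∀ y, y * x * y⁻¹ ∈ D) (k : ℕ) (x y : K) :
    len D k (y * x * y⁻¹) = len D k x := by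
  apply le_antisymm (len_conj_le hD k x y)
  have := len_conj_le hD k (y * x * y⁻¹) y⁻¹
  have e : y⁻¹ * (y * x * y⁻¹) * y⁻¹⁻¹ = x := by group
  rwa [e] at this

/-- The normalised truncated word metric. -/
@[reducible] noncomputable def lenMetric {D : Set K} (hD : D⁻¹ = D) {k : ℕ} (hk : 0 < k) :
    MetricSpace K where
  dist a b := (len D k (a * b⁻¹) : ℝ) / k
  dist_self a := by simp [(len_eq_zero hk).2 rfl]
  dist_comm a b := by
    rw [← len_inv hD k (a * b⁻¹)]
    simp
  dist_triangle a b c := by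
    rw [← add_div]
    apply div_le_div_of_nonneg_right _ (Nat.cast_nonneg k)
    have := len_mul D k (a * b⁻¹) (b * c⁻¹)
    have e : a * b⁻¹ * (b * c⁻¹) = a * c⁻¹ := by group
    rw [e] at this
    exact_mod_cast this
  eq_of_dist_eq_zero := by
    intro a b h
    have hk' : (k : ℝ) ≠ 0 := by exact_mod_cast hk.ne'
    rw [div_eq_zero_iff] at h
    rcases h with h | h
    · have : len D k (a * b⁻¹) = 0 := by exact_mod_cast h
      exact mul_inv_eq_one.1 ((len_eq_zero hk).1 this)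
    · exact absurd h hk'

end wordlength

/-- The one-vertex configuration given by a nontrivial element and `k` pairs of elements. -/
def cfg0 {G : Type u} [Group G] {k : ℕ} (g : G) (hg : g ≠ 1) (a b : Fin k → G) : Cfg G k where
  V := PUnit
  E := G
  src _ := PUnit.unit
  tgt _ := PUnit.unit
  lab x := x
  ed i := match i with
    | none => g
    | some (i, j) => if j = 0 then a i else if j = 1 then b i else a i * b i
  loop := rfl
  ne := hg
  h1 _ := rfl
  h2 _ := rfl
  h3 _ := rfl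
  hl i := by simp

theorem approx {p : ℕ} [Fact p.Prime] {G : Type u} [Group G] (hG : LocInd p G) (S : Finset G)
    (ε : ℝ) (hε : 0 < ε) :
    ∃ (K : Type) (_ : Group K) (_ : Finite K) (_ : MetricSpace K), IsPGroup p K ∧
      (∀ x a b : K, dist (x * a) (x * b) = dist a b ∧ dist (a * x) (b * x) = dist a b) ∧
      (∀ a b : K, dist a b ≤ 1) ∧
      ∃ φ : G → K, (∀ g ∈ S, ∀ h ∈ S, dist (φ (g * h)) (φ g * φ h) < ε) ∧
        ∀ g ∈ S, g ≠ 1 → dist (φ g) 1 = 1 := by
  classical
  obtain ⟨n, hn⟩ := exists_nat_one_div_lt hε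
  set k := n + 1 with hkdef
  have hk : 0 < k := Nat.succ_pos n
  have hkR : (0 : ℝ) < k := by exact_mod_cast hk
  obtain ⟨N, ⟨eqv⟩⟩ := Finite.exists_equiv_fin
    ({g : S // (g : G) ≠ 1} × (Fin k → S × S × Fin 3))
  let X : Fin N → Cfg G k := fun π => cfg0 ((eqv.symm π).1.1 : G) (eqv.symm π).1.2
    (fun i => ((eqv.symm π).2 i).1) (fun i => ((eqv.symm π).2 i).2.1)
  let e : Fin N → Fin k → ℤ := fun π i => ((((eqv.symm π).2 i).2.2 : ℕ) : ℤ) - 1
  have hX := fun π => not_law hG (e π) (X π)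
  simp only [Law, not_forall] at hX
  choose Q iG iF hQ l hl using hX
  let φ : G → (∀ π, Q π) := fun g π => l π g
  let D : Set (∀ π, Q π) := {x | x = 1 ∨ ∃ a ∈ S, ∃ b ∈ S, ∃ j : Fin 3, ∃ y,
    x = y * (φ a * φ b * (φ (a * b))⁻¹) ^ (((j : ℕ) : ℤ) - 1) * y⁻¹}
  have hDi : ∀ x ∈ D, x⁻¹ ∈ D := by
    rintro x (rfl | ⟨a, ha, b, hb, j, y, rfl⟩)
    · left; simp
    · right
      refine ⟨a, ha, b, hb, Fin.rev j, y, ?_⟩
      have : (((Fin.rev j : Fin 3) : ℕ) : ℤ) - 1 = -((((j : ℕ) : ℤ) - 1)) := by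
        fin_cases j <;> simp
      rw [this, zpow_neg]
      group
  have hD : D⁻¹ = D := by
    ext x
    rw [Set.mem_inv]
    exact ⟨fun h => by simpa using hDi _ h, hDi x⟩
  have hDc : ∀ x ∈ D, ∀ y, y * x * y⁻¹ ∈ D := by
    rintro x (rfl | ⟨a, ha, b, hb, j, z, rfl⟩) y
    · left; simp
    · right
      exact ⟨a, ha, b, hb, j, y * z, by group⟩
  refine ⟨∀ π, Q π, inferInstance, inferInstance, lenMetric hD hk, isPGroup_pi hQ, ?_, ?_, φ,
    ?_, ?_⟩
  · intro x a b
    constructor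
    · change (len D k (x * a * (x * b)⁻¹) : ℝ) / k = (len D k (a * b⁻¹) : ℝ) / k
      rw [← len_conj hDc k (a * b⁻¹) x]
      congr 3
      group
    · change (len D k (a * x * (b * x)⁻¹) : ℝ) / k = (len D k (a * b⁻¹) : ℝ) / k
      congr 3
      group
  · intro a b
    change (len D k (a * b⁻¹) : ℝ) / k ≤ 1
    rw [div_le_one hkR]
    exact_mod_cast len_le_k D k _
  · intro g hg h hh
    change (len D k (φ (g * h) * (φ g * φ h)⁻¹) : ℝ) / k < ε
    have h1 : len D k (φ (g * h) * (φ g * φ h)⁻¹) ≤ 1 := by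
      apply len_le
      right
      rw [pow_one]
      right
      exact ⟨g, hg, h, hh, 0, 1, by simp⟩
    refine lt_of_le_of_lt ?_ hn
    have : (len D k (φ (g * h) * (φ g * φ h)⁻¹) : ℝ) ≤ 1 := by exact_mod_cast h1
    have e : ((n : ℝ) + 1) = k := by simp [hkdef]
    rw [e]
    exact div_le_div_of_nonneg_right this hkR.le
  · intro g hg hg1
    change (len D k (φ g * 1⁻¹) : ℝ) / k = 1
    rw [inv_one, mul_one, div_eq_one_iff_eq hkR.ne']
    norm_cast
    apply le_antisymm (len_le_k D k _)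
    rcases len_spec D k (φ g) with h | h
    · exact h
    exfalso
    have h1 : (1 : ∀ π, Q π) ∈ D := Or.inl rfl
    have hk' : φ g ∈ D ^ k := Set.pow_subset_pow_right h1 (len_le_k D k _) h
    rw [Set.mem_pow] at hk'
    obtain ⟨f, hf⟩ := hk'
    have hf2 : ∀ i, ∃ a ∈ S, ∃ b ∈ S, ∃ j : Fin 3, ∃ y,
        (f i : ∀ π, Q π) = y * (φ a * φ b * (φ (a * b))⁻¹) ^ (((j : ℕ) : ℤ) - 1) * y⁻¹ := by
      intro i
      rcases (f i).2 with h | h
      · exact ⟨g, hg, g, hg, 1, 1, by simp [h]⟩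
      · exact h
    choose a ha b hb j y hy using hf2
    let π : Fin N := eqv (⟨⟨g, hg⟩, hg1⟩, fun i => (⟨a i, ha i⟩, ⟨b i, hb i⟩, j i))
    apply hl π
    refine ⟨fun i => y i π, ?_⟩
    have h3 := congrArg (Pi.evalMonoidHom Q π) hf
    rw [map_list_prod, List.map_ofFn] at h3
    have e0 : (X π).ed none = g := by simp [X, cfg0, π]
    have e1 : ∀ i, (X π).ed (some (i, 0)) = a i := by intro i; simp [X, cfg0, π]
    have e2 : ∀ i, (X π).ed (some (i, 1)) = b i := by intro i; simp [X, cfg0, π]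
    have e3 : ∀ i, (X π).ed (some (i, 2)) = a i * b i := by intro i; simp [X, cfg0, π]
    have e4 : ∀ i, e π i = ((j i : ℕ) : ℤ) - 1 := by intro i; simp [e, π]
    change l π ((X π).ed none) = _
    rw [e0]
    refine h3.symm.trans ?_
    congr 2
    funext i
    simp only [Function.comp, hy, dft, e1, e2, e3, e4, map_mul, map_inv, map_zpow,
      Pi.evalMonoidHom_apply, φ]

end Pool.Agent.Lib.MP_3e9be7_al
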